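import Mathlib

/-!
Maximal non-crossing families of arcs over `0, ..., N - 1`.
-/

namespace Pool.Agent.Work.MP_09dd0a_co

open Finset

/-- no two arcs of the family interleave -/
def NonCross (U : Finset (ℕ × ℕ)) : Prop :=
  ∀ a b c d, (a, c) ∈ U → (b, d) ∈ U → a < b → b < c → ¬ c < d

/-- all arcs are pairs `a < b < N` -/
def ArcsIn (N : ℕ) (U : Finset (ℕ × ℕ)) : Prop := ∀ a b, (a, b) ∈ U → a < b ∧ b < N

/-- a maximal non-crossing family -/
structure MaxNC (N : ℕ) (U : Finset (ℕ × ℕ)) : Prop where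
  arcs : ArcsIn N U
  nc : NonCross U
  mx : ∀ a b, a < b → b < N →
    (∀ c d, (c, d) ∈ U → ¬ (a < c ∧ c < b ∧ b < d) ∧ ¬ (c < a ∧ a < d ∧ d < b)) → (a, b) ∈ U

theorem exists_max {N : ℕ} {U : Finset (ℕ × ℕ)} (h1 : ArcsIn N U) (h2 : NonCross U) :
    ∃ V : Finset (ℕ × ℕ), U ⊆ V ∧ MaxNC N V := by
  classical
  -- all admissible families
  set S : Finset (Finset (ℕ × ℕ)) :=
    ((range N ×ˢ range N).powerset).filter (fun V => ArcsIn N V ∧ NonCross V) with hS
  have hU : U ∈ S := by
    rw [hS, mem_filter, mem_powerset]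
    refine ⟨?_, h1, h2⟩
    intro x hx
    obtain ⟨a, b⟩ := x
    have := h1 a b hx
    rw [mem_product, mem_range, mem_range]
    exact ⟨by omega, by omega⟩
  obtain ⟨V, hUV, hV⟩ := S.exists_le_maximal hU
  have hVS : V ∈ S := hV.1
  rw [hS, mem_filter, mem_powerset] at hVS
  refine ⟨V, hUV, hVS.2.1, hVS.2.2, ?_⟩
  intro a b hab hb hcr
  by_contra hn
  have hins : insert (a, b) V ∈ S := by
    rw [hS, mem_filter, mem_powerset]
    refine ⟨?_, ?_, ?_⟩
    · intro x hx
      rw [mem_insert] at hx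
      rcases hx with rfl | hx
      · rw [mem_product, mem_range, mem_range]
        exact ⟨by omega, by omega⟩
      · exact hVS.1 hx
    · intro c d hcd
      rw [mem_insert] at hcd
      rcases hcd with h | h
      · rw [Prod.mk.injEq] at h
        omega
      · exact hVS.2.1 c d h
    · intro x y z t h1 h2 h3 h4 h5
      rw [mem_insert, Prod.mk.injEq] at h1 h2
      rcases h1 with ⟨rfl, rfl⟩ | h1
      · rcases h2 with ⟨rfl, rfl⟩ | h2
        · omega
        · exact (hcr _ _ h2).1 ⟨h3, h4, h5⟩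
      · rcases h2 with ⟨rfl, rfl⟩ | h2
        · exact (hcr _ _ h1).2 ⟨h3, h4, h5⟩
        · exact hVS.2.2 _ _ _ _ h1 h2 h3 h4 h5
  have := hV.2 hins (subset_insert _ _)
  exact hn (this (mem_insert_self _ _))

namespace MaxNC

variable {N : ℕ} {U : Finset (ℕ × ℕ)} (h : MaxNC N U)

include h

lemma spine {i : ℕ} (hi : i + 1 < N) : (i, i + 1) ∈ U := by
  apply h.mx _ _ (by omega) hi
  intro c d _
  constructor
  · omega
  · omega

lemma outer (hN : 2 ≤ N) : (0, N - 1) ∈ U := by
  apply h.mx _ _ (by omega) (by omega)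
  intro c d hcd
  have := h.arcs c d hcd
  constructor
  · omega
  · omega

lemma exists_apex {a b : ℕ} (hab : (a, b) ∈ U) (h2 : a + 2 ≤ b) :
    ∃ m, a < m ∧ m < b ∧ (a, m) ∈ U ∧ (m, b) ∈ U := by
  classical
  have hbN := (h.arcs a b hab).2
  set T := (Finset.range b).filter (fun x => a < x ∧ (a, x) ∈ U) with hT
  have hne : T.Nonempty := by
    refine ⟨a + 1, ?_⟩
    rw [hT, mem_filter, mem_range]
    exact ⟨by omega, by omega, h.spine (by omega)⟩
  have hm := T.max'_mem hne
  set m := T.max' hne with hmdef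
  rw [hT, mem_filter, mem_range] at hm
  refine ⟨m, hm.2.1, hm.1, hm.2.2, ?_⟩
  apply h.mx _ _ hm.1 hbN
  intro c d hcd
  have hcd' := h.arcs c d hcd
  constructor
  · rintro ⟨h3, h4, h5⟩
    exact h.nc a c b d hab hcd (by omega) h4 h5
  · rintro ⟨h3, h4, h5⟩
    by_cases h6 : c < a
    · exact h.nc c a d b hcd hab h6 (by omega) h5
    · by_cases h7 : c = a
      · subst h7
        have : d ∈ T := by
          rw [hT, mem_filter, mem_range]
          exact ⟨h5, by omega, hcd⟩
        have := T.le_max' d this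
        omega
      · exact h.nc a c m d hm.2.2 hcd (by omega) h3 h4

lemma apex_unique {a b m m' : ℕ} (h1 : a < m) (h4 : m' < b)
    (hm2 : (m, b) ∈ U) (hm'1 : (a, m') ∈ U) : ¬ m < m' := by
  intro hlt
  exact h.nc a m m' b hm'1 hm2 h1 hlt h4

lemma exists_cover {m : ℕ} (h0 : 0 < m) (h1 : m + 1 < N) :
    ∃ a b, a < m ∧ m < b ∧ (a, b) ∈ U ∧ (a, m) ∈ U ∧ (m, b) ∈ U := by
  classical
  -- innermost covering arc, by strong induction on the length
  have key : ∀ n a b : ℕ, b - a ≤ n → a < m → m < b → (a, b) ∈ U →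
      ∃ a b, a < m ∧ m < b ∧ (a, b) ∈ U ∧ (a, m) ∈ U ∧ (m, b) ∈ U := by
    intro n
    induction n with
    | zero => intro a b h3 h4 h5; omega
    | succ n ih =>
      intro a b h3 h4 h5 h6
      obtain ⟨m', h7, h8, h9, h10⟩ := h.exists_apex h6 (by omega)
      rcases lt_trichotomy m' m with h11 | h11 | h11
      · exact ih m' b (by omega) h11 h5 h10
      · subst h11
        exact ⟨a, b, h7, h8, h6, h9, h10⟩
      · exact ih a m' (by omega) h4 h11 h9
  exact key (N - 1) 0 (N - 1) (by omega) h0 (by omega) (h.outer (by omega))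

lemma cover_unique {m a b a' b' : ℕ} (h1 : a < m) (h2 : m < b) (h3 : (a, b) ∈ U)
    (h4 : (a, m) ∈ U) (h5 : (m, b) ∈ U) (h1' : a' < m) (h2' : m < b') (h3' : (a', b') ∈ U)
    (h4' : (a', m) ∈ U) (h5' : (m, b') ∈ U) : a = a' ∧ b = b' := by
  have ha : a = a' := by
    rcases lt_trichotomy a a' with hlt | heq | hlt
    · exact absurd h2' (h.nc a a' m b' h4 h3' hlt h1')
    · exact heq
    · exact absurd h2 (h.nc a' a m b h4' h3 hlt h1)
  have hb : b = b' := by
    rcases lt_trichotomy b b' with hlt | heq | hlt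
    · exact absurd hlt (h.nc a m b b' h3 h5' h1 h2)
    · exact heq
    · exact absurd hlt (h.nc a' m b' b h3' h5 h1' h2')
  exact ⟨ha, hb⟩

/-- every arc other than the outer one is a side of a triangle lying above it -/
lemma exists_above {a b : ℕ} (hab : (a, b) ∈ U) (hne : ¬ (a = 0 ∧ b = N - 1)) :
    (∃ d, b < d ∧ (a, d) ∈ U ∧ (b, d) ∈ U) ∨ (∃ c, c < a ∧ (c, b) ∈ U ∧ (c, a) ∈ U) := by
  have habN := h.arcs a b hab
  have key : ∀ n c d : ℕ, d - c ≤ n → c ≤ a → b ≤ d → (c, d) ∈ U → ¬ (c = a ∧ d = b) →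
      (∃ d, b < d ∧ (a, d) ∈ U ∧ (b, d) ∈ U) ∨ (∃ c, c < a ∧ (c, b) ∈ U ∧ (c, a) ∈ U) := by
    intro n
    induction n with
    | zero => intro c d h3 h4 h5; omega
    | succ n ih =>
      intro c d h3 h4 h5 h6 h7
      obtain ⟨m, h8, h9, h10, h11⟩ := h.exists_apex h6 (by omega)
      by_cases hm1 : m ≤ a
      · by_cases h12 : m = a ∧ d = b
        · right
          obtain ⟨rfl, rfl⟩ := h12
          exact ⟨c, h8, h6, h10⟩
        · exact ih m d (by omega) hm1 h5 h11 h12
      · by_cases hm2 : b ≤ m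
        · by_cases h12 : c = a ∧ m = b
          · left
            obtain ⟨rfl, rfl⟩ := h12
            exact ⟨d, h9, h6, h11⟩
          · exact ih c m (by omega) h4 hm2 h10 h12
        · exfalso
          have hca : c = a := by
            by_contra hca
            exact h.nc c a m b h10 hab (by omega) (by omega) (by omega)
          have hdb : d = b := by
            by_contra hdb
            exact h.nc a m b d hab h11 (by omega) (by omega) (by omega)
          exact h7 ⟨hca, hdb⟩
  exact key (N - 1) 0 (N - 1) (by omega) (by omega) (by omega) (h.outer (by omega)) (by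
    intro hx
    apply hne
    exact ⟨hx.1.symm, hx.2.symm⟩)

lemma card_le (hN : 2 ≤ N) : U.card ≤ 2 * N - 3 := by
  classical
  have h1 : U = U.filter (fun e => e.2 = e.1 + 1) ∪ U.filter (fun e => ¬ e.2 = e.1 + 1) := by
    rw [filter_union_filter_not_eq]
  rw [h1]
  refine le_trans (card_union_le _ _) ?_
  have h2 : (U.filter (fun e => e.2 = e.1 + 1)).card ≤ N - 1 := by
    rw [← card_range (N - 1)]
    apply card_le_card_of_injOn (fun e => e.1)
    · intro e he
      obtain ⟨a, b⟩ := e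
      have he' : (a, b) ∈ U ∧ b = a + 1 := by simpa using he
      have := h.arcs a b he'.1
      simp
      omega
    · intro e he e' he' heq
      obtain ⟨a, b⟩ := e
      obtain ⟨a', b'⟩ := e'
      have h3 : (a, b) ∈ U ∧ b = a + 1 := by simpa using he
      have h4 : (a', b') ∈ U ∧ b' = a' + 1 := by simpa using he'
      have h5 : a = a' := heq
      rw [Prod.mk.injEq]
      omega
  have h3 : (U.filter (fun e => ¬ e.2 = e.1 + 1)).card ≤ N - 2 := by
    have hap : ∀ e : ℕ × ℕ, ∃ m, e ∈ U.filter (fun e => ¬ e.2 = e.1 + 1) →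
        e.1 < m ∧ m < e.2 ∧ (e.1, m) ∈ U ∧ (m, e.2) ∈ U := by
      intro e
      by_cases he : e ∈ U.filter (fun e => ¬ e.2 = e.1 + 1)
      · obtain ⟨a, b⟩ := e
        have he' : (a, b) ∈ U ∧ ¬ b = a + 1 := by simpa using he
        have := h.arcs a b he'.1
        obtain ⟨m, hm⟩ := h.exists_apex he'.1 (by omega)
        exact ⟨m, fun _ => hm⟩
      · exact ⟨0, fun h => absurd h he⟩
    choose ap hap using hap
    have hc : (Finset.Ioo 0 (N - 1)).card = N - 2 := by
      rw [Nat.card_Ioo]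
      omega
    rw [← hc]
    apply card_le_card_of_injOn ap
    · intro e he
      have h4 := hap e he
      have h5 : e ∈ U := (mem_filter.mp he).1
      have h6 := h.arcs e.1 e.2 h5
      simp
      omega
    · intro e he e' he' heq
      have h4 := hap e he
      have h4' := hap e' he'
      have h5 : e ∈ U := (mem_filter.mp he).1
      have h5' : e' ∈ U := (mem_filter.mp he').1
      rw [← heq] at h4'
      have := h.cover_unique h4.1 h4.2.1 h5 h4.2.2.1 h4.2.2.2 h4'.1 h4'.2.1 h5' h4'.2.2.1 h4'.2.2.2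
      exact Prod.ext this.1 this.2
  omega

end MaxNC

end Pool.Agent.Work.MP_09dd0a_co
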