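import Mathlib
import Pool.Agent.Work.MP_09dd0a_co.Arcs

/-!
Spanning trees, fundamental closed walks and their parities.
-/

namespace Pool.Agent.Work.MP_09dd0a_co

open Finset

/-- the point `q` (vertex `b` is `2 * b`, the gap after `i` is `2 * i + 1`) is covered by the arc -/
def Cov (q : ℕ) (e : ℕ × ℕ) : Prop := 2 * e.1 < q ∧ q < 2 * e.2

instance (q : ℕ) (e : ℕ × ℕ) : Decidable (Cov q e) := by unfold Cov; infer_instance

lemma cov_ind {q s t : ℕ} (hst : s < t) (h1 : q ≠ 2 * s) (h2 : q ≠ 2 * t) :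
    (if q < 2 * s then (1 : ZMod 2) else 0) + (if q < 2 * t then 1 else 0)
      = if Cov q (s, t) then 1 else 0 := by
  by_cases c1 : q < 2 * s
  · rw [if_pos c1, if_pos (by omega), if_neg]
    · rfl
    · rintro ⟨h3, _⟩
      simp only at h3
      omega
  · by_cases c2 : q < 2 * t
    · rw [if_neg c1, if_pos c2, if_pos]
      · rfl
      · refine ⟨?_, c2⟩
        simp only
        omega
    · rw [if_neg c1, if_neg c2, if_neg]
      · rfl
      · rintro ⟨_, h3⟩
        exact c2 h3

/-- a spanning tree rooted at `0` with labelled arcs -/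
structure STree (N : ℕ) (U : Bool → Finset (ℕ × ℕ)) where
  par : ℕ → ℕ
  lev : ℕ → ℕ
  te : ℕ → Bool × (ℕ × ℕ)
  lev0 : lev 0 = 0
  hpar : ∀ x, 0 < x → x < N → par x < N ∧ lev x = lev (par x) + 1
  hte : ∀ x, 0 < x → x < N → (te x).2 ∈ U (te x).1 ∧ ((te x).2 = (x, par x) ∨ (te x).2 = (par x, x))

namespace STree

variable {N : ℕ} {U : Bool → Finset (ℕ × ℕ)} (T : STree N U)

/-- ancestors -/
def anc (x : ℕ) : Finset ℕ := (range (T.lev x + 1)).image (fun i => T.par^[i] x)

/-- number of arcs of page `p` on the tree path from `x` to the root that cover `q` -/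
def cnt (p : Bool) (x q : ℕ) : ZMod 2 :=
  ∑ i ∈ range (T.lev x), if (T.te (T.par^[i] x)).1 = p ∧ Cov q (T.te (T.par^[i] x)).2 then 1 else 0

lemma anc_zero : T.anc 0 = {0} := by
  unfold anc
  rw [T.lev0]
  simp

lemma cnt_zero (p : Bool) (q : ℕ) : T.cnt p 0 q = 0 := by
  unfold cnt
  rw [T.lev0]
  simp

lemma anc_succ {x : ℕ} (h0 : 0 < x) (h1 : x < N) : T.anc x = insert x (T.anc (T.par x)) := by
  unfold anc
  rw [(T.hpar x h0 h1).2]
  ext v
  simp only [mem_image, mem_range, mem_insert]
  constructor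
  · rintro ⟨i, hi, rfl⟩
    rcases i with _ | i
    · left
      rfl
    · right
      exact ⟨i, by omega, by rw [Function.iterate_succ_apply]⟩
  · rintro (rfl | ⟨i, hi, rfl⟩)
    · exact ⟨0, by omega, rfl⟩
    · exact ⟨i + 1, by omega, by rw [Function.iterate_succ_apply]⟩

lemma cnt_succ (p : Bool) {x : ℕ} (q : ℕ) (h0 : 0 < x) (h1 : x < N) :
    T.cnt p x q = (if (T.te x).1 = p ∧ Cov q (T.te x).2 then 1 else 0) + T.cnt p (T.par x) q := by
  unfold cnt
  rw [(T.hpar x h0 h1).2, sum_range_succ']
  rw [add_comm]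
  congr 1

lemma self_mem_anc (x : ℕ) : x ∈ T.anc x := by
  unfold anc
  rw [mem_image]
  exact ⟨0, by simp, rfl⟩

/-- induction along the tree -/
lemma induct {P : ℕ → Prop} (h0 : 0 < N → P 0) (h : ∀ x, 0 < x → x < N → P (T.par x) → P x) :
    ∀ x, x < N → P x := by
  have key : ∀ n x, T.lev x = n → x < N → P x := by
    intro n
    induction n with
    | zero =>
      intro x hx hN
      by_cases hx0 : x = 0
      · rw [hx0]
        exact h0 (by omega)
      · have := (T.hpar x (by omega) hN).2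
        omega
    | succ n ih =>
      intro x hx hN
      by_cases hx0 : x = 0
      · rw [hx0]
        exact h0 (by omega)
      · have h1 := T.hpar x (by omega) hN
        exact h x (by omega) hN (ih _ (by omega) h1.1)
  intro x hx
  exact key _ x rfl hx

lemma anc_lt {x : ℕ} (hx : x < N) : ∀ v ∈ T.anc x, v < N := by
  revert x
  apply T.induct (P := fun x => ∀ v ∈ T.anc x, v < N)
  · intro hN v hv
    rw [T.anc_zero, mem_singleton] at hv
    omega
  · intro x h0 h1 ih v hv
    rw [T.anc_succ h0 h1, mem_insert] at hv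
    rcases hv with rfl | hv
    · exact h1
    · exact ih v hv

/-- total parity -/
lemma cnt_total (hU : ∀ p, ArcsIn N (U p)) {q : ℕ} {x : ℕ} (hx : x < N)
    (hq : ∀ v ∈ T.anc x, q ≠ 2 * v) :
    T.cnt true x q + T.cnt false x q = if q < 2 * x then 1 else 0 := by
  revert hq
  revert x
  apply T.induct (P := fun x => (∀ v ∈ T.anc x, q ≠ 2 * v) →
    T.cnt true x q + T.cnt false x q = if q < 2 * x then 1 else 0)
  · intro _ _
    rw [T.cnt_zero, T.cnt_zero]
    simp
  · intro x h0 h1 ih hq
    rw [T.anc_succ h0 h1] at hq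
    have hqx : q ≠ 2 * x := hq x (mem_insert_self _ _)
    have hqp : q ≠ 2 * T.par x := hq _ (mem_insert_of_mem (T.self_mem_anc _))
    have ih' := ih fun v hv => hq v (mem_insert_of_mem hv)
    rw [T.cnt_succ true q h0 h1, T.cnt_succ false q h0 h1]
    have h2 := T.hte x h0 h1
    have h3 := hU (T.te x).1 _ _ h2.1
    have h4 : (if (T.te x).1 = true ∧ Cov q (T.te x).2 then (1 : ZMod 2) else 0)
        + (if (T.te x).1 = false ∧ Cov q (T.te x).2 then 1 else 0)
        = if Cov q (T.te x).2 then 1 else 0 := by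
      cases (T.te x).1 <;> simp
    have h5 : (if Cov q (T.te x).2 then (1 : ZMod 2) else 0) + (if q < 2 * T.par x then 1 else 0)
        = if q < 2 * x then 1 else 0 := by
      have h6 : T.par x ≠ x := by
        intro h
        have := (T.hpar x h0 h1).2
        rw [h] at this
        omega
      have hz1 : ∀ A B C : ZMod 2, A + B = C → C + B = A := by decide
      have hz2 : ∀ A B C : ZMod 2, A + B = C → C + A = B := by decide
      rcases h2.2 with h7 | h7
      · simp only [h7] at h3 ⊢
        exact hz1 _ _ _ (cov_ind h3.1 hqx hqp)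
      · simp only [h7] at h3 ⊢
        exact hz2 _ _ _ (cov_ind h3.1 hqp hqx)
    rw [← h5, ← h4, ← ih']
    ring

/-- parity comparison of two points -/
lemma cnt_congr (p : Bool) {q1 q2 : ℕ} {x : ℕ} (hx : x < N)
    (hq : ∀ y ∈ T.anc x, 0 < y → (T.te y).1 = p → (Cov q1 (T.te y).2 ↔ Cov q2 (T.te y).2)) :
    T.cnt p x q1 = T.cnt p x q2 := by
  revert hq
  revert x
  apply T.induct (P := fun x => (∀ y ∈ T.anc x, 0 < y → (T.te y).1 = p →
    (Cov q1 (T.te y).2 ↔ Cov q2 (T.te y).2)) → T.cnt p x q1 = T.cnt p x q2)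
  · intro _ _
    rw [T.cnt_zero, T.cnt_zero]
  · intro x h0 h1 ih hq
    rw [T.anc_succ h0 h1] at hq
    rw [T.cnt_succ p q1 h0 h1, T.cnt_succ p q2 h0 h1,
      ih fun v hv => hq v (mem_insert_of_mem hv)]
    congr 1
    by_cases hp : (T.te x).1 = p
    · have := hq x (mem_insert_self _ _) h0 hp
      simp only [hp, this]
    · simp only [hp, false_and]

/-- endpoints of tree arcs on the path are ancestors -/
lemma te_mem {x y : ℕ} (hx : x < N) (hy : y ∈ T.anc x) (hy0 : 0 < y) :
    (T.te y).2.1 ∈ T.anc x ∧ (T.te y).2.2 ∈ T.anc x ∧ y < N := by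
  revert hy
  revert x
  apply T.induct (P := fun x => y ∈ T.anc x → (T.te y).2.1 ∈ T.anc x ∧ (T.te y).2.2 ∈ T.anc x ∧ y < N)
  · intro _ hy
    rw [T.anc_zero, mem_singleton] at hy
    omega
  · intro x h0 h1 ih hy
    rw [T.anc_succ h0 h1] at hy ⊢
    rw [mem_insert] at hy
    rcases hy with rfl | hy
    · have h2 := (T.hte y h0 h1).2
      rcases h2 with h2 | h2
      · rw [h2]
        exact ⟨mem_insert_self _ _, mem_insert_of_mem (T.self_mem_anc _), h1⟩
      · rw [h2]
        exact ⟨mem_insert_of_mem (T.self_mem_anc _), mem_insert_self _ _, h1⟩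
    · have := ih hy
      exact ⟨mem_insert_of_mem this.1, mem_insert_of_mem this.2.1, this.2.2⟩

/-- vertices of the fundamental walk of an arc -/
def KK (e : Bool × (ℕ × ℕ)) : Finset ℕ := T.anc e.2.1 ∪ T.anc e.2.2

/-- number of arcs of page `p` in the fundamental walk of `e` that cover `q` -/
def cp (p : Bool) (e : Bool × (ℕ × ℕ)) (q : ℕ) : ZMod 2 :=
  T.cnt p e.2.1 q + T.cnt p e.2.2 q + if e.1 = p ∧ Cov q e.2 then 1 else 0

section

variable (hM : ∀ p, MaxNC N (U p))

include hM

lemma cp_even {e : Bool × (ℕ × ℕ)} (he : e.2 ∈ U e.1) {q : ℕ} (hq : ∀ v ∈ T.KK e, q ≠ 2 * v) :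
    T.cp true e q = T.cp false e q := by
  obtain ⟨p, a, b⟩ := e
  have hab := (hM p).arcs a b he
  unfold KK at hq
  simp only at hq
  have h1 := T.cnt_total (fun p => (hM p).arcs) (q := q) (x := a) (by omega)
    (fun v hv => hq v (mem_union_left _ hv))
  have h2 := T.cnt_total (fun p => (hM p).arcs) (q := q) (x := b) (by omega)
    (fun v hv => hq v (mem_union_right _ hv))
  have hqa : q ≠ 2 * a := hq a (mem_union_left _ (T.self_mem_anc _))
  have hqb : q ≠ 2 * b := hq b (mem_union_right _ (T.self_mem_anc _))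
  have h3 : T.cp true (p, (a, b)) q + T.cp false (p, (a, b)) q = 0 := by
    unfold cp
    simp only
    have h4 : (if p = true ∧ Cov q (a, b) then (1 : ZMod 2) else 0)
        + (if p = false ∧ Cov q (a, b) then 1 else 0) = if Cov q (a, b) then 1 else 0 := by
      cases p <;> simp
    have h5 : (if q < 2 * a then (1 : ZMod 2) else 0) + (if q < 2 * b then 1 else 0)
        + (if Cov q (a, b) then 1 else 0) = 0 := by
      rw [cov_ind hab.1 hqa hqb]
      have hz : ∀ A : ZMod 2, A + A = 0 := by decide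
      exact hz _
    calc T.cnt true a q + T.cnt true b q + (if p = true ∧ Cov q (a, b) then (1 : ZMod 2) else 0)
          + (T.cnt false a q + T.cnt false b q + if p = false ∧ Cov q (a, b) then 1 else 0)
        = (T.cnt true a q + T.cnt false a q) + (T.cnt true b q + T.cnt false b q)
          + ((if p = true ∧ Cov q (a, b) then (1 : ZMod 2) else 0)
            + (if p = false ∧ Cov q (a, b) then 1 else 0)) := by ring
      _ = 0 := by rw [h1, h2, h4, h5]
  have h6 : ∀ u v : ZMod 2, u + v = 0 → u = v := by decide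
  exact h6 _ _ h3

/-- the side of a vertex off the walk -/
lemma cp_adj {e : Bool × (ℕ × ℕ)} (he : e.2 ∈ U e.1) {u v : ℕ} {p : Bool} (huv : (u, v) ∈ U p)
    (hu : u ∉ T.KK e) (hv : v ∉ T.KK e) : T.cp p e (2 * u) = T.cp p e (2 * v) := by
  obtain ⟨p', a, b⟩ := e
  have hab := (hM p').arcs a b he
  have huv' := (hM p).arcs u v huv
  unfold KK at hu hv
  simp only [mem_union, not_or] at hu hv
  -- an arc of page `p` with endpoints different from `u, v` covers both or none
  have key : ∀ s t, (s, t) ∈ U p → s ≠ u → s ≠ v → t ≠ u → t ≠ v →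
      (Cov (2 * u) (s, t) ↔ Cov (2 * v) (s, t)) := by
    intro s t hst h1 h2 h3 h4
    have hst' := (hM p).arcs s t hst
    unfold Cov
    simp only
    constructor
    · rintro ⟨h5, h6⟩
      refine ⟨by omega, ?_⟩
      by_contra h7
      exact (hM p).nc s u t v hst huv (by omega) (by omega) (by omega)
    · rintro ⟨h5, h6⟩
      refine ⟨?_, by omega⟩
      by_contra h7
      exact (hM p).nc u s v t huv hst (by omega) (by omega) (by omega)
  have keyc : ∀ x, x < N → u ∉ T.anc x → v ∉ T.anc x → T.cnt p x (2 * u) = T.cnt p x (2 * v) := by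
    intro x hx hux hvx
    apply T.cnt_congr p hx
    intro y hy hy0 hp
    have h1 := T.te_mem hx hy hy0
    have h2 := (T.hte y hy0 h1.2.2).1
    rw [hp] at h2
    apply key _ _ h2
    · intro h; rw [← h] at hux; exact hux h1.1
    · intro h; rw [← h] at hvx; exact hvx h1.1
    · intro h; rw [← h] at hux; exact hux h1.2.1
    · intro h; rw [← h] at hvx; exact hvx h1.2.1
  unfold cp
  simp only
  rw [keyc a (by omega) hu.1 hv.1, keyc b (by omega) hu.2 hv.2]
  congr 1
  by_cases hp : p' = p
  · subst hp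
    have := key a b he (fun h => hu.1 (h ▸ T.self_mem_anc _)) (fun h => hv.1 (h ▸ T.self_mem_anc _))
      (fun h => hu.2 (h ▸ T.self_mem_anc _)) (fun h => hv.2 (h ▸ T.self_mem_anc _))
    simp only [this]
  · simp only [hp, false_and]

omit hM in
/-- tree arcs have trivial walks -/
lemma cp_tree (p : Bool) {x q : ℕ} (h0 : 0 < x) (h1 : x < N) : T.cp p (T.te x) q = 0 := by
  unfold cp
  have h2 := (T.hte x h0 h1).2
  have h3 := T.cnt_succ p q h0 h1
  have h4 : ∀ c d : ZMod 2, c + d + d + c = 0 := by decide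
  rcases h2 with h2 | h2
  · rw [h2]
    simp only
    rw [h3, h2]
    exact h4 _ _
  · rw [h2]
    simp only
    rw [h3, h2]
    have h5 : ∀ c d : ZMod 2, d + (c + d) + c = 0 := by decide
    exact h5 _ _

end

end STree

end Pool.Agent.Work.MP_09dd0a_co
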