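import Mathlib
import Pool.Agent.Work.MP_09dd0a_co.Parity

/-!
Faces, and the balanced fundamental walk.
-/

namespace Pool.Agent.Work.MP_09dd0a_co

open Finset

/-- faces: triangles of a page (with middle vertex), digons between the two spine arcs, and the
outer face -/
abbrev Face := (Bool × ℕ) ⊕ Option ℕ

/-- the set of all faces -/
def FF (N : ℕ) : Finset Face :=
  ((univ : Finset Bool) ×ˢ Finset.Ioo 0 (N - 1)).disjSum (insertNone (range (N - 1)))

lemma card_FF {N : ℕ} (hN : 2 ≤ N) : (FF N).card = 3 * N - 4 := by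
  unfold FF
  rw [card_disjSum, card_product, card_insertNone, card_range, Nat.card_Ioo, Finset.card_univ,
    Fintype.card_bool]
  omega

/-- the set of all labelled arcs -/
def EE (U : Bool → Finset (ℕ × ℕ)) : Finset (Bool × (ℕ × ℕ)) :=
  (U true).image (Prod.mk true) ∪ (U false).image (Prod.mk false)

lemma mem_EE {U : Bool → Finset (ℕ × ℕ)} {e : Bool × (ℕ × ℕ)} : e ∈ EE U ↔ e.2 ∈ U e.1 := by
  unfold EE
  obtain ⟨p, a⟩ := e
  cases p <;> simp

lemma card_EE_le {N : ℕ} {U : Bool → Finset (ℕ × ℕ)} (hM : ∀ p, MaxNC N (U p)) (hN : 2 ≤ N) :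
    (EE U).card ≤ 2 * (2 * N - 3) := by
  unfold EE
  refine le_trans (card_union_le _ _) ?_
  have h1 := card_image_le (s := U true) (f := Prod.mk true)
  have h2 := card_image_le (s := U false) (f := Prod.mk false)
  have h3 := (hM true).card_le hN
  have h4 := (hM false).card_le hN
  omega

/-- the face below an arc -/
def Below (U : Bool → Finset (ℕ × ℕ)) (e : Bool × (ℕ × ℕ)) (f : Face) : Prop :=
  (e.2.2 = e.2.1 + 1 ∧ f = Sum.inr (some e.2.1)) ∨
    ∃ m, e.2.1 < m ∧ m < e.2.2 ∧ (e.2.1, m) ∈ U e.1 ∧ (m, e.2.2) ∈ U e.1 ∧ f = Sum.inl (e.1, m)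

/-- the face above an arc -/
def Above (N : ℕ) (U : Bool → Finset (ℕ × ℕ)) (e : Bool × (ℕ × ℕ)) (f : Face) : Prop :=
  (e.2.1 = 0 ∧ e.2.2 = N - 1 ∧ f = Sum.inr none) ∨
    (∃ d, e.2.2 < d ∧ (e.2.1, d) ∈ U e.1 ∧ (e.2.2, d) ∈ U e.1 ∧ f = Sum.inl (e.1, e.2.2)) ∨
    (∃ c, c < e.2.1 ∧ (c, e.2.2) ∈ U e.1 ∧ (c, e.2.1) ∈ U e.1 ∧ f = Sum.inl (e.1, e.2.1))

section

variable {N : ℕ} {U : Bool → Finset (ℕ × ℕ)} (hM : ∀ p, MaxNC N (U p))

include hM

lemma below_unique {e : Bool × (ℕ × ℕ)} {f f' : Face} (h : Below U e f) (h' : Below U e f') :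
    f = f' := by
  obtain ⟨p, a, b⟩ := e
  rcases h with ⟨h1, rfl⟩ | ⟨m, h1, h2, h3, h4, rfl⟩
  · rcases h' with ⟨h1', rfl⟩ | ⟨m', h1', h2', h3', h4', rfl⟩
    · rfl
    · simp only at h1 h1' h2'
      omega
  · rcases h' with ⟨h1', rfl⟩ | ⟨m', h1', h2', h3', h4', rfl⟩
    · simp only at h1 h1' h2
      omega
    · have i1 := (hM p).apex_unique h1 h2' h4 h3'
      have i2 := (hM p).apex_unique h1' h2 h4' h3
      have : m = m' := by omega
      rw [this]

lemma above_unique {e : Bool × (ℕ × ℕ)} (he : e.2 ∈ U e.1) {f f' : Face} (h : Above N U e f)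
    (h' : Above N U e f') : f = f' := by
  obtain ⟨p, a, b⟩ := e
  have hab := (hM p).arcs a b he
  rcases h with ⟨h1, h2, rfl⟩ | ⟨d, h1, h2, h3, rfl⟩ | ⟨c, h1, h2, h3, rfl⟩
  · rcases h' with ⟨h1', h2', rfl⟩ | ⟨d', h1', h2', h3', rfl⟩ | ⟨c', h1', h2', h3', rfl⟩
    · rfl
    · have := (hM p).arcs _ _ h2'
      simp only at h2 h1' this
      omega
    · simp only at h1 h1'
      omega
  · rcases h' with ⟨h1', h2', rfl⟩ | ⟨d', h1', h2', h3', rfl⟩ | ⟨c', h1', h2', h3', rfl⟩
    · have := (hM p).arcs _ _ h2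
      simp only at h2' h1 this
      omega
    · rfl
    · exact absurd h1 ((hM p).nc _ _ _ _ h2' h2 h1' hab.1)
  · rcases h' with ⟨h1', h2', rfl⟩ | ⟨d', h1', h2', h3', rfl⟩ | ⟨c', h1', h2', h3', rfl⟩
    · simp only at h1 h1'
      omega
    · exact absurd h1' ((hM p).nc _ _ _ _ h2 h2' h1 hab.1)
    · rfl

end

namespace STree

variable {N : ℕ} {U : Bool → Finset (ℕ × ℕ)} (T : STree N U)

/-- parity of a face with respect to the walk of `e` -/
def par' (e : Bool × (ℕ × ℕ)) : Face → ZMod 2
  | Sum.inl (p, m) => T.cp p e (2 * m)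
  | Sum.inr (some i) => T.cp true e (2 * i + 1)
  | Sum.inr none => 0

/-- labelled tree arcs -/
def TT : Finset (Bool × (ℕ × ℕ)) := (Finset.Ioo 0 N).image T.te

lemma card_TT : T.TT.card = N - 1 := by
  unfold TT
  rw [card_image_of_injOn, Nat.card_Ioo]
  · omega
  · intro x hx y hy hxy
    have hx' : 0 < x ∧ x < N := by simpa using hx
    have hy' : 0 < y ∧ y < N := by simpa using hy
    have h1 := (T.hte x hx'.1 hx'.2).2
    have h2 := (T.hte y hy'.1 hy'.2).2
    rw [hxy] at h1
    have h3 := (T.hpar x hx'.1 hx'.2).2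
    have h4 := (T.hpar y hy'.1 hy'.2).2
    by_contra hne
    have h5 : x = T.par y ∧ y = T.par x := by
      rcases h1 with h1 | h1 <;> rcases h2 with h2 | h2 <;> rw [h1, Prod.mk.injEq] at h2
      · exact absurd h2.1 hne
      · exact ⟨h2.1, h2.2.symm⟩
      · exact ⟨h2.2, h2.1.symm⟩
      · exact absurd h2.2 hne
    rw [← h5.2] at h3
    rw [← h5.1] at h4
    omega

lemma TT_sub : T.TT ⊆ EE U := by
  intro e he
  unfold TT at he
  rw [mem_image] at he
  obtain ⟨x, hx, rfl⟩ := he
  rw [Finset.mem_Ioo] at hx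
  rw [mem_EE]
  exact (T.hte x hx.1 hx.2).1

variable (hM : ∀ p, MaxNC N (U p))

include hM

/-- compare the parities of two points that are covered by the same arcs of the page -/
lemma cp_compare {p : Bool} {a b q1 q2 : ℕ} (he : (a, b) ∈ U p) (hn : (p, (a, b)) ∉ T.TT)
    (h : ∀ s t, (s, t) ∈ U p → (s, t) ≠ (a, b) → (Cov q1 (s, t) ↔ Cov q2 (s, t)))
    (h1 : Cov q1 (a, b)) (h2 : ¬ Cov q2 (a, b)) :
    T.cp p (p, (a, b)) q1 + T.cp p (p, (a, b)) q2 = 1 := by
  have hab := (hM p).arcs a b he
  have key : ∀ x, x < N → T.cnt p x q1 = T.cnt p x q2 := by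
    intro x hx
    apply T.cnt_congr p hx
    intro y hy hy0 hp
    have h3 := T.te_mem hx hy hy0
    have h4 := (T.hte y hy0 h3.2.2).1
    rw [hp] at h4
    apply h _ _ h4
    intro h5
    apply hn
    unfold TT
    rw [mem_image]
    refine ⟨y, ?_, ?_⟩
    · rw [Finset.mem_Ioo]
      exact ⟨hy0, h3.2.2⟩
    · rw [← hp, ← h5]
  unfold cp
  simp only
  rw [key a (by omega), key b hab.2, if_pos ⟨trivial, h1⟩, if_neg (by
    rintro ⟨_, h6⟩
    exact h2 h6)]
  have h5 : ∀ c d : ZMod 2, c + d + 1 + (c + d + 0) = 1 := by decide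
  exact h5 _ _

lemma par_ne {e : Bool × (ℕ × ℕ)} (he : e ∈ EE U) (hn : e ∉ T.TT) {f f' : Face}
    (h : Below U e f) (h' : Above N U e f') : T.par' e f + T.par' e f' = 1 := by
  rw [mem_EE] at he
  obtain ⟨p, a, b⟩ := e
  have hab := (hM p).arcs a b he
  simp only at he
  -- the point below
  obtain ⟨q1, hq1, hq2, hq3, hq4⟩ : ∃ q1, T.par' (p, (a, b)) f = T.cp p (p, (a, b)) q1 ∧ 2 * a < q1 ∧
      q1 < 2 * b ∧ ∀ s t, (s, t) ∈ U p → Cov q1 (s, t) → s ≤ a ∧ b ≤ t := by
    rcases h with ⟨h1, rfl⟩ | ⟨m, h1, h2, h3, h4, rfl⟩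
    · simp only at h1
      refine ⟨2 * a + 1, ?_, by omega, by omega, ?_⟩
      · unfold par'
        simp only
        cases p with
        | true => rfl
        | false =>
          apply T.cp_even hM he
          intro v _
          omega
      · rintro s t _ ⟨h5, h6⟩
        simp only at h5 h6
        omega
    · simp only at h1 h2 h3 h4
      refine ⟨2 * m, rfl, by omega, by omega, ?_⟩
      rintro s t hst ⟨h5, h6⟩
      simp only at h5 h6
      constructor
      · by_contra h7
        exact (hM p).nc a s m t h3 hst (by omega) (by omega) (by omega)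
      · by_contra h7
        exact (hM p).nc s m t b hst h4 (by omega) (by omega) (by omega)
  rw [hq1]
  have hc1 : Cov q1 (a, b) := ⟨hq2, hq3⟩
  rcases h' with ⟨h1, h2, rfl⟩ | ⟨d, h1, h2, h3, rfl⟩ | ⟨c, h1, h2, h3, rfl⟩
  · -- outer face: compare with a point covered by nothing
    simp only at h1 h2
    have h4 := T.cp_compare hM he hn (q1 := q1) (q2 := 0) (by
      intro s t hst hne
      constructor
      · intro h5
        exfalso
        have h6 := hq4 s t hst h5
        have h7 := (hM p).arcs s t hst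
        apply hne
        rw [Prod.mk.injEq]
        omega
      · rintro ⟨h5, _⟩
        omega) hc1 (by
      rintro ⟨h5, _⟩
      omega)
    have h5 : T.cp p (p, (a, b)) 0 = 0 := by
      unfold cp cnt
      rw [sum_eq_zero, sum_eq_zero, if_neg]
      · rfl
      · rintro ⟨_, h6, _⟩
        omega
      · intro i _
        rw [if_neg]
        rintro ⟨_, h6, _⟩
        omega
      · intro i _
        rw [if_neg]
        rintro ⟨_, h6, _⟩
        omega
    rw [h5] at h4
    exact h4
  · simp only at h1 h2 h3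
    show T.cp p (p, (a, b)) q1 + T.cp p (p, (a, b)) (2 * b) = 1
    apply T.cp_compare hM he hn _ hc1
    · rintro ⟨_, h5⟩
      simp only at h5
      omega
    · intro s t hst hne
      constructor
      · intro h4
        have h5 := hq4 s t hst h4
        refine ⟨by simp only; omega, ?_⟩
        simp only
        by_contra h6
        have h7 : t = b := by omega
        subst h7
        have h8 : s < a := by
          by_contra h9
          apply hne
          rw [Prod.mk.injEq]
          omega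
        exact (hM p).nc s a t d hst h2 h8 hab.1 h1
      · rintro ⟨h4, h5⟩
        simp only at h4 h5
        have h6 : s ≤ a := by
          by_contra h7
          exact (hM p).nc a s b t he hst (by omega) (by omega) (by omega)
        exact ⟨by simp only; omega, by simp only; omega⟩
  · simp only at h1 h2 h3
    show T.cp p (p, (a, b)) q1 + T.cp p (p, (a, b)) (2 * a) = 1
    apply T.cp_compare hM he hn _ hc1
    · rintro ⟨h5, _⟩
      simp only at h5
      omega
    · intro s t hst hne
      constructor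
      · intro h4
        have h5 := hq4 s t hst h4
        refine ⟨?_, by simp only; omega⟩
        simp only
        by_contra h6
        have h7 : s = a := by omega
        subst h7
        have h8 : b < t := by
          by_contra h9
          apply hne
          rw [Prod.mk.injEq]
          omega
        exact (hM p).nc c s b t h2 hst h1 hab.1 h8
      · rintro ⟨h4, h5⟩
        simp only at h4 h5
        have h6 : b ≤ t := by
          by_contra h7
          exact (hM p).nc s a t b hst he (by omega) (by omega) (by omega)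
        exact ⟨by simp only; omega, by simp only; omega⟩

section heavy

variable {w : ℕ → ℝ} (hw : ∀ v, 0 ≤ w v) {h : Bool × (ℕ × ℕ) → ZMod 2}
  (hH : ∀ e ∈ EE U, 2 / 3 * (∑ v ∈ range N, w v) <
    ∑ v ∈ (range N).filter (fun v => v ∉ T.KK e ∧ T.cp true e (2 * v) = h e), w v)

omit hM in
include hw hH in
lemma triple {e1 e2 e3 : Bool × (ℕ × ℕ)} (h1 : e1 ∈ EE U) (h2 : e2 ∈ EE U) (h3 : e3 ∈ EE U) :
    ∃ v, v < N ∧ (v ∉ T.KK e1 ∧ T.cp true e1 (2 * v) = h e1) ∧
      (v ∉ T.KK e2 ∧ T.cp true e2 (2 * v) = h e2) ∧ (v ∉ T.KK e3 ∧ T.cp true e3 (2 * v) = h e3) := by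
  by_contra hno
  push Not at hno
  have i1 := hH e1 h1
  have i2 := hH e2 h2
  have i3 := hH e3 h3
  rw [sum_filter] at i1 i2 i3
  have key : ∑ v ∈ range N, (if v ∉ T.KK e1 ∧ T.cp true e1 (2 * v) = h e1 then w v else 0)
      + ∑ v ∈ range N, (if v ∉ T.KK e2 ∧ T.cp true e2 (2 * v) = h e2 then w v else 0)
      + ∑ v ∈ range N, (if v ∉ T.KK e3 ∧ T.cp true e3 (2 * v) = h e3 then w v else 0)
      ≤ 2 * ∑ v ∈ range N, w v := by
    rw [← sum_add_distrib, ← sum_add_distrib, mul_sum]
    apply sum_le_sum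
    intro v hv
    rw [mem_range] at hv
    have h4 := hno v hv
    have hwv := hw v
    by_cases c1 : v ∉ T.KK e1 ∧ T.cp true e1 (2 * v) = h e1
    · by_cases c2 : v ∉ T.KK e2 ∧ T.cp true e2 (2 * v) = h e2
      · have c3 : ¬ (v ∉ T.KK e3 ∧ T.cp true e3 (2 * v) = h e3) := by
          rintro ⟨c4, c5⟩
          exact h4 c1 c2 c4 c5
        rw [if_pos c1, if_pos c2, if_neg c3]
        linarith
      · rw [if_pos c1, if_neg c2]
        split_ifs <;> linarith
    · rw [if_neg c1]
      split_ifs <;> linarith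
  linarith

include hw hH in
/-- there is no sink face -/
lemma no_sink (hN : 2 ≤ N) {f : Face} (hf : f ∈ FF N) :
    ∃ e ∈ EE U, (Below U e f ∨ Above N U e f) ∧ T.par' e f ≠ h e := by
  by_contra hno
  push Not at hno
  unfold FF at hf
  rw [mem_disjSum] at hf
  have hz1 : ∀ c : ZMod 2, c + c = 0 := by decide
  rcases hf with ⟨⟨p, m⟩, hm, rfl⟩ | ⟨o, ho, rfl⟩
  · -- triangle
    rw [mem_product, Finset.mem_Ioo] at hm
    simp only at hm
    obtain ⟨a, b, ha, hb, h1, h2, h3⟩ := (hM p).exists_cover hm.2.1 (by omega)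
    have e1 := hno (p, (a, m)) (mem_EE.mpr h2) (Or.inr (Or.inr (Or.inl ⟨b, hb, h1, h3, rfl⟩)))
    have e2 := hno (p, (m, b)) (mem_EE.mpr h3) (Or.inr (Or.inr (Or.inr ⟨a, ha, h1, h2, rfl⟩)))
    have e3 := hno (p, (a, b)) (mem_EE.mpr h1) (Or.inl (Or.inr ⟨m, ha, hb, h2, h3, rfl⟩))
    obtain ⟨v, hv, v1, v2, v3⟩ := T.triple hw hH (mem_EE.mpr h2) (mem_EE.mpr h3) (mem_EE.mpr h1)
      (e1 := (p, (a, m))) (e2 := (p, (m, b))) (e3 := (p, (a, b)))
    have hva : v ≠ a := by
      rintro rfl
      exact v1.1 (mem_union_left _ (T.self_mem_anc _))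
    have hvm : v ≠ m := by
      rintro rfl
      exact v1.1 (mem_union_right _ (T.self_mem_anc _))
    have hvb : v ≠ b := by
      rintro rfl
      exact v3.1 (mem_union_right _ (T.self_mem_anc _))
    -- transfer to page p
    have tr : ∀ e : Bool × (ℕ × ℕ), e.2 ∈ U e.1 → v ∉ T.KK e → T.cp true e (2 * v) = T.cp p e (2 * v) := by
      intro e he hve
      cases p with
      | true => rfl
      | false =>
        apply T.cp_even hM he
        intro u hu h4
        apply hve
        have : v = u := by omega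
        rw [this]
        exact hu
    rw [tr _ h2 v1.1] at v1
    rw [tr _ h3 v2.1] at v2
    rw [tr _ h1 v3.1] at v3
    have s1 : T.cp p (p, (a, m)) (2 * v) = T.cp p (p, (a, m)) (2 * m) := by
      rw [v1.2]
      exact e1.symm
    have s2 : T.cp p (p, (m, b)) (2 * v) = T.cp p (p, (m, b)) (2 * m) := by
      rw [v2.2]
      exact e2.symm
    have s3 : T.cp p (p, (a, b)) (2 * v) = T.cp p (p, (a, b)) (2 * m) := by
      rw [v3.2]
      exact e3.symm
    have hsum : ∀ q, T.cp p (p, (a, m)) q + T.cp p (p, (m, b)) q + T.cp p (p, (a, b)) q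
        = (if Cov q (a, m) then 1 else 0) + (if Cov q (m, b) then 1 else 0)
          + (if Cov q (a, b) then 1 else 0) := by
      intro q
      unfold cp
      simp only [true_and]
      have hz : ∀ x y z r s t : ZMod 2, x + y + r + (y + z + s) + (x + z + t) = r + s + t := by decide
      exact hz _ _ _ _ _ _
    have g1 := hsum (2 * v)
    have g2 := hsum (2 * m)
    rw [s1, s2, s3, g2] at g1
    have k1 : ¬ Cov (2 * m) (a, m) := by
      rintro ⟨_, h5⟩
      simp only at h5
      omega
    have k2 : ¬ Cov (2 * m) (m, b) := by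
      rintro ⟨h5, _⟩
      simp only at h5
      omega
    have k3 : Cov (2 * m) (a, b) := ⟨by simp only; omega, by simp only; omega⟩
    rw [if_neg k1, if_neg k2, if_pos k3] at g1
    by_cases c1 : a < v ∧ v < b
    · have k4 : Cov (2 * v) (a, b) := ⟨by simp only; omega, by simp only; omega⟩
      by_cases c2 : v < m
      · have k5 : Cov (2 * v) (a, m) := ⟨by simp only; omega, by simp only; omega⟩
        have k6 : ¬ Cov (2 * v) (m, b) := by
          rintro ⟨h5, _⟩
          simp only at h5
          omega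
        rw [if_pos k4, if_pos k5, if_neg k6] at g1
        revert g1
        decide
      · have k5 : ¬ Cov (2 * v) (a, m) := by
          rintro ⟨_, h5⟩
          simp only at h5
          omega
        have k6 : Cov (2 * v) (m, b) := ⟨by simp only; omega, by simp only; omega⟩
        rw [if_pos k4, if_neg k5, if_pos k6] at g1
        revert g1
        decide
    · have k4 : ¬ Cov (2 * v) (a, b) := by
        rintro ⟨h5, h6⟩
        simp only at h5 h6
        omega
      have k5 : ¬ Cov (2 * v) (a, m) := by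
        rintro ⟨h5, h6⟩
        simp only at h5 h6
        omega
      have k6 : ¬ Cov (2 * v) (m, b) := by
        rintro ⟨h5, h6⟩
        simp only at h5 h6
        omega
      rw [if_neg k4, if_neg k5, if_neg k6] at g1
      revert g1
      decide
  · cases o with
    | none =>
      -- outer face
      have m1 : (0, N - 1) ∈ U true := (hM true).outer hN
      have m2 : (0, N - 1) ∈ U false := (hM false).outer hN
      have e1 := hno (true, (0, N - 1)) (mem_EE.mpr m1) (Or.inr (Or.inl ⟨rfl, rfl, rfl⟩))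
      have e2 := hno (false, (0, N - 1)) (mem_EE.mpr m2) (Or.inr (Or.inl ⟨rfl, rfl, rfl⟩))
      obtain ⟨v, hv, v1, v2, _⟩ := T.triple hw hH (mem_EE.mpr m1) (mem_EE.mpr m2) (mem_EE.mpr m2)
        (e1 := (true, (0, N - 1))) (e2 := (false, (0, N - 1))) (e3 := (false, (0, N - 1)))
      have hv0 : v ≠ 0 := by
        rintro rfl
        exact v1.1 (mem_union_left _ (T.self_mem_anc _))
      have hvN : v ≠ N - 1 := by
        rintro rfl
        exact v1.1 (mem_union_right _ (T.self_mem_anc _))
      have s1 : T.cp true (true, (0, N - 1)) (2 * v) = 0 := by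
        rw [v1.2]
        exact e1.symm
      have s2 : T.cp true (false, (0, N - 1)) (2 * v) = 0 := by
        rw [v2.2]
        exact e2.symm
      have k : Cov (2 * v) (0, N - 1) := ⟨by simp only; omega, by simp only; omega⟩
      unfold cp at s1 s2
      simp only [k, and_self, if_true] at s1 s2
      have hz : ∀ x y : ZMod 2, x + y + 1 = 0 → x + y + 0 = 0 → False := by decide
      simp only [reduceCtorEq, false_and, if_false] at s2
      exact hz _ _ s1 s2
    | some i =>
      rw [some_mem_insertNone, mem_range] at ho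
      have m1 : (i, i + 1) ∈ U true := (hM true).spine (by omega)
      have m2 : (i, i + 1) ∈ U false := (hM false).spine (by omega)
      have e1 := hno (true, (i, i + 1)) (mem_EE.mpr m1) (Or.inl (Or.inl ⟨rfl, rfl⟩))
      have e2 := hno (false, (i, i + 1)) (mem_EE.mpr m2) (Or.inl (Or.inl ⟨rfl, rfl⟩))
      obtain ⟨v, hv, v1, v2, _⟩ := T.triple hw hH (mem_EE.mpr m1) (mem_EE.mpr m2) (mem_EE.mpr m2)
        (e1 := (true, (i, i + 1))) (e2 := (false, (i, i + 1))) (e3 := (false, (i, i + 1)))
      have s1 : T.cp true (true, (i, i + 1)) (2 * v) = T.cp true (true, (i, i + 1)) (2 * i + 1) := by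
        rw [v1.2]
        exact e1.symm
      have s2 : T.cp true (false, (i, i + 1)) (2 * v) = T.cp true (false, (i, i + 1)) (2 * i + 1) := by
        rw [v2.2]
        exact e2.symm
      have k1 : ¬ Cov (2 * v) (i, i + 1) := by
        rintro ⟨h5, h6⟩
        simp only at h5 h6
        omega
      have k2 : Cov (2 * i + 1) (i, i + 1) := ⟨by simp only; omega, by simp only; omega⟩
      unfold cp at s1 s2
      simp only [k1, k2, and_self, if_true, and_false, if_false, reduceCtorEq, false_and] at s1 s2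
      have hz : ∀ x y z t : ZMod 2, x + y + 0 = z + t + 1 → x + y + 0 = z + t + 0 → False := by decide
      exact hz _ _ _ _ s1 s2

include hw hH in
/-- contradiction by counting faces and non-tree arcs -/
lemma heavy_false (hN : 2 ≤ N) (hW : 0 < ∑ v ∈ range N, w v) : False := by
  classical
  -- non tree
  have htree : ∀ e ∈ EE U, ∀ f, T.par' e f ≠ h e → e ∉ T.TT := by
    intro e he f hf ht
    apply hf
    unfold TT at ht
    rw [mem_image] at ht
    obtain ⟨x, hx, rfl⟩ := ht
    rw [Finset.mem_Ioo] at hx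
    have h1 : ∀ p q, T.cp p (T.te x) q = 0 := fun p q => T.cp_tree p hx.1 hx.2
    have h2 : h (T.te x) = 0 := by
      by_contra h3
      have h4 := hH _ he
      have h5 : (range N).filter (fun v => v ∉ T.KK (T.te x) ∧ T.cp true (T.te x) (2 * v) = h (T.te x)) = ∅ := by
        rw [filter_eq_empty_iff]
        rintro v _ ⟨_, h6⟩
        rw [h1] at h6
        exact h3 h6.symm
      rw [h5, sum_empty] at h4
      linarith
    rw [h2]
    unfold par'
    rcases f with ⟨p, m⟩ | o
    · exact h1 _ _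
    · cases o with
      | none => rfl
      | some i => exact h1 _ _
  have hch : ∀ f : Face, ∃ e, f ∈ FF N → e ∈ EE U ∧ (Below U e f ∨ Above N U e f) ∧ T.par' e f ≠ h e := by
    intro f
    by_cases hf : f ∈ FF N
    · obtain ⟨e, he, h1, h2⟩ := T.no_sink hM hw hH hN hf
      exact ⟨e, fun _ => ⟨he, h1, h2⟩⟩
    · exact ⟨(true, (0, 0)), fun h => absurd h hf⟩
  choose φ hφ using hch
  have hcard : (FF N).card ≤ (EE U \ T.TT).card := by
    apply card_le_card_of_injOn φ
    · intro f hf
      have h1 := hφ f hf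
      rw [coe_sdiff]
      exact ⟨h1.1, htree _ h1.1 f h1.2.2⟩
    · intro f hf f' hf' heq
      have h1 := hφ f hf
      have h2 := hφ f' hf'
      rw [← heq] at h2
      have hn := htree _ h1.1 f h1.2.2
      have hz : ∀ x y z : ZMod 2, x ≠ z → y ≠ z → x + y = 1 → False := by decide
      rcases h1.2.1 with b1 | a1
      · rcases h2.2.1 with b2 | a2
        · exact below_unique hM b1 b2
        · exact (hz _ _ _ h1.2.2 h2.2.2 (T.par_ne hM h1.1 hn b1 a2)).elim
      · rcases h2.2.1 with b2 | a2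
        · exact (hz _ _ _ h2.2.2 h1.2.2 (T.par_ne hM h1.1 hn b2 a1)).elim
        · exact above_unique hM (mem_EE.mp h1.1) a1 a2
  rw [card_FF hN, card_sdiff_of_subset T.TT_sub, T.card_TT] at hcard
  have := card_EE_le hM hN
  omega

end heavy

/-- **Balanced fundamental walk.** -/
theorem exists_balanced (hN : 2 ≤ N) {w : ℕ → ℝ} (hw : ∀ v, 0 ≤ w v) (hW : 0 < ∑ v ∈ range N, w v) :
    ∃ e ∈ EE U, ∀ c : ZMod 2,
      ∑ v ∈ (range N).filter (fun v => v ∉ T.KK e ∧ T.cp true e (2 * v) = c), w v
        ≤ 2 / 3 * (∑ v ∈ range N, w v) := by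
  by_contra hno
  push Not at hno
  have hch : ∀ e : Bool × (ℕ × ℕ), ∃ c : ZMod 2, e ∈ EE U → 2 / 3 * (∑ v ∈ range N, w v) <
      ∑ v ∈ (range N).filter (fun v => v ∉ T.KK e ∧ T.cp true e (2 * v) = c), w v := by
    intro e
    by_cases he : e ∈ EE U
    · obtain ⟨c, hc⟩ := hno e he
      exact ⟨c, fun _ => hc⟩
    · exact ⟨0, fun h => absurd h he⟩
  choose h hh using hch
  exact T.heavy_false hM hw (h := h) hh hN hW

end STree

end Pool.Agent.Work.MP_09dd0a_co
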