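import Mathlib
import Pool.Agent.Work.MP_09dd0a_co.Sink

/-!
Breadth-first search tree.
-/

namespace Pool.Agent.Work.MP_09dd0a_co

open Finset

/-- the graph of all arcs -/
def arcGraph (U : Bool → Finset (ℕ × ℕ)) : SimpleGraph ℕ :=
  SimpleGraph.fromRel (fun u v => ∃ p, (u, v) ∈ U p)

lemma arcGraph_adj {U : Bool → Finset (ℕ × ℕ)} {u v : ℕ} :
    (arcGraph U).Adj u v ↔ u ≠ v ∧ ((∃ p, (u, v) ∈ U p) ∨ ∃ p, (v, u) ∈ U p) := by
  unfold arcGraph
  rw [SimpleGraph.fromRel_adj]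

section

variable {N : ℕ} {U : Bool → Finset (ℕ × ℕ)} (hM : ∀ p, MaxNC N (U p))

include hM

lemma reach {x : ℕ} (hx : x < N) : (arcGraph U).Reachable 0 x := by
  induction x with
  | zero => exact SimpleGraph.Reachable.refl _
  | succ x ih =>
    refine (ih (by omega)).trans (SimpleGraph.Adj.reachable ?_)
    rw [arcGraph_adj]
    exact ⟨by omega, Or.inl ⟨true, (hM true).spine hx⟩⟩

lemma dist_adj {u v : ℕ} (hu : u < N) (h : (arcGraph U).Adj u v) :
    (arcGraph U).dist 0 v ≤ (arcGraph U).dist 0 u + 1 := by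
  obtain ⟨p, hp⟩ := (reach hM hu).exists_walk_length_eq_dist
  have := SimpleGraph.dist_le (p.concat h)
  rw [SimpleGraph.Walk.length_concat, hp] at this
  exact this

lemma exists_parent {x : ℕ} (h0 : 0 < x) (hx : x < N) :
    ∃ y, y < N ∧ (arcGraph U).Adj y x ∧ (arcGraph U).dist 0 x = (arcGraph U).dist 0 y + 1 := by
  obtain ⟨p, hp⟩ := (reach hM hx).exists_walk_length_eq_dist
  have hnil : ¬ p.Nil := by
    intro h
    have := h.eq
    omega
  have hadj := p.adj_penultimate hnil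
  have hyN : p.penultimate < N := by
    rw [arcGraph_adj] at hadj
    rcases hadj.2 with ⟨q, hq⟩ | ⟨q, hq⟩
    · have := (hM q).arcs _ _ hq
      omega
    · have := (hM q).arcs _ _ hq
      omega
  refine ⟨p.penultimate, hyN, hadj, ?_⟩
  apply le_antisymm
  · exact dist_adj hM hyN hadj
  · have h1 := SimpleGraph.dist_le p.dropLast
    have h2 : p.dropLast.length = p.length - 1 := by
      simp [SimpleGraph.Walk.dropLast, SimpleGraph.Walk.take_length]
    have h3 : 0 < p.length := by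
      rw [Nat.pos_iff_ne_zero]
      intro h
      exact hnil (SimpleGraph.Walk.nil_iff_length_eq.mpr h)
    omega

/-- **Breadth-first search tree.** -/
theorem exists_bfs (hN : 1 ≤ N) : ∃ T : STree N U,
    ∀ p u v, (u, v) ∈ U p → T.lev u ≤ T.lev v + 1 ∧ T.lev v ≤ T.lev u + 1 := by
  classical
  have h1 : ∀ x, ∃ y, 0 < x → x < N →
      y < N ∧ (arcGraph U).Adj y x ∧ (arcGraph U).dist 0 x = (arcGraph U).dist 0 y + 1 := by
    intro x
    by_cases h : 0 < x ∧ x < N
    · obtain ⟨y, hy⟩ := exists_parent hM h.1 h.2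
      exact ⟨y, fun _ _ => hy⟩
    · exact ⟨0, fun a b => absurd ⟨a, b⟩ h⟩
  choose par hpar using h1
  have h2 : ∀ x, ∃ t : Bool × (ℕ × ℕ), 0 < x → x < N →
      t.2 ∈ U t.1 ∧ (t.2 = (x, par x) ∨ t.2 = (par x, x)) := by
    intro x
    by_cases h : 0 < x ∧ x < N
    · have h3 := (hpar x h.1 h.2).2.1
      rw [arcGraph_adj] at h3
      rcases h3.2 with ⟨q, hq⟩ | ⟨q, hq⟩
      · exact ⟨(q, (par x, x)), fun _ _ => ⟨hq, Or.inr rfl⟩⟩
      · exact ⟨(q, (x, par x)), fun _ _ => ⟨hq, Or.inl rfl⟩⟩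
    · exact ⟨(true, (0, 0)), fun a b => absurd ⟨a, b⟩ h⟩
  choose te hte using h2
  refine ⟨{ par := par, lev := fun x => (arcGraph U).dist 0 x, te := te, lev0 := by simp,
            hpar := fun x h0 h1 => ⟨(hpar x h0 h1).1, (hpar x h0 h1).2.2⟩, hte := hte }, ?_⟩
  intro p u v huv
  have h3 := (hM p).arcs u v huv
  have h4 : (arcGraph U).Adj u v := by
    rw [arcGraph_adj]
    exact ⟨by omega, Or.inl ⟨p, huv⟩⟩
  exact ⟨dist_adj hM (by omega) h4.symm, dist_adj hM (by omega) h4⟩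

end

end Pool.Agent.Work.MP_09dd0a_co
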