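import Mathlib

/-!
# Two-page structures: the interface between the geometry and the counting

The points of the polygonal path on the line are recorded as a finite set `E` of times; `x t` is the
abscissa of the point at time `t`.  `up s t` means that the points at times `s, t` are joined by an
arc in the closed upper half plane, `low s t` by an arc in the closed lower half plane.
-/

namespace Pool.Agent.Work.MP_09dd0a_co

/-- `(E, x, up, low)` is a two-page structure: any two consecutive times are joined by an upper or a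
lower arc, and no two arcs on the same side cross. -/
structure IsBook (E : Finset ℝ) (x : ℝ → ℝ) (up low : ℝ → ℝ → Prop) : Prop where
  inj : ∀ s ∈ E, ∀ t ∈ E, x s = x t → s = t
  up_symm : ∀ s t, up s t → up t s
  low_symm : ∀ s t, low s t → low t s
  arc : ∀ s ∈ E, ∀ t ∈ E, s < t → (∀ u ∈ E, u ≤ s ∨ t ≤ u) → up s t ∨ low s t
  up_nc : ∀ a ∈ E, ∀ b ∈ E, ∀ c ∈ E, ∀ d ∈ E, up a b → up c d →
    ¬ (x a < x c ∧ x c < x b ∧ x b < x d)
  low_nc : ∀ a ∈ E, ∀ b ∈ E, ∀ c ∈ E, ∀ d ∈ E, low a b → low c d →
    ¬ (x a < x c ∧ x c < x b ∧ x b < x d)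

/-- The pair of lists `lp` (marked times in increasing order) and `lq` (the same marked times in the
order of their abscissae) is realised by a two-page structure with at most `m` points. -/
def Realizable (m : ℕ) (lp lq : List ℝ) : Prop :=
  ∃ (E : Finset ℝ) (x : ℝ → ℝ) (up low : ℝ → ℝ → Prop), IsBook E x up low ∧ E.card ≤ m ∧
    (∀ s ∈ lp, s ∈ E) ∧ lp.Pairwise (· < ·) ∧ lq.Perm lp ∧ lq.Pairwise (fun s t => x s < x t)

end Pool.Agent.Work.MP_09dd0a_co
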