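import Pool.Agent.Work.MP_09dd0a_co.Separator
import Pool.Agent.Work.MP_09dd0a_co.Book

/-!
# A two-page structure has no `K_5` minor

The proof is a parity argument: a walk `P` from `a` to `b` in the two-page structure determines a
function `u` on the vertices off `P` (the number of upper arcs of `P` above a vertex, modulo 2).
-/

namespace Pool.Agent.Work.MP_09dd0a_co

open Finset Relation
open scoped Classical

variable {V : Type*}

/-- `1` if `s` is to the left of `y`. -/
noncomputable def hh (x : V → ℝ) (y s : V) : ZMod 2 := if x s < x y then 1 else 0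

/-- The crossing parity of the pairs `a, b` and `c, d`. -/
noncomputable def cr (x : V → ℝ) (a b c d : V) : ZMod 2 :=
  hh x c a + hh x c b + hh x d a + hh x d b

lemma two_zero : (2 : ZMod 2) = 0 := by decide

lemma hh_add {x : V → ℝ} {a b : V} (h : x a ≠ x b) : hh x a b + hh x b a = 1 := by
  unfold hh
  rcases lt_or_gt_of_ne h with h | h
  · rw [if_neg (not_lt.2 h.le), if_pos h]; decide
  · rw [if_pos h, if_neg (not_lt.2 h.le)]; decide

lemma cr_symm {x : V → ℝ} {a b c d : V} (h1 : x a ≠ x c) (h2 : x a ≠ x d) (h3 : x b ≠ x c)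
    (h4 : x b ≠ x d) : cr x a b c d = cr x c d a b := by
  have e1 := hh_add h1
  have e2 := hh_add h2
  have e3 := hh_add h3
  have e4 := hh_add h4
  unfold cr
  linear_combination e1 + e2 + e3 + e4 - (hh x a c + hh x a d + hh x b c + hh x b d) * two_zero
    - (-2) * two_zero

/-- A non-crossing pair has crossing parity zero. -/
lemma cr_zero {x : V → ℝ} {R : V → V → Prop} (hsym : ∀ s t, R s t → R t s)
    (hnc : ∀ a b c d, R a b → R c d → ¬ (x a < x c ∧ x c < x b ∧ x b < x d)) {a b c d : V}
    (hab : R a b) (hcd : R c d) (h1 : x a ≠ x c) (h2 : x a ≠ x d) (h3 : x b ≠ x c)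
    (h4 : x b ≠ x d) : cr x a b c d = 0 := by
  have n1 := hnc a b c d hab hcd
  have n2 := hnc b a c d (hsym _ _ hab) hcd
  have n3 := hnc a b d c hab (hsym _ _ hcd)
  have n4 := hnc b a d c (hsym _ _ hab) (hsym _ _ hcd)
  have m1 := hnc c d a b hcd hab
  have m2 := hnc d c a b (hsym _ _ hcd) hab
  have m3 := hnc c d b a hcd (hsym _ _ hab)
  have m4 := hnc d c b a (hsym _ _ hcd) (hsym _ _ hab)
  unfold cr hh
  rcases lt_or_gt_of_ne h1 with k1 | k1 <;> rcases lt_or_gt_of_ne h2 with k2 | k2 <;>
  rcases lt_or_gt_of_ne h3 with k3 | k3 <;> rcases lt_or_gt_of_ne h4 with k4 | k4 <;>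
  simp only [k1, k2, k3, k4, not_lt.2 k1.le, not_lt.2 k2.le, not_lt.2 k3.le, not_lt.2 k4.le,
    if_true, if_false, add_zero, zero_add] <;>
  first
  | rfl
  | decide
  | exact absurd ⟨by assumption, by assumption, by assumption⟩ n1
  | exact absurd ⟨by assumption, by assumption, by assumption⟩ n2
  | exact absurd ⟨by assumption, by assumption, by assumption⟩ n3
  | exact absurd ⟨by assumption, by assumption, by assumption⟩ n4
  | exact absurd ⟨by assumption, by assumption, by assumption⟩ m1
  | exact absurd ⟨by assumption, by assumption, by assumption⟩ m2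
  | exact absurd ⟨by assumption, by assumption, by assumption⟩ m3
  | exact absurd ⟨by assumption, by assumption, by assumption⟩ m4

/-- The property of the function `u` of a walk from `a` to `b` inside `s`. -/
def PhiProp (x : V → ℝ) (Up Low : V → V → Prop) (s : Finset V) (a b : V) (u : V → ZMod 2) :
    Prop :=
  ∀ q q' : V, q ∉ s → q' ∉ s →
    (Up q q' → u q + u q' = 0) ∧ (Low q q' → u q + u q' = cr x a b q q')

lemma walk_function {x : V → ℝ} {E : Finset V} {Up Low : V → V → Prop}
    (hinj : ∀ s ∈ E, ∀ t ∈ E, x s = x t → s = t)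
    (hUE : ∀ s t, Up s t → s ∈ E ∧ t ∈ E) (hLE : ∀ s t, Low s t → s ∈ E ∧ t ∈ E)
    (hUs : ∀ s t, Up s t → Up t s) (hLs : ∀ s t, Low s t → Low t s)
    (hUn : ∀ a b c d, Up a b → Up c d → ¬ (x a < x c ∧ x c < x b ∧ x b < x d))
    (hLn : ∀ a b c d, Low a b → Low c d → ¬ (x a < x c ∧ x c < x b ∧ x b < x d))
    (t : Finset V) (c d : V) (h : Linked (fun s t => Up s t ∨ Low s t) t c d) :
    ∃ u : V → ZMod 2, PhiProp x Up Low t c d u ∧
      ∀ (s : Finset V) (a b : V) (u' : V → ZMod 2), (∀ z ∈ s, z ∉ t) → a ∈ s → b ∈ s →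
        a ∈ E → b ∈ E → PhiProp x Up Low s a b u' →
        cr x a b c d = u' c + u' d + u a + u b := by
  induction h with
  | refl =>
    refine ⟨fun _ => 0, ?_, ?_⟩
    · intro q q' _ _
      refine ⟨fun _ => by simp, fun _ => ?_⟩
      unfold cr
      linear_combination (-(hh x q c) - hh x q' c) * two_zero
    · intro s a b u' _ _ _ _ _ _
      unfold cr
      linear_combination (hh x c a + hh x c b - u' c) * two_zero
  | @tail d d' h1 h2 ih =>
    obtain ⟨u, hu1, hu2⟩ := ih
    obtain ⟨hdd, hdt, hdt'⟩ := h2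
    have hdE : d ∈ E ∧ d' ∈ E := by
      rcases hdd with h | h
      · exact hUE _ _ h
      · exact hLE _ _ h
    have hne : ∀ z, z ∈ E → z ∉ t → x d ≠ x z ∧ x d' ≠ x z := by
      intro z hz hzt
      constructor
      · intro e
        exact hzt (hinj d hdE.1 z hz e ▸ hdt)
      · intro e
        exact hzt (hinj d' hdE.2 z hz e ▸ hdt')
    rcases hdd with hdd | hdd
    · refine ⟨fun y => u y + hh x y d + hh x y d', ?_, ?_⟩
      · intro q q' hq hq'
        obtain ⟨k1, k2⟩ := hu1 q q' hq hq'
        refine ⟨fun hqq => ?_, fun hqq => ?_⟩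
        · obtain ⟨hqE, hqE'⟩ := hUE _ _ hqq
          have e1 := k1 hqq
          have e2 := cr_zero hUs hUn hdd hqq (hne q hqE hq).1 (hne q' hqE' hq').1
            (hne q hqE hq).2 (hne q' hqE' hq').2
          unfold cr at e2
          simp only []
          linear_combination e1 + e2
        · have e1 := k2 hqq
          unfold cr at e1 ⊢
          simp only []
          linear_combination e1 + (hh x q d + hh x q' d) * two_zero
      · intro s a b u' hst ha hb haE hbE hu'
        have e1 := hu2 s a b u' hst ha hb haE hbE hu'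
        have hds : d ∉ s := fun h => hst d h hdt
        have hds' : d' ∉ s := fun h => hst d' h hdt'
        have e2 := (hu' d d' hds hds').1 hdd
        have ha' := hne a haE (hst a ha)
        have hb' := hne b hbE (hst b hb)
        have e3 := cr_symm (x := x) (a := d) (b := d') (c := a) (d := b) ha'.1 hb'.1 ha'.2 hb'.2
        unfold cr at e1 e3 ⊢
        simp only []
        linear_combination e1 - e2 - e3 + (u' d - hh x d a - hh x d b) * two_zero
    · refine ⟨u, ?_, ?_⟩
      · intro q q' hq hq'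
        obtain ⟨k1, k2⟩ := hu1 q q' hq hq'
        refine ⟨k1, fun hqq => ?_⟩
        obtain ⟨hqE, hqE'⟩ := hLE _ _ hqq
        have e1 := k2 hqq
        have e2 := cr_zero hLs hLn hdd hqq (hne q hqE hq).1 (hne q' hqE' hq').1
          (hne q hqE hq).2 (hne q' hqE' hq').2
        unfold cr at e1 e2 ⊢
        linear_combination e1 - e2 + (hh x q d + hh x q' d) * two_zero
      · intro s a b u' hst ha hb haE hbE hu'
        have e1 := hu2 s a b u' hst ha hb haE hbE hu'
        have hds : d ∉ s := fun h => hst d h hdt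
        have hds' : d' ∉ s := fun h => hst d' h hdt'
        have e2 := (hu' d d' hds hds').2 hdd
        unfold cr at e1 e2 ⊢
        linear_combination e1 - e2 + (u' d - hh x d a - hh x d b) * two_zero

/-- A relation which is the union of two non-crossing relations has no `K_5` minor. -/
theorem k5free_of_pages {x : V → ℝ} {E : Finset V} {Up Low : V → V → Prop}
    (hinj : ∀ s ∈ E, ∀ t ∈ E, x s = x t → s = t)
    (hUE : ∀ s t, Up s t → s ∈ E ∧ t ∈ E) (hLE : ∀ s t, Low s t → s ∈ E ∧ t ∈ E)
    (hUs : ∀ s t, Up s t → Up t s) (hLs : ∀ s t, Low s t → Low t s)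
    (hUn : ∀ a b c d, Up a b → Up c d → ¬ (x a < x c ∧ x c < x b ∧ x b < x d))
    (hLn : ∀ a b c d, Low a b → Low c d → ¬ (x a < x c ∧ x c < x b ∧ x b < x d)) :
    K5Free (fun s t => Up s t ∨ Low s t) := by
  intro C hC hD hA
  have hadj : ∀ s t, (Up s t ∨ Low s t) → (Up t s ∨ Low t s) := by
    intro s t h
    rcases h with h | h
    · exact Or.inl (hUs _ _ h)
    · exact Or.inr (hLs _ _ h)
  have hE : ∀ s t, (Up s t ∨ Low s t) → s ∈ E ∧ t ∈ E := by
    intro s t h
    rcases h with h | h
    · exact hUE _ _ h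
    · exact hLE _ _ h
  -- representatives
  have hv : ∀ i : Fin 5, ∃ v ∈ C i, v ∈ E := by
    intro i
    obtain ⟨y, hy, z, hz, hyz⟩ := hA i (i + 1) (by revert i; decide)
    exact ⟨y, hy, (hE _ _ hyz).1⟩
  choose v hvC hvE using hv
  have hvne : ∀ i j, i ≠ j → x (v i) ≠ x (v j) := by
    intro i j hij e
    have := hinj _ (hvE i) _ (hvE j) e
    exact disjoint_left.1 (hD i j hij) (hvC i) (this ▸ hvC j)
  -- walks
  have hwalk : ∀ i j : Fin 5, i ≠ j →
      Linked (fun s t => Up s t ∨ Low s t) (C i ∪ C j) (v i) (v j) := by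
    intro i j hij
    obtain ⟨y, hy, z, hz, hyz⟩ := hA i j hij
    have h1 := ((hC i).2 _ (hvC i) y hy).mono (subset_union_left : C i ⊆ C i ∪ C j)
    have h2 := ((hC j).2 z hz _ (hvC j)).mono (subset_union_right : C j ⊆ C i ∪ C j)
    exact (h1.tail ⟨hyz, mem_union_left _ hy, mem_union_right _ hz⟩).trans h2
  have hfun : ∀ i j : Fin 5, ∃ u : V → ZMod 2, i ≠ j →
      (PhiProp x Up Low (C i ∪ C j) (v i) (v j) u ∧
      ∀ (s : Finset V) (a b : V) (u' : V → ZMod 2), (∀ z ∈ s, z ∉ C i ∪ C j) → a ∈ s → b ∈ s →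
        a ∈ E → b ∈ E → PhiProp x Up Low s a b u' →
        cr x a b (v i) (v j) = u' (v i) + u' (v j) + u a + u b) := by
    intro i j
    by_cases hij : i = j
    · exact ⟨fun _ => 0, fun h => absurd hij h⟩
    · obtain ⟨u, h1, h2⟩ := walk_function hinj hUE hLE hUs hLs hUn hLn (C i ∪ C j) (v i) (v j)
        (hwalk i j hij)
      exact ⟨u, fun _ => ⟨h1, h2⟩⟩
  choose u hu using hfun
  -- the relation for two disjoint pairs
  have key : ∀ i j k l : Fin 5, i ≠ j → k ≠ l → i ≠ k → i ≠ l → j ≠ k → j ≠ l →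
      cr x (v i) (v j) (v k) (v l) = u i j (v k) + u i j (v l) + u k l (v i) + u k l (v j) := by
    intro i j k l hij hkl hik hil hjk hjl
    refine (hu k l hkl).2 (C i ∪ C j) (v i) (v j) (u i j) ?_ (mem_union_left _ (hvC i))
      (mem_union_right _ (hvC j)) (hvE i) (hvE j) (hu i j hij).1
    intro z hz hz'
    rcases mem_union.1 hz with hz | hz <;> rcases mem_union.1 hz' with hz' | hz'
    · exact disjoint_left.1 (hD i k hik) hz hz'
    · exact disjoint_left.1 (hD i l hil) hz hz'
    · exact disjoint_left.1 (hD j k hjk) hz hz'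
    · exact disjoint_left.1 (hD j l hjl) hz hz'
  -- four points
  have four : ∀ i j k l : Fin 5, j ≠ k → j ≠ l → k ≠ l →
      cr x (v i) (v j) (v k) (v l) + cr x (v i) (v k) (v j) (v l) + cr x (v i) (v l) (v j) (v k)
        = 1 := by
    intro i j k l hjk hjl hkl
    have e1 := hh_add (hvne j k hjk)
    have e2 := hh_add (hvne j l hjl)
    have e3 := hh_add (hvne k l hkl)
    unfold cr
    linear_combination e1 + e2 + e3 +
      (hh x (v j) (v i) + hh x (v k) (v i) + hh x (v l) (v i) + 1) * two_zero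
  have f1 := four 0 1 2 3 (by decide) (by decide) (by decide)
  have f2 := four 0 1 2 4 (by decide) (by decide) (by decide)
  have f3 := four 0 1 3 4 (by decide) (by decide) (by decide)
  have f4 := four 0 2 3 4 (by decide) (by decide) (by decide)
  have f5 := four 1 2 3 4 (by decide) (by decide) (by decide)
  have g1 := key 0 1 2 3 (by decide) (by decide) (by decide) (by decide) (by decide) (by decide)
  have g2 := key 0 2 1 3 (by decide) (by decide) (by decide) (by decide) (by decide) (by decide)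
  have g3 := key 0 3 1 2 (by decide) (by decide) (by decide) (by decide) (by decide) (by decide)
  have g4 := key 0 1 2 4 (by decide) (by decide) (by decide) (by decide) (by decide) (by decide)
  have g5 := key 0 2 1 4 (by decide) (by decide) (by decide) (by decide) (by decide) (by decide)
  have g6 := key 0 4 1 2 (by decide) (by decide) (by decide) (by decide) (by decide) (by decide)
  have g7 := key 0 1 3 4 (by decide) (by decide) (by decide) (by decide) (by decide) (by decide)
  have g8 := key 0 3 1 4 (by decide) (by decide) (by decide) (by decide) (by decide) (by decide)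
  have g9 := key 0 4 1 3 (by decide) (by decide) (by decide) (by decide) (by decide) (by decide)
  have g10 := key 0 2 3 4 (by decide) (by decide) (by decide) (by decide) (by decide) (by decide)
  have g11 := key 0 3 2 4 (by decide) (by decide) (by decide) (by decide) (by decide) (by decide)
  have g12 := key 0 4 2 3 (by decide) (by decide) (by decide) (by decide) (by decide) (by decide)
  have g13 := key 1 2 3 4 (by decide) (by decide) (by decide) (by decide) (by decide) (by decide)
  have g14 := key 1 3 2 4 (by decide) (by decide) (by decide) (by decide) (by decide) (by decide)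
  have g15 := key 1 4 2 3 (by decide) (by decide) (by decide) (by decide) (by decide) (by decide)
  rw [g1, g2, g3] at f1
  rw [g4, g5, g6] at f2
  rw [g7, g8, g9] at f3
  rw [g10, g11, g12] at f4
  rw [g13, g14, g15] at f5
  have hfin : (0 : ZMod 2) = 1 := by
    linear_combination f1 + f2 + f3 + f4 + f5 + 2 * two_zero -
      (u 0 1 (v 2) + u 0 1 (v 3) + u 0 1 (v 4) + u 0 2 (v 1) + u 0 2 (v 3) + u 0 2 (v 4)
      + u 0 3 (v 1) + u 0 3 (v 2) + u 0 3 (v 4) + u 0 4 (v 1) + u 0 4 (v 2) + u 0 4 (v 3)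
      + u 1 2 (v 0) + u 1 2 (v 3) + u 1 2 (v 4) + u 1 3 (v 0) + u 1 3 (v 2) + u 1 3 (v 4)
      + u 1 4 (v 0) + u 1 4 (v 2) + u 1 4 (v 3) + u 2 3 (v 0) + u 2 3 (v 1) + u 2 3 (v 4)
      + u 2 4 (v 0) + u 2 4 (v 1) + u 2 4 (v 3) + u 3 4 (v 0) + u 3 4 (v 1) + u 3 4 (v 2))
      * two_zero
  exact absurd hfin (by decide)

/-- Consecutive elements of `E` with respect to `x`. -/
def Cons (E : Finset V) (x : V → ℝ) (s t : V) : Prop :=
  s ∈ E ∧ t ∈ E ∧ x s < x t ∧ ∀ u ∈ E, x u ≤ x s ∨ x t ≤ x u

/-- The adjacency relation of the graph of a two-page structure: consecutive in time or consecutive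
on the line. -/
def bookAdj (E : Finset ℝ) (x : ℝ → ℝ) (s t : ℝ) : Prop :=
  (Cons E id s t ∨ Cons E id t s) ∨ (Cons E x s t ∨ Cons E x t s)

lemma bookAdj_symm (E : Finset ℝ) (x : ℝ → ℝ) (s t : ℝ) (h : bookAdj E x s t) :
    bookAdj E x t s := by
  unfold bookAdj at *
  tauto

theorem IsBook.k5free {E : Finset ℝ} {x : ℝ → ℝ} {up low : ℝ → ℝ → Prop}
    (h : IsBook E x up low) : K5Free (bookAdj E x) := by
  set Up : ℝ → ℝ → Prop := fun s t => (s ∈ E ∧ t ∈ E ∧ up s t) ∨ (Cons E x s t ∨ Cons E x t s)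
    with hUp
  set Low : ℝ → ℝ → Prop := fun s t => (s ∈ E ∧ t ∈ E ∧ low s t) with hLow
  have hcons : ∀ a b c d, (Cons E x a b ∨ Cons E x b a) → c ∈ E → d ∈ E →
      ¬ (x a < x c ∧ x c < x b ∧ x b < x d) ∧ ¬ (x c < x a ∧ x a < x d ∧ x d < x b) := by
    intro a b c d hab hc hd
    constructor
    · rintro ⟨h1, h2, h3⟩
      rcases hab with hab | hab
      · rcases hab.2.2.2 c hc with k | k <;> linarith
      · have := hab.2.2.1
        linarith
    · rintro ⟨h1, h2, h3⟩
      rcases hab with hab | hab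
      · rcases hab.2.2.2 d hd with k | k <;> linarith
      · have := hab.2.2.1
        linarith
  refine K5Free.mono (k5free_of_pages (x := x) (E := E) (Up := Up) (Low := Low) h.inj ?_ ?_ ?_ ?_
    ?_ ?_) ?_
  · intro s t hst
    rcases hst with hst | hst | hst
    · exact ⟨hst.1, hst.2.1⟩
    · exact ⟨hst.1, hst.2.1⟩
    · exact ⟨hst.2.1, hst.1⟩
  · intro s t hst
    exact ⟨hst.1, hst.2.1⟩
  · intro s t hst
    rcases hst with hst | hst | hst
    · exact Or.inl ⟨hst.2.1, hst.1, h.up_symm _ _ hst.2.2⟩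
    · exact Or.inr (Or.inr hst)
    · exact Or.inr (Or.inl hst)
  · intro s t hst
    exact ⟨hst.2.1, hst.1, h.low_symm _ _ hst.2.2⟩
  · intro a b c d hab hcd
    rcases hab with hab | hab
    · rcases hcd with hcd | hcd
      · exact h.up_nc a hab.1 b hab.2.1 c hcd.1 d hcd.2.1 hab.2.2 hcd.2.2
      · intro hx
        exact (hcons c d a b hcd hab.1 hab.2.1).2 hx
    · have hcE : c ∈ E ∧ d ∈ E := by
        rcases hcd with hcd | hcd | hcd
        · exact ⟨hcd.1, hcd.2.1⟩
        · exact ⟨hcd.1, hcd.2.1⟩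
        · exact ⟨hcd.2.1, hcd.1⟩
      exact (hcons a b c d hab hcE.1 hcE.2).1
  · intro a b c d hab hcd
    exact h.low_nc a hab.1 b hab.2.1 c hcd.1 d hcd.2.1 hab.2.2 hcd.2.2
  · intro s t hst
    rcases hst with (hst | hst) | hst
    · rcases h.arc s hst.1 t hst.2.1 hst.2.2.1 hst.2.2.2 with k | k
      · exact Or.inl (Or.inl ⟨hst.1, hst.2.1, k⟩)
      · exact Or.inr ⟨hst.1, hst.2.1, k⟩
    · rcases h.arc t hst.1 s hst.2.1 hst.2.2.1 hst.2.2.2 with k | k
      · exact Or.inl (Or.inl ⟨hst.2.1, hst.1, h.up_symm _ _ k⟩)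
      · exact Or.inr ⟨hst.2.1, hst.1, h.low_symm _ _ k⟩
    · exact Or.inl (Or.inr hst)

end Pool.Agent.Work.MP_09dd0a_co
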