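import Mathlib

/-!
Counting sequences with few breaks, and permutations compatible with two colour sequences.
-/

namespace Pool.Agent.Work.MP_09dd0a_co

open Finset

/-- the number of adjacent distinct entries -/
def brk {α : Type*} [DecidableEq α] : List α → ℕ
  | [] => 0
  | [_] => 0
  | a :: b :: l => (if a = b then 0 else 1) + brk (b :: l)

/-- all bit lists of length `k` -/
def bits : ℕ → Finset (List Bool)
  | 0 => {[]}
  | k + 1 => (bits k).image (List.cons true) ∪ (bits k).image (List.cons false)

lemma mem_bits {k : ℕ} : ∀ {l : List Bool}, l ∈ bits k ↔ l.length = k := by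
  induction k with
  | zero =>
    intro l
    rw [bits, mem_singleton, List.length_eq_zero_iff]
  | succ k ih =>
    intro l
    rw [bits, mem_union, mem_image, mem_image]
    constructor
    · rintro (⟨l', h, rfl⟩ | ⟨l', h, rfl⟩)
      · rw [List.length_cons, ih.mp h]
      · rw [List.length_cons, ih.mp h]
    · intro h
      cases l with
      | nil => simp at h
      | cons b l =>
        rw [List.length_cons, Nat.add_right_cancel_iff] at h
        cases b with
        | true => exact Or.inl ⟨l, ih.mpr h, rfl⟩
        | false => exact Or.inr ⟨l, ih.mpr h, rfl⟩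

lemma sum_bits_succ (k : ℕ) (f : List Bool → ℝ) :
    ∑ β ∈ bits (k + 1), f β = ∑ β ∈ bits k, (f (true :: β) + f (false :: β)) := by
  rw [bits, sum_union, sum_image, sum_image, sum_add_distrib]
  · intro a _ b _ h
    exact List.tail_eq_of_cons_eq h
  · intro a _ b _ h
    exact List.tail_eq_of_cons_eq h
  · rw [disjoint_left]
    intro l h1 h2
    rw [mem_image] at h1 h2
    obtain ⟨l1, _, rfl⟩ := h1
    obtain ⟨l2, _, h⟩ := h2
    simp at h

lemma sum_bits (k : ℕ) (x : ℝ) : ∑ β ∈ bits (k + 1), x ^ brk β = 2 * (1 + x) ^ k := by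
  induction k with
  | zero =>
    rw [sum_bits_succ]
    simp [bits, brk]
    norm_num
  | succ k ih =>
    rw [sum_bits_succ, pow_succ, ← mul_assoc, ← ih, sum_mul]
    apply sum_congr rfl
    intro β hβ
    rw [mem_bits] at hβ
    cases β with
    | nil => simp at hβ
    | cons b l =>
      cases b with
      | true =>
        simp only [brk]
        simp
        ring
      | false =>
        simp only [brk]
        simp
        ring

/-- few bit lists have few breaks -/
lemma card_bits_le {k : ℕ} {S x : ℝ} (hx : 0 < x) (hx1 : x ≤ 1) :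
    (((bits k).filter (fun β => (brk β : ℝ) ≤ S)).card : ℝ) ≤ 2 * (1 + x) ^ k * x ^ (-S) := by
  have hxS : 0 < x ^ S := Real.rpow_pos_of_pos hx S
  rw [Real.rpow_neg hx.le, ← div_eq_mul_inv, le_div_iff₀ hxS]
  have h1 : (((bits k).filter (fun β => (brk β : ℝ) ≤ S)).card : ℝ) * x ^ S ≤
      ∑ β ∈ bits k, x ^ brk β := by
    calc (((bits k).filter (fun β => (brk β : ℝ) ≤ S)).card : ℝ) * x ^ S
        = ∑ β ∈ (bits k).filter (fun β => (brk β : ℝ) ≤ S), x ^ S := by
          rw [sum_const, nsmul_eq_mul]
      _ ≤ ∑ β ∈ (bits k).filter (fun β => (brk β : ℝ) ≤ S), x ^ brk β := by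
          apply sum_le_sum
          intro β hβ
          rw [mem_filter] at hβ
          rw [← Real.rpow_natCast x (brk β)]
          exact Real.rpow_le_rpow_of_exponent_ge hx hx1 hβ.2
      _ ≤ _ := by
          apply sum_le_sum_of_subset_of_nonneg (filter_subset _ _)
          intro β _ _
          positivity
  apply h1.trans
  cases k with
  | zero =>
    simp [bits, brk]
  | succ k =>
    rw [sum_bits]
    apply mul_le_mul_of_nonneg_left _ (by norm_num)
    exact pow_le_pow_right₀ (by linarith) (by omega)

/-- colours from bits -/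
def colour {τ : Type*} (bit : ℕ → τ → Bool) : ℕ → τ → ℕ
  | 0, _ => 0
  | j + 1, v => 2 * colour bit j v + (bit j v).toNat

/-- all colour lists of length `k` obtained from bit lists with few breaks -/
noncomputable def Acal (k : ℕ) (S : ℕ → ℝ) : ℕ → Finset (List ℕ)
  | 0 => {List.replicate k 0}
  | J + 1 => image₂ (fun a β => List.zipWith (fun c b => 2 * c + Bool.toNat b) a β) (Acal k S J)
      ((bits k).filter (fun β => (brk β : ℝ) ≤ S J))

lemma mem_Acal {τ : Type*} {bit : ℕ → τ → Bool} {l : List τ} {S : ℕ → ℝ} {J : ℕ}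
    (h : ∀ j < J, (brk (l.map (bit j)) : ℝ) ≤ S j) :
    l.map (colour bit J) ∈ Acal l.length S J := by
  induction J with
  | zero =>
    rw [Acal, mem_singleton]
    simp [colour]
  | succ J ih =>
    rw [Acal, mem_image₂]
    refine ⟨_, ih fun j hj => h j (by omega), l.map (bit J), ?_, ?_⟩
    · rw [mem_filter, mem_bits, List.length_map]
      exact ⟨rfl, h J (by omega)⟩
    · rw [List.zipWith_map]
      clear h ih
      induction l with
      | nil => rfl
      | cons v l ih2 =>
        rw [List.zipWith_cons_cons, ih2, List.map_cons]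
        rfl

lemma card_Acal_le (k : ℕ) (S : ℕ → ℝ) (J : ℕ) :
    ((Acal k S J).card : ℝ) ≤ ∏ j ∈ range J, (((bits k).filter (fun β => (brk β : ℝ) ≤ S j)).card : ℝ) := by
  induction J with
  | zero => simp [Acal]
  | succ J ih =>
    rw [Acal, prod_range_succ]
    have := card_image₂_le (fun (a : List ℕ) β => List.zipWith (fun c b => 2 * c + Bool.toNat b) a β)
      (Acal k S J) ((bits k).filter (fun β => (brk β : ℝ) ≤ S J))
    calc _ ≤ ((Acal k S J).card : ℝ) * (((bits k).filter (fun β => (brk β : ℝ) ≤ S J)).card : ℝ) := by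
          exact_mod_cast this
      _ ≤ _ := mul_le_mul_of_nonneg_right ih (by positivity)

/-- the numerical bound for the number of colour lists -/
theorem card_Acal_bound {θ : ℝ} (h0 : 0 < θ) (h1 : θ < 1) {C : ℝ} (hC : 0 < C) :
    ∃ K : ℝ, 1 ≤ K ∧ ∀ (k J : ℕ), ((Acal k (fun j => C * k * θ ^ (J - j)) J).card : ℝ) ≤ 2 ^ J * K ^ k := by
  set L := Real.log (1 / θ) with hL
  have hL0 : 0 < L := by
    apply Real.log_pos
    rw [lt_div_iff₀ h0]
    linarith
  have hs1 : Summable (fun i : ℕ => θ ^ i) := summable_geometric_of_lt_one h0.le h1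
  have hs2 : Summable (fun i : ℕ => (i : ℝ) * θ ^ i) := by
    have := summable_pow_mul_geometric_of_norm_lt_one (R := ℝ) 1 (r := θ)
      (by rw [Real.norm_of_nonneg h0.le]; exact h1)
    simpa using this
  set M : ℕ → ℝ := fun i => θ ^ i + C * L * (i * θ ^ i) with hM
  have hMs : Summable M := hs1.add (hs2.mul_left _)
  have hM0 : ∀ i, 0 ≤ M i := by
    intro i
    rw [hM]
    positivity
  refine ⟨Real.exp (∑' i, M i), Real.one_le_exp (tsum_nonneg hM0), ?_⟩
  intro k J
  have hstep : ∀ i : ℕ, (((bits k).filter (fun β => (brk β : ℝ) ≤ C * k * θ ^ i)).card : ℝ) ≤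
      2 * Real.exp (k * M i) := by
    intro i
    have hti : 0 < θ ^ i := pow_pos h0 i
    have h2 := card_bits_le (k := k) (S := C * k * θ ^ i) hti (pow_le_one₀ h0.le h1.le)
    apply h2.trans
    rw [mul_assoc]
    apply mul_le_mul_of_nonneg_left _ (by norm_num)
    have h3 : (1 + θ ^ i) ^ k ≤ Real.exp (k * θ ^ i) := by
      rw [mul_comm, Real.exp_mul, Real.rpow_natCast]
      apply pow_le_pow_left₀ (by positivity)
      have := Real.add_one_le_exp (θ ^ i)
      linarith
    have h4 : (θ ^ i) ^ (-(C * k * θ ^ i)) = Real.exp (k * (C * L * (i * θ ^ i))) := by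
      rw [Real.rpow_def_of_pos hti]
      congr 1
      rw [Real.log_pow, hL, one_div, Real.log_inv]
      ring
    rw [h4]
    calc (1 + θ ^ i) ^ k * Real.exp (k * (C * L * (i * θ ^ i)))
        ≤ Real.exp (k * θ ^ i) * Real.exp (k * (C * L * (i * θ ^ i))) :=
          mul_le_mul_of_nonneg_right h3 (Real.exp_nonneg _)
      _ = Real.exp (k * M i) := by
          rw [← Real.exp_add, hM]
          congr 1
          ring
  apply (card_Acal_le _ _ _).trans
  calc ∏ j ∈ range J, (((bits k).filter (fun β => (brk β : ℝ) ≤ C * k * θ ^ (J - j))).card : ℝ)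
      ≤ ∏ j ∈ range J, (2 * Real.exp (k * M (J - j))) := by
        apply prod_le_prod
        · intro j _
          positivity
        · intro j _
          exact hstep _
    _ = 2 ^ J * Real.exp (k * ∑ j ∈ range J, M (J - j)) := by
        rw [prod_mul_distrib, prod_const, card_range, ← Real.exp_sum, mul_sum]
    _ ≤ 2 ^ J * Real.exp (∑' i, M i) ^ k := by
        apply mul_le_mul_of_nonneg_left _ (by positivity)
        rw [← Real.exp_nat_mul]
        apply Real.exp_le_exp.mpr
        apply mul_le_mul_of_nonneg_left _ (by positivity)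
        have h5 : ∑ j ∈ range J, M (J - j) = ∑ i ∈ (range J).image (fun j => J - j), M i := by
          rw [sum_image]
          intro a ha b hb hab
          simp only [coe_range, Set.mem_Iio] at ha hb
          simp only at hab
          omega
        rw [h5]
        exact hMs.sum_le_tsum _ fun i _ => hM0 i

/-- the lists compatible with a colour list -/
noncomputable def compat (cand : ℕ → Finset ℝ) : List ℕ → Finset (List ℝ)
  | [] => {[]}
  | α :: a => image₂ List.cons (cand α) (compat cand a)

lemma card_compat_le {cand : ℕ → Finset ℝ} {R : ℝ} (hR : ∀ α, ((cand α).card : ℝ) ≤ R)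
    (a : List ℕ) : ((compat cand a).card : ℝ) ≤ R ^ a.length := by
  have hR0 : 0 ≤ R := le_trans (by positivity) (hR 0)
  induction a with
  | nil => simp [compat]
  | cons α a ih =>
    rw [compat, List.length_cons, pow_succ']
    have := card_image₂_le List.cons (cand α) (compat cand a)
    calc _ ≤ ((cand α).card : ℝ) * ((compat cand a).card : ℝ) := by exact_mod_cast this
      _ ≤ _ := mul_le_mul (hR α) ih (by positivity) hR0

lemma mem_compat {cand : ℕ → Finset ℝ} {c : ℝ → ℕ} {l : List ℝ} (h : ∀ v ∈ l, v ∈ cand (c v)) :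
    l ∈ compat cand (l.map c) := by
  induction l with
  | nil => simp [compat]
  | cons v l ih =>
    rw [List.map_cons, compat, mem_image₂]
    exact ⟨v, h v (by simp), l, ih fun u hu => h u (by simp [hu]), rfl⟩

/-- the elements of `lp` of colour `α`, when `b` lists the colours of `lp` -/
noncomputable def cand (lp : List ℝ) (b : List ℕ) (α : ℕ) : Finset ℝ :=
  ((lp.zip b).filter (fun z => z.2 = α)).map Prod.fst |>.toFinset

lemma mem_cand {lp : List ℝ} {c : ℝ → ℕ} {α : ℕ} {v : ℝ} :
    v ∈ cand lp (lp.map c) α ↔ v ∈ lp ∧ c v = α := by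
  unfold cand
  rw [List.mem_toFinset, List.mem_map]
  constructor
  · rintro ⟨z, hz, rfl⟩
    rw [List.mem_filter, List.zip_map_right] at hz
    obtain ⟨h1, h2⟩ := hz
    rw [List.mem_map] at h1
    obtain ⟨y, hy, rfl⟩ := h1
    have := List.of_mem_zip (l₁ := lp) (l₂ := lp) (a := y.1) (b := y.2) hy
    have h3 : y.1 = y.2 := by
      clear h2 this
      induction lp with
      | nil => simp at hy
      | cons u lp ih =>
        rw [List.zip_cons_cons, List.mem_cons] at hy
        rcases hy with rfl | hy
        · rfl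
        · exact ih hy
    simp only [Prod.map_fst, Prod.map_snd, id_eq, decide_eq_true_eq] at h2 ⊢
    rw [h3]
    exact ⟨this.2, h2⟩
  · rintro ⟨h1, h2⟩
    refine ⟨(v, α), ?_, rfl⟩
    rw [List.mem_filter]
    refine ⟨?_, by simp⟩
    rw [List.zip_map_right, List.mem_map]
    refine ⟨(v, v), ?_, by simp [h2]⟩
    clear h2
    induction lp with
    | nil => simp at h1
    | cons u lp ih =>
      rw [List.zip_cons_cons, List.mem_cons]
      rw [List.mem_cons] at h1
      rcases h1 with rfl | h1
      · exact Or.inl rfl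
      · exact Or.inr (ih h1)

/-- **Counting of the patterns.** -/
theorem count_final {θ : ℝ} (h0 : 0 < θ) (h1 : θ < 1) {C : ℝ} (hC : 0 < C) :
    ∃ K : ℝ, 1 ≤ K ∧ ∀ (J : ℕ) (R : ℝ) (lp : List ℝ), 0 ≤ R →
      {lq : List ℝ | lq.Perm lp ∧ ∃ bit : ℕ → ℝ → Bool,
        (∀ j < J, (brk (lp.map (bit j)) : ℝ) ≤ C * lp.length * θ ^ (J - j) ∧
          (brk (lq.map (bit j)) : ℝ) ≤ C * lp.length * θ ^ (J - j)) ∧
        ∀ α, ((lp.toFinset.filter (fun v => colour bit J v = α)).card : ℝ) ≤ R}.Finite ∧
      ({lq : List ℝ | lq.Perm lp ∧ ∃ bit : ℕ → ℝ → Bool,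
        (∀ j < J, (brk (lp.map (bit j)) : ℝ) ≤ C * lp.length * θ ^ (J - j) ∧
          (brk (lq.map (bit j)) : ℝ) ≤ C * lp.length * θ ^ (J - j)) ∧
        ∀ α, ((lp.toFinset.filter (fun v => colour bit J v = α)).card : ℝ) ≤ R}.ncard : ℝ) ≤
        4 ^ J * (K * R) ^ lp.length := by
  classical
  obtain ⟨K, hK1, hK⟩ := card_Acal_bound h0 h1 hC
  refine ⟨K ^ 2, one_le_pow₀ hK1, ?_⟩
  intro J R lp hR0
  set k := lp.length with hk
  set A := Acal k (fun j => C * k * θ ^ (J - j)) J with hA
  set T := {lq : List ℝ | lq.Perm lp ∧ ∃ bit : ℕ → ℝ → Bool,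
        (∀ j < J, (brk (lp.map (bit j)) : ℝ) ≤ C * k * θ ^ (J - j) ∧
          (brk (lq.map (bit j)) : ℝ) ≤ C * k * θ ^ (J - j)) ∧
        ∀ α, ((lp.toFinset.filter (fun v => colour bit J v = α)).card : ℝ) ≤ R} with hT
  -- the covering family
  set D : Finset (List ℝ) := (A ×ˢ A).biUnion (fun ab =>
    if ∀ α, ((cand lp ab.2 α).card : ℝ) ≤ R then compat (cand lp ab.2) ab.1 else ∅) with hD
  have hsub : T ⊆ (D : Set (List ℝ)) := by
    intro lq hlq
    obtain ⟨hperm, bit, hb, hcl⟩ := hlq
    have hlen : lq.length = k := hperm.length_eq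
    rw [hD, mem_coe, mem_biUnion]
    refine ⟨(lq.map (colour bit J), lp.map (colour bit J)), ?_, ?_⟩
    · rw [mem_product]
      constructor
      · have := mem_Acal (bit := bit) (l := lq) (S := fun j => C * k * θ ^ (J - j)) (J := J)
          (fun j hj => (hb j hj).2)
        rw [hlen] at this
        exact this
      · exact mem_Acal (bit := bit) (l := lp) (S := fun j => C * k * θ ^ (J - j)) (J := J)
          (fun j hj => (hb j hj).1)
    · rw [if_pos]
      · apply mem_compat
        intro v hv
        rw [mem_cand]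
        exact ⟨hperm.mem_iff.mp hv, rfl⟩
      · intro α
        have h2 : cand lp (lp.map (colour bit J)) α =
            lp.toFinset.filter (fun v => colour bit J v = α) := by
          ext v
          rw [mem_cand, mem_filter, List.mem_toFinset]
        simp only
        rw [h2]
        exact hcl α
  have hfin : T.Finite := D.finite_toSet.subset hsub
  refine ⟨hfin, ?_⟩
  have h3 : (T.ncard : ℝ) ≤ D.card := by
    have := Set.ncard_le_ncard hsub D.finite_toSet
    rw [Set.ncard_coe_finset] at this
    exact_mod_cast this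
  · have hlenA : ∀ J' (S : ℕ → ℝ), ∀ a ∈ Acal k S J', a.length = k := by
      intro J' S
      induction J' with
      | zero =>
        intro a ha
        rw [Acal, mem_singleton] at ha
        rw [ha, List.length_replicate]
      | succ J' ih =>
        intro a ha
        rw [Acal, mem_image₂] at ha
        obtain ⟨a', ha', β, hβ, rfl⟩ := ha
        rw [List.length_zipWith, ih a' ha', mem_bits.mp (mem_filter.mp hβ).1, min_self]
    have h4 : (D.card : ℝ) ≤ (A.card : ℝ) ^ 2 * R ^ k := by
      calc (D.card : ℝ) ≤ ∑ ab ∈ A ×ˢ A, ((if ∀ α, ((cand lp ab.2 α).card : ℝ) ≤ R then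
              compat (cand lp ab.2) ab.1 else ∅).card : ℝ) := by
            exact_mod_cast card_biUnion_le
        _ ≤ ∑ ab ∈ A ×ˢ A, R ^ k := by
            apply sum_le_sum
            intro ab hab
            rw [mem_product] at hab
            split_ifs with h5
            · have := card_compat_le h5 ab.1
              rw [hlenA _ _ _ hab.1] at this
              exact this
            · simp only [card_empty, Nat.cast_zero]
              positivity
        _ = (A.card : ℝ) ^ 2 * R ^ k := by
            rw [sum_const, card_product, nsmul_eq_mul]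
            push_cast
            ring
    have h5 := hK k J
    calc (T.ncard : ℝ) ≤ (A.card : ℝ) ^ 2 * R ^ k := h3.trans h4
      _ ≤ (2 ^ J * K ^ k) ^ 2 * R ^ k := by
          apply mul_le_mul_of_nonneg_right _ (by positivity)
          exact pow_le_pow_left₀ (by positivity) h5 2
      _ = 4 ^ J * (K ^ 2 * R) ^ k := by
          have : (4 : ℝ) ^ J = (2 ^ J) ^ 2 := by
            rw [← pow_mul, mul_comm, pow_mul]
            norm_num
          rw [this]
          ring

end Pool.Agent.Work.MP_09dd0a_co
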