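import Mathlib

/-!
# Two paths in the closed upper half plane with interleaving end points on the real axis meet
-/

namespace Pool.Agent.Work.MP_09dd0a_co

open Set Complex

/-- A continuous angle whose sine stays nonnegative stays in its interval `[0, π] + c`, where
`c` is a period of the sine. -/
lemma angle_stays (θ : ℝ → ℝ) (hθ : ContinuousOn θ (Icc 0 1)) (c : ℝ)
    (hs : ∀ s ∈ Icc (0 : ℝ) 1, 0 ≤ Real.sin (θ s - c))
    (h0 : θ 0 - c ∈ Icc 0 Real.pi) : θ 1 - c ∈ Icc 0 Real.pi := by
  have hpi := Real.pi_pos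
  by_contra hcon
  rw [mem_Icc, not_and_or] at hcon
  have h01 : (0 : ℝ) ≤ 1 := zero_le_one
  rcases hcon with h | h
  · push Not at h
    -- passes through the value max (θ 1 - c) (-π/2)
    set v := max (θ 1) (c - Real.pi / 2) with hv
    have hmem : v ∈ Icc (θ 1) (θ 0) := by
      constructor
      · exact le_max_left _ _
      · apply max_le
        · linarith [h0.1]
        · linarith [h0.1]
    obtain ⟨s, hs1, hs2⟩ := intermediate_value_Icc' h01 hθ hmem
    have h3 := hs s hs1
    rw [hs2] at h3
    have h4 : v - c < 0 := by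
      have : v < c := max_lt (by linarith) (by linarith)
      linarith
    have h5 : -Real.pi < v - c := by
      have : c - Real.pi / 2 ≤ v := le_max_right _ _
      linarith
    have h6 := Real.sin_neg_of_neg_of_neg_pi_lt h4 h5
    linarith
  · push Not at h
    set v := min (θ 1) (c + 3 * Real.pi / 2) with hv
    have hmem : v ∈ Icc (θ 0) (θ 1) := by
      constructor
      · apply le_min
        · linarith [h0.2]
        · linarith [h0.2]
      · exact min_le_left _ _
    obtain ⟨s, hs1, hs2⟩ := intermediate_value_Icc h01 hθ hmem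
    have h3 := hs s hs1
    rw [hs2] at h3
    have h4 : 0 < v - c - Real.pi := by
      have : c + Real.pi < v := lt_min (by linarith) (by linarith)
      linarith
    have h5 : v - c - Real.pi < Real.pi := by
      have : v ≤ c + 3 * Real.pi / 2 := min_le_right _ _
      linarith
    have h6 := Real.sin_pos_of_pos_of_lt_pi h4 h5
    rw [Real.sin_sub_pi] at h6
    linarith

/-- Existence of a continuous logarithm on the plane. -/
lemma exists_log_plane (f : ℝ × ℝ → ℂ) (hf : Continuous f) (hne : ∀ t, f t ≠ 0) (a : ℂ)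
    (ha : Complex.exp a = f (0, 0)) :
    ∃ g : ℝ × ℝ → ℂ, Continuous g ∧ (∀ t, Complex.exp (g t) = f t) ∧ g (0, 0) = a := by
  have key := Complex.isCoveringMapOn_exp.existsUnique_continuousMap_lifts
    (⟨f, hf⟩ : C(ℝ × ℝ, ℂ)) (a₀ := (0, 0)) (e₀ := a) (by simpa using ha)
    (fun t => by simpa using hne t)
  obtain ⟨G, ⟨h0, h1⟩, -⟩ := key
  exact ⟨G, G.continuous, fun t => congrFun h1 t, h0⟩

lemma sin_eq_zero_of_exp_real {z : ℂ} {r : ℝ} (h : Complex.exp z = (r : ℂ)) :
    Real.sin z.im = 0 := by
  have h1 : (Complex.exp z).im = 0 := by rw [h]; simp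
  rw [Complex.exp_im] at h1
  rcases mul_eq_zero.1 h1 with h2 | h2
  · exact absurd h2 (Real.exp_pos _).ne'
  · exact h2

lemma cos_pos_of_exp_real {z : ℂ} {r : ℝ} (h : Complex.exp z = (r : ℂ)) (hr : 0 < r) :
    0 < Real.cos z.im := by
  have h1 : (Complex.exp z).re = r := by rw [h]; simp
  rw [Complex.exp_re] at h1
  by_contra hcon
  push Not at hcon
  have := mul_nonpos_of_nonneg_of_nonpos (Real.exp_pos z.re).le hcon
  linarith

lemma cos_neg_of_exp_real {z : ℂ} {r : ℝ} (h : Complex.exp z = (r : ℂ)) (hr : r < 0) :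
    Real.cos z.im < 0 := by
  have h1 : (Complex.exp z).re = r := by rw [h]; simp
  rw [Complex.exp_re] at h1
  by_contra hcon
  push Not at hcon
  have := mul_nonneg (Real.exp_pos z.re).le hcon
  linarith

lemma sin_nonneg_of_exp_im {z : ℂ} (h : 0 ≤ (Complex.exp z).im) : 0 ≤ Real.sin z.im := by
  rw [Complex.exp_im] at h
  exact nonneg_of_mul_nonneg_right h (Real.exp_pos _)

lemma sin_nonpos_of_exp_im {z : ℂ} (h : (Complex.exp z).im ≤ 0) : Real.sin z.im ≤ 0 := by
  rw [Complex.exp_im] at h
  by_contra hcon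
  push Not at hcon
  have := mul_pos (Real.exp_pos z.re) hcon
  linarith

/-- In `[0, π]` the sine vanishes at the end points only. -/
lemma eq_zero_or_pi {x : ℝ} (h : x ∈ Icc 0 Real.pi) (hs : Real.sin x = 0) :
    x = 0 ∨ x = Real.pi := by
  rcases eq_or_lt_of_le h.1 with h1 | h1
  · exact Or.inl h1.symm
  · rcases eq_or_lt_of_le h.2 with h2 | h2
    · exact Or.inr h2
    · have := Real.sin_pos_of_pos_of_lt_pi h1 h2
      linarith

/-- The closed interval retraction. -/
noncomputable def clamp (x : ℝ) : ℝ := max 0 (min 1 x)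

lemma clamp_mem (x : ℝ) : clamp x ∈ Icc (0 : ℝ) 1 := by
  unfold clamp
  constructor
  · exact le_max_left _ _
  · exact max_le zero_le_one (min_le_left _ _)

lemma clamp_of_mem {x : ℝ} (h : x ∈ Icc (0 : ℝ) 1) : clamp x = x := by
  unfold clamp
  rw [min_eq_right h.2, max_eq_right h.1]

lemma continuous_clamp : Continuous clamp := by
  unfold clamp
  fun_prop

/-- Two paths in the closed upper half plane whose end points interleave on the real axis meet. -/
theorem cross_paths (α β : ℝ → ℂ) (hα : Continuous α) (hβ : Continuous β)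
    (hα0 : ∀ s ∈ Icc (0 : ℝ) 1, 0 ≤ (α s).im) (hβ0 : ∀ t ∈ Icc (0 : ℝ) 1, 0 ≤ (β t).im)
    {a b c d : ℝ} (h1 : α 0 = a) (h2 : α 1 = b) (h3 : β 0 = c) (h4 : β 1 = d)
    (hac : a < c) (hcb : c < b) (hbd : b < d) :
    ∃ s ∈ Icc (0 : ℝ) 1, ∃ t ∈ Icc (0 : ℝ) 1, α s = β t := by
  by_contra hcon
  push Not at hcon
  have hpi := Real.pi_pos
  have m0 : (0 : ℝ) ∈ Icc (0 : ℝ) 1 := by constructor <;> norm_num
  have m1 : (1 : ℝ) ∈ Icc (0 : ℝ) 1 := by constructor <;> norm_num
  obtain ⟨G, hG, hexp, hG0⟩ := exists_log_plane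
    (fun p : ℝ × ℝ => α (clamp p.1) - β (clamp p.2))
    ((hα.comp (continuous_clamp.comp continuous_fst)).sub
      (hβ.comp (continuous_clamp.comp continuous_snd)))
    (fun p => sub_ne_zero.2 (hcon _ (clamp_mem p.1) _ (clamp_mem p.2)))
    ((Real.log (c - a) : ℂ) + Real.pi * I) (by
      rw [Complex.exp_add, Complex.exp_pi_mul_I, ← Complex.ofReal_exp,
        Real.exp_log (by linarith), clamp_of_mem m0, h1, h3]
      push_cast
      ring)
  have hE : ∀ s ∈ Icc (0 : ℝ) 1, ∀ t ∈ Icc (0 : ℝ) 1, Complex.exp (G (s, t)) = α s - β t := by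
    intro s hs t ht
    rw [hexp]
    simp only [clamp_of_mem hs, clamp_of_mem ht]
  have c00 : (G (0, 0)).im = Real.pi := by
    rw [hG0]; simp
  -- the bottom side
  have hbot := angle_stays (fun s => (G (s, 0)).im) (by fun_prop) 0
    (fun s hs => by
      rw [sub_zero]
      apply sin_nonneg_of_exp_im
      rw [hE s hs 0 m0, h3]
      simpa using hα0 s hs)
    (by
      simp only [sub_zero]
      rw [c00]
      exact ⟨hpi.le, le_refl _⟩)
  have e10 : Complex.exp (G (1, 0)) = ((b - c : ℝ) : ℂ) := by
    rw [hE 1 m1 0 m0, h2, h3]; push_cast; ring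
  have c10 : (G (1, 0)).im = 0 := by
    simp only [sub_zero] at hbot
    rcases eq_zero_or_pi hbot (sin_eq_zero_of_exp_real e10) with h | h
    · exact h
    · have := cos_pos_of_exp_real e10 (by linarith)
      rw [h, Real.cos_pi] at this
      linarith
  -- the right side
  have hright := angle_stays (fun t => (G (1, t)).im) (by fun_prop) (-Real.pi)
    (fun t ht => by
      rw [sub_neg_eq_add, Real.sin_add_pi]
      have : Real.sin (G (1, t)).im ≤ 0 := by
        apply sin_nonpos_of_exp_im
        rw [hE 1 m1 t ht, h2]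
        simpa using hβ0 t ht
      linarith)
    (by
      simp only [sub_neg_eq_add]
      rw [c10, zero_add]
      exact ⟨hpi.le, le_refl _⟩)
  have e11 : Complex.exp (G (1, 1)) = ((b - d : ℝ) : ℂ) := by
    rw [hE 1 m1 1 m1, h2, h4]; push_cast; ring
  have c11 : (G (1, 1)).im = -Real.pi := by
    simp only [sub_neg_eq_add] at hright
    have hs : Real.sin ((G (1, 1)).im + Real.pi) = 0 := by
      rw [Real.sin_add_pi, sin_eq_zero_of_exp_real e11, neg_zero]
    rcases eq_zero_or_pi hright hs with h | h
    · linarith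
    · have := cos_neg_of_exp_real e11 (by linarith)
      have h0 : (G (1, 1)).im = 0 := by linarith
      rw [h0, Real.cos_zero] at this
      linarith
  -- the left side
  have hleft := angle_stays (fun t => (G (0, t)).im) (by fun_prop) Real.pi
    (fun t ht => by
      rw [Real.sin_sub_pi]
      have : Real.sin (G (0, t)).im ≤ 0 := by
        apply sin_nonpos_of_exp_im
        rw [hE 0 m0 t ht, h1]
        simpa using hβ0 t ht
      linarith)
    (by
      rw [c00, sub_self]
      exact ⟨le_refl _, hpi.le⟩)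
  have e01 : Complex.exp (G (0, 1)) = ((a - d : ℝ) : ℂ) := by
    rw [hE 0 m0 1 m1, h1, h4]; push_cast; ring
  have c01 : (G (0, 1)).im = Real.pi := by
    have hs : Real.sin ((G (0, 1)).im - Real.pi) = 0 := by
      rw [Real.sin_sub_pi, sin_eq_zero_of_exp_real e01, neg_zero]
    rcases eq_zero_or_pi hleft hs with h | h
    · linarith
    · have := cos_neg_of_exp_real e01 (by linarith)
      have h0 : (G (0, 1)).im = 2 * Real.pi := by linarith
      rw [h0, Real.cos_two_pi] at this
      linarith
  -- the top side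
  have htop := angle_stays (fun s => (G (s, 1)).im) (by fun_prop) 0
    (fun s hs => by
      rw [sub_zero]
      apply sin_nonneg_of_exp_im
      rw [hE s hs 1 m1, h4]
      simpa using hα0 s hs)
    (by
      simp only [sub_zero]
      rw [c01]
      exact ⟨hpi.le, le_refl _⟩)
  have := htop.1
  simp only [sub_zero] at this
  rw [c11] at this
  linarith

end Pool.Agent.Work.MP_09dd0a_co
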