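import Mathlib

/-!
# Straight-line drawings and `fix`: definitions
-/

namespace Pool.Agent.Work.MP_09dd0a_co

variable {V : Type*}

/-- The straight-line drawing of `G` which places the vertex `v` at `Γ v` and draws the edge `vw` as
the open segment between `Γ v` and `Γ w` is crossing-free: distinct vertices are at distinct points,
no vertex lies on an edge, and any two distinct edges are disjoint. -/
def CrossingFree (G : SimpleGraph V) (Γ : V → ℝ × ℝ) : Prop :=
  Function.Injective Γ ∧
  (∀ u v w : V, G.Adj v w → Γ u ∉ openSegment ℝ (Γ v) (Γ w)) ∧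
  (∀ a b c d : V, G.Adj a b → G.Adj c d → s(a, b) ≠ s(c, d) →
    Disjoint (openSegment ℝ (Γ a) (Γ b)) (openSegment ℝ (Γ c) (Γ d)))

/-- `fix(Γ)`: the largest number of vertices of the straight-line drawing `Γ` of `G` which can keep
their places in a crossing-free straight-line drawing `Γ'` of `G`. -/
noncomputable def fixDrawing (G : SimpleGraph V) (Γ : V → ℝ × ℝ) : ℕ :=
  sSup {k : ℕ | ∃ S : Finset V, S.card = k ∧
    ∃ Γ' : V → ℝ × ℝ, CrossingFree G Γ' ∧ ∀ v ∈ S, Γ' v = Γ v}

/-- `fix(G)`: the minimum of `fix(Γ)` over all straight-line drawings `Γ` of `G` (all placements of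
the vertices at pairwise distinct points). -/
noncomputable def fixGraph (G : SimpleGraph V) : ℕ :=
  sInf {k : ℕ | ∃ Γ : V → ℝ × ℝ, Function.Injective Γ ∧ k = fixDrawing G Γ}

end Pool.Agent.Work.MP_09dd0a_co
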