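import Mathlib
import Pool.Agent.Work.MP_09dd0a_co.Defs
import Pool.Agent.Work.MP_09dd0a_co.Book

/-!
# Union bound over random placements of the vertices of `C_n` on a line
-/

namespace Pool.Agent.Work.MP_09dd0a_co

open Finset

/-- The marked indices in increasing order, as reals. -/
noncomputable def lpS {n : ℕ} (S : Finset (Fin n)) : List ℝ :=
  ((List.finRange n).filter (fun i => i ∈ S)).map (fun i : Fin n => ((i : ℕ) : ℝ))

/-- Placement of the vertices on the first axis according to a permutation. -/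
noncomputable def place {n : ℕ} (σ : Equiv.Perm (Fin n)) : Fin n → ℝ × ℝ :=
  fun v => (((σ v : Fin n) : ℕ), 0)

/-- The marked indices in the order of their positions, as reals. -/
noncomputable def orderList {n : ℕ} (σ : Equiv.Perm (Fin n)) (S : Finset (Fin n)) : List ℝ :=
  ((List.finRange n).filter (fun p => σ.symm p ∈ S)).map
    (fun p : Fin n => (((σ.symm p : Fin n) : ℕ) : ℝ))

lemma castR_injective {n : ℕ} : Function.Injective (fun i : Fin n => ((i : ℕ) : ℝ)) := by
  intro i j h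
  have h' : ((i : ℕ) : ℝ) = ((j : ℕ) : ℝ) := h
  exact Fin.ext (by exact_mod_cast h')

lemma mem_lpS {n : ℕ} {S : Finset (Fin n)} {s : ℝ} :
    s ∈ lpS S ↔ ∃ i ∈ S, ((i : ℕ) : ℝ) = s := by
  simp [lpS]

lemma mem_orderList {n : ℕ} {σ : Equiv.Perm (Fin n)} {S : Finset (Fin n)} {s : ℝ} :
    s ∈ orderList σ S ↔ ∃ i ∈ S, ((i : ℕ) : ℝ) = s := by
  constructor
  · intro h
    simp only [orderList, List.mem_map, List.mem_filter, decide_eq_true_eq] at h
    obtain ⟨p, ⟨-, hp⟩, rfl⟩ := h
    exact ⟨_, hp, rfl⟩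
  · rintro ⟨i, hi, rfl⟩
    simp only [orderList, List.mem_map, List.mem_filter, decide_eq_true_eq]
    exact ⟨σ i, ⟨List.mem_finRange _, by simpa using hi⟩, by simp⟩

lemma lpS_nodup {n : ℕ} (S : Finset (Fin n)) : (lpS S).Nodup :=
  ((List.nodup_finRange n).filter _).map castR_injective

lemma orderList_nodup {n : ℕ} (σ : Equiv.Perm (Fin n)) (S : Finset (Fin n)) :
    (orderList σ S).Nodup :=
  ((List.nodup_finRange n).filter _).map (castR_injective.comp σ.symm.injective)

lemma lpS_length {n : ℕ} (S : Finset (Fin n)) : (lpS S).length = S.card := by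
  have h1 : (lpS S).length = ((List.finRange n).filter (fun i => i ∈ S)).length := by
    simp [lpS]
  rw [h1]
  have h2 : ((List.finRange n).filter (fun i => i ∈ S)).toFinset = S := by
    ext i; simp
  rw [← List.toFinset_card_of_nodup ((List.nodup_finRange n).filter _), h2]

lemma lpS_pairwise {n : ℕ} (S : Finset (Fin n)) : (lpS S).Pairwise (· < ·) := by
  unfold lpS
  rw [List.pairwise_map]
  refine List.Pairwise.imp ?_ ((List.pairwise_lt_finRange n).filter _)
  intro a b hab
  exact_mod_cast hab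

lemma orderList_perm {n : ℕ} (σ : Equiv.Perm (Fin n)) (S : Finset (Fin n)) :
    (orderList σ S).Perm (lpS S) := by
  rw [List.perm_ext_iff_of_nodup (orderList_nodup σ S) (lpS_nodup S)]
  intro s
  rw [mem_orderList, mem_lpS]

/-- The geometric input. -/
def BookProp : Prop :=
  ∀ (n : ℕ) (_ : 3 ≤ n) (Γ : Fin n → ℝ × ℝ) (_ : CrossingFree (SimpleGraph.cycleGraph n) Γ),
    ∃ (E : Finset ℝ) (x : ℝ → ℝ) (up low : ℝ → ℝ → Prop), IsBook E x up low ∧
      E.card ≤ 2 * n ∧ ∀ i : Fin n, (Γ i).2 = 0 →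
        ((i : ℕ) : ℝ) ∈ E ∧ x ((i : ℕ) : ℝ) = (Γ i).1

/-- The counting input. -/
def CountProp (A : ℝ) : Prop :=
  ∀ (m : ℕ) (lp : List ℝ), lp.Nodup → lp ≠ [] → lp.length ≤ m →
    (({lq | Realizable m lp lq} : Set (List ℝ)).ncard : ℝ) ≤ (A * m / lp.length) ^ lp.length

lemma realizable_of_fix (hB : BookProp) {n : ℕ} (hn : 3 ≤ n) (σ : Equiv.Perm (Fin n))
    (S : Finset (Fin n)) (Γ' : Fin n → ℝ × ℝ)
    (h : CrossingFree (SimpleGraph.cycleGraph n) Γ') (hS : ∀ v ∈ S, Γ' v = place σ v) :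
    Realizable (2 * n) (lpS S) (orderList σ S) := by
  obtain ⟨E, x, up, low, hbook, hcard, hE⟩ := hB n hn Γ' h
  have key : ∀ v ∈ S, ((v : ℕ) : ℝ) ∈ E ∧ x ((v : ℕ) : ℝ) = ((σ v : Fin n) : ℕ) := by
    intro v hv
    have h1 := hE v (by rw [hS v hv]; rfl)
    refine ⟨h1.1, ?_⟩
    rw [h1.2, hS v hv]
    rfl
  refine ⟨E, x, up, low, hbook, hcard, ?_, lpS_pairwise S, orderList_perm σ S, ?_⟩
  · intro s hs
    obtain ⟨i, hi, rfl⟩ := mem_lpS.1 hs
    exact (key i hi).1
  · unfold orderList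
    rw [List.pairwise_map]
    have h1 : ((List.finRange n).filter (fun p => σ.symm p ∈ S)).Pairwise (· < ·) :=
      (List.pairwise_lt_finRange n).filter _
    refine List.Pairwise.imp_of_mem ?_ h1
    intro a b ha hb hab
    simp only [List.mem_filter, decide_eq_true_eq] at ha hb
    rw [(key _ ha.2).2, (key _ hb.2).2]
    simpa using hab

lemma realizable_finite (m : ℕ) (lp : List ℝ) :
    ({lq | Realizable m lp lq} : Set (List ℝ)).Finite := by
  refine Set.Finite.subset (s := {lq | lq ∈ lp.permutations}) ?_ ?_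
  · exact (List.finite_toSet lp.permutations)
  · rintro lq ⟨E, x, up, low, -, -, -, -, h, -⟩
    simpa [List.mem_permutations] using h

/-- Permutations which fix every element outside `S`. -/
def fixOut {n : ℕ} (S : Finset (Fin n)) : Finset (Equiv.Perm (Fin n)) :=
  Finset.univ.filter (fun τ => ∀ v, v ∉ S → τ v = v)

lemma card_fixOut {n : ℕ} (S : Finset (Fin n)) : (fixOut S).card = (S.card).factorial := by
  have e := Equiv.Perm.subtypeEquivSubtypePerm (fun v : Fin n => v ∈ S)
  have h1 : Fintype.card (Equiv.Perm {v : Fin n // v ∈ S}) = (S.card).factorial := by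
    rw [Fintype.card_perm]; simp
  have h2 := Fintype.card_congr e
  rw [h1] at h2
  rw [h2, Fintype.card_subtype]
  rfl

lemma mem_iff_of_fixOut {n : ℕ} {S : Finset (Fin n)} {τ : Equiv.Perm (Fin n)}
    (h : ∀ v, v ∉ S → τ v = v) (w : Fin n) : τ.symm w ∈ S ↔ w ∈ S := by
  constructor
  · intro hw
    by_contra hw'
    have := h w hw'
    have h3 : τ.symm w = w := by rw [Equiv.symm_apply_eq]; exact this.symm
    rw [h3] at hw
    exact hw' hw
  · intro hw
    by_contra hw'
    have := h _ hw'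
    rw [Equiv.apply_symm_apply] at this
    rw [← this] at hw'
    exact hw' hw

lemma orderList_injOn {n : ℕ} (S : Finset (Fin n)) (σ : Equiv.Perm (Fin n)) :
    Set.InjOn (fun τ : Equiv.Perm (Fin n) => orderList (τ.trans σ) S) (fixOut S : Set _) := by
  intro τ hτ τ' hτ' h
  simp only [fixOut, Finset.coe_filter, Finset.mem_univ, true_and, Set.mem_ofPred_eq] at hτ hτ'
  have e1 : ∀ τ : Equiv.Perm (Fin n), (∀ v, v ∉ S → τ v = v) →
      orderList (τ.trans σ) S =
        ((List.finRange n).filter (fun p => σ.symm p ∈ S)).map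
          (fun p : Fin n => (((τ.symm (σ.symm p) : Fin n) : ℕ) : ℝ)) := by
    intro τ hτ
    unfold orderList
    congr 1
    apply List.filter_congr
    intro p _
    have := mem_iff_of_fixOut hτ (σ.symm p)
    simp only [Equiv.symm_trans_apply]
    simp [this]
  have h' : orderList (τ.trans σ) S = orderList (τ'.trans σ) S := h
  rw [e1 τ hτ, e1 τ' hτ'] at h'
  have h2 := List.map_inj_left.1 h'
  have h3 : τ.symm = τ'.symm := by
    ext w
    by_cases hw : w ∈ S
    · have := h2 (σ w) (by simp [hw])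
      simp only [Equiv.symm_apply_apply] at this
      exact_mod_cast this
    · have a1 : τ.symm w = w := by rw [Equiv.symm_apply_eq]; exact (hτ w hw).symm
      have a2 : τ'.symm w = w := by rw [Equiv.symm_apply_eq]; exact (hτ' w hw).symm
      rw [a1, a2]
  have := congrArg Equiv.symm h3
  simpa using this

open Classical in
/-- Double counting: few permutations realise a given set of orders. -/
lemma card_bad {n : ℕ} (S : Finset (Fin n)) (B : Set (List ℝ)) (hB : B.Finite) :
    (S.card).factorial * (Finset.univ.filter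
      (fun σ : Equiv.Perm (Fin n) => orderList σ S ∈ B)).card ≤ n.factorial * B.ncard := by
  set Bad := Finset.univ.filter (fun σ : Equiv.Perm (Fin n) => orderList σ S ∈ B) with hBad
  -- pairs (σ, τ) with orderList (τ.trans σ) ∈ B
  have h1 : ∀ τ : Equiv.Perm (Fin n),
      (Finset.univ.filter (fun σ : Equiv.Perm (Fin n) => orderList (τ.trans σ) S ∈ B)).card
        = Bad.card := by
    intro τ
    refine Finset.card_bij (fun σ _ => τ.trans σ) ?_ ?_ ?_
    · intro σ hσ
      simpa [hBad] using hσ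
    · intro σ _ σ' _ h
      have := congrArg (fun f => τ.symm.trans f) h
      simpa [← Equiv.trans_assoc] using this
    · intro ρ hρ
      refine ⟨τ.symm.trans ρ, ?_, ?_⟩
      · simp only [Finset.mem_filter, Finset.mem_univ, true_and, ← Equiv.trans_assoc]
        simpa [hBad] using hρ
      · simp [← Equiv.trans_assoc]
  have h2 : ∀ σ : Equiv.Perm (Fin n),
      ((fixOut S).filter (fun τ => orderList (τ.trans σ) S ∈ B)).card ≤ B.ncard := by
    intro σ
    rw [← Set.ncard_coe_finset]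
    refine Set.ncard_le_ncard_of_injOn (fun τ : Equiv.Perm (Fin n) => orderList (τ.trans σ) S)
      ?_ ?_ hB
    · intro τ hτ
      simp only [Finset.coe_filter, Set.mem_ofPred_eq] at hτ
      exact hτ.2
    · intro τ hτ τ' hτ' h
      simp only [Finset.coe_filter, Set.mem_ofPred_eq] at hτ hτ'
      exact orderList_injOn S σ (by exact_mod_cast hτ.1) (by exact_mod_cast hτ'.1) h
  have h3 : ∑ τ ∈ fixOut S, (Finset.univ.filter
      (fun σ : Equiv.Perm (Fin n) => orderList (τ.trans σ) S ∈ B)).card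
      = ∑ σ : Equiv.Perm (Fin n),
        ((fixOut S).filter (fun τ => orderList (τ.trans σ) S ∈ B)).card := by
    simp only [Finset.card_filter]
    exact Finset.sum_comm
  calc (S.card).factorial * Bad.card
      = ∑ τ ∈ fixOut S, (Finset.univ.filter
      (fun σ : Equiv.Perm (Fin n) => orderList (τ.trans σ) S ∈ B)).card := by
        rw [Finset.sum_congr rfl (fun τ _ => h1 τ), Finset.sum_const, card_fixOut, smul_eq_mul]
    _ = ∑ σ : Equiv.Perm (Fin n),
        ((fixOut S).filter (fun τ => orderList (τ.trans σ) S ∈ B)).card := h3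
    _ ≤ ∑ _σ : Equiv.Perm (Fin n), B.ncard := Finset.sum_le_sum (fun σ _ => h2 σ)
    _ = n.factorial * B.ncard := by
        rw [Finset.sum_const, smul_eq_mul]
        simp [Fintype.card_perm]

/-- The set of orders in which the marked indices `S` can appear. -/
def ordersOf {n : ℕ} (S : Finset (Fin n)) : Set (List ℝ) := {lq | Realizable (2 * n) (lpS S) lq}

lemma ordersOf_finite {n : ℕ} (S : Finset (Fin n)) : (ordersOf S).Finite :=
  realizable_finite _ _

lemma ncard_ordersOf {A : ℝ} (hC : CountProp A) {n k : ℕ} (hk : 1 ≤ k) (hkn : k ≤ n)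
    (S : Finset (Fin n)) (hS : S.card = k) :
    ((ordersOf S).ncard : ℝ) ≤ (2 * A * n / k) ^ k := by
  have hlen : (lpS S).length = k := by rw [lpS_length, hS]
  have h := hC (2 * n) (lpS S) (lpS_nodup S) (by
    intro h0
    rw [h0] at hlen
    simp at hlen
    omega) (by rw [hlen]; omega)
  rw [hlen] at h
  have e : A * ((2 * n : ℕ) : ℝ) / (k : ℝ) = 2 * A * n / k := by push_cast; ring
  rw [e] at h
  exact h

/-- `k ^ k / e ^ k ≤ k!`. -/
lemma pow_le_exp_mul_factorial (k : ℕ) :
    (k : ℝ) ^ k ≤ Real.exp 1 ^ k * (k.factorial : ℝ) := by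
  have h := Real.pow_div_factorial_le_exp (k : ℝ) (Nat.cast_nonneg k) k
  have hf : (0 : ℝ) < (k.factorial : ℝ) := by exact_mod_cast k.factorial_pos
  rw [div_le_iff₀ hf] at h
  have e : Real.exp (k : ℝ) = Real.exp 1 ^ k := by
    rw [← Real.exp_nat_mul]; simp
  rwa [e] at h

open Classical in
/-- Some permutation avoids all the realizable orders, when `k ^ 3 > 2 A e ^ 2 n ^ 2`. -/
lemma exists_good {A : ℝ} (hA : 0 < A) (hC : CountProp A) {n k : ℕ} (hk : 1 ≤ k) (hkn : k ≤ n)
    (hbig : 2 * A * Real.exp 1 ^ 2 * (n : ℝ) ^ 2 < (k : ℝ) ^ 3) :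
    ∃ σ : Equiv.Perm (Fin n), ∀ S : Finset (Fin n), S.card = k → orderList σ S ∉ ordersOf S := by
  by_contra hcon
  push Not at hcon
  -- union bound
  have hk0 : (0 : ℝ) < k := by exact_mod_cast hk
  have hn0 : (0 : ℝ) < n := by
    have : 1 ≤ n := le_trans hk hkn
    exact_mod_cast this
  have hf : (0 : ℝ) < (k.factorial : ℝ) := by exact_mod_cast k.factorial_pos
  have hnf : (0 : ℝ) < (n.factorial : ℝ) := by exact_mod_cast n.factorial_pos
  have h1 : (Finset.univ : Finset (Equiv.Perm (Fin n))) ⊆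
      (Finset.powersetCard k (Finset.univ : Finset (Fin n))).biUnion
        (fun S => Finset.univ.filter
          (fun σ : Equiv.Perm (Fin n) => orderList σ S ∈ ordersOf S)) := by
    intro σ _
    obtain ⟨S, hS, hm⟩ := hcon σ
    simp only [Finset.mem_biUnion, Finset.mem_powersetCard, Finset.mem_filter, Finset.mem_univ,
      true_and]
    exact ⟨S, ⟨Finset.subset_univ _, hS⟩, hm⟩
  have h2 : n.factorial ≤ ∑ S ∈ Finset.powersetCard k (Finset.univ : Finset (Fin n)),
      (Finset.univ.filter (fun σ : Equiv.Perm (Fin n) => orderList σ S ∈ ordersOf S)).card := by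
    have := (Finset.card_le_card h1).trans Finset.card_biUnion_le
    simpa [Fintype.card_perm] using this
  have h3 : ∀ S ∈ Finset.powersetCard k (Finset.univ : Finset (Fin n)),
      ((Finset.univ.filter (fun σ : Equiv.Perm (Fin n) =>
        orderList σ S ∈ ordersOf S)).card : ℝ) ≤
        n.factorial * (2 * A * n / k) ^ k / k.factorial := by
    intro S hS
    have hS' := (Finset.mem_powersetCard.1 hS).2
    have h4 := card_bad S (ordersOf S) (ordersOf_finite S)
    rw [hS'] at h4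
    have h5 := ncard_ordersOf hC hk hkn S hS'
    rw [le_div_iff₀ hf]
    calc ((Finset.univ.filter (fun σ : Equiv.Perm (Fin n) =>
        orderList σ S ∈ ordersOf S)).card : ℝ) * (k.factorial : ℝ)
        = ((k.factorial * (Finset.univ.filter (fun σ : Equiv.Perm (Fin n) =>
        orderList σ S ∈ ordersOf S)).card : ℕ) : ℝ) := by push_cast; ring
      _ ≤ ((n.factorial * (ordersOf S).ncard : ℕ) : ℝ) := by exact_mod_cast h4
      _ = (n.factorial : ℝ) * ((ordersOf S).ncard : ℝ) := by push_cast; ring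
      _ ≤ n.factorial * (2 * A * n / k) ^ k := by gcongr
  have h6 : (n.factorial : ℝ) ≤ (n.choose k : ℝ) *
      (n.factorial * (2 * A * n / k) ^ k / k.factorial) := by
    calc (n.factorial : ℝ) ≤ ((∑ S ∈ Finset.powersetCard k (Finset.univ : Finset (Fin n)),
      (Finset.univ.filter (fun σ : Equiv.Perm (Fin n) =>
        orderList σ S ∈ ordersOf S)).card : ℕ) : ℝ) := by exact_mod_cast h2
      _ = ∑ S ∈ Finset.powersetCard k (Finset.univ : Finset (Fin n)),
      ((Finset.univ.filter (fun σ : Equiv.Perm (Fin n) =>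
        orderList σ S ∈ ordersOf S)).card : ℝ) := by push_cast; rfl
      _ ≤ ∑ S ∈ Finset.powersetCard k (Finset.univ : Finset (Fin n)),
        (n.factorial * (2 * A * n / k) ^ k / k.factorial : ℝ) := Finset.sum_le_sum h3
      _ = (n.choose k : ℝ) *
      (n.factorial * (2 * A * n / k) ^ k / k.factorial) := by
        rw [Finset.sum_const, Finset.card_powersetCard]
        simp
  have h7 : (n.choose k : ℝ) ≤ (n : ℝ) ^ k / (k.factorial : ℝ) := Nat.choose_le_pow_div k n
  have h8 : (n.factorial : ℝ) ≤ (n : ℝ) ^ k / (k.factorial : ℝ) *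
      (n.factorial * (2 * A * n / k) ^ k / k.factorial) :=
    h6.trans (mul_le_mul_of_nonneg_right h7 (by positivity))
  have h9 : (k.factorial : ℝ) ^ 2 ≤ (2 * A * n ^ 2 / k) ^ k := by
    have e1 : (n : ℝ) ^ k / (k.factorial : ℝ) *
      (n.factorial * (2 * A * n / k) ^ k / k.factorial)
        = n.factorial * ((2 * A * n ^ 2 / k) ^ k / (k.factorial : ℝ) ^ 2) := by
      have e2 : (2 * A * (n : ℝ) ^ 2 / k) ^ k = (n : ℝ) ^ k * (2 * A * n / k) ^ k := by
        rw [← mul_pow]; congr 1; ring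
      rw [e2]
      field_simp
    rw [e1] at h8
    have h10 : (1 : ℝ) ≤ (2 * A * n ^ 2 / k) ^ k / (k.factorial : ℝ) ^ 2 := by
      by_contra hlt
      push Not at hlt
      have := mul_lt_mul_of_pos_left hlt hnf
      rw [mul_one] at this
      exact absurd h8 (not_le.2 this)
    rwa [le_div_iff₀ (by positivity), one_mul] at h10
  have h11 := pow_le_exp_mul_factorial k
  have h12 : ((k : ℝ) ^ 3) ^ k ≤ (2 * A * Real.exp 1 ^ 2 * (n : ℝ) ^ 2) ^ k := by
    calc ((k : ℝ) ^ 3) ^ k = (k : ℝ) ^ k * ((k : ℝ) ^ k) ^ 2 := by ring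
      _ ≤ (k : ℝ) ^ k * (Real.exp 1 ^ k * (k.factorial : ℝ)) ^ 2 := by gcongr
      _ = (k : ℝ) ^ k * ((Real.exp 1 ^ k) ^ 2 * (k.factorial : ℝ) ^ 2) := by ring
      _ ≤ (k : ℝ) ^ k * ((Real.exp 1 ^ k) ^ 2 * (2 * A * n ^ 2 / k) ^ k) := by gcongr
      _ = (2 * A * Real.exp 1 ^ 2 * (n : ℝ) ^ 2) ^ k := by
        rw [← pow_mul, mul_comm k 2, pow_mul, ← mul_pow, ← mul_pow]
        congr 1
        field_simp
  have h13 : (2 * A * Real.exp 1 ^ 2 * (n : ℝ) ^ 2) ^ k < ((k : ℝ) ^ 3) ^ k :=
    pow_lt_pow_left₀ hbig (by positivity) (by omega)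
  exact absurd h12 (not_le.2 h13)

lemma place_injective {n : ℕ} (σ : Equiv.Perm (Fin n)) : Function.Injective (place σ) := by
  intro v w h
  have h1 : (((σ v : Fin n) : ℕ) : ℝ) = (((σ w : Fin n) : ℕ) : ℝ) := congrArg Prod.fst h
  have h2 : ((σ v : Fin n) : ℕ) = ((σ w : Fin n) : ℕ) := by exact_mod_cast h1
  exact σ.injective (Fin.ext h2)

/-- The upper bound, in the form: some placement of the vertices of the `n`-cycle is such that every
crossing-free drawing keeps at most `C n ^ (2/3)` vertices. -/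
theorem upper_of (hB : BookProp) {A : ℝ} (hA : 0 < A) (hC : CountProp A) :
    ∃ C : ℝ, 0 < C ∧ ∀ n : ℕ, 3 ≤ n → ∃ p : Fin n → ℝ × ℝ, Function.Injective p ∧
      ∀ (S : Finset (Fin n)) (q : Fin n → ℝ × ℝ), CrossingFree (SimpleGraph.cycleGraph n) q →
        (∀ v ∈ S, q v = p v) → (S.card : ℝ) ≤ C * (n : ℝ) ^ ((2 : ℝ) / 3) := by
  -- a constant whose cube is large
  set D : ℝ := 2 * A * Real.exp 1 ^ 2 + 1 with hD
  have hD1 : 1 ≤ D := by
    have : 0 < 2 * A * Real.exp 1 ^ 2 := by positivity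
    linarith
  have hD3 : 2 * A * Real.exp 1 ^ 2 < D ^ 3 := by
    have h1 : D ≤ D ^ 3 := by
      calc D = D ^ 1 := (pow_one D).symm
        _ ≤ D ^ 3 := pow_le_pow_right₀ hD1 (by norm_num)
    linarith
  refine ⟨D + 1, by linarith, ?_⟩
  intro n hn
  have hn0 : (0 : ℝ) < n := by
    have : 0 < n := by omega
    exact_mod_cast this
  have hn1 : (1 : ℝ) ≤ n := by
    have : 1 ≤ n := by omega
    exact_mod_cast this
  set r : ℝ := (n : ℝ) ^ ((2 : ℝ) / 3) with hr
  have hr1 : 1 ≤ r := Real.one_le_rpow hn1 (by norm_num)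
  have hr3 : r ^ 3 = (n : ℝ) ^ 2 := by
    rw [hr, ← Real.rpow_natCast, ← Real.rpow_mul hn0.le]
    norm_num
  set k : ℕ := ⌈D * r⌉₊ with hk
  have hkge : D * r ≤ (k : ℝ) := Nat.le_ceil _
  have hkle : (k : ℝ) ≤ (D + 1) * r := by
    have h1 : (k : ℝ) < D * r + 1 := Nat.ceil_lt_add_one (by positivity)
    nlinarith
  have hk1 : 1 ≤ k := by
    have h1 : (1 : ℝ) ≤ D * r := by nlinarith
    exact_mod_cast h1.trans hkge
  have hbig : 2 * A * Real.exp 1 ^ 2 * (n : ℝ) ^ 2 < (k : ℝ) ^ 3 := by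
    have h1 : (D * r) ^ 3 ≤ (k : ℝ) ^ 3 := by gcongr
    have h2 : (D * r) ^ 3 = D ^ 3 * (n : ℝ) ^ 2 := by rw [mul_pow, hr3]
    have h3 : 2 * A * Real.exp 1 ^ 2 * (n : ℝ) ^ 2 < D ^ 3 * (n : ℝ) ^ 2 := by
      have : (0 : ℝ) < (n : ℝ) ^ 2 := by positivity
      exact mul_lt_mul_of_pos_right hD3 this
    linarith
  rcases Nat.lt_or_ge n k with hnk | hkn
  · -- trivial case
    refine ⟨place (Equiv.refl _), place_injective _, ?_⟩
    intro S q _ _
    have h1 : S.card ≤ n := by
      have := Finset.card_le_univ S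
      simpa using this
    have h2 : (S.card : ℝ) ≤ (k : ℝ) := by exact_mod_cast h1.trans hnk.le
    exact h2.trans hkle
  · obtain ⟨σ, hσ⟩ := exists_good hA hC hk1 hkn hbig
    refine ⟨place σ, place_injective σ, ?_⟩
    intro S q hq hS
    by_contra hlt
    push Not at hlt
    have h1 : k ≤ S.card := by
      have : (k : ℝ) ≤ (S.card : ℝ) := hkle.trans hlt.le
      exact_mod_cast this
    obtain ⟨S', hS', hcard⟩ := Finset.exists_subset_card_eq h1
    exact hσ S' hcard (realizable_of_fix hB hn σ S' q hq (fun v hv => hS v (hS' hv)))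

/-- From the placement form to `fixGraph`. -/
theorem fixGraph_le_of_placement {n : ℕ} {b : ℝ} (p : Fin n → ℝ × ℝ) (hp : Function.Injective p)
    (G : SimpleGraph (Fin n)) (hb0 : 0 ≤ b)
    (h : ∀ (S : Finset (Fin n)) (q : Fin n → ℝ × ℝ), CrossingFree G q →
        (∀ v ∈ S, q v = p v) → (S.card : ℝ) ≤ b) : (fixGraph G : ℝ) ≤ b := by
  have h1 : fixGraph G ≤ fixDrawing G p := Nat.sInf_le ⟨p, hp, rfl⟩
  have h2 : (fixDrawing G p : ℝ) ≤ b := by
    unfold fixDrawing
    set T : Set ℕ := {k : ℕ | ∃ S : Finset (Fin n), S.card = k ∧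
      ∃ Γ' : Fin n → ℝ × ℝ, CrossingFree G Γ' ∧ ∀ v ∈ S, Γ' v = p v} with hT
    rcases T.eq_empty_or_nonempty with h0 | h0
    · rw [h0]; simpa using hb0
    · have hbdd : BddAbove T := by
        refine ⟨n, ?_⟩
        rintro k ⟨S, rfl, -⟩
        have := Finset.card_le_univ S
        simpa using this
      obtain ⟨S, hS, q, hq, hSq⟩ := Nat.sSup_mem h0 hbdd
      rw [← hS]
      exact h S q hq hSq
  have h3 : (fixGraph G : ℝ) ≤ (fixDrawing G p : ℝ) := by exact_mod_cast h1
  exact h3.trans h2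

/-- The upper bound for `fix(C_n)`. -/
theorem fixGraph_upper_of (hB : BookProp) {A : ℝ} (hA : 0 < A) (hC : CountProp A) :
    ∃ C : ℝ, 0 < C ∧ ∀ n : ℕ, 3 ≤ n →
      (fixGraph (SimpleGraph.cycleGraph n) : ℝ) ≤ C * (n : ℝ) ^ ((2 : ℝ) / 3) := by
  obtain ⟨C, hC0, h⟩ := upper_of hB hA hC
  refine ⟨C, hC0, ?_⟩
  intro n hn
  obtain ⟨p, hp, hq⟩ := h n hn
  exact fixGraph_le_of_placement p hp _ (by positivity) hq

end Pool.Agent.Work.MP_09dd0a_co
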