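import Mathlib
import Pool.Agent.Work.MP_09dd0a_co.Defs
import Pool.Agent.Work.MP_09dd0a_co.Book
import Pool.Agent.Work.MP_09dd0a_co.Cross

/-!
# From a crossing-free polygonal path to a two-page structure
-/

namespace Pool.Agent.Work.MP_09dd0a_co

open Set

/-- The polygonal path through `v 0, v 1, …, v N`, parametrised by time. -/
noncomputable def poly (v : ℕ → ℝ × ℝ) : ℕ → ℝ → ℝ × ℝ
  | 0, _ => v 0
  | N + 1, t => poly v N t + (clamp (t - N)) • (v (N + 1) - v N)

lemma continuous_poly (v : ℕ → ℝ × ℝ) (N : ℕ) : Continuous (poly v N) := by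
  induction N with
  | zero => exact continuous_const
  | succ N ih =>
    have : poly v (N + 1) = fun t => poly v N t + (clamp (t - N)) • (v (N + 1) - v N) := rfl
    rw [this]
    exact ih.add ((continuous_clamp.comp (continuous_id.sub continuous_const)).smul
      continuous_const)

lemma clamp_of_nonpos {x : ℝ} (h : x ≤ 0) : clamp x = 0 := by
  unfold clamp
  exact max_eq_left ((min_le_right _ _).trans h)

lemma clamp_of_one_le {x : ℝ} (h : 1 ≤ x) : clamp x = 1 := by
  unfold clamp
  rw [min_eq_left h]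
  exact max_eq_right zero_le_one

lemma poly_of_ge (v : ℕ → ℝ × ℝ) (N : ℕ) {t : ℝ} (h : (N : ℝ) ≤ t) : poly v N t = v N := by
  induction N with
  | zero => rfl
  | succ N ih =>
    have h' : (N : ℝ) + 1 ≤ t := by push_cast at h; exact h
    have e : poly v (N + 1) t = poly v N t + (clamp (t - N)) • (v (N + 1) - v N) := rfl
    rw [e, ih (by linarith), clamp_of_one_le (by linarith), one_smul]
    abel

lemma poly_eq (v : ℕ → ℝ × ℝ) (N : ℕ) {j : ℕ} (hj : j < N) {t : ℝ} (h1 : (j : ℝ) ≤ t)
    (h2 : t ≤ j + 1) : poly v N t = v j + (t - j) • (v (j + 1) - v j) := by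
  induction N with
  | zero => omega
  | succ N ih =>
    have e : poly v (N + 1) t = poly v N t + (clamp (t - N)) • (v (N + 1) - v N) := rfl
    rcases Nat.lt_succ_iff_lt_or_eq.1 hj with h | h
    · rw [e, ih h]
      have hN : (j : ℝ) + 1 ≤ N := by exact_mod_cast h
      rw [clamp_of_nonpos (by linarith), zero_smul, add_zero]
    · subst h
      rw [e, poly_of_ge v j h1, clamp_of_mem ⟨by linarith, by linarith⟩]

lemma poly_vertex (v : ℕ → ℝ × ℝ) (N : ℕ) {j : ℕ} (hj : j ≤ N) : poly v N j = v j := by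
  rcases Nat.lt_or_eq_of_le hj with h | h
  · rw [poly_eq v N h (le_refl _) (by linarith), sub_self, zero_smul, add_zero]
  · rw [h]; exact poly_of_ge v N (le_refl _)

/-- Every time in `[0, N]` is a vertex time or is inside an edge. -/
lemma time_cases {N : ℕ} {t : ℝ} (h0 : 0 ≤ t) (h1 : t ≤ N) :
    (∃ j : ℕ, j ≤ N ∧ t = j) ∨ ∃ j : ℕ, j < N ∧ (j : ℝ) < t ∧ t < j + 1 := by
  have e1 : ((⌊t⌋₊ : ℕ) : ℝ) ≤ t := Nat.floor_le h0
  have e2 : t < (⌊t⌋₊ : ℕ) + 1 := Nat.lt_floor_add_one t
  rcases eq_or_lt_of_le e1 with h | h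
  · left
    refine ⟨⌊t⌋₊, ?_, h.symm⟩
    have : ((⌊t⌋₊ : ℕ) : ℝ) ≤ N := e1.trans h1
    exact_mod_cast this
  · right
    refine ⟨⌊t⌋₊, ?_, h, e2⟩
    have : ((⌊t⌋₊ : ℕ) : ℝ) < N := lt_of_lt_of_le h h1
    exact_mod_cast this

/-- The hypotheses on a crossing-free polygonal path. -/
structure IsSimplePath (v : ℕ → ℝ × ℝ) (N : ℕ) : Prop where
  inj : ∀ i ≤ N, ∀ j ≤ N, v i = v j → i = j
  vert : ∀ u ≤ N, ∀ i < N, v u ∉ openSegment ℝ (v i) (v (i + 1))
  edge : ∀ i < N, ∀ j < N, i ≠ j →
    Disjoint (openSegment ℝ (v i) (v (i + 1))) (openSegment ℝ (v j) (v (j + 1)))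

lemma poly_mem_openSegment (v : ℕ → ℝ × ℝ) (N : ℕ) {j : ℕ} (hj : j < N) {t : ℝ}
    (h1 : (j : ℝ) < t) (h2 : t < j + 1) : poly v N t ∈ openSegment ℝ (v j) (v (j + 1)) := by
  rw [openSegment_eq_image']
  exact ⟨t - j, ⟨by linarith, by linarith⟩, (poly_eq v N hj h1.le h2.le).symm⟩

/-- A simple path is injective. -/
lemma poly_inj {v : ℕ → ℝ × ℝ} {N : ℕ} (h : IsSimplePath v N) {s t : ℝ}
    (hs0 : 0 ≤ s) (hs1 : s ≤ N) (ht0 : 0 ≤ t) (ht1 : t ≤ N) (he : poly v N s = poly v N t) :
    s = t := by
  rcases time_cases hs0 hs1 with ⟨i, hi, rfl⟩ | ⟨i, hi, hi1, hi2⟩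
  · rcases time_cases ht0 ht1 with ⟨j, hj, rfl⟩ | ⟨j, hj, hj1, hj2⟩
    · rw [poly_vertex v N hi, poly_vertex v N hj] at he
      rw [h.inj i hi j hj he]
    · exfalso
      rw [poly_vertex v N hi] at he
      exact h.vert i hi j hj (he ▸ poly_mem_openSegment v N hj hj1 hj2)
  · rcases time_cases ht0 ht1 with ⟨j, hj, rfl⟩ | ⟨j, hj, hj1, hj2⟩
    · exfalso
      rw [poly_vertex v N hj] at he
      exact h.vert j hj i hi (he ▸ poly_mem_openSegment v N hi hi1 hi2)
    · by_cases hij : i = j
      · subst hij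
        rw [poly_eq v N hi hi1.le hi2.le, poly_eq v N hi hj1.le hj2.le] at he
        have h1 : (s - i) • (v (i + 1) - v i) = (t - i) • (v (i + 1) - v i) :=
          add_left_cancel he
        have h2 : v (i + 1) - v i ≠ 0 := by
          intro h0
          have := h.inj (i + 1) hi i hi.le (sub_eq_zero.1 h0)
          omega
        have h3 := smul_left_injective ℝ h2 h1
        linarith
      · exfalso
        exact Set.disjoint_left.1 (h.edge i hi j hj hij)
          (poly_mem_openSegment v N hi hi1 hi2) (he ▸ poly_mem_openSegment v N hj hj1 hj2)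

open Classical in
/-- The events: visits of the first axis, except inside flat edges. -/
noncomputable def events (v : ℕ → ℝ × ℝ) (N : ℕ) : Finset ℝ :=
  ((Finset.range (N + 1)).filter (fun i => (v i).2 = 0)).image (fun i : ℕ => (i : ℝ)) ∪
    ((Finset.range N).filter (fun i => (v i).2 * (v (i + 1)).2 < 0)).image
      (fun i : ℕ => (i : ℝ) + (v i).2 / ((v i).2 - (v (i + 1)).2))

lemma card_events (v : ℕ → ℝ × ℝ) (N : ℕ) : (events v N).card ≤ 2 * (N + 1) := by
  unfold events
  refine (Finset.card_union_le _ _).trans ?_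
  have h1 := (Finset.card_image_le (s := (Finset.range (N + 1)).filter (fun i => (v i).2 = 0))
    (f := fun i : ℕ => (i : ℝ))).trans (Finset.card_filter_le _ _)
  have h2 := (Finset.card_image_le
    (s := (Finset.range N).filter (fun i => (v i).2 * (v (i + 1)).2 < 0))
    (f := fun i : ℕ => (i : ℝ) + (v i).2 / ((v i).2 - (v (i + 1)).2))).trans
      (Finset.card_filter_le _ _)
  rw [Finset.card_range] at h1 h2
  omega

lemma vertex_mem_events {v : ℕ → ℝ × ℝ} {N i : ℕ} (hi : i ≤ N) (h : (v i).2 = 0) :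
    (i : ℝ) ∈ events v N := by
  unfold events
  rw [Finset.mem_union]
  left
  rw [Finset.mem_image]
  exact ⟨i, by simp [h]; omega, rfl⟩

lemma poly_snd (v : ℕ → ℝ × ℝ) (N : ℕ) {j : ℕ} (hj : j < N) {t : ℝ} (h1 : (j : ℝ) ≤ t)
    (h2 : t ≤ j + 1) : (poly v N t).2 = (v j).2 + (t - j) * ((v (j + 1)).2 - (v j).2) := by
  rw [poly_eq v N hj h1 h2]
  simp

/-- Events are in `[0, N]` and on the axis. -/
lemma events_spec {v : ℕ → ℝ × ℝ} {N : ℕ} {e : ℝ} (he : e ∈ events v N) :
    0 ≤ e ∧ e ≤ N ∧ (poly v N e).2 = 0 := by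
  unfold events at he
  rw [Finset.mem_union] at he
  rcases he with he | he
  · rw [Finset.mem_image] at he
    obtain ⟨i, hi, rfl⟩ := he
    rw [Finset.mem_filter, Finset.mem_range] at hi
    have hi' : i ≤ N := by omega
    refine ⟨Nat.cast_nonneg _, by exact_mod_cast hi', ?_⟩
    rw [poly_vertex v N hi', hi.2]
  · rw [Finset.mem_image] at he
    obtain ⟨i, hi, rfl⟩ := he
    rw [Finset.mem_filter, Finset.mem_range] at hi
    obtain ⟨hi, hneg⟩ := hi
    set p := (v i).2 with hp
    set q := (v (i + 1)).2 with hq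
    have hpq : p - q ≠ 0 := by
      intro h0
      have : p = q := by linarith
      rw [this] at hneg
      nlinarith [mul_self_nonneg q]
    have hτ : 0 ≤ p / (p - q) ∧ p / (p - q) ≤ 1 := by
      rcases lt_or_gt_of_ne hpq with h | h
      · -- p < q, so p < 0 < q
        have hq0 : 0 < q := by
          by_contra hcon
          push Not at hcon
          have : 0 ≤ p * q := mul_nonneg_of_nonpos_of_nonpos (by linarith) hcon
          linarith
        have hp0 : p < 0 := by
          by_contra hcon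
          push Not at hcon
          have : 0 ≤ p * q := mul_nonneg hcon hq0.le
          linarith
        constructor
        · exact div_nonneg_of_nonpos hp0.le h.le
        · rw [div_le_one_of_neg h]; linarith
      · have hp0 : 0 < p := by
          by_contra hcon
          push Not at hcon
          have : 0 ≤ p * q := mul_nonneg_of_nonpos_of_nonpos hcon (by linarith)
          linarith
        have hq0 : q < 0 := by
          by_contra hcon
          push Not at hcon
          have : 0 ≤ p * q := mul_nonneg hp0.le hcon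
          linarith
        constructor
        · exact div_nonneg hp0.le h.le
        · rw [div_le_one h]; linarith
    have hiN : (i : ℝ) + 1 ≤ N := by exact_mod_cast hi
    refine ⟨by linarith [Nat.cast_nonneg (α := ℝ) i, hτ.1], by linarith [hτ.2], ?_⟩
    rw [poly_snd v N hi (by linarith [hτ.1]) (by linarith [hτ.2])]
    rw [← hp, ← hq]
    field_simp
    ring

/-- A visit of the axis is an event or is inside a flat edge. -/
lemma zero_cases {v : ℕ → ℝ × ℝ} {N : ℕ} {u : ℝ} (h0 : 0 ≤ u) (h1 : u ≤ N)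
    (hu : (poly v N u).2 = 0) :
    u ∈ events v N ∨ ∃ i : ℕ, i < N ∧ (i : ℝ) < u ∧ u < i + 1 ∧ (v i).2 = 0 ∧
      (v (i + 1)).2 = 0 := by
  rcases time_cases h0 h1 with ⟨j, hj, rfl⟩ | ⟨j, hj, hj1, hj2⟩
  · left
    rw [poly_vertex v N hj] at hu
    exact vertex_mem_events hj hu
  · rw [poly_snd v N hj hj1.le hj2.le] at hu
    set p := (v j).2 with hp
    set q := (v (j + 1)).2 with hq
    set τ := u - j with hτ
    have t0 : 0 < τ := by linarith
    have t1 : τ < 1 := by linarith
    by_cases hp0 : p = 0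
    · right
      refine ⟨j, hj, hj1, hj2, hp0, ?_⟩
      rw [hp0] at hu
      have : τ * q = 0 := by linarith
      rcases mul_eq_zero.1 this with h | h
      · linarith
      · exact h
    · left
      have hq' : τ * q = -(1 - τ) * p := by linarith
      have hneg : p * q < 0 := by
        have h3 : τ * (p * q) = -(1 - τ) * (p * p) := by
          calc τ * (p * q) = p * (τ * q) := by ring
            _ = -(1 - τ) * (p * p) := by rw [hq']; ring
        have h4 : 0 < p * p := mul_self_pos.2 hp0
        by_contra hcon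
        push Not at hcon
        have h5 : 0 ≤ τ * (p * q) := mul_nonneg t0.le hcon
        have h6 : 0 < (1 - τ) * (p * p) := mul_pos (by linarith) h4
        linarith
      unfold events
      rw [Finset.mem_union]
      right
      rw [Finset.mem_image]
      refine ⟨j, by rw [Finset.mem_filter, Finset.mem_range]; exact ⟨hj, hneg⟩, ?_⟩
      have hpq : p - q ≠ 0 := by
        intro h6
        have : p = q := by linarith
        rw [this] at hneg
        nlinarith [mul_self_nonneg q]
      rw [← hp, ← hq]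
      have : p / (p - q) = τ := by
        rw [div_eq_iff hpq]; linarith
      rw [this, hτ]; ring

/-- The upper arcs. -/
def upArc (v : ℕ → ℝ × ℝ) (N : ℕ) (s t : ℝ) : Prop :=
  (∀ e ∈ events v N, ¬ (min s t < e ∧ e < max s t)) ∧
    ∀ u ∈ Icc (min s t) (max s t), 0 ≤ (poly v N u).2

/-- The lower arcs. -/
def lowArc (v : ℕ → ℝ × ℝ) (N : ℕ) (s t : ℝ) : Prop :=
  (∀ e ∈ events v N, ¬ (min s t < e ∧ e < max s t)) ∧
    ∀ u ∈ Icc (min s t) (max s t), (poly v N u).2 ≤ 0

lemma arc_exists {v : ℕ → ℝ × ℝ} {N : ℕ} {s t : ℝ} (hs : s ∈ events v N) (ht : t ∈ events v N)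
    (hst : s < t) (h : ∀ u ∈ events v N, u ≤ s ∨ t ≤ u) : upArc v N s t ∨ lowArc v N s t := by
  have hmin : min s t = s := min_eq_left hst.le
  have hmax : max s t = t := max_eq_right hst.le
  have hno : ∀ e ∈ events v N, ¬ (min s t < e ∧ e < max s t) := by
    intro e he hc
    rw [hmin, hmax] at hc
    rcases h e he with h1 | h1
    · linarith [hc.1]
    · linarith [hc.2]
  by_contra hcon
  rw [not_or] at hcon
  obtain ⟨c1, c2⟩ := hcon
  unfold upArc at c1
  unfold lowArc at c2
  have d1 : ∃ u ∈ Icc s t, (poly v N u).2 < 0 := by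
    by_contra h0
    push Not at h0
    exact c1 ⟨hno, by rw [hmin, hmax]; exact h0⟩
  have d2 : ∃ u ∈ Icc s t, 0 < (poly v N u).2 := by
    by_contra h0
    push Not at h0
    exact c2 ⟨hno, by rw [hmin, hmax]; exact h0⟩
  obtain ⟨u1, hu1, hy1⟩ := d1
  obtain ⟨u2, hu2, hy2⟩ := d2
  have hcont : Continuous (fun u => (poly v N u).2) := continuous_snd.comp (continuous_poly v N)
  have hs0 := (events_spec hs)
  have ht0 := (events_spec ht)
  -- a zero strictly between
  obtain ⟨u3, hu3, hy3⟩ : ∃ u3 ∈ uIcc u1 u2, (poly v N u3).2 = 0 := by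
    have := intermediate_value_uIcc (f := fun u => (poly v N u).2) (a := u1) (b := u2)
      hcont.continuousOn
    have hmem : (0 : ℝ) ∈ uIcc ((poly v N u1).2) ((poly v N u2).2) := by
      rw [mem_uIcc]; left; exact ⟨hy1.le, hy2.le⟩
    obtain ⟨u3, hu3, hy3⟩ := this hmem
    exact ⟨u3, hu3, hy3⟩
  have hu3' : u3 ∈ Ioo s t := by
    have hne1 : u3 ≠ u1 := by
      rintro rfl; linarith
    have hne2 : u3 ≠ u2 := by
      rintro rfl; linarith
    rw [mem_uIcc] at hu3
    rcases hu3 with ⟨h1, h2⟩ | ⟨h1, h2⟩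
    · exact ⟨lt_of_le_of_lt hu1.1 (lt_of_le_of_ne h1 hne1.symm),
        lt_of_lt_of_le (lt_of_le_of_ne h2 hne2) hu2.2⟩
    · exact ⟨lt_of_le_of_lt hu2.1 (lt_of_le_of_ne h1 hne2.symm),
        lt_of_lt_of_le (lt_of_le_of_ne h2 hne1) hu1.2⟩
  rcases zero_cases (v := v) (N := N) (by linarith [hu3'.1]) (by linarith [hu3'.2, ht0.2.1]) hy3
    with h3 | ⟨i, hi, hi1, hi2, hy, hy'⟩
  · rcases h u3 h3 with h4 | h4
    · linarith [hu3'.1]
    · linarith [hu3'.2]
  · have a1 : (i : ℝ) ≤ s := by
      rcases h i (vertex_mem_events hi.le hy) with h4 | h4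
      · exact h4
      · linarith [hu3'.2]
    have a2 : t ≤ (i : ℝ) + 1 := by
      have hm : ((i + 1 : ℕ) : ℝ) ∈ events v N := vertex_mem_events hi hy'
      push_cast at hm
      rcases h _ hm with h4 | h4
      · linarith [hu3'.1]
      · exact h4
    have := poly_snd v N hi (t := u1) (by linarith [hu1.1]) (by linarith [hu1.2])
    rw [hy, hy'] at this
    simp at this
    linarith

/-- Non-crossing of the arcs on one side (`ε = 1`: upper side, `ε = -1`: lower side). -/
lemma arcs_nc {v : ℕ → ℝ × ℝ} {N : ℕ} (h : IsSimplePath v N) (ε : ℝ) (hε : ε ≠ 0) {a b c d : ℝ}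
    (ha : a ∈ events v N) (hb : b ∈ events v N) (hc : c ∈ events v N) (hd : d ∈ events v N)
    (hab : ∀ e ∈ events v N, ¬ (min a b < e ∧ e < max a b))
    (hab' : ∀ u ∈ Icc (min a b) (max a b), 0 ≤ ε * (poly v N u).2)
    (hcd : ∀ e ∈ events v N, ¬ (min c d < e ∧ e < max c d))
    (hcd' : ∀ u ∈ Icc (min c d) (max c d), 0 ≤ ε * (poly v N u).2) :
    ¬ ((poly v N a).1 < (poly v N c).1 ∧ (poly v N c).1 < (poly v N b).1 ∧
      (poly v N b).1 < (poly v N d).1) := by
  rintro ⟨h1, h2, h3⟩
  have ha' := events_spec ha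
  have hb' := events_spec hb
  have hc' := events_spec hc
  have hd' := events_spec hd
  have hcont := continuous_poly v N
  -- points between
  have hconv : ∀ (a b s : ℝ), s ∈ Icc (0 : ℝ) 1 →
      min a b ≤ a + s * (b - a) ∧ a + s * (b - a) ≤ max a b := by
    intro a b s hs
    rcases le_total a b with hle | hle
    · rw [min_eq_left hle, max_eq_right hle]
      constructor
      · nlinarith [hs.1, hs.2, mul_nonneg hs.1 (sub_nonneg.2 hle)]
      · nlinarith [hs.1, hs.2, mul_nonneg (sub_nonneg.2 hs.2) (sub_nonneg.2 hle)]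
    · rw [min_eq_right hle, max_eq_left hle]
      constructor
      · nlinarith [hs.1, hs.2, mul_nonneg (sub_nonneg.2 hs.2) (sub_nonneg.2 hle)]
      · nlinarith [hs.1, hs.2, mul_nonneg hs.1 (sub_nonneg.2 hle)]
  obtain ⟨s, hs, t, ht, heq⟩ := cross_paths
    (fun s => (⟨(poly v N (a + s * (b - a))).1, ε * (poly v N (a + s * (b - a))).2⟩ : ℂ))
    (fun t => (⟨(poly v N (c + t * (d - c))).1, ε * (poly v N (c + t * (d - c))).2⟩ : ℂ))
    (by
      have : Continuous (fun s : ℝ => poly v N (a + s * (b - a))) :=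
        hcont.comp (by fun_prop)
      have e : (fun s : ℝ => (⟨(poly v N (a + s * (b - a))).1,
          ε * (poly v N (a + s * (b - a))).2⟩ : ℂ)) =
          fun s : ℝ => (((poly v N (a + s * (b - a))).1 : ℝ) : ℂ) +
            ((ε * (poly v N (a + s * (b - a))).2 : ℝ) : ℂ) * Complex.I := by
        funext s
        exact (Complex.re_add_im _).symm
      rw [e]
      fun_prop)
    (by
      have : Continuous (fun t : ℝ => poly v N (c + t * (d - c))) :=
        hcont.comp (by fun_prop)
      have e : (fun t : ℝ => (⟨(poly v N (c + t * (d - c))).1,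
          ε * (poly v N (c + t * (d - c))).2⟩ : ℂ)) =
          fun t : ℝ => (((poly v N (c + t * (d - c))).1 : ℝ) : ℂ) +
            ((ε * (poly v N (c + t * (d - c))).2 : ℝ) : ℂ) * Complex.I := by
        funext t
        exact (Complex.re_add_im _).symm
      rw [e]
      fun_prop)
    (fun s hs => hab' _ (hconv a b s hs))
    (fun t ht => hcd' _ (hconv c d t ht))
    (a := (poly v N a).1) (b := (poly v N b).1) (c := (poly v N c).1) (d := (poly v N d).1)
    (by
      apply Complex.ext
      · simp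
      · simp [ha'.2.2])
    (by
      apply Complex.ext
      · simp
      · simp [hb'.2.2])
    (by
      apply Complex.ext
      · simp
      · simp [hc'.2.2])
    (by
      apply Complex.ext
      · simp
      · simp [hd'.2.2]) h1 h2 h3
  have hsI := hconv a b s hs
  have htI := hconv c d t ht
  have hmin1 : 0 ≤ min a b := le_min ha'.1 hb'.1
  have hmax1 : max a b ≤ N := max_le ha'.2.1 hb'.2.1
  have hmin2 : 0 ≤ min c d := le_min hc'.1 hd'.1
  have hmax2 : max c d ≤ N := max_le hc'.2.1 hd'.2.1
  have he1 : (poly v N (a + s * (b - a))).1 = (poly v N (c + t * (d - c))).1 :=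
    congrArg Complex.re heq
  have he2 : ε * (poly v N (a + s * (b - a))).2 = ε * (poly v N (c + t * (d - c))).2 :=
    congrArg Complex.im heq
  have he3 := mul_left_cancel₀ hε he2
  have he : poly v N (a + s * (b - a)) = poly v N (c + t * (d - c)) := Prod.ext he1 he3
  have hu := poly_inj h (by linarith [hsI.1]) (by linarith [hsI.2]) (by linarith [htI.1])
    (by linarith [htI.2]) he
  -- all four times are distinct
  have nac : a ≠ c := by rintro rfl; exact lt_irrefl _ h1
  have ncb : c ≠ b := by rintro rfl; exact lt_irrefl _ h2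
  have nbd : b ≠ d := by rintro rfl; exact lt_irrefl _ h3
  have nad : a ≠ d := by
    rintro rfl
    linarith
  have key : ∀ p q r w : ℝ, p ≤ q → r ≤ w → p ≠ r → p ≠ w → q ≠ r → q ≠ w →
      (¬ (p < r ∧ r < q)) → (¬ (p < w ∧ w < q)) → (¬ (r < p ∧ p < w)) →
      (¬ (r < q ∧ q < w)) → q < r ∨ w < p := by
    intro p q r w hpq hrw n1 n2 n3 n4 m1 m2 m3 m4
    by_contra hcon
    rw [not_or] at hcon
    push Not at hcon
    obtain ⟨k1, k2⟩ := hcon
    have k1' : r < q := lt_of_le_of_ne k1 (Ne.symm n3)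
    have k2' : p < w := lt_of_le_of_ne k2 n2
    have l1 : r < p := by
      rcases lt_or_gt_of_ne n1 with hh | hh
      · exact absurd ⟨hh, k1'⟩ m1
      · exact hh
    exact m3 ⟨l1, k2'⟩
  have hdis := key (min a b) (max a b) (min c d) (max c d) min_le_max min_le_max
    (by rcases min_choice a b with e | e <;> rcases min_choice c d with f | f <;> rw [e, f] <;>
        first | assumption | exact Ne.symm ‹_›)
    (by rcases min_choice a b with e | e <;> rcases max_choice c d with f | f <;> rw [e, f] <;>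
        first | assumption | exact Ne.symm ‹_›)
    (by rcases max_choice a b with e | e <;> rcases min_choice c d with f | f <;> rw [e, f] <;>
        first | assumption | exact Ne.symm ‹_›)
    (by rcases max_choice a b with e | e <;> rcases max_choice c d with f | f <;> rw [e, f] <;>
        first | assumption | exact Ne.symm ‹_›)
    (by rcases min_choice c d with f | f <;> rw [f]
        · exact hab c hc
        · exact hab d hd)
    (by rcases max_choice c d with f | f <;> rw [f]
        · exact hab c hc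
        · exact hab d hd)
    (by rcases min_choice a b with f | f <;> rw [f]
        · exact hcd a ha
        · exact hcd b hb)
    (by rcases max_choice a b with f | f <;> rw [f]
        · exact hcd a ha
        · exact hcd b hb)
  rcases hdis with h4 | h4
  · linarith [hsI.2, htI.1]
  · linarith [hsI.1, htI.2]

/-- The two-page structure of a simple polygonal path. -/
theorem isBook_of_path {v : ℕ → ℝ × ℝ} {N : ℕ} (h : IsSimplePath v N) :
    IsBook (events v N) (fun t => (poly v N t).1) (upArc v N) (lowArc v N) where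
  inj := by
    intro s hs t ht he
    have hs' := events_spec hs
    have ht' := events_spec ht
    exact poly_inj h hs'.1 hs'.2.1 ht'.1 ht'.2.1
      (Prod.ext he (by rw [hs'.2.2, ht'.2.2]))
  up_symm := by
    intro s t hst
    unfold upArc at hst ⊢
    rwa [min_comm, max_comm] at hst
  low_symm := by
    intro s t hst
    unfold lowArc at hst ⊢
    rwa [min_comm, max_comm] at hst
  arc := fun s hs t ht hst hc => arc_exists hs ht hst hc
  up_nc := by
    intro a ha b hb c hc d hd hab hcd
    exact arcs_nc h 1 one_ne_zero ha hb hc hd hab.1 (by simpa using hab.2) hcd.1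
      (by simpa using hcd.2)
  low_nc := by
    intro a ha b hb c hc d hd hab hcd
    refine arcs_nc h (-1) (by norm_num) ha hb hc hd hab.1 ?_ hcd.1 ?_
    · intro u hu
      have := hab.2 u hu
      linarith
    · intro u hu
      have := hcd.2 u hu
      linarith

/-- The geometric input of the upper bound. -/
theorem exists_book (n : ℕ) (hn : 3 ≤ n) (Γ : Fin n → ℝ × ℝ)
    (h : CrossingFree (SimpleGraph.cycleGraph n) Γ) :
    ∃ (E : Finset ℝ) (x : ℝ → ℝ) (up low : ℝ → ℝ → Prop), IsBook E x up low ∧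
      E.card ≤ 2 * n ∧ ∀ i : Fin n, (Γ i).2 = 0 →
        ((i : ℕ) : ℝ) ∈ E ∧ x ((i : ℕ) : ℝ) = (Γ i).1 := by
  obtain ⟨N, rfl⟩ : ∃ N, n = N + 1 := ⟨n - 1, by omega⟩
  set v : ℕ → ℝ × ℝ := fun i => if hi : i < N + 1 then Γ ⟨i, hi⟩ else 0 with hv
  have hvi : ∀ i (hi : i < N + 1), v i = Γ ⟨i, hi⟩ := fun i hi => by
    rw [hv]; simp only [hi, dite_true]
  have hadj : ∀ i (hi : i < N), (SimpleGraph.cycleGraph (N + 1)).Adj
      (⟨i, by omega⟩ : Fin (N + 1)) ⟨i + 1, by omega⟩ := by
    intro i hi
    rw [SimpleGraph.cycleGraph_adj']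
    right
    have : (⟨i + 1, by omega⟩ : Fin (N + 1)) - ⟨i, by omega⟩ = ⟨1, by omega⟩ := by
      apply Fin.ext
      rw [Fin.sub_def]
      simp only
      have e : N + 1 - i + (i + 1) = N + 1 + 1 := by omega
      rw [e, Nat.add_mod_left]
      exact Nat.mod_eq_of_lt (by omega)
    rw [this]
  have hpath : IsSimplePath v N := by
    refine ⟨?_, ?_, ?_⟩
    · intro i hi j hj hij
      rw [hvi i (by omega), hvi j (by omega)] at hij
      have := h.1 hij
      exact Fin.mk.inj_iff.1 this
    · intro u hu i hi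
      rw [hvi u (by omega), hvi i (by omega), hvi (i + 1) (by omega)]
      exact h.2.1 _ _ _ (hadj i hi)
    · intro i hi j hj hij
      rw [hvi i (by omega), hvi (i + 1) (by omega), hvi j (by omega), hvi (j + 1) (by omega)]
      refine h.2.2 _ _ _ _ (hadj i hi) (hadj j hj) ?_
      intro he
      rw [Sym2.eq_iff] at he
      rcases he with ⟨h1, -⟩ | ⟨h1, h2⟩
      · exact hij (Fin.mk.inj_iff.1 h1)
      · have h3 := Fin.mk.inj_iff.1 h1
        have h4 := Fin.mk.inj_iff.1 h2
        omega
  refine ⟨events v N, fun t => (poly v N t).1, upArc v N, lowArc v N, isBook_of_path hpath,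
    card_events v N, ?_⟩
  intro i hi
  have hiN : (i : ℕ) ≤ N := by omega
  have hvi' : v (i : ℕ) = Γ i := hvi i i.2
  refine ⟨vertex_mem_events hiN (by rw [hvi']; exact hi), ?_⟩
  change (poly v N ((i : ℕ) : ℝ)).1 = (Γ i).1
  rw [poly_vertex v N hiN, hvi']

end Pool.Agent.Work.MP_09dd0a_co
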