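import Mathlib
import Pool.Agent.Work.MP_09dd0a_co.Defs

set_option autoImplicit false

/-!
# Simple polygonal chains parametrised by time
-/

namespace Pool.Agent.Work.MP_09dd0a_co

/-- the points covered by the chain `q 0, …, q T` -/
def trace (T : ℕ) (q : ℕ → ℝ × ℝ) : Set (ℝ × ℝ) :=
  {z | z = q 0 ∨ ∃ i < T, z ∈ segment ℝ (q i) (q (i + 1))}

/-- the chain `q 0, …, q T` is simple -/
def Good (T : ℕ) (q : ℕ → ℝ × ℝ) : Prop :=
  ∀ i < T, q i ≠ q (i + 1) ∧ ∀ z ∈ segment ℝ (q i) (q (i + 1)), z ≠ q i → z ∉ trace i q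

lemma mem_trace_of_le {T : ℕ} {q : ℕ → ℝ × ℝ} {i : ℕ} (h : i ≤ T) : q i ∈ trace T q := by
  rcases Nat.eq_zero_or_pos i with rfl | hi
  · exact Or.inl rfl
  · refine Or.inr ⟨i - 1, by omega, ?_⟩
    rw [Nat.sub_add_cancel hi]
    exact right_mem_segment ℝ _ _

lemma trace_mono {S T : ℕ} (h : S ≤ T) (q : ℕ → ℝ × ℝ) : trace S q ⊆ trace T q := by
  rintro z (hz | ⟨i, hi, hz⟩)
  · exact Or.inl hz
  · exact Or.inr ⟨i, by omega, hz⟩

lemma trace_congr {T : ℕ} {q q' : ℕ → ℝ × ℝ} (h : ∀ i ≤ T, q' i = q i) : trace T q' = trace T q := by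
  ext z
  unfold trace
  constructor
  · rintro (hz | ⟨i, hi, hz⟩)
    · left; rw [hz, h 0 (Nat.zero_le _)]
    · right; refine ⟨i, hi, ?_⟩; rwa [h i hi.le, h (i + 1) hi] at hz
  · rintro (hz | ⟨i, hi, hz⟩)
    · left; rw [hz, h 0 (Nat.zero_le _)]
    · right; refine ⟨i, hi, ?_⟩; rwa [h i hi.le, h (i + 1) hi]

lemma good_congr {T : ℕ} {q q' : ℕ → ℝ × ℝ} (h : ∀ i ≤ T, q' i = q i) (hq : Good T q) :
    Good T q' := by
  intro i hi
  rw [h i hi.le, h (i + 1) hi, trace_congr (fun j hj => h j (by omega))]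
  exact hq i hi

lemma trace_succ (T : ℕ) (q : ℕ → ℝ × ℝ) :
    trace (T + 1) q = trace T q ∪ segment ℝ (q T) (q (T + 1)) := by
  ext z
  constructor
  · rintro (hz | ⟨i, hi, hz⟩)
    · exact Or.inl (Or.inl hz)
    · rcases Nat.lt_succ_iff_lt_or_eq.1 hi with h | rfl
      · exact Or.inl (Or.inr ⟨i, h, hz⟩)
      · exact Or.inr hz
  · rintro (hz | hz)
    · exact trace_mono (Nat.le_succ T) q hz
    · exact Or.inr ⟨T, Nat.lt_succ_self T, hz⟩

/-- one step -/
lemma ext1 {T : ℕ} {q : ℕ → ℝ × ℝ} (hq : Good T q) {P : ℝ × ℝ} (hP : P ≠ q T)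
    (hfree : ∀ z ∈ segment ℝ (q T) P, z ≠ q T → z ∉ trace T q) :
    ∃ q' : ℕ → ℝ × ℝ, Good (T + 1) q' ∧ (∀ i ≤ T, q' i = q i) ∧ q' (T + 1) = P ∧
      trace (T + 1) q' = trace T q ∪ segment ℝ (q T) P := by
  refine ⟨Function.update q (T + 1) P, ?_, ?_, by simp, ?_⟩
  · intro i hi
    have hagree : ∀ j ≤ T, Function.update q (T + 1) P j = q j := fun j hj =>
      Function.update_of_ne (by omega) _ _
    rcases Nat.lt_succ_iff_lt_or_eq.1 hi with h | rfl
    · have := good_congr hagree hq i h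
      exact this
    · rw [hagree i le_rfl, Function.update_self, trace_congr (fun j hj => hagree j hj)]
      exact ⟨hP.symm, hfree⟩
  · intro i hi
    exact Function.update_of_ne (by omega) _ _
  · have hagree : ∀ j ≤ T, Function.update q (T + 1) P j = q j := fun j hj =>
      Function.update_of_ne (by omega) _ _
    rw [trace_succ, trace_congr hagree, hagree T le_rfl, Function.update_self]

/-- point on a segment by parameter -/
lemma mem_segment_iff' (a b z : ℝ × ℝ) :
    z ∈ segment ℝ a b ↔ ∃ t : ℝ, 0 ≤ t ∧ t ≤ 1 ∧ z = a + t • (b - a) := by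
  rw [segment_eq_image']
  constructor
  · rintro ⟨t, ⟨h0, h1⟩, rfl⟩; exact ⟨t, h0, h1, rfl⟩
  · rintro ⟨t, h0, h1, rfl⟩; exact ⟨t, ⟨h0, h1⟩, rfl⟩

lemma mem_openSegment_iff' (a b z : ℝ × ℝ) :
    z ∈ openSegment ℝ a b ↔ ∃ t : ℝ, 0 < t ∧ t < 1 ∧ z = a + t • (b - a) := by
  rw [openSegment_eq_image']
  constructor
  · rintro ⟨t, ⟨h0, h1⟩, rfl⟩; exact ⟨t, h0, h1, rfl⟩
  · rintro ⟨t, h0, h1, rfl⟩; exact ⟨t, ⟨h0, h1⟩, rfl⟩

/-- `m ≥ 1` steps along one segment -/
lemma ext_steps (m : ℕ) : ∀ {T : ℕ} {q : ℕ → ℝ × ℝ}, Good T q → ∀ {P : ℝ × ℝ}, P ≠ q T →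
    (∀ z ∈ segment ℝ (q T) P, z ≠ q T → z ∉ trace T q) →
    ∃ q' : ℕ → ℝ × ℝ, Good (T + (m + 1)) q' ∧ (∀ i ≤ T, q' i = q i) ∧ q' (T + (m + 1)) = P ∧
      trace (T + (m + 1)) q' = trace T q ∪ segment ℝ (q T) P := by
  induction m with
  | zero => intro T q hq P hP hfree; exact ext1 hq hP hfree
  | succ m ih =>
    intro T q hq P hP hfree
    -- first step to an intermediate point
    set t0 : ℝ := 1 / 2 with ht0
    set P1 : ℝ × ℝ := q T + t0 • (P - q T) with hP1
    have hPne : P - q T ≠ 0 := sub_ne_zero.2 hP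
    have hP1ne : P1 ≠ q T := by
      intro h
      have : t0 • (P - q T) = 0 := by
        have := congrArg (fun z => z - q T) h
        simpa [hP1] using this
      rcases smul_eq_zero.1 this with h | h
      · norm_num [ht0] at h
      · exact hPne h
    have hsub1 : segment ℝ (q T) P1 ⊆ segment ℝ (q T) P := by
      intro z hz
      rw [mem_segment_iff'] at hz ⊢
      obtain ⟨t, h0, h1, rfl⟩ := hz
      refine ⟨t * t0, by positivity, by rw [ht0]; linarith, ?_⟩
      rw [hP1, add_sub_cancel_left, smul_smul]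
    obtain ⟨q1, hg1, ha1, he1, ht1⟩ := ext1 hq hP1ne (fun z hz hne => hfree z (hsub1 hz) hne)
    have hPP1 : P ≠ q1 (T + 1) := by
      rw [he1, hP1]
      intro h
      have h2 : (1 - t0) • (P - q T) = 0 := by
        have h3 : P - (q T + t0 • (P - q T)) = 0 := sub_eq_zero.2 h
        rw [sub_smul, one_smul]
        rw [← h3]
        abel
      rcases smul_eq_zero.1 h2 with h | h
      · norm_num [ht0] at h
      · exact hPne h
    have hsub2 : ∀ z ∈ segment ℝ P1 P, ∃ t, t0 ≤ t ∧ t ≤ 1 ∧ z = q T + t • (P - q T) := by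
      intro z hz
      rw [mem_segment_iff'] at hz
      obtain ⟨t, h0, h1, rfl⟩ := hz
      refine ⟨t0 + t * (1 - t0), by rw [ht0]; linarith, by rw [ht0]; linarith, ?_⟩
      rw [hP1]
      module
    have hfree2 : ∀ z ∈ segment ℝ (q1 (T + 1)) P, z ≠ q1 (T + 1) → z ∉ trace (T + 1) q1 := by
      intro z hz hne
      rw [he1] at hz hne
      obtain ⟨t, h0, h1, rfl⟩ := hsub2 z hz
      have htt : t0 ≠ t := by
        rintro rfl
        exact hne rfl
      have htlt : t0 < t := lt_of_le_of_ne h0 htt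
      rw [ht1]
      rintro (h | h)
      · refine hfree _ ?_ ?_ h
        · rw [mem_segment_iff']; exact ⟨t, by linarith [show (0:ℝ) ≤ t0 by norm_num [ht0]], h1, rfl⟩
        · intro h
          have : t • (P - q T) = 0 := by
            have := congrArg (fun z => z - q T) h
            simpa using this
          rcases smul_eq_zero.1 this with h | h
          · have : (0:ℝ) < t0 := by norm_num [ht0]
            linarith
          · exact hPne h
      · rw [mem_segment_iff'] at h
        obtain ⟨s, hs0, hs1, hs⟩ := h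
        rw [hP1, add_sub_cancel_left, smul_smul] at hs
        have h4 : (t - s * t0) • (P - q T) = 0 := by
          rw [sub_smul, sub_eq_zero]
          exact add_left_cancel hs
        rcases smul_eq_zero.1 h4 with h | h
        · have : (0:ℝ) < t0 := by norm_num [ht0]
          nlinarith
        · exact hPne h
    obtain ⟨q2, hg2, ha2, he2, ht2⟩ := ih hg1 hPP1 hfree2
    have hidx : T + 1 + (m + 1) = T + (m + 1 + 1) := by ring
    rw [hidx] at hg2 he2 ht2
    refine ⟨q2, hg2, fun i hi => ?_, he2, ?_⟩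
    · rw [ha2 i (by omega), ha1 i hi]
    · rw [ht2, ht1, he1, Set.union_assoc]
      congr 1
      apply Set.Subset.antisymm
      · rintro z (hz | hz)
        · exact hsub1 hz
        · obtain ⟨t, h0, h1, rfl⟩ := hsub2 z hz
          rw [mem_segment_iff']
          exact ⟨t, by linarith [show (0:ℝ) ≤ t0 by norm_num [ht0]], h1, rfl⟩
      · intro z hz
        rw [mem_segment_iff'] at hz
        obtain ⟨t, h0, h1, rfl⟩ := hz
        rcases le_total t t0 with h | h
        · left
          rw [mem_segment_iff']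
          refine ⟨2 * t, by linarith, by rw [ht0] at h; linarith, ?_⟩
          rw [hP1, ht0]
          module
        · right
          rw [mem_segment_iff']
          refine ⟨2 * t - 1, by rw [ht0] at h; linarith, by linarith, ?_⟩
          rw [hP1, ht0]
          module

/-- left end not in the open segment -/
lemma left_notMem_openSegment {a b : ℝ × ℝ} (h : a ≠ b) : a ∉ openSegment ℝ a b := by
  intro hm
  rw [mem_openSegment_iff'] at hm
  obtain ⟨t, h0, _, ht⟩ := hm
  have h1 : t • (b - a) = 0 := by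
    have := congrArg (fun z => z - a) ht
    simpa using this.symm
  rcases smul_eq_zero.1 h1 with h1 | h1
  · linarith
  · exact h (sub_eq_zero.1 h1).symm

lemma right_notMem_openSegment {a b : ℝ × ℝ} (h : a ≠ b) : b ∉ openSegment ℝ a b := by
  rw [openSegment_symm]
  exact left_notMem_openSegment h.symm

/-- the `e`-th edge of the closed polygon -/
def nxt (n : ℕ) (e : ℕ) : ℕ := if e + 1 = n then 0 else e + 1

/-- **Closing a chain.** -/
theorem crossingFree_of_good {n : ℕ} (hn : 3 ≤ n) (q : ℕ → ℝ × ℝ) (hq : Good (n - 1) q)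
    (hclose : ∀ z ∈ openSegment ℝ (q (n - 1)) (q 0), z ∉ trace (n - 1) q) :
    CrossingFree (SimpleGraph.cycleGraph n) (fun i : Fin n => q i) := by
  -- injectivity
  have hinj : ∀ u w : ℕ, u < w → w ≤ n - 1 → q u ≠ q w := by
    intro u w huw hw h
    have h1 := hq (w - 1) (by omega)
    have h2 : w - 1 + 1 = w := by omega
    rw [h2] at h1
    have h3 := h1.2 (q w) (right_mem_segment ℝ _ _) h1.1.symm
    apply h3
    rw [← h]
    exact mem_trace_of_le (by omega)
  have hinj' : ∀ u w : ℕ, u ≤ n - 1 → w ≤ n - 1 → u ≠ w → q u ≠ q w := by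
    intro u w hu hw huw
    rcases lt_or_gt_of_ne huw with h | h
    · exact hinj u w h hw
    · exact (hinj w u h hu).symm
  -- edges as indices
  have hedge : ∀ a b : Fin n, (SimpleGraph.cycleGraph n).Adj a b →
      ∃ e < n, ((a : ℕ) = e ∧ (b : ℕ) = nxt n e) ∨ ((b : ℕ) = e ∧ (a : ℕ) = nxt n e) := by
    intro a b hab
    rw [SimpleGraph.cycleGraph_adj'] at hab
    have ha := a.2
    have hb := b.2
    rcases hab with h | h
    · refine ⟨b, hb, Or.inr ⟨rfl, ?_⟩⟩
      rw [Fin.sub_def] at h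
      simp only at h
      unfold nxt
      rcases le_or_gt (b : ℕ) (a : ℕ) with hle | hlt
      · have e1 : (n - (b : ℕ) + (a : ℕ)) = ((a : ℕ) - b) + n := by omega
        rw [e1, Nat.add_mod_right, Nat.mod_eq_of_lt (by omega)] at h
        rw [if_neg (by omega)]; omega
      · rw [Nat.mod_eq_of_lt (by omega)] at h
        rw [if_pos (by omega)]; omega
    · refine ⟨a, ha, Or.inl ⟨rfl, ?_⟩⟩
      rw [Fin.sub_def] at h
      simp only at h
      unfold nxt
      rcases le_or_gt (a : ℕ) (b : ℕ) with hle | hlt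
      · have e1 : (n - (a : ℕ) + (b : ℕ)) = ((b : ℕ) - a) + n := by omega
        rw [e1, Nat.add_mod_right, Nat.mod_eq_of_lt (by omega)] at h
        rw [if_neg (by omega)]; omega
      · rw [Nat.mod_eq_of_lt (by omega)] at h
        rw [if_pos (by omega)]; omega
  have hseg : ∀ a b : Fin n, ∀ e, ((a : ℕ) = e ∧ (b : ℕ) = nxt n e) ∨
      ((b : ℕ) = e ∧ (a : ℕ) = nxt n e) →
      openSegment ℝ (q a) (q b) = openSegment ℝ (q e) (q (nxt n e)) := by
    intro a b e h
    rcases h with ⟨h1, h2⟩ | ⟨h1, h2⟩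
    · rw [h1, h2]
    · rw [h1, h2, openSegment_symm]
  -- disjointness of edges
  have hdis : ∀ e e' : ℕ, e < e' → e' < n →
      Disjoint (openSegment ℝ (q e) (q (nxt n e))) (openSegment ℝ (q e') (q (nxt n e'))) := by
    intro e e' hee he'
    rw [Set.disjoint_left]
    intro z hz hz'
    have hne1 : nxt n e = e + 1 := by unfold nxt; rw [if_neg (by omega)]
    rw [hne1] at hz
    have hzt : ∀ m, e < m → z ∈ trace m q := fun m hm =>
      Or.inr ⟨e, hm, openSegment_subset_segment ℝ _ _ hz⟩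
    by_cases hlast : e' + 1 = n
    · have : nxt n e' = 0 := by unfold nxt; rw [if_pos hlast]
      rw [this] at hz'
      have h1 : e' = n - 1 := by omega
      rw [h1] at hz'
      exact hclose z hz' (hzt _ (by omega))
    · have : nxt n e' = e' + 1 := by unfold nxt; rw [if_neg hlast]
      rw [this] at hz'
      have h1 := hq e' (by omega)
      refine h1.2 z (openSegment_subset_segment ℝ _ _ hz') ?_ (hzt e' hee)
      rintro rfl
      exact left_notMem_openSegment h1.1 hz'
  refine ⟨?_, ?_, ?_⟩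
  · intro a b hab
    by_contra hne'
    exact hinj' a b (by omega) (by omega) (fun h => hne' (Fin.ext h)) hab
  · intro u v w hvw
    obtain ⟨e, he, hh⟩ := hedge v w hvw
    show q u ∉ openSegment ℝ (q v) (q w)
    rw [hseg v w e hh]
    intro hz
    have hu : (u : ℕ) ≤ n - 1 := by omega
    by_cases hlast : e + 1 = n
    · have : nxt n e = 0 := by unfold nxt; rw [if_pos hlast]
      rw [this] at hz
      have h1 : e = n - 1 := by omega
      rw [h1] at hz
      exact hclose _ hz (mem_trace_of_le hu)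
    · have : nxt n e = e + 1 := by unfold nxt; rw [if_neg hlast]
      rw [this] at hz
      have h1 := hq e (by omega)
      rcases lt_trichotomy (u : ℕ) e with h | h | h
      · exact h1.2 _ (openSegment_subset_segment ℝ _ _ hz) (hinj _ _ h (by omega))
          (mem_trace_of_le (by omega))
      · rw [h] at hz
        exact left_notMem_openSegment h1.1 hz
      · rcases Nat.lt_or_ge (e + 1) u with h' | h'
        · have h2 := hq ((u : ℕ) - 1) (by omega)
          have h3 : (u : ℕ) - 1 + 1 = u := by omega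
          rw [h3] at h2
          exact h2.2 (q u) (right_mem_segment ℝ _ _) h2.1.symm
            (Or.inr ⟨e, by omega, openSegment_subset_segment ℝ _ _ hz⟩)
        · have h3 : (u : ℕ) = e + 1 := by omega
          rw [h3] at hz
          exact right_notMem_openSegment h1.1 hz
  · intro a b c d hab hcd hne'
    obtain ⟨e, he, hh⟩ := hedge a b hab
    obtain ⟨e', he', hh'⟩ := hedge c d hcd
    show Disjoint (openSegment ℝ (q a) (q b)) (openSegment ℝ (q c) (q d))
    rw [hseg a b e hh, hseg c d e' hh']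
    rcases lt_trichotomy e e' with h | h | h
    · exact hdis e e' h he'
    · exfalso
      apply hne'
      subst h
      rw [Sym2.eq_iff]
      rcases hh with ⟨h1, h2⟩ | ⟨h1, h2⟩ <;> rcases hh' with ⟨h3, h4⟩ | ⟨h3, h4⟩
      · exact Or.inl ⟨Fin.ext (h1.trans h3.symm), Fin.ext (h2.trans h4.symm)⟩
      · exact Or.inr ⟨Fin.ext (h1.trans h3.symm), Fin.ext (h2.trans h4.symm)⟩
      · exact Or.inr ⟨Fin.ext (h2.trans h4.symm), Fin.ext (h1.trans h3.symm)⟩
      · exact Or.inl ⟨Fin.ext (h2.trans h4.symm), Fin.ext (h1.trans h3.symm)⟩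
    · exact (hdis e' e h he).symm

end Pool.Agent.Work.MP_09dd0a_co
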