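import Mathlib
import Pool.Agent.Work.MP_09dd0a_co.LowChain

set_option autoImplicit false

/-!
# Piecewise linear curves and travelling along them
-/

namespace Pool.Agent.Work.MP_09dd0a_co

/-- ramp from `0` (left of `a`) to `1` (right of `b`) -/
noncomputable def ramp (a b x : ℝ) : ℝ := max 0 (min 1 ((x - a) / (b - a)))

lemma ramp_of_le {a b x : ℝ} (hab : a < b) (h : x ≤ a) : ramp a b x = 0 := by
  unfold ramp
  have : (x - a) / (b - a) ≤ 0 := div_nonpos_of_nonpos_of_nonneg (by linarith) (by linarith)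
  rw [max_eq_left]
  exact (min_le_right _ _).trans this

lemma ramp_of_ge {a b x : ℝ} (hab : a < b) (h : b ≤ x) : ramp a b x = 1 := by
  unfold ramp
  have : 1 ≤ (x - a) / (b - a) := by
    rw [le_div_iff₀ (by linarith)]; linarith
  rw [min_eq_left this]
  norm_num

lemma ramp_mid {a b x : ℝ} (hab : a < b) (h1 : a ≤ x) (h2 : x ≤ b) :
    ramp a b x = (x - a) / (b - a) := by
  unfold ramp
  have h3 : (x - a) / (b - a) ≤ 1 := by
    rw [div_le_one (by linarith)]; linarith
  have h4 : 0 ≤ (x - a) / (b - a) := div_nonneg (by linarith) (by linarith)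
  rw [min_eq_right h3, max_eq_right h4]

lemma ramp_anti {a b a' b' : ℝ} (hab : a < b) (hab' : a' < b') (ha : a ≤ a') (hb : b ≤ b')
    (x : ℝ) : ramp a' b' x ≤ ramp a b x := by
  rcases le_or_gt x a' with h | h
  · rw [ramp_of_le hab' h]
    unfold ramp
    exact le_max_left _ _
  · rcases le_or_gt b x with h2 | h2
    · rw [ramp_of_ge hab h2]
      unfold ramp
      exact max_le (by norm_num) (min_le_left _ _)
    · rw [ramp_mid hab' h.le (by linarith), ramp_mid hab (by linarith) h2.le]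
      rw [div_le_div_iff₀ (by linarith) (by linarith)]
      nlinarith

/-- `g` is affine on every interval without a breakpoint in its interior -/
def AffOff (g : ℝ → ℝ) (β : Finset ℝ) : Prop :=
  ∀ c d : ℝ, (∀ w ∈ β, ¬ (min c d < w ∧ w < max c d)) → ∀ t : ℝ, 0 ≤ t → t ≤ 1 →
    g (c + t * (d - c)) = g c + t * (g d - g c)

lemma AffOff.mono {g : ℝ → ℝ} {β β' : Finset ℝ} (h : AffOff g β) (hb : β ⊆ β') : AffOff g β' :=
  fun c d hcd t h0 h1 => h c d (fun w hw => hcd w (hb hw)) t h0 h1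

lemma affOff_const (k : ℝ) : AffOff (fun _ => k) ∅ := by
  intro c d _ t _ _; ring

lemma AffOff.add {g g' : ℝ → ℝ} {β β' : Finset ℝ} (h : AffOff g β) (h' : AffOff g' β') :
    AffOff (fun x => g x + g' x) (β ∪ β') := by
  intro c d hcd t h0 h1
  have e1 := h c d (fun w hw => hcd w (Finset.mem_union_left _ hw)) t h0 h1
  have e2 := h' c d (fun w hw => hcd w (Finset.mem_union_right _ hw)) t h0 h1
  simp only [e1, e2]; ring

lemma AffOff.mul_const {g : ℝ → ℝ} {β : Finset ℝ} (h : AffOff g β) (k : ℝ) :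
    AffOff (fun x => k * g x) β := by
  intro c d hcd t h0 h1
  have e1 := h c d hcd t h0 h1
  simp only [e1]; ring

lemma affOff_sum {ι : Type} (s : Finset ι) (g : ι → ℝ → ℝ) (β : ι → Finset ℝ)
    (h : ∀ i ∈ s, AffOff (g i) (β i)) : AffOff (fun x => ∑ i ∈ s, g i x) (s.biUnion β) := by
  intro c d hcd t h0 h1
  have e : ∀ i ∈ s, g i (c + t * (d - c)) = g i c + t * (g i d - g i c) := fun i hi =>
    h i hi c d (fun w hw => hcd w (Finset.mem_biUnion.2 ⟨i, hi, hw⟩)) t h0 h1
  simp only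
  rw [Finset.sum_congr rfl e, Finset.sum_add_distrib, ← Finset.mul_sum, Finset.sum_sub_distrib]

lemma affOff_of_le {g : ℝ → ℝ} {β : Finset ℝ}
    (h : ∀ c d : ℝ, c ≤ d → (∀ w ∈ β, ¬ (c < w ∧ w < d)) → ∀ t : ℝ, 0 ≤ t → t ≤ 1 →
      g (c + t * (d - c)) = g c + t * (g d - g c)) : AffOff g β := by
  intro c d hcd t h0 h1
  rcases le_total c d with hle | hle
  · rw [min_eq_left hle, max_eq_right hle] at hcd
    exact h c d hle hcd t h0 h1
  · rw [min_eq_right hle, max_eq_left hle] at hcd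
    have := h d c hle hcd (1 - t) (by linarith) (by linarith)
    have e : c + t * (d - c) = d + (1 - t) * (c - d) := by ring
    rw [e, this]; ring

lemma affOff_ramp {a b : ℝ} (hab : a < b) : AffOff (ramp a b) {a, b} := by
  apply affOff_of_le
  intro c d hcd hw t h0 h1
  have hx1 : c ≤ c + t * (d - c) := by nlinarith
  have hx2 : c + t * (d - c) ≤ d := by nlinarith
  have ha := hw a (by simp)
  have hb := hw b (by simp)
  rcases le_or_gt d a with h | h
  · rw [ramp_of_le hab (by linarith), ramp_of_le hab (by linarith), ramp_of_le hab h]; ring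
  · have hac : a ≤ c := by
      by_contra hlt
      exact ha ⟨by linarith, h⟩
    rcases le_or_gt b c with h2 | h2
    · rw [ramp_of_ge hab (by linarith), ramp_of_ge hab h2, ramp_of_ge hab (by linarith)]; ring
    · have hdb : d ≤ b := by
        by_contra hlt
        exact hb ⟨h2, by linarith⟩
      rw [ramp_mid hab (by linarith) (by linarith), ramp_mid hab hac (by linarith),
        ramp_mid hab (by linarith) hdb]
      field_simp
      ring

/-- the segment between two points of the graph, without breakpoints in between -/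
lemma graph_segment {g : ℝ → ℝ} {β : Finset ℝ} (hg : AffOff g β) {c d : ℝ}
    (hcd : ∀ w ∈ β, ¬ (min c d < w ∧ w < max c d)) {z : ℝ × ℝ}
    (hz : z ∈ segment ℝ (c, g c) (d, g d)) :
    ∃ t : ℝ, 0 ≤ t ∧ t ≤ 1 ∧ z.1 = c + t * (d - c) ∧ z.2 = g z.1 := by
  rw [mem_segment_iff'] at hz
  obtain ⟨t, h0, h1, rfl⟩ := hz
  refine ⟨t, h0, h1, by simp, ?_⟩
  have := hg c d hcd t h0 h1
  simp only [Prod.snd_add, Prod.smul_snd, Prod.snd_sub, smul_eq_mul, Prod.fst_add, Prod.smul_fst,
    Prod.fst_sub]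
  rw [this]

/-- **Travelling along a graph** in direction `σ`. -/
theorem travel {g : ℝ → ℝ} {β : Finset ℝ} (hg : AffOff g β) {σ : ℝ} (hσ : σ = 1 ∨ σ = -1) (N : ℕ) :
    ∀ (a b : ℝ) (T : ℕ) (q : ℕ → ℝ × ℝ), σ * a < σ * b →
      (β.filter (fun w => σ * a < σ * w ∧ σ * w < σ * b)).card ≤ N → Good T q → q T = (a, g a) →
      (∀ z ∈ trace T q, z.2 < g z.1 ∨ (z.2 = g z.1 ∧ σ * z.1 ≤ σ * a)) → ∀ M : ℕ, N + 1 ≤ M →
      ∃ q' : ℕ → ℝ × ℝ, Good (T + M) q' ∧ (∀ i ≤ T, q' i = q i) ∧ q' (T + M) = (b, g b) ∧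
        trace (T + M) q' ⊆ trace T q ∪ {z | z.2 = g z.1 ∧ σ * a ≤ σ * z.1 ∧ σ * z.1 ≤ σ * b} := by
  -- the direct step
  have hbetween : ∀ c d w : ℝ, σ * c < σ * d → (min c d < w ∧ w < max c d) →
      σ * c < σ * w ∧ σ * w < σ * d := by
    intro c d w hcd hw
    rcases hσ with rfl | rfl
    · simp only [one_mul] at hcd ⊢
      rw [min_eq_left hcd.le, max_eq_right hcd.le] at hw
      exact hw
    · have : d < c := by linarith
      rw [min_eq_right this.le, max_eq_left this.le] at hw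
      constructor <;> linarith [hw.1, hw.2]
  have hseg : ∀ (c d : ℝ), σ * c < σ * d → (∀ w ∈ β, ¬ (σ * c < σ * w ∧ σ * w < σ * d)) →
      ∀ z ∈ segment ℝ (c, g c) (d, g d), z.2 = g z.1 ∧ σ * c ≤ σ * z.1 ∧ σ * z.1 ≤ σ * d ∧
        (z ≠ (c, g c) → σ * c < σ * z.1) := by
    intro c d hcd hw z hz
    obtain ⟨t, h0, h1, hz1, hz2⟩ := graph_segment hg
      (fun w hwβ hcon => hw w hwβ (hbetween c d w hcd hcon)) hz
    have e1 : σ * z.1 = σ * c + t * (σ * d - σ * c) := by rw [hz1]; ring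
    refine ⟨hz2, by nlinarith, by nlinarith, fun hne => ?_⟩
    have ht : t ≠ 0 := by
      rintro rfl
      apply hne
      have : z.1 = c := by rw [hz1]; ring
      ext
      · exact this
      · rw [hz2, this]
    have : 0 < t := lt_of_le_of_ne h0 (Ne.symm ht)
    nlinarith
  have hdirect : ∀ (a b : ℝ) (T : ℕ) (q : ℕ → ℝ × ℝ), σ * a < σ * b →
      (∀ w ∈ β, ¬ (σ * a < σ * w ∧ σ * w < σ * b)) → Good T q → q T = (a, g a) →
      (∀ z ∈ trace T q, z.2 < g z.1 ∨ (z.2 = g z.1 ∧ σ * z.1 ≤ σ * a)) → ∀ M : ℕ, 1 ≤ M →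
      ∃ q' : ℕ → ℝ × ℝ, Good (T + M) q' ∧ (∀ i ≤ T, q' i = q i) ∧ q' (T + M) = (b, g b) ∧
        trace (T + M) q' ⊆ trace T q ∪ {z | z.2 = g z.1 ∧ σ * a ≤ σ * z.1 ∧ σ * z.1 ≤ σ * b} := by
    intro a b T q hab hw hq hqT htr M hM
    obtain ⟨m, rfl⟩ : ∃ m, M = m + 1 := ⟨M - 1, by omega⟩
    have hne : ((b, g b) : ℝ × ℝ) ≠ q T := by
      rw [hqT]
      intro h
      have : b = a := congrArg Prod.fst h
      rw [this] at hab
      exact lt_irrefl _ hab
    obtain ⟨q', h1, h2, h3, h4⟩ := ext_steps m hq hne (by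
      intro z hz hzne hzt
      rw [hqT] at hz hzne
      obtain ⟨e1, e2, e3, e4⟩ := hseg a b hab hw z hz
      have e5 := e4 hzne
      rcases htr z hzt with h | h
      · linarith
      · linarith [h.2])
    refine ⟨q', h1, h2, h3, ?_⟩
    rw [h4]
    apply Set.union_subset_union_right
    intro z hz
    rw [hqT] at hz
    obtain ⟨e1, e2, e3, _⟩ := hseg a b hab hw z hz
    exact ⟨e1, e2, e3⟩
  induction N with
  | zero =>
    intro a b T q hab hcard hq hqT htr M hM
    refine hdirect a b T q hab ?_ hq hqT htr M hM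
    intro w hw hcon
    have : w ∈ β.filter (fun w => σ * a < σ * w ∧ σ * w < σ * b) :=
      Finset.mem_filter.2 ⟨hw, hcon⟩
    rw [Finset.card_eq_zero.1 (Nat.le_zero.1 hcard)] at this
    simp at this
  | succ N ih =>
    intro a b T q hab hcard hq hqT htr M hM
    by_cases hemp : (β.filter (fun w => σ * a < σ * w ∧ σ * w < σ * b)).Nonempty
    · obtain ⟨w, hwmem, hwmin⟩ := Finset.exists_min_image _ (fun w => σ * w) hemp
      rw [Finset.mem_filter] at hwmem
      obtain ⟨hwβ, haw, hwb⟩ := hwmem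
      have hno : ∀ v ∈ β, ¬ (σ * a < σ * v ∧ σ * v < σ * w) := by
        intro v hv hcon
        have := hwmin v (Finset.mem_filter.2 ⟨hv, hcon.1, hcon.2.trans hwb⟩)
        linarith [hcon.2]
      obtain ⟨q1, g1, a1, e1, t1⟩ := hdirect a w T q haw hno hq hqT htr 1 le_rfl
      have hcard' : (β.filter (fun v => σ * w < σ * v ∧ σ * v < σ * b)).card ≤ N := by
        have hsub : β.filter (fun v => σ * w < σ * v ∧ σ * v < σ * b) ⊆
            (β.filter (fun v => σ * a < σ * v ∧ σ * v < σ * b)).erase w := by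
          intro v hv
          rw [Finset.mem_filter] at hv
          rw [Finset.mem_erase, Finset.mem_filter]
          refine ⟨?_, hv.1, haw.trans hv.2.1, hv.2.2⟩
          rintro rfl
          exact lt_irrefl _ hv.2.1
        have h1 := Finset.card_le_card hsub
        rw [Finset.card_erase_of_mem (Finset.mem_filter.2 ⟨hwβ, haw, hwb⟩)] at h1
        omega
      have htr1 : ∀ z ∈ trace (T + 1) q1, z.2 < g z.1 ∨ (z.2 = g z.1 ∧ σ * z.1 ≤ σ * w) := by
        intro z hz
        rcases t1 hz with h | h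
        · rcases htr z h with h | h
          · exact Or.inl h
          · exact Or.inr ⟨h.1, by linarith [h.2]⟩
        · exact Or.inr ⟨h.1, h.2.2⟩
      obtain ⟨q2, g2, a2, e2, t2⟩ := ih w b (T + 1) q1 hwb hcard' g1 e1 htr1 (M - 1) (by omega)
      have hM' : T + 1 + (M - 1) = T + M := by omega
      rw [hM'] at g2 e2 t2
      refine ⟨q2, g2, fun i hi => by rw [a2 i (by omega), a1 i hi], e2, ?_⟩
      intro z hz
      rcases t2 hz with h | h
      · rcases t1 h with h | h
        · exact Or.inl h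
        · exact Or.inr ⟨h.1, h.2.1, by linarith [h.2.2]⟩
      · exact Or.inr ⟨h.1, by linarith [h.2.1], h.2.2⟩
    · refine hdirect a b T q hab ?_ hq hqT htr M (by omega)
      intro w hw hcon
      exact hemp ⟨w, Finset.mem_filter.2 ⟨hw, hcon⟩⟩

end Pool.Agent.Work.MP_09dd0a_co
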