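import Mathlib
import Pool.Agent.Work.MP_09dd0a_co.LowPL

set_option autoImplicit false

/-!
# The stack of curves and the polygon
-/

namespace Pool.Agent.Work.MP_09dd0a_co

/-- Points `(x j, y j)`, `j < k`, in vertical strips `c < B`, increasing inside each strip. -/
structure Cfg where
  k : ℕ
  B : ℕ
  x : ℕ → ℝ
  y : ℕ → ℝ
  s : ℕ → ℕ
  X : ℕ → ℝ
  D : ℕ → ℝ
  Y : ℝ
  hk : 0 < k
  hB : ∀ j < k, s j < B
  hXD : ∀ c < B, X c < D c
  hDX : ∀ c < B, D c < X (c + 1)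
  hx1 : ∀ j < k, X (s j) < x j
  hx2 : ∀ j < k, x j < D (s j)
  hmono : ∀ i j, i < j → j < k → s i = s j → x i < x j
  hY : ∀ j < k, |y j| ≤ Y

namespace Cfg

variable (C : Cfg)

lemma X_mono {c c' : ℕ} (h : c ≤ c') (h' : c' ≤ C.B) : C.X c ≤ C.X c' := by
  induction c' with
  | zero => rw [Nat.le_zero.1 h]
  | succ c' ih =>
    rcases Nat.lt_or_ge c (c' + 1) with hlt | hge
    · have h1 := ih (by omega) (by omega)
      have h2 := C.hXD c' (by omega)
      have h3 := C.hDX c' (by omega)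
      linarith
    · have : c = c' + 1 := by omega
      rw [this]

/-- visited abscissae of strip `c` at level `i`, with the left boundary -/
noncomputable def loSet (c i : ℕ) : Finset ℝ :=
  insert (C.X c) (((Finset.range i).filter (fun j => C.s j = c)).image C.x)

/-- unvisited abscissae of strip `c` at level `i`, with the right boundary -/
noncomputable def hiSet (c i : ℕ) : Finset ℝ :=
  insert (C.D c) (((Finset.range C.k).filter (fun j => i ≤ j ∧ C.s j = c)).image C.x)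

noncomputable def lo (c i : ℕ) : ℝ := (C.loSet c i).max' (Finset.insert_nonempty _ _)
noncomputable def hi (c i : ℕ) : ℝ := (C.hiSet c i).min' (Finset.insert_nonempty _ _)

lemma X_le_lo (c i : ℕ) : C.X c ≤ C.lo c i :=
  Finset.le_max' _ _ (Finset.mem_insert_self _ _)

lemma hi_le_D (c i : ℕ) : C.hi c i ≤ C.D c :=
  Finset.min'_le _ _ (Finset.mem_insert_self _ _)

lemma x_le_lo {c i j : ℕ} (h : j < i) (hc : C.s j = c) : C.x j ≤ C.lo c i :=
  Finset.le_max' _ _ (Finset.mem_insert_of_mem (Finset.mem_image.2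
    ⟨j, Finset.mem_filter.2 ⟨Finset.mem_range.2 h, hc⟩, rfl⟩))

lemma hi_le_x {c i j : ℕ} (h : i ≤ j) (hj : j < C.k) (hc : C.s j = c) : C.hi c i ≤ C.x j :=
  Finset.min'_le _ _ (Finset.mem_insert_of_mem (Finset.mem_image.2
    ⟨j, Finset.mem_filter.2 ⟨Finset.mem_range.2 hj, h, hc⟩, rfl⟩))

lemma lo_mono {c i i' : ℕ} (h : i ≤ i') : C.lo c i ≤ C.lo c i' := by
  apply Finset.max'_subset
  apply Finset.insert_subset_insert
  apply Finset.image_subset_image
  intro j hj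
  rw [Finset.mem_filter, Finset.mem_range] at hj ⊢
  exact ⟨by omega, hj.2⟩

lemma hi_mono {c i i' : ℕ} (h : i ≤ i') : C.hi c i ≤ C.hi c i' := by
  apply Finset.min'_subset
  apply Finset.insert_subset_insert
  apply Finset.image_subset_image
  intro j hj
  rw [Finset.mem_filter, Finset.mem_range] at hj ⊢
  exact ⟨hj.1, by omega, hj.2.2⟩

lemma lo_lt_hi {c i : ℕ} (hc : c < C.B) (hi : i ≤ C.k) : C.lo c i < C.hi c i := by
  have h1 : C.lo c i ∈ C.loSet c i := Finset.max'_mem _ _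
  have h2 : C.hi c i ∈ C.hiSet c i := Finset.min'_mem _ _
  unfold loSet at h1
  unfold hiSet at h2
  rw [Finset.mem_insert, Finset.mem_image] at h1 h2
  rcases h1 with h1 | ⟨j, hj, h1⟩
  · rcases h2 with h2 | ⟨j', hj', h2⟩
    · rw [h1, h2]; exact C.hXD c hc
    · rw [Finset.mem_filter, Finset.mem_range] at hj'
      have := C.hx1 j' hj'.1
      rw [hj'.2.2] at this
      rw [h1, ← h2]; exact this
  · rw [Finset.mem_filter, Finset.mem_range] at hj
    rcases h2 with h2 | ⟨j', hj', h2⟩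
    · have := C.hx2 j (by omega)
      rw [hj.2] at this
      rw [← h1, h2]; exact this
    · rw [Finset.mem_filter, Finset.mem_range] at hj'
      rw [← h1, ← h2]
      exact C.hmono j j' (by omega) hj'.1 (by rw [hj.2, hj'.2.2])

noncomputable def wa (c i : ℕ) : ℝ := (2 * C.lo c i + C.hi c i) / 3
noncomputable def wb (c i : ℕ) : ℝ := (C.lo c i + 2 * C.hi c i) / 3

lemma lo_lt_wa {c i : ℕ} (hc : c < C.B) (hi : i ≤ C.k) : C.lo c i < C.wa c i := by
  have := C.lo_lt_hi hc hi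
  unfold wa; linarith

lemma wa_lt_wb {c i : ℕ} (hc : c < C.B) (hi : i ≤ C.k) : C.wa c i < C.wb c i := by
  have := C.lo_lt_hi hc hi
  unfold wa wb; linarith

lemma wb_lt_hi {c i : ℕ} (hc : c < C.B) (hi : i ≤ C.k) : C.wb c i < C.hi c i := by
  have := C.lo_lt_hi hc hi
  unfold wb; linarith

/-- fraction of descent -/
noncomputable def Psi (i : ℕ) (x : ℝ) : ℝ :=
  ∑ c ∈ Finset.range C.B, (ramp (C.wa c i) (C.wb c i) x + (-1) * ramp (C.D c) (C.X (c + 1)) x)

lemma Psi_eq {i c0 : ℕ} (hi : i ≤ C.k) (hc0 : c0 < C.B) {x : ℝ} (h1 : C.X c0 ≤ x)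
    (h2 : x ≤ C.D c0) : C.Psi i x = ramp (C.wa c0 i) (C.wb c0 i) x := by
  unfold Psi
  rw [Finset.sum_eq_single c0]
  · rw [ramp_of_le (C.hDX c0 hc0) h2]; ring
  · intro c hc hne
    rw [Finset.mem_range] at hc
    rcases lt_or_gt_of_ne hne with h | h
    · have e1 := C.X_mono (c := c + 1) (c' := c0) (by omega) (by omega)
      have e2 := C.hDX c hc
      have e3 := C.wb_lt_hi hc hi
      have e4 := C.hi_le_D c i
      rw [ramp_of_ge (C.wa_lt_wb hc hi) (by linarith), ramp_of_ge e2 (by linarith)]; ring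
    · have e1 := C.X_mono (c := c0 + 1) (c' := c) (by omega) (by omega)
      have e2 := C.hDX c0 hc0
      have e3 := C.lo_lt_wa hc hi
      have e4 := C.X_le_lo c i
      have e5 := C.hXD c hc
      rw [ramp_of_le (C.wa_lt_wb hc hi) (by linarith), ramp_of_le (C.hDX c hc) (by linarith)]; ring
  · intro h
    exact absurd (Finset.mem_range.2 hc0) h

lemma Psi_anti {i : ℕ} (hi : i + 1 ≤ C.k) (x : ℝ) : C.Psi (i + 1) x ≤ C.Psi i x := by
  unfold Psi
  apply Finset.sum_le_sum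
  intro c hc
  rw [Finset.mem_range] at hc
  have h1 := C.lo_mono (c := c) (Nat.le_succ i)
  have h2 := C.hi_mono (c := c) (Nat.le_succ i)
  have h3 := ramp_anti (C.wa_lt_wb hc (by omega)) (C.wa_lt_wb hc hi)
    (by unfold wa; linarith : C.wa c i ≤ C.wa c (i + 1))
    (by unfold wb; linarith : C.wb c i ≤ C.wb c (i + 1)) x
  linarith

/-- height -/
noncomputable def H : ℝ := C.Y + C.k + 2

lemma Y_nonneg : 0 ≤ C.Y := le_trans (abs_nonneg _) (C.hY 0 C.hk)

lemma H_pos : 0 < C.H := by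
  have := C.Y_nonneg
  unfold H; positivity

/-- the curves -/
noncomputable def g (i : ℕ) (x : ℝ) : ℝ := ((i : ℝ) + C.H) + (-2 * C.H) * C.Psi i x

lemma g_lt {i : ℕ} (hi : i + 1 ≤ C.k) (x : ℝ) : C.g i x < C.g (i + 1) x := by
  have h1 := C.Psi_anti hi x
  have h2 := C.H_pos
  unfold g
  push_cast
  nlinarith

lemma g_high {i c0 : ℕ} (hi : i ≤ C.k) (hc0 : c0 < C.B) {x : ℝ} (h1 : C.X c0 ≤ x)
    (h2 : x ≤ C.wa c0 i) : C.g i x = i + C.H := by
  have e1 := C.wa_lt_wb hc0 hi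
  have e2 := C.wb_lt_hi hc0 hi
  have e3 := C.hi_le_D c0 i
  unfold g
  rw [C.Psi_eq hi hc0 h1 (by linarith), ramp_of_le e1 h2]; ring

lemma g_low {i c0 : ℕ} (hi : i ≤ C.k) (hc0 : c0 < C.B) {x : ℝ} (h1 : C.wb c0 i ≤ x)
    (h2 : x ≤ C.D c0) : C.g i x = i - C.H := by
  have e1 := C.wa_lt_wb hc0 hi
  have e2 := C.lo_lt_wa hc0 hi
  have e3 := C.X_le_lo c0 i
  unfold g
  rw [C.Psi_eq hi hc0 (by linarith) h2, ramp_of_ge e1 h1]; ring

/-- breakpoints -/
noncomputable def beta (i : ℕ) : Finset ℝ :=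
  (Finset.range C.B).biUnion (fun c => {C.wa c i, C.wb c i} ∪ {C.D c, C.X (c + 1)})

lemma beta_card (i : ℕ) : (C.beta i).card ≤ 4 * C.B := by
  unfold beta
  refine (Finset.card_biUnion_le_card_mul _ _ 4 ?_).trans ?_
  · intro c _
    refine (Finset.card_union_le _ _).trans ?_
    have h1 : ({C.wa c i, C.wb c i} : Finset ℝ).card ≤ 2 := Finset.card_le_two
    have h2 : ({C.D c, C.X (c + 1)} : Finset ℝ).card ≤ 2 := Finset.card_le_two
    omega
  · rw [Finset.card_range, mul_comm]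

lemma affOff_g {i : ℕ} (hi : i ≤ C.k) : AffOff (C.g i) (C.beta i) := by
  have h1 : AffOff (C.Psi i) (C.beta i) := by
    unfold beta
    apply affOff_sum
    intro c hc
    rw [Finset.mem_range] at hc
    exact (affOff_ramp (C.wa_lt_wb hc hi)).add ((affOff_ramp (C.hDX c hc)).mul_const (-1))
  have h2 := (affOff_const ((i : ℝ) + C.H)).add (h1.mul_const (-2 * C.H))
  exact h2.mono (by simp)

lemma xpos {j : ℕ} (hj : j < C.k) : C.X 0 < C.x j := by
  have h1 := C.X_mono (Nat.zero_le (C.s j)) (C.hB j hj).le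
  have h2 := C.hx1 j hj
  linarith

lemma yle {j : ℕ} (hj : j < C.k) : C.y j ≤ C.Y := (abs_le.1 (C.hY j hj)).2
lemma ley {j : ℕ} (hj : j < C.k) : -C.Y ≤ C.y j := (abs_le.1 (C.hY j hj)).1

/-- `g (i)` is high at visited points -/
lemma g_visited {i j : ℕ} (hi : i ≤ C.k) (hji : j < i) : C.g i (C.x j) = i + C.H := by
  have hj : j < C.k := by omega
  have h1 := C.x_le_lo hji rfl
  have h2 := C.lo_lt_wa (C.hB j hj) hi
  exact C.g_high hi (C.hB j hj) (C.hx1 j hj).le (by linarith)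

lemma H_gt {i : ℕ} (hi : i ≤ C.k) : (i : ℝ) - C.H < -C.Y := by
  have : (i : ℝ) ≤ C.k := by exact_mod_cast hi
  unfold H; linarith

lemma H_gt' (i : ℕ) : C.Y < (i : ℝ) + C.H := by
  have h1 : (0 : ℝ) ≤ i := Nat.cast_nonneg _
  have h2 : (0 : ℝ) ≤ C.k := Nat.cast_nonneg _
  unfold H; linarith

lemma g_unvisited {i j : ℕ} (hij : i ≤ j) (hj : j < C.k) {z : ℝ} (h1 : C.x j ≤ z)
    (h2 : z ≤ C.D (C.s j)) : C.g i z = i - C.H := by
  have e1 := C.hi_le_x hij hj rfl
  have e2 := C.wb_lt_hi (C.hB j hj) (show i ≤ C.k by omega)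
  exact C.g_low (by omega) (C.hB j hj) (by linarith) h2

/-- state after having visited the `j`-th point at time `T` -/
structure After (j T : ℕ) (q : ℕ → ℝ × ℝ) : Prop where
  good : Good T q
  tip : q T = (C.x j, C.y j)
  start : q 0 = (C.X 0, C.g 0 (C.X 0))
  below : ∀ z ∈ trace T q, z.2 < C.g (j + 1) z.1
  up : ∀ z ∈ trace T q, z.1 = C.x j → z.2 ≤ C.y j
  right : ∀ z ∈ trace T q, C.x j < z.1 → z.1 ≤ C.D (C.s j) → z.2 < -C.Y
  left : ∀ z ∈ trace T q, C.X 0 ≤ z.1 ∧ (z.1 = C.X 0 → z = q 0)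

/-- travel along the `i`-th curve -/
lemma travel_curve {i : ℕ} (hi : i ≤ C.k) {a b : ℝ} (hab : a ≠ b) {T : ℕ} {q : ℕ → ℝ × ℝ}
    (hq : Good T q) (hqT : q T = (a, C.g i a))
    (htr : ∀ z ∈ trace T q, z.2 < C.g i z.1 ∨ z = (a, C.g i a)) {M : ℕ} (hM : 4 * C.B + 1 ≤ M) :
    ∃ q' : ℕ → ℝ × ℝ, Good (T + M) q' ∧ (∀ j ≤ T, q' j = q j) ∧ q' (T + M) = (b, C.g i b) ∧
      trace (T + M) q' ⊆ trace T q ∪ {z | z.2 = C.g i z.1 ∧ min a b ≤ z.1 ∧ z.1 ≤ max a b} := by
  have hcard : ∀ σ : ℝ, ((C.beta i).filter (fun w => σ * a < σ * w ∧ σ * w < σ * b)).card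
      ≤ 4 * C.B := fun σ => (Finset.card_filter_le _ _).trans (C.beta_card i)
  rcases lt_or_gt_of_ne hab with h | h
  · obtain ⟨q', h1, h2, h3, h4⟩ := travel (C.affOff_g hi) (Or.inl rfl : (1:ℝ) = 1 ∨ (1:ℝ) = -1)
      (4 * C.B) a b T q (by linarith) (hcard 1) hq hqT (by
        intro z hz
        rcases htr z hz with h | h
        · exact Or.inl h
        · right; rw [h]; simp) M hM
    refine ⟨q', h1, h2, h3, fun z hz => ?_⟩
    rcases h4 hz with h | ⟨e1, e2, e3⟩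
    · exact Or.inl h
    · right
      rw [Set.mem_ofPred_eq, min_eq_left h.le, max_eq_right h.le]
      exact ⟨e1, by linarith, by linarith⟩
  · obtain ⟨q', h1, h2, h3, h4⟩ := travel (C.affOff_g hi) (Or.inr rfl : (-1:ℝ) = 1 ∨ (-1:ℝ) = -1)
      (4 * C.B) a b T q (by linarith) (hcard (-1)) hq hqT (by
        intro z hz
        rcases htr z hz with h | h
        · exact Or.inl h
        · right; rw [h]; simp) M hM
    refine ⟨q', h1, h2, h3, fun z hz => ?_⟩
    rcases h4 hz with h | ⟨e1, e2, e3⟩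
    · exact Or.inl h
    · right
      rw [Set.mem_ofPred_eq, min_eq_right h.le, max_eq_left h.le]
      exact ⟨e1, by linarith, by linarith⟩

lemma mem_vertical {a y1 y2 : ℝ} (h : y1 < y2) {z : ℝ × ℝ} (hz : z ∈ segment ℝ (a, y1) (a, y2)) :
    z.1 = a ∧ y1 ≤ z.2 ∧ z.2 ≤ y2 ∧ (z ≠ (a, y1) → y1 < z.2) ∧ (z ≠ (a, y2) → z.2 < y2) := by
  rw [mem_segment_iff'] at hz
  obtain ⟨t, h0, h1, rfl⟩ := hz
  have e1 : ((a, y1) + t • ((a, y2) - (a, y1)) : ℝ × ℝ).1 = a := by simp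
  have e2 : ((a, y1) + t • ((a, y2) - (a, y1)) : ℝ × ℝ).2 = y1 + t * (y2 - y1) := by simp
  refine ⟨e1, ?_, ?_, fun hne => ?_, fun hne => ?_⟩
  · rw [e2]; nlinarith
  · rw [e2]; nlinarith
  · have ht : t ≠ 0 := by
      rintro rfl; apply hne; simp
    have : 0 < t := lt_of_le_of_ne h0 (Ne.symm ht)
    rw [e2]; nlinarith
  · have ht : t ≠ 1 := by
      rintro rfl; apply hne; simp
    have : t < 1 := lt_of_le_of_ne h1 ht
    rw [e2]; nlinarith

/-- from a point of the `j`-th curve to the `j`-th point -/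
lemma arrive {j : ℕ} (hj : j < C.k) {a : ℝ} (ha : a ≠ C.x j) (haX : C.X 0 ≤ a) {T : ℕ}
    {q : ℕ → ℝ × ℝ} (hq : Good T q) (hqT : q T = (a, C.g j a))
    (hq0 : q 0 = (C.X 0, C.g 0 (C.X 0))) (ha0 : a = C.X 0 → (a, C.g j a) = q 0)
    (htr : ∀ z ∈ trace T q, z.2 < C.g j z.1 ∨ z = (a, C.g j a))
    (hleft : ∀ z ∈ trace T q, C.X 0 ≤ z.1 ∧ (z.1 = C.X 0 → z = q 0)) {T' : ℕ}
    (hT' : T + (4 * C.B + 2) ≤ T') :
    ∃ q' : ℕ → ℝ × ℝ, C.After j T' q' ∧ ∀ i ≤ T, q' i = q i := by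
  obtain ⟨q1, g1, a1, e1, t1⟩ := C.travel_curve (by omega) ha hq hqT htr (le_refl (4 * C.B + 1))
  have hgx : C.g j (C.x j) = j - C.H := C.g_unvisited le_rfl hj le_rfl (C.hx2 j hj).le
  have hlow := C.H_gt (show j ≤ C.k by omega)
  have hley := C.ley hj
  have hyle := C.yle hj
  have hlt : C.g j (C.x j) < C.y j := by rw [hgx]; linarith
  have hle : ∀ z ∈ trace (T + (4 * C.B + 1)) q1, z.2 ≤ C.g j z.1 := by
    intro z hz
    rcases t1 hz with h | h
    · rcases htr z h with h | h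
      · exact h.le
      · rw [h]
    · exact h.1.le
  obtain ⟨m, hm⟩ : ∃ m, T' = T + (4 * C.B + 1) + (m + 1) := ⟨T' - (T + (4 * C.B + 1)) - 1, by omega⟩
  obtain ⟨q2, g2, a2, e2, t2⟩ := ext_steps m g1 (P := (C.x j, C.y j)) (by
    rw [e1]; intro h
    have := congrArg Prod.snd h
    simp only at this
    linarith) (by
    intro z hz hne hzt
    rw [e1] at hz hne
    obtain ⟨f1, _, _, f4, _⟩ := mem_vertical hlt hz
    have := hle z hzt
    rw [f1] at this
    linarith [f4 hne])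
  rw [← hm] at g2 e2 t2
  have h00 : q2 0 = q 0 := by rw [a2 0 (Nat.zero_le _), a1 0 (Nat.zero_le _)]
  have htrace : ∀ z ∈ trace T' q2, (z ∈ trace (T + (4 * C.B + 1)) q1) ∨
      (z.1 = C.x j ∧ z.2 ≤ C.y j) := by
    intro z hz
    rw [t2] at hz
    rcases hz with hz | hz
    · exact Or.inl hz
    · right
      rw [e1] at hz
      obtain ⟨f1, _, f3, _, _⟩ := mem_vertical hlt hz
      exact ⟨f1, f3⟩
  refine ⟨q2, ⟨g2, e2, by rw [h00, hq0], ?_, ?_, ?_, ?_⟩, fun i hi => by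
    rw [a2 i (by omega), a1 i hi]⟩
  · intro z hz
    rcases htrace z hz with h | ⟨h1, h2⟩
    · exact (hle z h).trans_lt (C.g_lt (by omega) z.1)
    · rw [h1, C.g_visited (by omega) (Nat.lt_succ_self j)]
      have := C.H_gt' (j + 1)
      linarith
  · intro z hz hz1
    rcases htrace z hz with h | ⟨h1, h2⟩
    · have := hle z h
      rw [hz1] at this
      linarith
    · exact h2
  · intro z hz hz1 hz2
    rcases htrace z hz with h | ⟨h1, h2⟩
    · have := hle z h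
      rw [C.g_unvisited le_rfl hj hz1.le hz2] at this
      linarith
    · linarith
  · intro z hz
    rw [h00]
    rcases htrace z hz with h | ⟨h1, h2⟩
    · rcases t1 h with h | ⟨f1, f2, f3⟩
      · exact hleft z h
      · have hxp := C.xpos hj
        refine ⟨le_trans (le_min haX hxp.le) f2, fun hz0 => ?_⟩
        rw [hz0] at f2
        rcases min_le_iff.1 f2 with h' | h'
        · have haa : a = C.X 0 := le_antisymm h' haX
          rw [← ha0 haa]
          ext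
          · rw [hz0, haa]
          · rw [f1, hz0, haa]
        · linarith
    · have hxp := C.xpos hj
      rw [h1]
      exact ⟨hxp.le, fun h => by linarith⟩

end Cfg

end Pool.Agent.Work.MP_09dd0a_co
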