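import Mathlib
import Pool.Agent.Work.MP_09dd0a_co.LowGeo

set_option autoImplicit false

/-!
# Realising a configuration by a simple polygon
-/

namespace Pool.Agent.Work.MP_09dd0a_co

namespace Cfg

variable (C : Cfg)

/-- going straight to the next point of the same strip -/
lemma step_same {j T T' : ℕ} {q : ℕ → ℝ × ℝ} (hA : C.After j T q) (hj : j + 1 < C.k)
    (hs : C.s j = C.s (j + 1)) (hT : T < T') :
    ∃ q' : ℕ → ℝ × ℝ, C.After (j + 1) T' q' ∧ ∀ i ≤ T, q' i = q i := by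
  have hx : C.x j < C.x (j + 1) := C.hmono j (j + 1) (by omega) hj hs
  have hxD : C.x (j + 1) < C.D (C.s j) := by rw [hs]; exact C.hx2 _ hj
  have hy1 := C.yle (show j < C.k by omega)
  have hy2 := C.yle hj
  have hy3 := C.ley (show j < C.k by omega)
  have hy4 := C.ley hj
  have hxp := C.xpos (show j < C.k by omega)
  obtain ⟨m, hm⟩ : ∃ m, T' = T + (m + 1) := ⟨T' - T - 1, by omega⟩
  have hseg : ∀ z ∈ segment ℝ (C.x j, C.y j) (C.x (j + 1), C.y (j + 1)),
      C.x j ≤ z.1 ∧ z.1 ≤ C.x (j + 1) ∧ -C.Y ≤ z.2 ∧ z.2 ≤ C.Y ∧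
      (z ≠ (C.x j, C.y j) → C.x j < z.1) ∧ (z.1 = C.x (j + 1) → z.2 = C.y (j + 1)) := by
    intro z hz
    rw [mem_segment_iff'] at hz
    obtain ⟨t, h0, h1, rfl⟩ := hz
    have e1 : (((C.x j, C.y j) + t • ((C.x (j + 1), C.y (j + 1)) - (C.x j, C.y j)) : ℝ × ℝ)).1
        = C.x j + t * (C.x (j + 1) - C.x j) := by simp
    have e2 : (((C.x j, C.y j) + t • ((C.x (j + 1), C.y (j + 1)) - (C.x j, C.y j)) : ℝ × ℝ)).2
        = C.y j + t * (C.y (j + 1) - C.y j) := by simp
    rw [e1, e2]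
    refine ⟨by nlinarith, by nlinarith, by nlinarith, by nlinarith, fun hne => ?_, fun h => ?_⟩
    · have ht : t ≠ 0 := by
        rintro rfl; apply hne; simp
      have : 0 < t := lt_of_le_of_ne h0 (Ne.symm ht)
      nlinarith
    · have h2 : (1 - t) * (C.x (j + 1) - C.x j) = 0 := by linarith
      rcases mul_eq_zero.1 h2 with h3 | h3
      · have : t = 1 := by linarith
        rw [this]; ring
      · linarith
  obtain ⟨q', g1, a1, e1, t1⟩ := ext_steps m hA.good (P := (C.x (j + 1), C.y (j + 1))) (by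
    rw [hA.tip]; intro h
    have := congrArg Prod.fst h
    simp only at this
    linarith) (by
    intro z hz hne hzt
    rw [hA.tip] at hz hne
    obtain ⟨f1, f2, f3, f4, f5, f6⟩ := hseg z hz
    have := hA.right z hzt (f5 hne) (by linarith)
    linarith)
  rw [← hm] at g1 e1 t1
  rw [hA.tip] at t1
  have h00 : q' 0 = q 0 := a1 0 (Nat.zero_le _)
  have hlo : C.x (j + 1) ≤ C.lo (C.s j) (j + 1 + 1) := C.x_le_lo (Nat.lt_succ_self _) hs.symm
  have hwa := C.lo_lt_wa (C.hB j (by omega)) (show j + 1 + 1 ≤ C.k by omega)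
  have hX := C.hx1 j (show j < C.k by omega)
  refine ⟨q', ⟨g1, e1, by rw [h00, hA.start], ?_, ?_, ?_, ?_⟩, a1⟩
  · intro z hz
    rw [t1] at hz
    rcases hz with h | h
    · exact (hA.below z h).trans (C.g_lt (by omega) z.1)
    · obtain ⟨f1, f2, f3, f4, f5, f6⟩ := hseg z h
      rw [C.g_high (by omega) (C.hB j (by omega)) (by linarith) (by linarith)]
      have := C.H_gt' (j + 1 + 1)
      linarith
  · intro z hz hz1
    rw [t1] at hz
    rcases hz with h | h
    · have := hA.right z h (by rw [hz1]; exact hx) (by rw [hz1]; exact hxD.le)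
      linarith
    · obtain ⟨f1, f2, f3, f4, f5, f6⟩ := hseg z h
      exact (f6 hz1).le
  · intro z hz hz1 hz2
    rw [t1] at hz
    rcases hz with h | h
    · exact hA.right z h (by linarith) (by rw [hs]; exact hz2)
    · obtain ⟨f1, f2, f3, f4, f5, f6⟩ := hseg z h
      linarith
  · intro z hz
    rw [h00]
    rw [t1] at hz
    rcases hz with h | h
    · exact hA.left z h
    · obtain ⟨f1, f2, f3, f4, f5, f6⟩ := hseg z h
      exact ⟨by linarith, fun h => by linarith⟩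

/-- going up from the `j`-th point to the next curve -/
lemma go_up {j T : ℕ} {q : ℕ → ℝ × ℝ} (hA : C.After j T q) (hj : j < C.k) :
    ∃ q' : ℕ → ℝ × ℝ, Good (T + 1) q' ∧ (∀ i ≤ T, q' i = q i) ∧
      q' (T + 1) = (C.x j, C.g (j + 1) (C.x j)) ∧
      (∀ z ∈ trace (T + 1) q', z.2 < C.g (j + 1) z.1 ∨ z = (C.x j, C.g (j + 1) (C.x j))) ∧
      (∀ z ∈ trace (T + 1) q', C.X 0 ≤ z.1 ∧ (z.1 = C.X 0 → z = q 0)) := by
  have hgx : C.g (j + 1) (C.x j) = ((j + 1 : ℕ) : ℝ) + C.H :=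
    C.g_visited (by omega) (Nat.lt_succ_self j)
  have hH := C.H_gt' (j + 1)
  have hyle := C.yle hj
  have hlt : C.y j < C.g (j + 1) (C.x j) := by rw [hgx]; linarith
  obtain ⟨q', g1, a1, e1, t1⟩ := ext1 hA.good (P := (C.x j, C.g (j + 1) (C.x j))) (by
    rw [hA.tip]; intro h
    have := congrArg Prod.snd h
    simp only at this
    linarith) (by
    intro z hz hne hzt
    rw [hA.tip] at hz hne
    obtain ⟨f1, f2, f3, f4, f5⟩ := mem_vertical hlt hz
    have := hA.up z hzt f1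
    linarith [f4 hne])
  rw [hA.tip] at t1
  refine ⟨q', g1, a1, e1, ?_, ?_⟩
  · intro z hz
    rw [t1] at hz
    rcases hz with h | h
    · exact Or.inl (hA.below z h)
    · obtain ⟨f1, f2, f3, f4, f5⟩ := mem_vertical hlt h
      by_cases hz' : z = (C.x j, C.g (j + 1) (C.x j))
      · exact Or.inr hz'
      · left; rw [f1]; exact f5 hz'
  · intro z hz
    rw [t1] at hz
    rcases hz with h | h
    · exact hA.left z h
    · obtain ⟨f1, f2, f3, f4, f5⟩ := mem_vertical hlt h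
      have := C.xpos hj
      rw [f1]
      exact ⟨this.le, fun h => by linarith⟩

/-- going to the next point, which lies in another strip -/
lemma step_other {j T T' : ℕ} {q : ℕ → ℝ × ℝ} (hA : C.After j T q) (hj : j + 1 < C.k)
    (hne : C.x j ≠ C.x (j + 1)) (hT : T + (4 * C.B + 3) ≤ T') :
    ∃ q' : ℕ → ℝ × ℝ, C.After (j + 1) T' q' ∧ ∀ i ≤ T, q' i = q i := by
  obtain ⟨q1, g1, a1, e1, b1, l1⟩ := C.go_up hA (by omega)
  have hxp := C.xpos (show j < C.k by omega)
  have h0 : q1 0 = q 0 := a1 0 (Nat.zero_le _)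
  obtain ⟨q2, A2, a2⟩ := C.arrive hj hne hxp.le g1 e1 (by rw [h0]; exact hA.start)
    (fun h => by linarith) b1 (by rw [h0]; exact l1) (T' := T') (by omega)
  exact ⟨q2, A2, fun i hi => by rw [a2 i (by omega), a1 i hi]⟩

/-- the first point -/
lemma first {T' : ℕ} (hT : 4 * C.B + 2 ≤ T') : ∃ q : ℕ → ℝ × ℝ, C.After 0 T' q := by
  have hxp := C.xpos C.hk
  set q0 : ℕ → ℝ × ℝ := fun _ => (C.X 0, C.g 0 (C.X 0)) with hq0
  have htr : ∀ z ∈ trace 0 q0, z = (C.X 0, C.g 0 (C.X 0)) := by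
    rintro z (h | ⟨i, hi, _⟩)
    · exact h
    · omega
  obtain ⟨q1, A1, _⟩ := C.arrive (j := 0) (a := C.X 0) C.hk hxp.ne le_rfl (T := 0) (q := q0)
    (fun i hi => by omega) rfl rfl (fun _ => rfl) (fun z hz => Or.inr (htr z hz))
    (fun z hz => by rw [htr z hz]; exact ⟨le_rfl, fun _ => rfl⟩) (T' := T') (by omega)
  exact ⟨q1, A1⟩

/-- all points in turn -/
lemma all_points (t : ℕ → ℕ) (ht : ∀ i j, i < j → j < C.k → t i < t j)
    (hgap : ∀ j, j + 1 < C.k → C.s j ≠ C.s (j + 1) → t j + (4 * C.B + 3) ≤ t (j + 1))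
    (h0 : 4 * C.B + 2 ≤ t 0) :
    ∀ j < C.k, ∃ q : ℕ → ℝ × ℝ, C.After j (t j) q ∧ ∀ i ≤ j, q (t i) = (C.x i, C.y i) := by
  intro j
  induction j with
  | zero =>
    intro _
    obtain ⟨q, hq⟩ := C.first h0
    refine ⟨q, hq, fun i hi => ?_⟩
    rw [Nat.le_zero.1 hi]; exact hq.tip
  | succ j ih =>
    intro hj
    obtain ⟨q, hq, hqi⟩ := ih (by omega)
    have key : ∃ q' : ℕ → ℝ × ℝ, C.After (j + 1) (t (j + 1)) q' ∧ ∀ i ≤ t j, q' i = q i := by
      by_cases hs : C.s j = C.s (j + 1)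
      · exact C.step_same hq hj hs (ht _ _ (Nat.lt_succ_self j) hj)
      · refine C.step_other hq hj ?_ (hgap j hj hs)
        intro hx
        have e1 := C.hx1 j (by omega)
        have e2 := C.hx2 j (by omega)
        have e3 := C.hx1 (j + 1) hj
        have e4 := C.hx2 (j + 1) hj
        have b1 := C.hB j (by omega)
        have b2 := C.hB (j + 1) hj
        rcases lt_or_gt_of_ne hs with h | h
        · have := C.X_mono (c := C.s j + 1) (c' := C.s (j + 1)) h b2.le
          have := C.hDX (C.s j) b1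
          linarith
        · have := C.X_mono (c := C.s (j + 1) + 1) (c' := C.s j) h b1.le
          have := C.hDX (C.s (j + 1)) b2
          linarith
    obtain ⟨q', hq', hag⟩ := key
    refine ⟨q', hq', fun i hi => ?_⟩
    rcases Nat.lt_or_ge i (j + 1) with h | h
    · have hti : t i ≤ t j := by
        rcases Nat.lt_or_ge i j with h' | h'
        · exact (ht i j h' (by omega)).le
        · rw [show i = j by omega]
      rw [hag _ hti]
      exact hqi i (by omega)
    · rw [show i = j + 1 by omega]; exact hq'.tip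

/-- **Realisation.** -/
theorem realize {n : ℕ} (t : ℕ → ℕ) (ht : ∀ i j, i < j → j < C.k → t i < t j)
    (hgap : ∀ j, j + 1 < C.k → C.s j ≠ C.s (j + 1) → t j + (4 * C.B + 3) ≤ t (j + 1))
    (h0 : 4 * C.B + 2 ≤ t 0) (hn : t (C.k - 1) + (4 * C.B + 3) ≤ n) :
    ∃ q : ℕ → ℝ × ℝ, CrossingFree (SimpleGraph.cycleGraph n) (fun i : Fin n => q i) ∧
      ∀ j < C.k, q (t j) = (C.x j, C.y j) := by
  have hk := C.hk
  obtain ⟨q, hA, hqi⟩ := C.all_points t ht hgap h0 (C.k - 1) (by omega)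
  obtain ⟨q1, g1, a1, e1, b1, l1⟩ := C.go_up hA (by omega)
  have hkk : C.k - 1 + 1 = C.k := by omega
  rw [hkk] at e1 b1
  have hxp := C.xpos (show C.k - 1 < C.k by omega)
  obtain ⟨M, hM⟩ : ∃ M, n - 1 = t (C.k - 1) + 1 + M := ⟨n - 1 - (t (C.k - 1) + 1), by omega⟩
  obtain ⟨q2, g2, a2, e2, t2⟩ := C.travel_curve (i := C.k) le_rfl (a := C.x (C.k - 1))
    (b := C.X 0) hxp.ne' g1 e1 b1 (M := M) (by omega)
  rw [← hM] at g2 e2 t2
  have hB0 : 0 < C.B := lt_of_le_of_lt (Nat.zero_le _) (C.hB 0 hk)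
  have hg0 : ∀ i ≤ C.k, C.g i (C.X 0) = i + C.H := by
    intro i hi
    have e1 := C.lo_lt_wa hB0 hi
    have e2 := C.X_le_lo 0 i
    exact C.g_high hi hB0 le_rfl (by linarith)
  have h00 : q2 0 = (C.X 0, C.H) := by
    rw [a2 0 (Nat.zero_le _), a1 0 (Nat.zero_le _), hA.start, hg0 0 (Nat.zero_le _)]
    simp
  have hlast : q2 (n - 1) = (C.X 0, C.k + C.H) := by rw [e2, hg0 _ le_rfl]
  have hkpos : (0 : ℝ) < C.k := by exact_mod_cast hk
  refine ⟨q2, crossingFree_of_good (by omega) q2 g2 ?_, fun j hj => ?_⟩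
  · intro z hz hzt
    rw [h00, hlast, openSegment_symm, mem_openSegment_iff'] at hz
    obtain ⟨s, hs0, hs1, hzs⟩ := hz
    have z1 : z.1 = C.X 0 := by rw [hzs]; simp
    have z2 : z.2 = C.H + s * C.k := by rw [hzs]; simp
    rcases t2 hzt with h | ⟨f1, _, _⟩
    · have h3 := (l1 z h).2 z1
      have h4 : q 0 = (C.X 0, C.H) := by
        rw [hA.start, hg0 0 (Nat.zero_le _)]; simp
      rw [h3, h4] at z2
      simp only at z2
      nlinarith
    · rw [z1, hg0 _ le_rfl] at f1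
      nlinarith
  · have htj : t j ≤ t (C.k - 1) := by
      rcases Nat.lt_or_ge j (C.k - 1) with h' | h'
      · exact (ht j (C.k - 1) h' (by omega)).le
      · rw [show j = C.k - 1 by omega]
    rw [a2 _ (by omega), a1 _ htj]
    exact hqi j (by omega)

end Cfg

end Pool.Agent.Work.MP_09dd0a_co
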