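import Mathlib
import Pool.Agent.Work.MP_09dd0a_co.LowReal

set_option autoImplicit false

/-!
# Assembly of the lower bound
-/

namespace Pool.Agent.Work.MP_09dd0a_co

/-- crossing-freeness is preserved by injective linear maps -/
lemma crossingFree_map {V : Type*} {G : SimpleGraph V} {q : V → ℝ × ℝ}
    (f : (ℝ × ℝ) →ₗ[ℝ] (ℝ × ℝ)) (hf : Function.Injective f) (hq : CrossingFree G q) :
    CrossingFree G (fun v => f (q v)) := by
  have himg : ∀ a b : ℝ × ℝ, openSegment ℝ (f a) (f b) = f '' openSegment ℝ a b := by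
    intro a b
    have := image_openSegment ℝ f.toAffineMap a b
    simpa using this.symm
  obtain ⟨h1, h2, h3⟩ := hq
  refine ⟨hf.comp h1, ?_, ?_⟩
  · intro u v w hvw
    show f (q u) ∉ openSegment ℝ (f (q v)) (f (q w))
    rw [himg]
    rintro ⟨z, hz, hzu⟩
    exact h2 u v w hvw (hf hzu ▸ hz)
  · intro a b c d hab hcd hne
    show Disjoint (openSegment ℝ (f (q a)) (f (q b))) (openSegment ℝ (f (q c)) (f (q d)))
    rw [himg, himg]
    exact (Set.disjoint_image_iff hf).2 (h3 a b c d hab hcd hne)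

/-- boundaries of the strips -/
lemma exists_bounds (k : ℕ) (x : ℕ → ℝ) (s : ℕ → ℕ)
    (h : ∀ i < k, ∀ j < k, s i < s j → x i < x j) (B : ℕ) :
    ∃ X D : ℕ → ℝ, (∀ c < B, X c < D c) ∧ (∀ c < B, D c < X (c + 1)) ∧
      (∀ j < k, s j < B → X (s j) < x j ∧ x j < D (s j)) ∧
      (∀ j < k, B ≤ s j → X B < x j) := by
  classical
  induction B with
  | zero =>
    obtain ⟨m, hm1, hm2⟩ := Order.exists_between_finsets (lo := (∅ : Finset ℝ))
      (hi := (Finset.range k).image x) (by simp)
    refine ⟨fun _ => m, fun _ => m, by simp, by simp, by simp, fun j hj _ => ?_⟩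
    exact hm2 _ (Finset.mem_image_of_mem _ (Finset.mem_range.2 hj))
  | succ B ih =>
    obtain ⟨X, D, h1, h2, h3, h4⟩ := ih
    set hiS : Finset ℝ := ((Finset.range k).filter (fun j => B < s j)).image x with hhi
    have hhimem : ∀ z ∈ hiS, ∃ j < k, B < s j ∧ x j = z := by
      intro z hz
      rw [hhi, Finset.mem_image] at hz
      obtain ⟨j, hj, rfl⟩ := hz
      rw [Finset.mem_filter, Finset.mem_range] at hj
      exact ⟨j, hj.1, hj.2, rfl⟩
    obtain ⟨m1, ha1, hb1⟩ := Order.exists_between_finsets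
      (lo := insert (X B) (((Finset.range k).filter (fun j => s j ≤ B)).image x))
      (hi := hiS) (by
        intro u hu z hz
        obtain ⟨j, hj, hsj, rfl⟩ := hhimem z hz
        rw [Finset.mem_insert, Finset.mem_image] at hu
        rcases hu with rfl | ⟨i, hi, rfl⟩
        · exact h4 j hj hsj.le
        · rw [Finset.mem_filter, Finset.mem_range] at hi
          exact h i hi.1 j hj (lt_of_le_of_lt hi.2 hsj))
    obtain ⟨m2, ha2, hb2⟩ := Order.exists_between_finsets (lo := ({m1} : Finset ℝ))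
      (hi := hiS) (by
        intro u hu z hz
        rw [Finset.mem_singleton] at hu
        rw [hu]; exact hb1 z hz)
    have hXB : X B < m1 := ha1 _ (Finset.mem_insert_self _ _)
    have hm12 : m1 < m2 := ha2 _ (Finset.mem_singleton_self _)
    refine ⟨Function.update X (B + 1) m2, Function.update D B m1, ?_, ?_, ?_, ?_⟩
    · intro c hc
      rw [Function.update_of_ne (by omega)]
      rcases Nat.lt_succ_iff_lt_or_eq.1 hc with hlt | rfl
      · rw [Function.update_of_ne (by omega)]; exact h1 c hlt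
      · rw [Function.update_self]; exact hXB
    · intro c hc
      rcases Nat.lt_succ_iff_lt_or_eq.1 hc with hlt | rfl
      · rw [Function.update_of_ne (by omega), Function.update_of_ne (by omega)]; exact h2 c hlt
      · rw [Function.update_self, Function.update_self]; exact hm12
    · intro j hj hsj
      rw [Function.update_of_ne (by omega)]
      rcases Nat.lt_succ_iff_lt_or_eq.1 hsj with hlt | heq
      · rw [Function.update_of_ne (by omega)]; exact h3 j hj hlt
      · rw [heq, Function.update_self]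
        refine ⟨?_, ?_⟩
        · have := h4 j hj heq.ge
          exact this
        · exact ha1 _ (Finset.mem_insert_of_mem (Finset.mem_image_of_mem _
            (Finset.mem_filter.2 ⟨Finset.mem_range.2 hj, heq.le⟩)))
    · intro j hj hsj
      rw [Function.update_self]
      exact hb2 _ (Finset.mem_image_of_mem _ (Finset.mem_filter.2 ⟨Finset.mem_range.2 hj, hsj⟩))

/-- a shear making abscissae distinct -/
lemma exists_shear {n : ℕ} (p : Fin n → ℝ × ℝ) (hp : Function.Injective p) :
    ∃ ε : ℝ, Function.Injective (fun i => (p i).1 + ε * (p i).2) := by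
  classical
  set bad : Finset ℝ := Finset.univ.image
    (fun ij : Fin n × Fin n => -((p ij.1).1 - (p ij.2).1) / ((p ij.1).2 - (p ij.2).2)) with hbad
  obtain ⟨ε, hε⟩ := Infinite.exists_notMem_finset bad
  refine ⟨ε, fun i j hij => ?_⟩
  by_contra hne
  have hpij : p i ≠ p j := fun h => hne (hp h)
  simp only at hij
  by_cases hy : (p i).2 = (p j).2
  · apply hpij
    ext
    · rw [hy] at hij; linarith
    · exact hy
  · apply hε
    rw [hbad, Finset.mem_image]
    refine ⟨(i, j), Finset.mem_univ _, ?_⟩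
    have hy' : (p i).2 - (p j).2 ≠ 0 := sub_ne_zero.2 hy
    simp only
    rw [div_eq_iff hy']
    linarith

/-- the conclusion of the selection lemma for one `n` -/
def SelProp (c : ℝ) (n : ℕ) : Prop :=
  ∀ x : Fin n → ℝ, Function.Injective x →
    ∃ (B : ℕ) (sg : ℝ) (S : Finset (Fin n)) (s : Fin n → ℕ),
      (sg = 1 ∨ sg = -1) ∧ c * (n : ℝ) ^ ((2 : ℝ) / 3) ≤ S.card ∧ (∀ i ∈ S, s i < B) ∧
      (∀ i ∈ S, ∀ j ∈ S, s i < s j → sg * x i < sg * x j) ∧
      (∀ i ∈ S, ∀ j ∈ S, i < j → s i = s j → sg * x i < sg * x j) ∧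
      (∀ i ∈ S, ∀ j ∈ S, i < j → s i ≠ s j → 4 * B + 4 ≤ (j : ℕ) - (i : ℕ)) ∧
      (∀ i ∈ S, 4 * B + 4 ≤ (i : ℕ) ∧ (i : ℕ) + (4 * B + 4) ≤ n)

theorem fix_of_sel {c : ℝ} (hc : 0 < c) {n : ℕ} (hn : 0 < n) (hsel : SelProp c n)
    (p : Fin n → ℝ × ℝ) (hp : Function.Injective p) :
    ∃ (S : Finset (Fin n)) (q : Fin n → ℝ × ℝ), CrossingFree (SimpleGraph.cycleGraph n) q ∧
      (∀ v ∈ S, q v = p v) ∧ c * (n : ℝ) ^ ((2 : ℝ) / 3) ≤ S.card := by
  classical
  obtain ⟨ε, hε⟩ := exists_shear p hp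
  obtain ⟨B, sg, S, s, hsg, hcard, hB, hstrip, hmono, hgap, hends⟩ := hsel _ hε
  have hsg2 : sg * sg = 1 := by rcases hsg with rfl | rfl <;> norm_num
  have hkpos : 0 < S.card := by
    have h1 : (0 : ℝ) < (n : ℝ) := by exact_mod_cast hn
    have : (0 : ℝ) < S.card := lt_of_lt_of_le (by positivity) hcard
    exact_mod_cast this
  set k := S.card with hk
  set e : Fin k ↪o Fin n := S.orderEmbOfFin hk.symm with he
  have hemem : ∀ j, e j ∈ S := fun j => Finset.orderEmbOfFin_mem S hk.symm j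
  let v : ℕ → Fin n := fun j => if h : j < k then e ⟨j, h⟩ else e ⟨0, hkpos⟩
  have hv : ∀ j (h : j < k), v j = e ⟨j, h⟩ := fun j h => dif_pos h
  have hvS : ∀ j, v j ∈ S := by
    intro j
    simp only [v]
    split_ifs
    · exact hemem _
    · exact hemem _
  have hvlt : ∀ i j, i < j → j < k → v i < v j := by
    intro i j hij hj
    rw [hv i (by omega), hv j hj]
    exact e.strictMono hij
  set X' : ℕ → ℝ := fun j => sg * ((p (v j)).1 + ε * (p (v j)).2) with hX'
  obtain ⟨X, D, h1, h2, h3, h4⟩ := exists_bounds k X' (fun j => s (v j)) (by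
    intro i _ j _ hij
    exact hstrip _ (hvS i) _ (hvS j) hij) B
  obtain ⟨Y, hY⟩ : ∃ Y : ℝ, ∀ i : Fin n, |(p i).2| ≤ Y := by
    refine ⟨∑ i, |(p i).2|, fun i => ?_⟩
    exact Finset.single_le_sum (f := fun i => |(p i).2|) (fun i _ => abs_nonneg _)
      (Finset.mem_univ i)
  let C : Cfg := {
    k := k
    B := B
    x := X'
    y := fun j => (p (v j)).2
    s := fun j => s (v j)
    X := X
    D := D
    Y := Y
    hk := hkpos
    hB := fun j _ => hB _ (hvS j)
    hXD := h1
    hDX := h2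
    hx1 := fun j hj => (h3 j hj (hB _ (hvS j))).1
    hx2 := fun j hj => (h3 j hj (hB _ (hvS j))).2
    hmono := fun i j hij hj hs => hmono _ (hvS i) _ (hvS j) (hvlt i j hij hj) hs
    hY := fun j _ => hY _ }
  obtain ⟨q, hq1, hq2⟩ := C.realize (n := n) (fun j => ((v j : Fin n) : ℕ))
    (fun i j hij hj => hvlt i j hij hj)
    (fun j hj hs => by
      have := hgap _ (hvS j) _ (hvS (j + 1)) (hvlt j (j + 1) (Nat.lt_succ_self j) hj) hs
      change (v j : ℕ) + (4 * B + 3) ≤ (v (j + 1) : ℕ)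
      omega)
    (by
      have := (hends _ (hvS 0)).1
      change 4 * B + 2 ≤ (v 0 : ℕ)
      omega)
    (by
      have := (hends _ (hvS (k - 1))).2
      change (v (k - 1) : ℕ) + (4 * B + 3) ≤ n
      omega)
  -- the inverse linear map
  let A : (ℝ × ℝ) →ₗ[ℝ] (ℝ × ℝ) :=
    (sg • LinearMap.fst ℝ ℝ ℝ - ε • LinearMap.snd ℝ ℝ ℝ).prod (LinearMap.snd ℝ ℝ ℝ)
  have hA : ∀ z : ℝ × ℝ, A z = (sg * z.1 - ε * z.2, z.2) := fun z => rfl
  have hAinj : Function.Injective A := by
    intro z w hzw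
    rw [hA, hA, Prod.mk.injEq] at hzw
    obtain ⟨e1, e2⟩ := hzw
    rw [e2] at e1
    have e3 : sg * z.1 = sg * w.1 := by linarith
    have e4 : z.1 = w.1 := by
      have : sg * (sg * z.1) = sg * (sg * w.1) := by rw [e3]
      rw [← mul_assoc, ← mul_assoc, hsg2, one_mul, one_mul] at this
      exact this
    exact Prod.ext e4 e2
  refine ⟨S, fun i => A (q i), crossingFree_map A hAinj hq1, fun w hw => ?_, hcard⟩
  obtain ⟨j, hj⟩ : ∃ j, e j = w := by
    have : w ∈ Set.range e := by
      rw [he, Finset.range_orderEmbOfFin]; exact hw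
    exact this
  have hvj : v j = w := by rw [hv j j.2]; exact hj
  have h5 := hq2 (j : ℕ) j.2
  have h6 : q (w : ℕ) = (sg * ((p w).1 + ε * (p w).2), (p w).2) := by
    rw [← hvj]; exact h5
  show A (q (w : ℕ)) = p w
  rw [h6, hA]
  ext
  · simp only
    rw [← mul_assoc, hsg2]; ring
  · rfl

end Pool.Agent.Work.MP_09dd0a_co
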