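import Mathlib
import Pool.Agent.Work.MP_09dd0a_co.Defs

/-!
From drawings with many kept vertices to a lower bound for `fixGraph`.
-/

namespace Pool.Agent.Work.MP_09dd0a_co

theorem fixGraph_lower_of {c : ℝ} {n : ℕ}
    (h : ∀ p : Fin n → ℝ × ℝ, Function.Injective p → ∃ (S : Finset (Fin n)) (q : Fin n → ℝ × ℝ),
      CrossingFree (SimpleGraph.cycleGraph n) q ∧ (∀ v ∈ S, q v = p v) ∧
        c * (n : ℝ) ^ ((2 : ℝ) / 3) ≤ S.card) :
    c * (n : ℝ) ^ ((2 : ℝ) / 3) ≤ fixGraph (SimpleGraph.cycleGraph n) := by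
  have hne : {k : ℕ | ∃ Γ : Fin n → ℝ × ℝ, Function.Injective Γ ∧
      k = fixDrawing (SimpleGraph.cycleGraph n) Γ}.Nonempty := by
    refine ⟨_, fun i => ((i : ℕ), 0), ?_, rfl⟩
    intro i j hij
    simp only [Prod.mk.injEq, Nat.cast_inj, and_true] at hij
    exact Fin.ext hij
  obtain ⟨Γ, hΓ, hk⟩ := Nat.sInf_mem hne
  obtain ⟨S, q, h1, h2, h3⟩ := h Γ hΓ
  have h4 : S.card ≤ fixDrawing (SimpleGraph.cycleGraph n) Γ := by
    unfold fixDrawing
    apply le_csSup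
    · refine ⟨n, ?_⟩
      rintro k ⟨S', rfl, _⟩
      calc S'.card ≤ Fintype.card (Fin n) := Finset.card_le_univ _
        _ = n := Fintype.card_fin n
    · exact ⟨S, rfl, q, h1, h2⟩
  have h5 : (S.card : ℝ) ≤ fixGraph (SimpleGraph.cycleGraph n) := by
    unfold fixGraph
    rw [hk]
    exact_mod_cast h4
  linarith

end Pool.Agent.Work.MP_09dd0a_co
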