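import Mathlib

/-!
# Selection of monotone chains with large time gaps

Combinatorial part of the lower bound `fix(C_n) ≥ c n^{2/3}`.
-/

namespace Pool.Agent.Work.MP_09dd0a_co.Sel

open Finset

variable {n : ℕ}

/-- The sequence `sg * x` is increasing along `t`. -/
def Chain (x : Fin n → ℝ) (sg : ℝ) (t : Finset (Fin n)) : Prop :=
  ∀ i ∈ t, ∀ j ∈ t, i < j → sg * x i < sg * x j

open Classical in
/-- The largest size of a chain in `P` ending at `i`. -/
noncomputable def lab (x : Fin n → ℝ) (P : Finset (Fin n)) (sg : ℝ) (i : Fin n) : ℕ :=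
  (P.powerset.filter (fun t => i ∈ t ∧ (∀ j ∈ t, j ≤ i) ∧ Chain x sg t)).sup Finset.card

open Classical in
lemma exists_lab (x : Fin n → ℝ) {P : Finset (Fin n)} (sg : ℝ) {i : Fin n} (hi : i ∈ P) :
    ∃ t ⊆ P, i ∈ t ∧ (∀ j ∈ t, j ≤ i) ∧ Chain x sg t ∧ t.card = lab x P sg i := by
  have hne : (P.powerset.filter (fun t => i ∈ t ∧ (∀ j ∈ t, j ≤ i) ∧ Chain x sg t)).Nonempty := by
    refine ⟨{i}, ?_⟩
    rw [mem_filter, mem_powerset]
    refine ⟨by simpa using hi, by simp, by simp, ?_⟩
    intro a ha b hb hab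
    rw [mem_singleton] at ha hb
    subst ha; subst hb
    exact absurd hab (lt_irrefl _)
  obtain ⟨t, ht, he⟩ := Finset.exists_mem_eq_sup _ hne Finset.card
  rw [mem_filter, mem_powerset] at ht
  exact ⟨t, ht.1, ht.2.1, ht.2.2.1, ht.2.2.2, he.symm⟩

open Classical in
lemma le_lab (x : Fin n → ℝ) {P : Finset (Fin n)} (sg : ℝ) {i : Fin n} {t : Finset (Fin n)}
    (h1 : t ⊆ P) (h2 : i ∈ t) (h3 : ∀ j ∈ t, j ≤ i) (h4 : Chain x sg t) :
    t.card ≤ lab x P sg i := by
  unfold lab
  exact Finset.le_sup (f := Finset.card) (by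
    rw [mem_filter, mem_powerset]; exact ⟨h1, h2, h3, h4⟩)

lemma one_le_lab (x : Fin n → ℝ) {P : Finset (Fin n)} (sg : ℝ) {i : Fin n} (hi : i ∈ P) :
    1 ≤ lab x P sg i := by
  obtain ⟨t, -, h2, -, -, h5⟩ := exists_lab x sg hi
  rw [← h5]
  exact Finset.card_pos.2 ⟨i, h2⟩

lemma lab_lt (x : Fin n → ℝ) {P : Finset (Fin n)} (sg : ℝ) {i j : Fin n} (hi : i ∈ P)
    (hj : j ∈ P) (hij : i < j) (h : sg * x i < sg * x j) : lab x P sg i < lab x P sg j := by
  obtain ⟨t, h1, h2, h3, h4, h5⟩ := exists_lab x sg hi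
  have hjt : j ∉ t := fun hjt => absurd (h3 j hjt) (not_le.2 hij)
  have h6 : (insert j t).card ≤ lab x P sg j := by
    refine le_lab x sg (Finset.insert_subset hj h1) (mem_insert_self _ _) ?_ ?_
    · intro k hk
      rw [mem_insert] at hk
      rcases hk with rfl | hk
      · exact le_refl _
      · exact (h3 k hk).trans hij.le
    · intro a ha b hb hab
      rw [mem_insert] at ha hb
      rcases ha with rfl | ha
      · rcases hb with rfl | hb
        · exact absurd hab (lt_irrefl _)
        · exact absurd ((h3 b hb).trans hij.le) (not_le.2 hab)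
      · rcases hb with rfl | hb
        · rcases eq_or_lt_of_le (h3 a ha) with h7 | h7
          · rw [h7]; exact h
          · exact (h4 a ha i h2 h7).trans h
        · exact h4 a ha b hb hab
  rw [card_insert_of_notMem hjt] at h6
  omega

/-- Erdős–Szekeres. -/
lemma exists_chain (x : Fin n → ℝ) (hx : Function.Injective x) {P : Finset (Fin n)} {l : ℕ}
    (hl : 1 ≤ l) (hP : l ^ 2 ≤ P.card) :
    ∃ C ⊆ P, C.card = l ∧ ∃ sg : ℝ, (sg = 1 ∨ sg = -1) ∧ Chain x sg C := by
  have key : ∃ i ∈ P, l ≤ lab x P 1 i ∨ l ≤ lab x P (-1) i := by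
    by_contra hcon
    push Not at hcon
    have h1 : P.card ≤ ((Finset.Icc 1 (l - 1)) ×ˢ (Finset.Icc 1 (l - 1))).card := by
      refine Finset.card_le_card_of_injOn (fun i => (lab x P 1 i, lab x P (-1) i)) ?_ ?_
      · intro i hi
        have hi' : i ∈ P := hi
        have := hcon i hi'
        have h2 := one_le_lab x 1 hi'
        have h3 := one_le_lab x (-1) hi'
        simp only [coe_product, Set.mem_prod, coe_Icc, Set.mem_Icc]
        omega
      · intro i hi j hj hij
        have hi' : i ∈ P := hi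
        have hj' : j ∈ P := hj
        have e1 : lab x P 1 i = lab x P 1 j := congrArg Prod.fst hij
        have e2 : lab x P (-1) i = lab x P (-1) j := congrArg Prod.snd hij
        by_contra hne
        rcases lt_or_gt_of_ne hne with h | h
        · rcases lt_or_gt_of_ne (hx.ne hne) with h2 | h2
          · have := lab_lt x 1 hi' hj' h (by linarith)
            omega
          · have := lab_lt x (-1) hi' hj' h (by linarith)
            omega
        · rcases lt_or_gt_of_ne (hx.ne hne) with h2 | h2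
          · have := lab_lt x (-1) hj' hi' h (by linarith)
            omega
          · have := lab_lt x 1 hj' hi' h (by linarith)
            omega
    rw [card_product, Nat.card_Icc] at h1
    have h2 : l - 1 + 1 - 1 = l - 1 := by omega
    rw [h2] at h1
    have h3 : (l - 1) * (l - 1) < l ^ 2 := by
      have : l - 1 < l := by omega
      nlinarith
    omega
  obtain ⟨i, hi, h⟩ := key
  have fin : ∀ sg : ℝ, (sg = 1 ∨ sg = -1) → l ≤ lab x P sg i →
      ∃ C ⊆ P, C.card = l ∧ ∃ sg : ℝ, (sg = 1 ∨ sg = -1) ∧ Chain x sg C := by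
    intro sg hsg hle
    obtain ⟨t, h1, h2, h3, h4, h5⟩ := exists_lab x sg hi
    rw [← h5] at hle
    obtain ⟨C, hC, hCl⟩ := Finset.exists_subset_card_eq hle
    exact ⟨C, hC.trans h1, hCl, sg, hsg, fun a ha b hb => h4 a (hC ha) b (hC hb)⟩
  rcases h with h | h
  · exact fin 1 (Or.inl rfl) h
  · exact fin (-1) (Or.inr rfl) h

/-- Greedy extraction of disjoint chains. -/
lemma greedy (x : Fin n → ℝ) (hx : Function.Injective x) {P : Finset (Fin n)} {l : ℕ}
    (hl : 1 ≤ l) (hP : 2 * l ^ 2 ≤ P.card) (k : ℕ) (hk : k ≤ l) :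
    ∃ (C : ℕ → Finset (Fin n)) (ty : ℕ → ℝ),
      (∀ r < k, C r ⊆ P ∧ (C r).card = l ∧ (ty r = 1 ∨ ty r = -1) ∧ Chain x (ty r) (C r)) ∧
      (∀ r < k, ∀ r' < k, r ≠ r' → Disjoint (C r) (C r')) := by
  induction k with
  | zero => exact ⟨fun _ => ∅, fun _ => 1, by simp, by simp⟩
  | succ k ih =>
    obtain ⟨C, ty, h1, h2⟩ := ih (by omega)
    have hcard : ((Finset.range k).biUnion C).card ≤ k * l := by
      refine (Finset.card_biUnion_le).trans ?_
      rw [Finset.sum_congr rfl (fun r hr => (h1 r (Finset.mem_range.1 hr)).2.1)]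
      simp
    have hQ : l ^ 2 ≤ (P \ (Finset.range k).biUnion C).card := by
      have h3 := Finset.le_card_sdiff ((Finset.range k).biUnion C) P
      have h4 : k * l ≤ l ^ 2 := by
        rw [sq]; exact Nat.mul_le_mul_right _ (by omega)
      omega
    obtain ⟨D, hD1, hD2, sg, hsg, hD3⟩ := exists_chain x hx hl hQ
    refine ⟨fun r => if r = k then D else C r, fun r => if r = k then sg else ty r, ?_, ?_⟩
    · intro r hr
      by_cases hrk : r = k
      · simp only [hrk, if_true]
        exact ⟨hD1.trans Finset.sdiff_subset, hD2, hsg, hD3⟩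
      · simp only [hrk, if_false]
        exact h1 r (by omega)
    · have hdis : ∀ r < k, Disjoint (C r) D := by
        intro r hr
        rw [Finset.disjoint_left]
        intro a ha hb
        have h5 := hD1 hb
        rw [Finset.mem_sdiff] at h5
        exact h5.2 (Finset.mem_biUnion.2 ⟨r, Finset.mem_range.2 hr, ha⟩)
      intro r hr r' hr' hne
      by_cases hrk : r = k
      · have hr'k : r' ≠ k := by omega
        simp only [hrk, hr'k, if_true, if_false]
        exact (hdis r' (by omega)).symm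
      · by_cases hr'k : r' = k
        · simp only [hrk, hr'k, if_true, if_false]
          exact hdis r (by omega)
        · simp only [hrk, hr'k, if_false]
          exact h2 r (by omega) r' (by omega) hne

/-- The rank of `x i` within `T`. -/
noncomputable def rk (x : Fin n → ℝ) (T : Finset (Fin n)) (i : Fin n) : ℕ :=
  (T.filter (fun j => x j < x i)).card

lemma rk_lt (x : Fin n → ℝ) {T : Finset (Fin n)} {i j : Fin n} (hi : i ∈ T)
    (h : x i < x j) : rk x T i < rk x T j := by
  unfold rk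
  apply Finset.card_lt_card
  rw [Finset.ssubset_iff_of_subset]
  · exact ⟨i, by simp [hi, h], by simp⟩
  · intro k hk
    rw [mem_filter] at hk ⊢
    exact ⟨hk.1, hk.2.trans h⟩

lemma lt_of_rk_lt (x : Fin n → ℝ) {T : Finset (Fin n)} {i j : Fin n}
    (h : rk x T i < rk x T j) : x i < x j := by
  by_contra hcon
  push Not at hcon
  have : rk x T j ≤ rk x T i := by
    unfold rk
    apply Finset.card_le_card
    intro k hk
    rw [mem_filter] at hk ⊢
    exact ⟨hk.1, lt_of_lt_of_le hk.2 hcon⟩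
  omega

lemma block_card (x : Fin n → ℝ) (hx : Function.Injective x) (T : Finset (Fin n)) {m b : ℕ}
    (hb : (b + 1) * m ≤ T.card) :
    m ≤ (T.filter (fun i => rk x T i / m = b)).card := by
  have hinj : Set.InjOn (rk x T) T := by
    intro i hi j hj hij
    by_contra hne
    rcases lt_or_gt_of_ne (hx.ne hne) with h | h
    · have := rk_lt x hi h; omega
    · have := rk_lt x hj h; omega
  have himg : T.image (rk x T) = Finset.range T.card := by
    apply Finset.eq_of_subset_of_card_le
    · intro q hq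
      rw [mem_image] at hq
      obtain ⟨i, hi, rfl⟩ := hq
      rw [mem_range]
      unfold rk
      apply Finset.card_lt_card
      rw [Finset.ssubset_iff_of_subset (Finset.filter_subset _ _)]
      exact ⟨i, hi, by simp⟩
    · rw [card_range, Finset.card_image_of_injOn hinj]
  have h1 : (Finset.Ico (b * m) ((b + 1) * m)).card ≤
      (T.filter (fun i => rk x T i / m = b)).card := by
    refine Finset.card_le_card_of_surjOn (rk x T) ?_
    intro q hq
    rw [coe_Ico, Set.mem_Ico] at hq
    have hq' : q ∈ T.image (rk x T) := by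
      rw [himg, mem_range]; omega
    rw [mem_image] at hq'
    obtain ⟨i, hi, rfl⟩ := hq'
    refine ⟨i, ?_, rfl⟩
    rw [mem_coe, mem_filter]
    refine ⟨hi, ?_⟩
    exact Nat.div_eq_of_lt_le hq.1 hq.2
  rw [Nat.card_Ico] at h1
  have h2 : (b + 1) * m - b * m = m := by
    rw [Nat.add_mul, one_mul, Nat.add_sub_cancel_left]
  omega

/-! ### Random choice -/

lemma card_fix_one {B l : ℕ} (b : Fin B) (a : Fin l) :
    ((Finset.univ.filter (fun r : Fin B → Fin l => r b = a)).card) * l = l ^ B := by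
  have h1 : Finset.univ.filter (fun r : Fin B → Fin l => r b = a) =
      Fintype.piFinset (fun c : Fin B => if c = b then ({a} : Finset (Fin l)) else Finset.univ) := by
    ext r
    simp only [mem_filter, mem_univ, true_and, Fintype.mem_piFinset]
    constructor
    · intro h c
      by_cases hc : c = b
      · subst hc; simp [h]
      · simp [hc]
    · intro h
      have := h b
      simpa using this
  rw [h1, Fintype.card_piFinset]
  have h2 : (∏ c : Fin B, (if c = b then l else 1)) = l := by simp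
  have h3 : (∏ c : Fin B, (if c = b then ({a} : Finset (Fin l)) else Finset.univ).card) * l =
      (∏ c : Fin B, (if c = b then ({a} : Finset (Fin l)) else Finset.univ).card) *
        (∏ c : Fin B, (if c = b then l else 1)) := by rw [h2]
  rw [h3, ← Finset.prod_mul_distrib]
  have h4 : ∀ c : Fin B, (if c = b then ({a} : Finset (Fin l)) else Finset.univ).card *
      (if c = b then l else 1) = l := by
    intro c
    by_cases hc : c = b
    · simp [hc]
    · simp [hc]
  rw [Finset.prod_congr rfl (fun c _ => h4 c)]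
  simp

lemma card_fix_two {B l : ℕ} {b b' : Fin B} (hb : b ≠ b') (a a' : Fin l) :
    ((Finset.univ.filter (fun r : Fin B → Fin l => r b = a ∧ r b' = a')).card) * l ^ 2 =
      l ^ B := by
  set F : Fin B → Finset (Fin l) :=
    fun c => if c = b then {a} else if c = b' then {a'} else Finset.univ with hF
  have h1 : Finset.univ.filter (fun r : Fin B → Fin l => r b = a ∧ r b' = a') =
      Fintype.piFinset F := by
    ext r
    simp only [mem_filter, mem_univ, true_and, Fintype.mem_piFinset]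
    constructor
    · rintro ⟨h, h'⟩ c
      by_cases hc : c = b
      · subst hc; simp [hF, h]
      · by_cases hc' : c = b'
        · subst hc'; simp [hF, hc, h']
        · simp [hF, hc, hc']
    · intro h
      have e1 := h b
      have e2 := h b'
      simp only [hF, if_true, mem_singleton] at e1
      simp only [hF, Ne.symm hb, if_true, if_false, mem_singleton] at e2
      exact ⟨e1, e2⟩
  rw [h1, Fintype.card_piFinset]
  have h2 : (∏ c : Fin B, (if c = b then l else 1)) = l := by simp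
  have h2' : (∏ c : Fin B, (if c = b' then l else 1)) = l := by simp
  have h3 : (∏ c : Fin B, (F c).card) * l ^ 2 =
      (∏ c : Fin B, (F c).card) *
        ((∏ c : Fin B, (if c = b then l else 1)) * (∏ c : Fin B, (if c = b' then l else 1))) := by
    rw [h2, h2', sq]
  rw [h3, ← Finset.prod_mul_distrib, ← Finset.prod_mul_distrib]
  have h4 : ∀ c : Fin B, (F c).card * ((if c = b then l else 1) * (if c = b' then l else 1))
      = l := by
    intro c
    by_cases hc : c = b
    · subst hc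
      simp [hF, hb]
    · by_cases hc' : c = b'
      · subst hc'
        simp [hF, hc]
      · simp [hF, hc, hc']
  rw [Finset.prod_congr rfl (fun c _ => h4 c)]
  simp

lemma random_choice {ι : Type*} {B l G : ℕ} (hl : 0 < l) (U : Finset ι)
    (P : Finset (ι × ι)) (β : ι → Fin B) (α : ι → Fin l)
    (hP : ∀ p ∈ P, β p.1 ≠ β p.2) (hcard : P.card ≤ G * U.card) :
    ∃ r : Fin B → Fin l, (U.card : ℝ) * (l - G) ≤
      l ^ 2 * (((U.filter (fun i => r (β i) = α i)).card : ℝ) -
        ((P.filter (fun p => r (β p.1) = α p.1 ∧ r (β p.2) = α p.2)).card : ℝ)) := by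
  by_contra hcon
  push Not at hcon
  have : Nonempty (Fin l) := ⟨⟨0, hl⟩⟩
  have h1 : ∑ r : Fin B → Fin l, ((l : ℝ) ^ 2 *
      (((U.filter (fun i => r (β i) = α i)).card : ℝ) -
        ((P.filter (fun p => r (β p.1) = α p.1 ∧ r (β p.2) = α p.2)).card : ℝ))) <
      ∑ _r : Fin B → Fin l, (U.card : ℝ) * (l - G) :=
    Finset.sum_lt_sum_of_nonempty Finset.univ_nonempty (fun r _ => hcon r)
  have hM : ((Finset.univ : Finset (Fin B → Fin l)).card : ℝ) = (l : ℝ) ^ B := by
    rw [Finset.card_univ, Fintype.card_fun, Fintype.card_fin, Fintype.card_fin]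
    push_cast
    rfl
  have h2 : ∑ _r : Fin B → Fin l, (U.card : ℝ) * (l - G) =
      (l : ℝ) ^ B * ((U.card : ℝ) * (l - G)) := by
    rw [Finset.sum_const, nsmul_eq_mul, hM]
  have h3 : ∑ r : Fin B → Fin l, ((U.filter (fun i => r (β i) = α i)).card : ℝ) * l =
      U.card * (l : ℝ) ^ B := by
    have e1 : ∑ r : Fin B → Fin l, (U.filter (fun i => r (β i) = α i)).card =
        ∑ i ∈ U, (Finset.univ.filter (fun r : Fin B → Fin l => r (β i) = α i)).card := by
      simp only [Finset.card_filter]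
      exact Finset.sum_comm
    have e2 : (∑ r : Fin B → Fin l, (U.filter (fun i => r (β i) = α i)).card) * l =
        U.card * l ^ B := by
      rw [e1, Finset.sum_mul]
      rw [Finset.sum_congr rfl (fun i _ => card_fix_one (β i) (α i))]
      simp
    rw [← Finset.sum_mul]
    exact_mod_cast e2
  have h4 : ∑ r : Fin B → Fin l,
      ((P.filter (fun p => r (β p.1) = α p.1 ∧ r (β p.2) = α p.2)).card : ℝ) * l ^ 2 =
      P.card * (l : ℝ) ^ B := by
    have e1 : ∑ r : Fin B → Fin l,
        (P.filter (fun p => r (β p.1) = α p.1 ∧ r (β p.2) = α p.2)).card =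
        ∑ p ∈ P, (Finset.univ.filter
          (fun r : Fin B → Fin l => r (β p.1) = α p.1 ∧ r (β p.2) = α p.2)).card := by
      simp only [Finset.card_filter]
      exact Finset.sum_comm
    have e2 : (∑ r : Fin B → Fin l,
        (P.filter (fun p => r (β p.1) = α p.1 ∧ r (β p.2) = α p.2)).card) * l ^ 2 =
        P.card * l ^ B := by
      rw [e1, Finset.sum_mul]
      rw [Finset.sum_congr rfl (fun p hp => card_fix_two (hP p hp) (α p.1) (α p.2))]
      simp
    rw [← Finset.sum_mul]
    exact_mod_cast e2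
  have h5 : ∑ r : Fin B → Fin l, ((l : ℝ) ^ 2 *
      (((U.filter (fun i => r (β i) = α i)).card : ℝ) -
        ((P.filter (fun p => r (β p.1) = α p.1 ∧ r (β p.2) = α p.2)).card : ℝ))) =
      l * (U.card * (l : ℝ) ^ B) - P.card * (l : ℝ) ^ B := by
    rw [← h3, ← h4, Finset.mul_sum, ← Finset.sum_sub_distrib]
    apply Finset.sum_congr rfl
    intro r _
    ring
  rw [h5, h2] at h1
  have h6 : (P.card : ℝ) ≤ G * U.card := by exact_mod_cast hcard
  have h7 : (0 : ℝ) < (l : ℝ) ^ B := by positivity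
  nlinarith [mul_le_mul_of_nonneg_right h6 h7.le]

lemma real_bound {B l G U Q S : ℝ} (hl : 0 < l) (hB : 0 ≤ B) (e1 : U = Q * l)
    (e2 : B * l ≤ 2 * Q) (e3 : 4 * G ≤ l) (e4 : U * (l - G) ≤ l ^ 2 * S) :
    B * l ≤ 4 * S := by
  have hBl : 0 ≤ B * l := mul_nonneg hB hl.le
  have e5 : (B * l / 2 * l) * (3 / 4 * l) ≤ U * (l - G) := by
    rw [e1]
    have f1 : B * l / 2 * l ≤ Q * l := mul_le_mul_of_nonneg_right (by linarith) hl.le
    have f2 : 3 / 4 * l ≤ l - G := by linarith
    have f3 : 0 ≤ 3 / 4 * l := by linarith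
    have f4 : 0 ≤ Q * l := mul_nonneg (by linarith) hl.le
    exact mul_le_mul f1 f2 f3 f4
  have e6 : l ^ 2 * (3 / 8 * (B * l)) ≤ l ^ 2 * S := by
    calc l ^ 2 * (3 / 8 * (B * l)) = (B * l / 2 * l) * (3 / 4 * l) := by ring
      _ ≤ _ := e5.trans e4
  have e7 : 3 / 8 * (B * l) ≤ S := le_of_mul_le_mul_left e6 (by positivity)
  linarith

/-- The core of the selection. -/
lemma selection_core {B l G : ℕ} (hl : 1 ≤ l) (hlG : 4 * G ≤ l) (hn : B * (2 * l ^ 2) + 2 * G ≤ n)
    (x : Fin n → ℝ) (hx : Function.Injective x) :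
    ∃ (sg : ℝ) (S : Finset (Fin n)) (s : Fin n → ℕ), (sg = 1 ∨ sg = -1) ∧
      B * l ≤ 4 * S.card ∧ (∀ i ∈ S, s i < B) ∧
      (∀ i ∈ S, ∀ j ∈ S, s i < s j → sg * x i < sg * x j) ∧
      (∀ i ∈ S, ∀ j ∈ S, i < j → s i = s j → sg * x i < sg * x j) ∧
      (∀ i ∈ S, ∀ j ∈ S, i < j → s i ≠ s j → (i : ℕ) + G ≤ j) ∧
      (∀ i ∈ S, G ≤ (i : ℕ) ∧ (i : ℕ) + G ≤ n) := by
  classical
  set m := 2 * l ^ 2 with hm
  have hmpos : 0 < m := by positivity
  set T : Finset (Fin n) := Finset.univ.filter (fun i : Fin n => G ≤ (i : ℕ) ∧ (i : ℕ) + G ≤ n)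
    with hT
  have hTcard : B * m ≤ T.card := by
    have h1 : (Finset.univ : Finset (Fin (n - 2 * G))).card ≤ T.card := by
      refine Finset.card_le_card_of_injOn (fun k => (⟨(k : ℕ) + G, by omega⟩ : Fin n)) ?_ ?_
      · intro k _
        rw [hT, mem_coe, mem_filter]
        refine ⟨mem_univ _, ?_, ?_⟩
        · simp
        · have := k.2
          simp only
          omega
      · intro k _ k' _ hkk
        have := Fin.mk.inj_iff.1 hkk
        exact Fin.ext (by omega)
    rw [Finset.card_univ, Fintype.card_fin] at h1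
    omega
  -- chains in the blocks
  have hblock : ∀ b : Fin B, ∃ (C : ℕ → Finset (Fin n)) (ty : ℕ → ℝ),
      (∀ r < l, C r ⊆ T.filter (fun i => rk x T i / m = b) ∧ (C r).card = l ∧
        (ty r = 1 ∨ ty r = -1) ∧ Chain x (ty r) (C r)) ∧
      (∀ r < l, ∀ r' < l, r ≠ r' → Disjoint (C r) (C r')) := by
    intro b
    have h1 : ((b : ℕ) + 1) * m ≤ T.card := by
      have : (b : ℕ) + 1 ≤ B := b.2
      exact (Nat.mul_le_mul_right m this).trans hTcard
    exact greedy x hx hl (block_card x hx T h1) l (le_refl _)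
  choose C ty hC hdisj using hblock
  -- the majority type
  set Q : ℝ → Finset (Fin B × Fin l) := fun sg => Finset.univ.filter (fun p => ty p.1 p.2 = sg)
    with hQ
  have hmaj : ∃ sg : ℝ, (sg = 1 ∨ sg = -1) ∧ B * l ≤ 2 * (Q sg).card := by
    have h1 : B * l ≤ (Q 1).card + (Q (-1)).card := by
      have h2 : (Finset.univ : Finset (Fin B × Fin l)) ⊆ Q 1 ∪ Q (-1) := by
        intro p _
        rw [mem_union, hQ]
        simp only [mem_filter, mem_univ, true_and]
        exact (hC p.1 p.2 p.2.2).2.2.1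
      have h3 := (Finset.card_le_card h2).trans (Finset.card_union_le _ _)
      rwa [Finset.card_univ, Fintype.card_prod, Fintype.card_fin, Fintype.card_fin] at h3
    rcases Nat.lt_or_ge (2 * (Q 1).card) (B * l) with h | h
    · exact ⟨-1, Or.inr rfl, by omega⟩
    · exact ⟨1, Or.inl rfl, h⟩
  obtain ⟨sg, hsg, hQcard⟩ := hmaj
  set U : Finset (Σ _ : Fin B × Fin l, Fin n) := (Q sg).sigma (fun p => C p.1 p.2) with hU
  have hUcard : U.card = (Q sg).card * l := by
    rw [hU, Finset.card_sigma, Finset.sum_congr rfl (fun p _ => (hC p.1 p.2 p.2.2).2.1)]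
    simp
  have hUmem : ∀ u ∈ U, ty u.1.1 u.1.2 = sg ∧ u.2 ∈ C u.1.1 u.1.2 := by
    intro u hu
    rw [hU, Finset.mem_sigma, hQ] at hu
    simp only [mem_filter, mem_univ, true_and] at hu
    exact hu
  have hUT : ∀ u ∈ U, u.2 ∈ T ∧ rk x T u.2 / m = u.1.1 := by
    intro u hu
    have h1 := (hC u.1.1 u.1.2 u.1.2.2).1 (hUmem u hu).2
    rwa [mem_filter] at h1
  have hUinj : ∀ u ∈ U, ∀ v ∈ U, u.2 = v.2 → u = v := by
    rintro ⟨⟨b, a⟩, i⟩ hu ⟨⟨b', a'⟩, j⟩ hv hij
    simp only at hij
    subst hij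
    have e1 := (hUT _ hu).2
    have e2 := (hUT _ hv).2
    simp only at e1 e2
    have hb : b = b' := Fin.ext (by omega)
    subst hb
    have ha : a = a' := by
      by_contra hne
      have hne' : (a : ℕ) ≠ a' := fun h => hne (Fin.ext h)
      have h3 := hdisj b a a.2 a' a'.2 hne'
      exact Finset.disjoint_left.1 h3 (hUmem _ hu).2 (hUmem _ hv).2
    subst ha
    rfl
  set P : Finset ((Σ _ : Fin B × Fin l, Fin n) × (Σ _ : Fin B × Fin l, Fin n)) :=
    (U ×ˢ U).filter (fun p => p.1.1.1 ≠ p.2.1.1 ∧ (p.1.2 : ℕ) < p.2.2 ∧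
      (p.2.2 : ℕ) < (p.1.2 : ℕ) + G) with hP
  have hPcard : P.card ≤ G * U.card := by
    have h1 : P.card ≤ G * (P.image Prod.fst).card := by
      apply Finset.card_le_mul_card_image
      intro u _
      have h2 : (P.filter (fun p => p.1 = u)).card ≤
          (Finset.Ico (u.2 : ℕ) ((u.2 : ℕ) + G)).card := by
        refine Finset.card_le_card_of_injOn (fun p => (p.2.2 : ℕ)) ?_ ?_
        · intro p hp
          rw [mem_coe, mem_filter, hP, mem_filter] at hp
          obtain ⟨⟨-, -, h4, h5⟩, rfl⟩ := hp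
          rw [coe_Ico, Set.mem_Ico]
          exact ⟨h4.le, h5⟩
        · intro p hp p' hp' he
          rw [mem_coe, mem_filter, hP, mem_filter, mem_product] at hp hp'
          have h6 : p.2 = p'.2 := hUinj _ hp.1.1.2 _ hp'.1.1.2 (Fin.ext he)
          exact Prod.ext (hp.2.trans hp'.2.symm) h6
      rw [Nat.card_Ico, Nat.add_sub_cancel_left] at h2
      exact h2
    have h2 : (P.image Prod.fst).card ≤ U.card := by
      apply Finset.card_le_card
      intro u hu
      rw [mem_image] at hu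
      obtain ⟨p, hp, rfl⟩ := hu
      rw [hP, mem_filter, mem_product] at hp
      exact hp.1.1
    exact h1.trans (Nat.mul_le_mul_left _ h2)
  obtain ⟨r, hr⟩ := random_choice (G := G) (by omega : 0 < l) U P (fun u => u.1.1)
    (fun u => u.1.2)
    (fun p hp => by rw [hP, mem_filter] at hp; exact hp.2.1) hPcard
  set S0 := U.filter (fun u => r u.1.1 = u.1.2) with hS0
  set Cf := P.filter (fun p => r p.1.1.1 = p.1.1.2 ∧ r p.2.1.1 = p.2.1.2) with hCf
  set S1 := S0 \ Cf.image Prod.fst with hS1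
  have hS1U : ∀ u ∈ S1, u ∈ U ∧ r u.1.1 = u.1.2 := by
    intro u hu
    rw [hS1, mem_sdiff, hS0, mem_filter] at hu
    exact hu.1
  have hcard1 : (S0.card : ℝ) - Cf.card ≤ S1.card := by
    have h1 := Finset.le_card_sdiff (Cf.image Prod.fst) S0
    have h2 : (Cf.image Prod.fst).card ≤ Cf.card := Finset.card_image_le
    rw [← hS1] at h1
    have h3 : S0.card ≤ S1.card + Cf.card := by omega
    have h4 : (S0.card : ℝ) ≤ S1.card + Cf.card := by exact_mod_cast h3
    linarith
  have hScard : (S1.image (fun u => u.2)).card = S1.card :=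
    Finset.card_image_of_injOn (fun u hu v hv huv => hUinj u (hS1U u hu).1 v (hS1U v hv).1 huv)
  have hbig : B * l ≤ 4 * (S1.image (fun u => u.2)).card := by
    rw [hScard]
    have hl0 : (0 : ℝ) < l := by exact_mod_cast hl
    have e1 : (U.card : ℝ) = (Q sg).card * l := by exact_mod_cast hUcard
    have e2 : (B : ℝ) * l ≤ 2 * (Q sg).card := by exact_mod_cast hQcard
    have e3 : 4 * (G : ℝ) ≤ l := by exact_mod_cast hlG
    have e4 : (U.card : ℝ) * (l - G) ≤ (l : ℝ) ^ 2 * S1.card :=
      hr.trans (mul_le_mul_of_nonneg_left hcard1 (sq_nonneg _))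
    have e8 : (B : ℝ) * l ≤ 4 * S1.card :=
      real_bound hl0 (Nat.cast_nonneg _) e1 e2 e3 e4
    exact_mod_cast e8
  -- the strips
  have hmemS : ∀ i ∈ S1.image (fun u => u.2), ∃ u ∈ S1, u.2 = i := by
    intro i hi
    rw [mem_image] at hi
    exact hi
  have hST : ∀ i ∈ S1.image (fun u => u.2), i ∈ T ∧ rk x T i / m < B := by
    intro i hi
    obtain ⟨u, hu, rfl⟩ := hmemS i hi
    have h1 := hUT u (hS1U u hu).1
    refine ⟨h1.1, ?_⟩
    rw [h1.2]
    exact u.1.1.2
  have hsame : ∀ i ∈ S1.image (fun u => u.2), ∀ j ∈ S1.image (fun u => u.2), i < j →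
      rk x T i / m = rk x T j / m → sg * x i < sg * x j := by
    intro i hi j hj hij he
    obtain ⟨u, hu, rfl⟩ := hmemS i hi
    obtain ⟨v, hv, rfl⟩ := hmemS j hj
    have h1 := hUT u (hS1U u hu).1
    have h2 := hUT v (hS1U v hv).1
    have hb : u.1.1 = v.1.1 := Fin.ext (by omega)
    have ha : u.1.2 = v.1.2 := by
      rw [← (hS1U u hu).2, ← (hS1U v hv).2, hb]
    have h3 := hUmem u (hS1U u hu).1
    have h4 := hUmem v (hS1U v hv).1
    have h5 := (hC u.1.1 u.1.2 u.1.2.2).2.2.2
    rw [h3.1] at h5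
    rw [← hb, ← ha] at h4
    exact h5 _ h3.2 _ h4.2 hij
  have hdiff : ∀ i ∈ S1.image (fun u => u.2), ∀ j ∈ S1.image (fun u => u.2), i < j →
      rk x T i / m ≠ rk x T j / m → (i : ℕ) + G ≤ j := by
    intro i hi j hj hij hne
    obtain ⟨u, hu, rfl⟩ := hmemS i hi
    obtain ⟨v, hv, rfl⟩ := hmemS j hj
    have h1 := hUT u (hS1U u hu).1
    have h2 := hUT v (hS1U v hv).1
    by_contra hcon
    push Not at hcon
    have hb : u.1.1 ≠ v.1.1 := by
      intro h
      rw [h1.2, h2.2, h] at hne
      exact hne rfl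
    have hpP : (u, v) ∈ Cf := by
      rw [hCf, mem_filter, hP, mem_filter, mem_product]
      exact ⟨⟨⟨(hS1U u hu).1, (hS1U v hv).1⟩, hb, hij, hcon⟩, (hS1U u hu).2, (hS1U v hv).2⟩
    rw [hS1, mem_sdiff] at hu
    exact hu.2 (mem_image.2 ⟨(u, v), hpP, rfl⟩)
  have hmon : ∀ i j : Fin n, rk x T i / m < rk x T j / m → x i < x j := by
    intro i j h
    apply lt_of_rk_lt x (T := T)
    by_contra hcon
    push Not at hcon
    have := Nat.div_le_div_right (c := m) hcon
    omega
  rcases hsg with rfl | rfl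
  · refine ⟨1, S1.image (fun u => u.2), fun i => rk x T i / m, Or.inl rfl, hbig, ?_, ?_, ?_, ?_, ?_⟩
    · intro i hi; exact (hST i hi).2
    · intro i _ j _ h
      have := hmon i j h
      linarith
    · exact hsame
    · exact hdiff
    · intro i hi
      have := (hST i hi).1
      rw [hT, mem_filter] at this
      exact this.2
  · refine ⟨-1, S1.image (fun u => u.2), fun i => B - 1 - rk x T i / m, Or.inr rfl, hbig,
      ?_, ?_, ?_, ?_, ?_⟩
    · intro i hi
      have h1 := (hST i hi).2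
      simp only
      generalize rk x T i / m = w at h1 ⊢
      omega
    · intro i hi j hj h
      simp only at h
      have h3 : rk x T j / m < rk x T i / m := by
        have h1 := (hST i hi).2
        have h2 := (hST j hj).2
        generalize rk x T i / m = w at h1 h ⊢
        generalize rk x T j / m = w' at h2 h ⊢
        omega
      have := hmon j i h3
      linarith
    · intro i hi j hj hij h
      simp only at h
      have h1 := (hST i hi).2
      have h2 := (hST j hj).2
      refine hsame i hi j hj hij ?_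
      generalize rk x T i / m = w at h1 h ⊢
      generalize rk x T j / m = w' at h2 h ⊢
      omega
    · intro i hi j hj hij h
      simp only at h
      exact hdiff i hi j hj hij (by
        intro he
        rw [he] at h
        exact h rfl)
    · intro i hi
      have := (hST i hi).1
      rw [hT, mem_filter] at this
      exact this.2

/-- The selection lemma. -/
theorem selection : ∃ c > (0 : ℝ), ∃ n0 : ℕ, ∀ n ≥ n0, ∀ x : Fin n → ℝ, Function.Injective x →
    ∃ (B : ℕ) (sg : ℝ) (S : Finset (Fin n)) (s : Fin n → ℕ), (sg = 1 ∨ sg = -1) ∧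
      c * (n : ℝ) ^ ((2 : ℝ) / 3) ≤ S.card ∧ (∀ i ∈ S, s i < B) ∧
      (∀ i ∈ S, ∀ j ∈ S, s i < s j → sg * x i < sg * x j) ∧
      (∀ i ∈ S, ∀ j ∈ S, i < j → s i = s j → sg * x i < sg * x j) ∧
      (∀ i ∈ S, ∀ j ∈ S, i < j → s i ≠ s j → 4 * B + 4 ≤ (j : ℕ) - (i : ℕ)) ∧
      (∀ i ∈ S, 4 * B + 4 ≤ (i : ℕ) ∧ (i : ℕ) + 4 * B + 4 ≤ n) := by
  refine ⟨((1 : ℝ) / 2064) ^ ((2 : ℝ) / 3), by positivity, 2064, ?_⟩
  intro n hn x hx
  set y : ℝ := ((n : ℝ) / 2064) ^ ((1 : ℝ) / 3) with hy
  have hn1 : (1 : ℝ) ≤ (n : ℝ) / 2064 := by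
    rw [le_div_iff₀ (by norm_num)]
    have : (2064 : ℝ) ≤ n := by exact_mod_cast hn
    linarith
  have hn0 : (0 : ℝ) ≤ (n : ℝ) / 2064 := by linarith
  have hy1 : 1 ≤ y := Real.one_le_rpow hn1 (by norm_num)
  have hy3 : y ^ 3 = (n : ℝ) / 2064 := by
    rw [hy, ← Real.rpow_natCast, ← Real.rpow_mul hn0]
    norm_num
  have hy2 : y ^ 2 = ((1 : ℝ) / 2064) ^ ((2 : ℝ) / 3) * (n : ℝ) ^ ((2 : ℝ) / 3) := by
    rw [← Real.mul_rpow (by norm_num) (Nat.cast_nonneg _), hy, ← Real.rpow_natCast,
      ← Real.rpow_mul hn0]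
    congr 1
    · ring
    · norm_num
  set B : ℕ := ⌊y⌋₊ with hB
  have hB1 : 1 ≤ B := by
    rw [hB]; exact Nat.le_floor (by simpa using hy1)
  have hBy : (B : ℝ) ≤ y := Nat.floor_le (by linarith)
  have hyB : y < B + 1 := Nat.lt_floor_add_one y
  have hB3 : 2064 * B ^ 3 ≤ n := by
    have h1 : (B : ℝ) ^ 3 ≤ y ^ 3 := pow_le_pow_left₀ (Nat.cast_nonneg _) hBy 3
    rw [hy3, le_div_iff₀ (by norm_num)] at h1
    have h2 : ((2064 * B ^ 3 : ℕ) : ℝ) ≤ n := by push_cast; linarith
    exact_mod_cast h2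
  have hsize : B * (2 * (16 * (B + 1)) ^ 2) + 2 * (4 * (B + 1)) ≤ n := by
    have h1 : B + 1 ≤ 2 * B := by omega
    have h2 : (16 * (B + 1)) ^ 2 ≤ (32 * B) ^ 2 := Nat.pow_le_pow_left (by omega) 2
    have h3 : B * (2 * (16 * (B + 1)) ^ 2) ≤ B * (2 * (32 * B) ^ 2) :=
      Nat.mul_le_mul_left _ (Nat.mul_le_mul_left _ h2)
    have h4 : B * (2 * (32 * B) ^ 2) = 2048 * B ^ 3 := by ring
    have h5 : B ≤ B ^ 3 := by
      calc B = B ^ 1 := (pow_one B).symm
        _ ≤ B ^ 3 := Nat.pow_le_pow_right hB1 (by norm_num)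
    omega
  obtain ⟨sg, S, s, hsg, h1, h2, h3, h4, h5, h6⟩ :=
    selection_core (B := B) (l := 16 * (B + 1)) (G := 4 * (B + 1)) (by omega) (by omega) hsize x hx
  refine ⟨B, sg, S, s, hsg, ?_, h2, h3, h4, ?_, ?_⟩
  · rw [← hy2]
    have e1 : (B : ℝ) * (16 * (B + 1)) ≤ 4 * S.card := by exact_mod_cast h1
    have e2 : (B : ℝ) + 1 ≤ 2 * B := by
      have : (1 : ℝ) ≤ B := by exact_mod_cast hB1
      linarith
    nlinarith
  · intro i hi j hj hij hne
    have := h5 i hi j hj hij hne
    omega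
  · intro i hi
    have := h6 i hi
    omega

end Pool.Agent.Work.MP_09dd0a_co.Sel
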