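import Mathlib
import Pool.Agent.Work.MP_09dd0a_co.BFS

/-!
The separator theorem for maximal pairs of non-crossing families over `0, ..., N - 1`.
-/

namespace Pool.Agent.Work.MP_09dd0a_co

open Finset

/-- combining four light groups into two -/
lemma combine_four {f : Fin 4 → ℝ} {W : ℝ} (hf : ∀ c, 0 ≤ f c) (h1 : ∀ c, f c ≤ 2 / 3 * W)
    (h2 : ∑ c, f c ≤ W) : ∃ S : Finset (Fin 4), ∑ c ∈ S, f c ≤ 2 / 3 * W ∧
      ∑ c ∈ Sᶜ, f c ≤ 2 / 3 * W := by
  have hsum : ∀ S : Finset (Fin 4), ∑ c ∈ S, f c + ∑ c ∈ Sᶜ, f c = ∑ c, f c :=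
    fun S => Finset.sum_add_sum_compl S f
  have hW : 0 ≤ W := le_trans (Finset.sum_nonneg fun c _ => hf c) h2
  by_cases hbig : ∃ c, 1 / 3 * W ≤ f c
  · obtain ⟨c, hc⟩ := hbig
    refine ⟨{c}, ?_, ?_⟩
    · rw [sum_singleton]
      exact h1 c
    · have := hsum {c}
      rw [sum_singleton] at this
      linarith
  · push Not at hbig
    by_cases h01 : 1 / 3 * W ≤ f 0 + f 1
    · refine ⟨{0, 1}, ?_, ?_⟩
      · rw [sum_pair (by decide)]
        linarith [hbig 0, hbig 1]
      · have := hsum {0, 1}
        rw [sum_pair (by decide)] at this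
        linarith
    · push Not at h01
      refine ⟨{3}ᶜ, ?_, ?_⟩
      · have h3 : ({3}ᶜ : Finset (Fin 4)) = {0, 1, 2} := by decide
        rw [h3, sum_insert (by decide), sum_pair (by decide)]
        linarith [hbig 2]
      · rw [compl_compl, sum_singleton]
        linarith [hbig 3]

namespace STree

variable {N : ℕ} {U : Bool → Finset (ℕ × ℕ)} (T : STree N U)

lemma anc_lev {x : ℕ} (hx : x < N) : (∀ u ∈ T.anc x, T.lev u ≤ T.lev x) ∧
    (∀ u ∈ T.anc x, ∀ v ∈ T.anc x, T.lev u = T.lev v → u = v) := by
  revert x
  apply T.induct (P := fun x => (∀ u ∈ T.anc x, T.lev u ≤ T.lev x) ∧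
    (∀ u ∈ T.anc x, ∀ v ∈ T.anc x, T.lev u = T.lev v → u = v))
  · intro _
    rw [T.anc_zero]
    constructor
    · intro u hu
      rw [mem_singleton] at hu
      rw [hu]
    · intro u hu v hv _
      rw [mem_singleton] at hu hv
      rw [hu, hv]
  · intro x h0 h1 ih
    have h2 := (T.hpar x h0 h1).2
    rw [T.anc_succ h0 h1]
    constructor
    · intro u hu
      rw [mem_insert] at hu
      rcases hu with rfl | hu
      · exact le_rfl
      · have := ih.1 u hu
        omega
    · intro u hu v hv huv
      rw [mem_insert] at hu hv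
      rcases hu with rfl | hu
      · rcases hv with rfl | hv
        · rfl
        · have := ih.1 v hv
          omega
      · rcases hv with rfl | hv
        · have := ih.1 u hu
          omega
        · exact ih.2 u hu v hv huv

lemma anc_card {x : ℕ} (hx : x < N) (a b : ℕ) :
    ((T.anc x).filter (fun v => a ≤ T.lev v ∧ T.lev v < b)).card ≤ b - a := by
  rw [← Nat.card_Ico]
  apply card_le_card_of_injOn (fun v => T.lev v)
  · intro v hv
    simp only [coe_filter, Set.mem_setOf_eq] at hv
    simp only [coe_Ico, Set.mem_Ico]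
    exact hv.2
  · intro u hu v hv huv
    simp only [coe_filter, Set.mem_setOf_eq] at hu hv
    exact (T.anc_lev hx).2 u hu.1 v hv.1 huv

lemma small_level {s : ℕ} (hs : N < s * s) (t : ℕ) :
    ∃ i, t ≤ i ∧ i < t + s ∧ ((range N).filter (fun v => T.lev v = i)).card < s := by
  by_contra hno
  push Not at hno
  have h1 : ∑ i ∈ Ico t (t + s), ((range N).filter (fun v => T.lev v = i)).card ≤ N := by
    calc ∑ i ∈ Ico t (t + s), ((range N).filter (fun v => T.lev v = i)).card
        = (((range N).filter (fun v => T.lev v ∈ Ico t (t + s)))).card := by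
          rw [card_eq_sum_card_fiberwise (f := T.lev) (t := Ico t (t + s))
            (s := (range N).filter (fun v => T.lev v ∈ Ico t (t + s)))]
          · apply sum_congr rfl
            intro i hi
            congr 1
            ext v
            simp only [mem_filter]
            constructor
            · rintro ⟨h1, h2⟩
              exact ⟨⟨h1, h2 ▸ hi⟩, h2⟩
            · rintro ⟨⟨h1, _⟩, h2⟩
              exact ⟨h1, h2⟩
          · intro v hv
            simp only [coe_filter, Set.mem_setOf_eq] at hv
            exact hv.2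
      _ ≤ (range N).card := card_le_card (filter_subset _ _)
      _ = N := card_range N
  have h2 : s * s ≤ ∑ i ∈ Ico t (t + s), ((range N).filter (fun v => T.lev v = i)).card := by
    calc s * s = ∑ i ∈ Ico t (t + s), s := by
          rw [sum_const, Nat.card_Ico, smul_eq_mul]
          congr 1
          omega
      _ ≤ _ := by
          apply sum_le_sum
          intro i hi
          rw [mem_Ico] at hi
          exact hno i hi.1 hi.2
  omega

end STree

theorem sep_nat {N : ℕ} (hN : 2 ≤ N) {U : Bool → Finset (ℕ × ℕ)} (hM : ∀ p, MaxNC N (U p))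
    {w : ℕ → ℝ} (hw : ∀ v, 0 ≤ w v) :
    ∃ Z A B : Finset ℕ, Z ∪ A ∪ B = range N ∧ Disjoint Z A ∧ Disjoint Z B ∧ Disjoint A B ∧
      (Z.card : ℝ) ≤ 12 * √N ∧ ∑ v ∈ A, w v ≤ 2 / 3 * ∑ v ∈ range N, w v ∧
      ∑ v ∈ B, w v ≤ 2 / 3 * ∑ v ∈ range N, w v ∧
      ∀ p, ∀ a ∈ A, ∀ b ∈ B, (a, b) ∉ U p ∧ (b, a) ∉ U p := by
  classical
  obtain ⟨T, hT⟩ := exists_bfs hM (by omega)
  set W := ∑ v ∈ range N, w v with hW
  have hW0 : 0 ≤ W := sum_nonneg fun v _ => hw v
  have hmono : ∀ {S S' : Finset ℕ}, S ⊆ S' → ∑ v ∈ S, w v ≤ ∑ v ∈ S', w v := by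
    intro S S' h
    exact sum_le_sum_of_subset_of_nonneg h fun v _ _ => hw v
  -- the median level
  have hex : ∃ l, W / 2 ≤ ∑ v ∈ (range N).filter (fun v => T.lev v ≤ l), w v := by
    refine ⟨(range N).sup T.lev, ?_⟩
    have : (range N).filter (fun v => T.lev v ≤ (range N).sup T.lev) = range N := by
      apply filter_true_of_mem
      intro v hv
      exact le_sup (f := T.lev) hv
    rw [this]
    linarith
  set l := Nat.find hex with hl
  have hl1 : W / 2 ≤ ∑ v ∈ (range N).filter (fun v => T.lev v ≤ l), w v := Nat.find_spec hex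
  have hl2 : ∑ v ∈ (range N).filter (fun v => T.lev v < l), w v ≤ W / 2 := by
    rcases Nat.eq_zero_or_pos l with h | h
    · rw [h]
      simp only [Nat.not_lt_zero, filter_false, sum_empty]
      linarith
    · have := Nat.find_min hex (m := l - 1) (by omega)
      push Not at this
      apply le_trans (hmono _) this.le
      intro v hv
      rw [mem_filter] at hv ⊢
      exact ⟨hv.1, by omega⟩
  have hl3 : ∑ v ∈ (range N).filter (fun v => l < T.lev v), w v ≤ W / 2 := by
    have h1 := sum_filter_add_sum_filter_not (range N) (fun v => T.lev v ≤ l) w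
    simp only [not_le] at h1
    linarith
  set s := Nat.sqrt N + 1 with hs
  have hss : N < s * s := Nat.lt_succ_sqrt N
  -- the two cut levels
  obtain ⟨b, hb1, hb2, hb3⟩ := T.small_level hss (l + 1)
  have hlow : ∃ a, a ≤ l + 1 ∧ l + 1 ≤ a + s ∧
      ((range N).filter (fun v => T.lev v + 1 = a)).card ≤ s := by
    by_cases h : l + 1 ≤ s
    · refine ⟨0, by omega, by omega, ?_⟩
      have : (range N).filter (fun v => T.lev v + 1 = 0) = ∅ := by
        apply filter_false_of_mem
        intro v _
        omega
      rw [this]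
      simp
    · obtain ⟨i, hi1, hi2, hi3⟩ := T.small_level hss (l + 1 - s)
      refine ⟨i + 1, by omega, by omega, ?_⟩
      simp only [Nat.add_right_cancel_iff]
      exact hi3.le
  obtain ⟨a, ha1, ha2, ha3⟩ := hlow
  -- the middle part
  have hmid : ∃ (K : Finset ℕ) (col : ℕ → Bool),
      (K.filter (fun v => a ≤ T.lev v ∧ T.lev v < b)).card ≤ 2 * (b - a) ∧
      (∀ p u v, (u, v) ∈ U p → u ∉ K → v ∉ K → col u = col v) ∧
      ∀ c, ∑ v ∈ (range N).filter (fun v => a ≤ T.lev v ∧ T.lev v < b ∧ v ∉ K ∧ col v = c), w v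
        ≤ 2 / 3 * W := by
    set w' : ℕ → ℝ := fun v => if a ≤ T.lev v ∧ T.lev v < b then w v else 0 with hw'
    have hw'0 : ∀ v, 0 ≤ w' v := by
      intro v
      rw [hw']
      simp only
      split_ifs
      · exact hw v
      · exact le_rfl
    have hw'1 : ∑ v ∈ range N, w' v ≤ W := by
      apply sum_le_sum
      intro v _
      rw [hw']
      simp only
      split_ifs
      · exact le_rfl
      · exact hw v
    have hwsum : ∀ P : ℕ → Prop, ∀ [DecidablePred P],
        ∑ v ∈ (range N).filter (fun v => a ≤ T.lev v ∧ T.lev v < b ∧ P v), w v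
          = ∑ v ∈ (range N).filter P, w' v := by
      intro P _
      rw [hw']
      simp only
      rw [sum_filter, sum_filter]
      apply sum_congr rfl
      intro v _
      by_cases h1 : a ≤ T.lev v <;> by_cases h2 : T.lev v < b <;> by_cases h3 : P v <;>
        simp [h1, h2, h3]
    rcases (sum_nonneg fun v _ => hw'0 v : 0 ≤ ∑ v ∈ range N, w' v).lt_or_eq with hpos | hzero
    · obtain ⟨e, he, hbal⟩ := T.exists_balanced hM hN hw'0 hpos
      have he2 : e.2 ∈ U e.1 := mem_EE.mp he
      have heN : e.2.1 < N ∧ e.2.2 < N := by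
        obtain ⟨q, u0, v0⟩ := e
        have := (hM q).arcs u0 v0 he2
        exact ⟨by simp only; omega, by simp only; omega⟩
      refine ⟨T.KK e, fun v => decide (T.cp true e (2 * v) = 0), ?_, ?_, ?_⟩
      · unfold STree.KK
        rw [filter_union]
        apply le_trans (card_union_le _ _)
        have h1 := T.anc_card heN.1 a b
        have h2 := T.anc_card heN.2 a b
        omega
      · intro p u v huv hu hv
        have h3 : T.cp true e (2 * u) = T.cp true e (2 * v) := by
          cases p with
          | true => exact T.cp_adj hM he2 huv hu hv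
          | false =>
            have h4 := T.cp_adj hM he2 huv hu hv
            rw [T.cp_even hM he2, T.cp_even hM he2, h4]
            · intro x hx h
              have : x = v := by omega
              exact hv (this ▸ hx)
            · intro x hx h
              have : x = u := by omega
              exact hu (this ▸ hx)
        simp only [h3]
      · intro c
        rw [hwsum (fun v => v ∉ T.KK e ∧ decide (T.cp true e (2 * v) = 0) = c)]
        have h5 : ∀ z : ZMod 2, z = 0 ∨ z = 1 := by decide
        cases c with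
        | true =>
          have h6 := hbal 0
          simp only [decide_eq_true_eq]
          linarith
        | false =>
          have h6 := hbal 1
          have h7 : (range N).filter (fun v => v ∉ T.KK e ∧
              decide (T.cp true e (2 * v) = 0) = false) =
              (range N).filter (fun v => v ∉ T.KK e ∧ T.cp true e (2 * v) = 1) := by
            apply filter_congr
            intro v _
            rw [decide_eq_false_iff_not]
            constructor
            · rintro ⟨h8, h9⟩
              exact ⟨h8, (h5 _).resolve_left h9⟩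
            · rintro ⟨h8, h9⟩
              refine ⟨h8, ?_⟩
              rw [h9]
              decide
          rw [h7]
          linarith
    · refine ⟨∅, fun _ => true, by simp, fun _ _ _ _ _ _ => rfl, ?_⟩
      intro c
      rw [hwsum (fun v => v ∉ (∅ : Finset ℕ) ∧ true = c)]
      calc _ ≤ ∑ v ∈ range N, w' v :=
            sum_le_sum_of_subset_of_nonneg (filter_subset _ _) fun v _ _ => hw'0 v
        _ = 0 := hzero.symm
        _ ≤ 2 / 3 * W := by positivity
  obtain ⟨K, col, hK, hcol, hbal⟩ := hmid
  -- the separator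
  set Z : Finset ℕ := (range N).filter (fun v => T.lev v + 1 = a ∨ T.lev v = b ∨
    (a ≤ T.lev v ∧ T.lev v < b ∧ v ∈ K)) with hZ
  set grp : ℕ → Fin 4 := fun v => if T.lev v + 1 < a then 0 else if b < T.lev v then 1 else
    if col v = true then 2 else 3 with hgrp
  set R : Finset ℕ := (range N).filter (fun v => v ∉ Z) with hR
  have hRlev : ∀ v ∈ R, T.lev v + 1 ≠ a ∧ T.lev v ≠ b ∧ (a ≤ T.lev v → T.lev v < b → v ∉ K) := by
    intro v hv
    rw [hR, mem_filter, hZ, mem_filter] at hv
    have h1 := hv.2
    have h2 := hv.1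
    refine ⟨fun h => h1 ⟨h2, Or.inl h⟩, fun h => h1 ⟨h2, Or.inr (Or.inl h)⟩,
      fun h3 h4 h5 => h1 ⟨h2, Or.inr (Or.inr ⟨h3, h4, h5⟩)⟩⟩
  have hgarc : ∀ p u v, (u, v) ∈ U p → u ∈ R → v ∈ R → grp u = grp v := by
    intro p u v huv hu hv
    have h1 := hT p u v huv
    have h2 := hRlev u hu
    have h3 := hRlev v hv
    rw [hgrp]
    simp only
    by_cases c1 : T.lev u + 1 < a
    · rw [if_pos c1, if_pos (by omega)]
    · rw [if_neg c1, if_neg (c := T.lev v + 1 < a) (by omega)]
      by_cases c2 : b < T.lev u
      · rw [if_pos c2, if_pos (by omega)]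
      · rw [if_neg c2, if_neg (c := b < T.lev v) (by omega)]
        rw [hcol p u v huv (h2.2.2 (by omega) (by omega)) (h3.2.2 (by omega) (by omega))]
  have hgw : ∀ c, ∑ v ∈ R.filter (fun v => grp v = c), w v ≤ 2 / 3 * W := by
    intro c
    have hc : c = 0 ∨ c = 1 ∨ c = 2 ∨ c = 3 := by
      revert c
      decide
    rcases hc with rfl | rfl | rfl | rfl
    · apply le_trans (hmono (S' := (range N).filter (fun v => T.lev v < l)) _) (by linarith)
      intro v hv
      rw [mem_filter, hR, mem_filter] at hv
      rw [mem_filter]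
      refine ⟨hv.1.1, ?_⟩
      by_contra h
      have h2 := hv.2
      rw [hgrp] at h2
      simp only at h2
      rw [if_neg (by omega)] at h2
      split_ifs at h2 <;> exact absurd h2 (by decide)
    · apply le_trans (hmono (S' := (range N).filter (fun v => l < T.lev v)) _) (by linarith)
      intro v hv
      rw [mem_filter, hR, mem_filter] at hv
      rw [mem_filter]
      refine ⟨hv.1.1, ?_⟩
      by_contra h
      have h2 := hv.2
      rw [hgrp] at h2
      simp only at h2
      rw [if_neg (c := b < T.lev v) (by omega)] at h2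
      split_ifs at h2 <;> exact absurd h2 (by decide)
    · apply le_trans (hmono _) (hbal true)
      intro v hv
      rw [mem_filter] at hv
      have h1 := hRlev v hv.1
      have h3 : v ∈ range N := (mem_filter.mp hv.1).1
      have h2 := hv.2
      rw [hgrp] at h2
      simp only at h2
      rw [mem_filter]
      split_ifs at h2 with h4 h5 h6
      · exact absurd h2 (by decide)
      · exact absurd h2 (by decide)
      · exact ⟨h3, by omega, by omega, h1.2.2 (by omega) (by omega), h6⟩
      · exact absurd h2 (by decide)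
    · apply le_trans (hmono _) (hbal false)
      intro v hv
      rw [mem_filter] at hv
      have h1 := hRlev v hv.1
      have h3 : v ∈ range N := (mem_filter.mp hv.1).1
      have h2 := hv.2
      rw [hgrp] at h2
      simp only at h2
      rw [mem_filter]
      split_ifs at h2 with h4 h5 h6
      · exact absurd h2 (by decide)
      · exact absurd h2 (by decide)
      · exact absurd h2 (by decide)
      · exact ⟨h3, by omega, by omega, h1.2.2 (by omega) (by omega), by simpa using h6⟩
  have hgs : ∑ c, ∑ v ∈ R.filter (fun v => grp v = c), w v ≤ W := by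
    rw [sum_fiberwise]
    exact hmono (filter_subset _ _)
  obtain ⟨S, hS1, hS2⟩ := combine_four (f := fun c => ∑ v ∈ R.filter (fun v => grp v = c), w v)
    (fun c => sum_nonneg fun v _ => hw v) hgw hgs
  have hsumS : ∀ S : Finset (Fin 4), ∑ v ∈ R.filter (fun v => grp v ∈ S), w v
      = ∑ c ∈ S, ∑ v ∈ R.filter (fun v => grp v = c), w v := by
    intro S
    rw [← sum_fiberwise_of_maps_to (s := R.filter (fun v => grp v ∈ S)) (t := S) (g := grp)
      (fun v hv => (mem_filter.mp hv).2)]
    apply sum_congr rfl
    intro c hc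
    apply sum_congr _ fun _ _ => rfl
    ext v
    simp only [mem_filter]
    constructor
    · rintro ⟨⟨h1, _⟩, h2⟩
      exact ⟨h1, h2⟩
    · rintro ⟨h1, h2⟩
      exact ⟨⟨h1, h2 ▸ hc⟩, h2⟩
  refine ⟨Z, R.filter (fun v => grp v ∈ S), R.filter (fun v => grp v ∈ Sᶜ), ?_, ?_, ?_, ?_, ?_, ?_,
    ?_, ?_⟩
  · ext v
    simp only [mem_union, mem_filter, mem_compl, hR]
    constructor
    · rintro ((h | h) | h)
      · exact (mem_filter.mp h).1
      · exact h.1.1
      · exact h.1.1
    · intro h
      by_cases h1 : v ∈ Z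
      · exact Or.inl (Or.inl h1)
      · by_cases h2 : grp v ∈ S
        · exact Or.inl (Or.inr ⟨⟨h, h1⟩, h2⟩)
        · exact Or.inr ⟨⟨h, h1⟩, h2⟩
  · rw [disjoint_left]
    intro v hv hv2
    rw [mem_filter, hR, mem_filter] at hv2
    exact hv2.1.2 hv
  · rw [disjoint_left]
    intro v hv hv2
    rw [mem_filter, hR, mem_filter] at hv2
    exact hv2.1.2 hv
  · rw [disjoint_left]
    intro v hv hv2
    rw [mem_filter] at hv hv2
    exact (mem_compl.mp hv2.2) hv.2
  · have h1 : Z ⊆ (range N).filter (fun v => T.lev v + 1 = a) ∪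
        ((range N).filter (fun v => T.lev v = b) ∪ K.filter (fun v => a ≤ T.lev v ∧ T.lev v < b)) := by
      intro v hv
      rw [hZ, mem_filter] at hv
      rw [mem_union, mem_union, mem_filter, mem_filter, mem_filter]
      rcases hv.2 with h | h | h
      · exact Or.inl ⟨hv.1, h⟩
      · exact Or.inr (Or.inl ⟨hv.1, h⟩)
      · exact Or.inr (Or.inr ⟨h.2.2, h.1, h.2.1⟩)
    have h2 : Z.card ≤ 6 * s := by
      calc Z.card ≤ _ := card_le_card h1
        _ ≤ s + (s + 2 * (b - a)) := by
            apply le_trans (card_union_le _ _)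
            apply Nat.add_le_add ha3
            apply le_trans (card_union_le _ _)
            exact Nat.add_le_add hb3.le hK
        _ ≤ 6 * s := by omega
    have h3 : (s : ℝ) ≤ 2 * √N := by
      rw [hs]
      push_cast
      have h4 : (Nat.sqrt N : ℝ) ≤ √N := Real.nat_sqrt_le_real_sqrt
      have h5 : (1 : ℝ) ≤ √N := by
        rw [Real.one_le_sqrt]
        exact_mod_cast (by omega : 1 ≤ N)
      linarith
    have h6 : (Z.card : ℝ) ≤ 6 * s := by exact_mod_cast h2
    linarith
  · rw [hsumS]
    exact hS1
  · rw [hsumS]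
    exact hS2
  · intro p u hu v hv
    rw [mem_filter] at hu hv
    rw [mem_compl] at hv
    constructor
    · intro h
      have := hgarc p u v h hu.1 hv.1
      rw [this] at hu
      exact hv.2 hu.2
    · intro h
      have := hgarc p v u h hv.1 hu.1
      rw [← this] at hu
      exact hv.2 hu.2

end Pool.Agent.Work.MP_09dd0a_co
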