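import Mathlib
import Pool.Agent.Work.MP_09dd0a_co.SepNat

/-!
The separator theorem for two non-crossing relations over a finite set of points of a line.
-/

namespace Pool.Agent.Work.MP_09dd0a_co

open Finset

section

variable {τ : Type*} (E : Finset τ) (x : τ → ℝ)

/-- the position of a point -/
noncomputable def pos (s : τ) : ℕ := (E.filter (fun t => x t < x s)).card

variable {E x}

lemma pos_lt {s t : τ} (hs : s ∈ E) (h : x s < x t) : pos E x s < pos E x t := by
  unfold pos
  apply card_lt_card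
  rw [ssubset_iff_of_subset]
  · refine ⟨s, ?_, ?_⟩
    · rw [mem_filter]
      exact ⟨hs, h⟩
    · rw [mem_filter]
      rintro ⟨_, h2⟩
      exact lt_irrefl _ h2
  · intro u hu
    rw [mem_filter] at hu ⊢
    exact ⟨hu.1, hu.2.trans h⟩

lemma pos_lt_card {s : τ} (hs : s ∈ E) : pos E x s < E.card := by
  unfold pos
  apply card_lt_card
  rw [ssubset_iff_of_subset (filter_subset _ _)]
  refine ⟨s, hs, ?_⟩
  rw [mem_filter]
  rintro ⟨_, h2⟩
  exact lt_irrefl _ h2

variable (hx : ∀ s ∈ E, ∀ t ∈ E, x s = x t → s = t)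

include hx

lemma pos_lt_iff {s t : τ} (hs : s ∈ E) (ht : t ∈ E) : pos E x s < pos E x t ↔ x s < x t := by
  constructor
  · intro h
    by_contra hn
    rw [not_lt] at hn
    rcases hn.lt_or_eq with h1 | h1
    · have := pos_lt ht h1
      omega
    · have := hx _ ht _ hs h1
      rw [this] at h
      omega
  · exact pos_lt hs

lemma pos_inj {s t : τ} (hs : s ∈ E) (ht : t ∈ E) (h : pos E x s = pos E x t) : s = t := by
  apply hx _ hs _ ht
  rcases lt_trichotomy (x s) (x t) with h1 | h1 | h1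
  · have := pos_lt hs h1
    omega
  · exact h1
  · have := pos_lt ht h1
    omega

lemma pos_surj {i : ℕ} (hi : i < E.card) : ∃ s ∈ E, pos E x s = i := by
  classical
  have h1 : E.image (pos E x) = range E.card := by
    apply eq_of_subset_of_card_le
    · intro j hj
      rw [mem_image] at hj
      obtain ⟨s, hs, rfl⟩ := hj
      rw [mem_range]
      exact pos_lt_card hs
    · rw [card_range, card_image_of_injOn]
      intro s hs t ht h
      exact pos_inj hx hs ht h
  have h2 : i ∈ E.image (pos E x) := by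
    rw [h1, mem_range]
    exact hi
  rw [mem_image] at h2
  obtain ⟨s, hs, h⟩ := h2
  exact ⟨s, hs, h⟩

end

/-- **Separator theorem** for the points `x s`, `s ∈ E`, of a line, with two non-crossing symmetric
relations `up` and `low`. -/
theorem exists_separator {τ : Type*} [DecidableEq τ] (E : Finset τ) (x : τ → ℝ)
    (up low : τ → τ → Prop) (hx : ∀ s ∈ E, ∀ t ∈ E, x s = x t → s = t)
    (up_symm : ∀ s t, up s t → up t s) (low_symm : ∀ s t, low s t → low t s)
    (up_nc : ∀ a ∈ E, ∀ b ∈ E, ∀ c ∈ E, ∀ d ∈ E, up a b → up c d →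
      ¬ (x a < x c ∧ x c < x b ∧ x b < x d))
    (low_nc : ∀ a ∈ E, ∀ b ∈ E, ∀ c ∈ E, ∀ d ∈ E, low a b → low c d →
      ¬ (x a < x c ∧ x c < x b ∧ x b < x d))
    (w : τ → ℝ) (hw : ∀ v, 0 ≤ w v) :
    ∃ Z A B : Finset τ, Z ∪ A ∪ B = E ∧ Disjoint Z A ∧ Disjoint Z B ∧ Disjoint A B ∧
      (Z.card : ℝ) ≤ 16 * √E.card ∧
      ∑ v ∈ A, w v ≤ 2 / 3 * ∑ v ∈ E, w v ∧ ∑ v ∈ B, w v ≤ 2 / 3 * ∑ v ∈ E, w v ∧
      (∀ a ∈ A, ∀ b ∈ B, ¬ up a b ∧ ¬ low a b) ∧
      (∀ a ∈ A, ∀ b ∈ B, x a < x b → ∃ z ∈ Z, x a < x z ∧ x z < x b) ∧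
      (∀ a ∈ A, ∀ b ∈ B, x b < x a → ∃ z ∈ Z, x b < x z ∧ x z < x a) := by
  classical
  have hW0 : 0 ≤ ∑ v ∈ E, w v := sum_nonneg fun v _ => hw v
  by_cases hn : E.card < 2
  · refine ⟨E, ∅, ∅, by simp, by simp, by simp, by simp, ?_, by simpa using hW0,
      by simpa using hW0, by simp, by simp, by simp⟩
    have h1 : (E.card : ℝ) ≤ √E.card := by
      apply Real.le_sqrt_of_sq_le
      interval_cases E.card <;> norm_num
    have h2 : 0 ≤ √(E.card : ℝ) := Real.sqrt_nonneg _
    linarith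
  push Not at hn
  set n := E.card with hnn
  set P : τ → ℕ := pos E x with hP
  set R : Bool → τ → τ → Prop := fun p a b => if p = true then up a b else low a b with hR
  have hRs : ∀ p a b, R p a b → R p b a := by
    intro p a b h
    rw [hR] at h ⊢
    cases p with
    | true => exact up_symm a b h
    | false => exact low_symm a b h
  have hRnc : ∀ p, ∀ a ∈ E, ∀ b ∈ E, ∀ c ∈ E, ∀ d ∈ E, R p a b → R p c d →
      ¬ (x a < x c ∧ x c < x b ∧ x b < x d) := by
    intro p a ha b hb c hc d hd h1 h2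
    rw [hR] at h1 h2
    cases p with
    | true => exact up_nc a ha b hb c hc d hd h1 h2
    | false => exact low_nc a ha b hb c hc d hd h1 h2
  set U : Bool → Finset (ℕ × ℕ) := fun p =>
    ((E ×ˢ E).filter (fun ab => x ab.1 < x ab.2 ∧ R p ab.1 ab.2)).image
      (fun ab => (P ab.1, P ab.2)) with hU
  have hmU : ∀ p i j, (i, j) ∈ U p ↔ ∃ a ∈ E, ∃ b ∈ E, x a < x b ∧ R p a b ∧ P a = i ∧ P b = j := by
    intro p i j
    rw [hU]
    simp only [mem_image, mem_filter, mem_product, Prod.mk.injEq, Prod.exists]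
    constructor
    · rintro ⟨a, b, ⟨⟨ha, hb⟩, h1, h2⟩, h3, h4⟩
      exact ⟨a, ha, b, hb, h1, h2, h3, h4⟩
    · rintro ⟨a, ha, b, hb, h1, h2, h3, h4⟩
      exact ⟨a, b, ⟨⟨ha, hb⟩, h1, h2⟩, h3, h4⟩
  have hplt : ∀ {s t}, s ∈ E → t ∈ E → (P s < P t ↔ x s < x t) := fun hs ht => pos_lt_iff hx hs ht
  have hUa : ∀ p, ArcsIn n (U p) := by
    intro p i j hij
    rw [hmU] at hij
    obtain ⟨a, ha, b, hb, h1, _, rfl, rfl⟩ := hij
    exact ⟨pos_lt ha h1, pos_lt_card hb⟩
  have hUn : ∀ p, NonCross (U p) := by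
    intro p i j k m h1 h2 h3 h4 h5
    rw [hmU] at h1 h2
    obtain ⟨a, ha, c, hc, _, h6, rfl, rfl⟩ := h1
    obtain ⟨b, hb, d, hd, _, h7, rfl, rfl⟩ := h2
    exact hRnc p a ha c hc b hb d hd h6 h7 ⟨(hplt ha hb).mp h3, (hplt hb hc).mp h4,
      (hplt hc hd).mp h5⟩
  choose V hUV hVM using fun p => exists_max (hUa p) (hUn p)
  set w' : ℕ → ℝ := fun i => ∑ s ∈ E.filter (fun s => P s = i), w s with hw'
  have hw'0 : ∀ i, 0 ≤ w' i := fun i => sum_nonneg fun v _ => hw v
  have hws : ∀ S : Finset ℕ, ∑ i ∈ S, w' i = ∑ s ∈ E.filter (fun s => P s ∈ S), w s := by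
    intro S
    rw [← sum_fiberwise_of_maps_to (s := E.filter (fun s => P s ∈ S)) (t := S) (g := P)
      (fun v hv => (mem_filter.mp hv).2)]
    apply sum_congr rfl
    intro c hc
    rw [hw']
    simp only
    apply sum_congr _ fun _ _ => rfl
    ext v
    simp only [mem_filter]
    constructor
    · rintro ⟨h1, h2⟩
      exact ⟨⟨h1, h2 ▸ hc⟩, h2⟩
    · rintro ⟨⟨h1, _⟩, h2⟩
      exact ⟨h1, h2⟩
  have hwE : ∑ i ∈ range n, w' i = ∑ s ∈ E, w s := by
    rw [hws]
    apply sum_congr _ fun _ _ => rfl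
    apply filter_true_of_mem
    intro s hs
    rw [mem_range]
    exact pos_lt_card hs
  obtain ⟨Z, A, B, h1, h2, h3, h4, h5, h6, h7, h8⟩ := sep_nat hn hVM hw'0
  have hmem : ∀ {S : Finset ℕ} {s}, s ∈ E.filter (fun s => P s ∈ S) ↔ s ∈ E ∧ P s ∈ S := by
    intro S s
    rw [mem_filter]
  have hdis : ∀ {S S' : Finset ℕ}, Disjoint S S' →
      Disjoint (E.filter (fun s => P s ∈ S)) (E.filter (fun s => P s ∈ S')) := by
    intro S S' h
    rw [disjoint_left] at h ⊢
    intro s hs hs'
    rw [hmem] at hs hs'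
    exact h hs.2 hs'.2
  -- between a point of `A'` and a point of `B'` there is a point of `Z'`
  have hspine : ∀ S S' : Finset ℕ, (∀ i, i < n → i ∈ S ∨ i ∈ S' ∨ i ∈ Z) →
      (∀ i, i + 1 < n → i ∈ S → i + 1 ∉ S') → Disjoint S S' →
      ∀ a ∈ E, ∀ b ∈ E, P a ∈ S → P b ∈ S' → x a < x b →
        ∃ z ∈ E, P z ∈ Z ∧ x a < x z ∧ x z < x b := by
    intro S S' hc1 hc2 hc3 a ha b hb haS hbS hab
    by_contra hno
    push Not at hno
    have hPb : P b < n := pos_lt_card hb
    have hPab := (hplt ha hb).mpr hab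
    have key : ∀ i, P a ≤ i → i < P b → i ∈ S := by
      intro i
      induction i with
      | zero =>
        intro h9 _
        have : P a = 0 := by omega
        rw [← this]
        exact haS
      | succ i ih =>
        intro h9 h10
        rcases Nat.lt_or_ge i (P a) with h11 | h11
        · have : P a = i + 1 := by omega
          rw [← this]
          exact haS
        · have h12 := ih h11 (by omega)
          have h13 := hc2 i (by omega) h12
          rcases hc1 (i + 1) (by omega) with h14 | h14 | h14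
          · exact h14
          · exact absurd h14 h13
          · exfalso
            obtain ⟨z, hz, hz2⟩ := pos_surj (x := x) hx (i := i + 1) (by omega)
            change P z = i + 1 at hz2
            have h15 := hno z hz (by rw [hz2]; exact h14)
              ((hplt ha hz).mp (by omega))
            have h16 := (hplt hz hb).mp (by omega)
            exact absurd h16 (not_lt.mpr h15)
    have h17 := key (P b - 1) (by omega) (by omega)
    have h18 := hc2 (P b - 1) (by omega) h17
    rw [Nat.sub_add_cancel (by omega)] at h18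
    exact h18 hbS
  have hcov : ∀ i, i < n → i ∈ Z ∨ i ∈ A ∨ i ∈ B := by
    intro i hi
    rw [← mem_range, ← h1, mem_union, mem_union] at hi
    tauto
  refine ⟨E.filter (fun s => P s ∈ Z), E.filter (fun s => P s ∈ A), E.filter (fun s => P s ∈ B),
    ?_, hdis h2, hdis h3, hdis h4, ?_, ?_, ?_, ?_, ?_, ?_⟩
  · ext s
    simp only [mem_union, mem_filter]
    constructor
    · rintro ((h | h) | h)
      · exact h.1
      · exact h.1
      · exact h.1
    · intro hs
      have := hcov (P s) (pos_lt_card hs)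
      tauto
  · have h9 : (E.filter (fun s => P s ∈ Z)).card ≤ Z.card := by
      apply card_le_card_of_injOn P
      · intro s hs
        exact (mem_filter.mp hs).2
      · intro s hs t ht h
        exact pos_inj hx (mem_filter.mp hs).1 (mem_filter.mp ht).1 h
    have h10 : ((E.filter (fun s => P s ∈ Z)).card : ℝ) ≤ Z.card := by exact_mod_cast h9
    have h11 : 0 ≤ √(n : ℝ) := Real.sqrt_nonneg _
    linarith
  · rw [← hws, ← hwE]
    exact h6
  · rw [← hws, ← hwE]
    exact h7
  · intro a ha b hb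
    rw [hmem] at ha hb
    have key : ∀ p, ¬ R p a b := by
      intro p hp
      have hne : x a ≠ x b := by
        intro h
        have := hx a ha.1 b hb.1 h
        rw [this] at ha
        exact (disjoint_left.mp h4) ha.2 hb.2
      rcases lt_or_gt_of_ne hne with h9 | h9
      · exact (h8 p _ ha.2 _ hb.2).1 (hUV p ((hmU p _ _).mpr
          ⟨a, ha.1, b, hb.1, h9, hp, rfl, rfl⟩))
      · exact (h8 p _ ha.2 _ hb.2).2 (hUV p ((hmU p _ _).mpr
          ⟨b, hb.1, a, ha.1, h9, hRs p _ _ hp, rfl, rfl⟩))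
    exact ⟨key true, key false⟩
  · intro a ha b hb hab
    rw [hmem] at ha hb
    obtain ⟨z, hz1, hz2, hz3⟩ := hspine A B (fun i hi => by have := hcov i hi; tauto)
      (fun i hi h9 h10 => (h8 true _ h9 _ h10).1 ((hVM true).spine hi)) h4 a ha.1 b hb.1 ha.2 hb.2
      hab
    exact ⟨z, hmem.mpr ⟨hz1, hz2⟩, hz3⟩
  · intro a ha b hb hab
    rw [hmem] at ha hb
    obtain ⟨z, hz1, hz2, hz3⟩ := hspine B A (fun i hi => by have := hcov i hi; tauto)
      (fun i hi h9 h10 => (h8 true _ h10 _ h9).2 ((hVM true).spine hi)) h4.symm b hb.1 a ha.1 hb.2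
      ha.2 hab
    exact ⟨z, hmem.mpr ⟨hz1, hz2⟩, hz3⟩

end Pool.Agent.Work.MP_09dd0a_co
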