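import Mathlib

/-!
# A separator theorem for graphs with no `K_5` minor (after Alon, Seymour and Thomas)

The graph is a symmetric relation `adj` on a type `V`; the vertex set is a finite set `U`.
-/

namespace Pool.Agent.Work.MP_09dd0a_co

open Finset Relation
open scoped Classical

variable {V : Type*}

/-- One step of a walk inside `s`. -/
def Step (adj : V → V → Prop) (s : Finset V) (x y : V) : Prop := adj x y ∧ x ∈ s ∧ y ∈ s

/-- `a` and `b` are joined by a walk inside `s`. -/
def Linked (adj : V → V → Prop) (s : Finset V) : V → V → Prop := ReflTransGen (Step adj s)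

/-- `s` is nonempty and connected. -/
def ConnSet (adj : V → V → Prop) (s : Finset V) : Prop :=
  s.Nonempty ∧ ∀ a ∈ s, ∀ b ∈ s, Linked adj s a b

/-- There is no `K_5` minor: no five disjoint connected sets which are pairwise adjacent. -/
def K5Free (adj : V → V → Prop) : Prop :=
  ∀ C : Fin 5 → Finset V, (∀ i, ConnSet adj (C i)) → (∀ i j, i ≠ j → Disjoint (C i) (C j)) →
    (∀ i j, i ≠ j → ∃ x ∈ C i, ∃ y ∈ C j, adj x y) → False

lemma Linked.mono {adj : V → V → Prop} {s t : Finset V} (h : s ⊆ t) {a b : V}
    (hab : Linked adj s a b) : Linked adj t a b :=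
  ReflTransGen.mono (fun _ _ hxy => ⟨hxy.1, h hxy.2.1, h hxy.2.2⟩) _ _ hab

lemma Linked.mono_adj {adj adj' : V → V → Prop} {s : Finset V} (h : ∀ x y, adj x y → adj' x y)
    {a b : V} (hab : Linked adj s a b) : Linked adj' s a b :=
  ReflTransGen.mono (fun _ _ hxy => ⟨h _ _ hxy.1, hxy.2.1, hxy.2.2⟩) _ _ hab

lemma Linked.symm {adj : V → V → Prop} (hadj : ∀ x y, adj x y → adj y x) {s : Finset V} {a b : V}
    (hab : Linked adj s a b) : Linked adj s b a := by
  induction hab with
  | refl => exact ReflTransGen.refl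
  | tail _ h ih => exact ReflTransGen.head ⟨hadj _ _ h.1, h.2.2, h.2.1⟩ ih

lemma Linked.trans {adj : V → V → Prop} {s : Finset V} {a b c : V}
    (hab : Linked adj s a b) (hbc : Linked adj s b c) : Linked adj s a c :=
  ReflTransGen.trans hab hbc

lemma Linked.mem {adj : V → V → Prop} {s : Finset V} {a b : V}
    (hab : Linked adj s a b) (ha : a ∈ s) : b ∈ s := by
  induction hab with
  | refl => exact ha
  | tail _ h _ => exact h.2.2

lemma K5Free.mono {adj adj' : V → V → Prop} (h : K5Free adj) (hle : ∀ x y, adj' x y → adj x y) :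
    K5Free adj' := by
  intro C hC hD hA
  refine h C (fun i => ⟨(hC i).1, fun a ha b hb => ((hC i).2 a ha b hb).mono_adj hle⟩) hD ?_
  intro i j hij
  obtain ⟨x, hx, y, hy, hxy⟩ := hA i j hij
  exact ⟨x, hx, y, hy, hle _ _ hxy⟩

/-- The connected component of `a` in `s`. -/
noncomputable def comp (adj : V → V → Prop) (s : Finset V) (a : V) : Finset V :=
  s.filter (fun y => Linked adj s a y)

lemma comp_subset (adj : V → V → Prop) (s : Finset V) (a : V) : comp adj s a ⊆ s :=
  filter_subset _ _

lemma mem_comp {adj : V → V → Prop} {s : Finset V} {a y : V} :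
    y ∈ comp adj s a ↔ y ∈ s ∧ Linked adj s a y := by simp [comp]

lemma self_mem_comp (adj : V → V → Prop) {s : Finset V} {a : V} (ha : a ∈ s) :
    a ∈ comp adj s a := mem_comp.2 ⟨ha, ReflTransGen.refl⟩

lemma comp_closed {adj : V → V → Prop} {s : Finset V} {a x y : V}
    (hx : x ∈ comp adj s a) (hy : y ∈ s) (hxy : adj x y) : y ∈ comp adj s a := by
  rw [mem_comp] at hx ⊢
  exact ⟨hy, hx.2.tail ⟨hxy, hx.1, hy⟩⟩

lemma connSet_comp {adj : V → V → Prop} (hadj : ∀ x y, adj x y → adj y x) {s : Finset V} {a : V}
    (ha : a ∈ s) : ConnSet adj (comp adj s a) := by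
  have key : ∀ b, Linked adj s a b → Linked adj (comp adj s a) a b := by
    intro b hb
    induction hb with
    | refl => exact ReflTransGen.refl
    | tail h1 h2 ih =>
      refine ih.tail ⟨h2.1, ?_, ?_⟩
      · exact mem_comp.2 ⟨h2.2.1, h1⟩
      · exact mem_comp.2 ⟨h2.2.2, h1.tail h2⟩
  refine ⟨⟨a, self_mem_comp adj ha⟩, ?_⟩
  intro x hx y hy
  have hx' := key x (mem_comp.1 hx).2
  have hy' := key y (mem_comp.1 hy).2
  exact (hx'.symm hadj).trans hy'

lemma subset_comp {adj : V → V → Prop} {s B : Finset V} (hB : ConnSet adj B) (hs : B ⊆ s) {a : V}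
    (ha : a ∈ B) : B ⊆ comp adj s a := by
  intro y hy
  exact mem_comp.2 ⟨hs hy, (hB.2 a ha y hy).mono hs⟩

/-- A connected set meeting `B` and avoiding the neighbourhood of `B` lies in `B`. -/
lemma conn_subset {adj : V → V → Prop} {B C : Finset V} (hC : ConnSet adj C) {a : V} (haC : a ∈ C)
    (haB : a ∈ B) (h : ∀ x ∈ B, ∀ y ∈ C, adj x y → y ∈ B) : C ⊆ B := by
  intro y hy
  have := hC.2 a haC y hy
  clear hy
  induction this with
  | refl => exact haB
  | tail _ h2 ih => exact h _ ih _ h2.2.2 h2.1

/-- Adding to a connected set a vertex adjacent to it. -/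
lemma ConnSet.add {adj : V → V → Prop} (hadj : ∀ x y, adj x y → adj y x) {s : Finset V}
    (hs : ConnSet adj s) {x y : V} (hx : x ∈ s) (hxy : adj x y) :
    ConnSet adj (insert y s) := by
  have hsub : s ⊆ insert y s := subset_insert _ _
  have key : ∀ b ∈ insert y s, Linked adj (insert y s) x b := by
    intro b hb
    rw [mem_insert] at hb
    rcases hb with rfl | hb
    · exact ReflTransGen.single ⟨hxy, hsub hx, mem_insert_self _ _⟩
    · exact (hs.2 x hx b hb).mono hsub
  refine ⟨⟨y, mem_insert_self _ _⟩, ?_⟩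
  intro a ha b hb
  exact ((key a ha).symm hadj).trans (key b hb)

lemma connSet_singleton (adj : V → V → Prop) (a : V) : ConnSet adj {a} := by
  refine ⟨singleton_nonempty a, ?_⟩
  intro x hx y hy
  rw [mem_singleton] at hx hy
  subst hx; subst hy
  exact ReflTransGen.refl

/-! ### Breadth first search -/

section BFS

variable {α : Type*} [DecidableEq α]

/-- The set of vertices of `J` reached from `S` by at most `j` steps. -/
noncomputable def ball (J : Finset α) (R : α → α → Prop) (S : Finset α) : ℕ → Finset α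
  | 0 => S
  | (j + 1) => ball J R S j ∪
      @Finset.filter α (fun y => ∃ x ∈ ball J R S j, R x y) (Classical.decPred _) J

lemma mem_ball_succ {J : Finset α} {R : α → α → Prop} {S : Finset α} {j : ℕ} {y : α} :
    y ∈ ball J R S (j + 1) ↔ y ∈ ball J R S j ∨ (y ∈ J ∧ ∃ x ∈ ball J R S j, R x y) := by
  change y ∈ ball J R S j ∪
      @Finset.filter α (fun y => ∃ x ∈ ball J R S j, R x y) (Classical.decPred _) J ↔ _
  rw [mem_union, @mem_filter _ _ (Classical.decPred _)]

lemma ball_subset {J : Finset α} {R : α → α → Prop} {S : Finset α} (hS : S ⊆ J) (j : ℕ) :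
    ball J R S j ⊆ J := by
  induction j with
  | zero => exact hS
  | succ j ih =>
    intro y hy
    rcases mem_ball_succ.1 hy with h | h
    · exact ih h
    · exact h.1

lemma ball_mono {J : Finset α} {R : α → α → Prop} {S : Finset α} {i j : ℕ} (hij : i ≤ j) :
    ball J R S i ⊆ ball J R S j := by
  induction hij with
  | refl => exact Subset.rfl
  | step _ ih => exact ih.trans subset_union_left

/-- Either `T` is met by the ball of radius `r - 1`, or some small set separates `S` from `T`. -/
theorem bfs (J : Finset α) (R : α → α → Prop) (S T : Finset α) (hS : S ⊆ J) (r : ℕ) (hr : 1 ≤ r) :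
    (∃ b ∈ T, b ∈ ball J R S (r - 1)) ∨
    (∃ D ⊆ J, r * D.card ≤ J.card ∧ ∀ a ∈ S, a ∉ D → ∀ b,
      ReflTransGen (fun x y => R x y ∧ y ∈ J \ D) a b → b ∉ T) := by
  by_cases h0 : ∃ b ∈ T, b ∈ ball J R S (r - 1)
  · exact Or.inl h0
  right
  push Not at h0
  -- the levels
  set lev : ℕ → Finset α := fun j => if j = 0 then S else ball J R S j \ ball J R S (j - 1)
    with hlev
  have hcard : ∀ m : ℕ, (∑ j ∈ range (m + 1), (lev j).card) = (ball J R S m).card := by
    intro m
    induction m with
    | zero => simp [hlev, ball]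
    | succ m ih =>
      rw [sum_range_succ, ih]
      have h1 : lev (m + 1) = ball J R S (m + 1) \ ball J R S m := by simp [hlev]
      rw [h1]
      have h2 : ball J R S m ⊆ ball J R S (m + 1) := ball_mono (Nat.le_succ m)
      rw [card_sdiff_of_subset h2]
      have := card_le_card h2
      omega
  have hex : ∃ j ∈ range r, r * (lev j).card ≤ J.card := by
    by_contra hcon
    push Not at hcon
    have h1 : ∑ j ∈ range r, (J.card + 1) ≤ ∑ j ∈ range r, r * (lev j).card :=
      sum_le_sum (fun j hj => hcon j hj)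
    rw [sum_const, card_range, smul_eq_mul, ← mul_sum] at h1
    have h2 : ∑ j ∈ range r, (lev j).card = (ball J R S (r - 1)).card := by
      have := hcard (r - 1)
      rwa [Nat.sub_add_cancel hr] at this
    rw [h2] at h1
    have h3 : (ball J R S (r - 1)).card ≤ J.card := card_le_card (ball_subset hS _)
    have h4 : J.card + 1 ≤ (ball J R S (r - 1)).card := Nat.le_of_mul_le_mul_left h1 (by omega)
    omega
  obtain ⟨j, hj, hjc⟩ := hex
  rw [mem_range] at hj
  have hsubJ : lev j ⊆ J := by
    simp only [hlev]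
    split_ifs
    · exact hS
    · exact sdiff_subset.trans (ball_subset hS _)
  refine ⟨lev j, hsubJ, hjc, ?_⟩
  intro a ha haD b hab hbT
  by_cases hj0 : j = 0
  · subst hj0
    simp only [hlev, if_true] at haD
    exact haD ha
  · have hD : lev j = ball J R S j \ ball J R S (j - 1) := by simp [hlev, hj0]
    have hb : b ∈ ball J R S (j - 1) := by
      clear hbT
      induction hab with
      | refl => exact ball_mono (Nat.zero_le _) ha
      | tail _ h2 ih =>
        obtain ⟨hR, hy⟩ := h2
        rw [mem_sdiff] at hy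
        by_contra hcon
        apply hy.2
        rw [hD, mem_sdiff]
        refine ⟨?_, hcon⟩
        have : j = (j - 1) + 1 := by omega
        rw [this]
        exact mem_ball_succ.2 (Or.inr ⟨hy.1, _, ih, hR⟩)
    exact h0 b hbT (ball_mono (by omega) hb)

end BFS

/-- Either a small connected set meets all of `A 0, …, A (t-1)`, or a small set `Z` is such that no
connected subset of `B \ Z` meets all of them. -/
theorem tree_or_cut {adj : V → V → Prop} (hadj : ∀ x y, adj x y → adj y x) (B : Finset V) (t : ℕ)
    (ht : 1 ≤ t) (A : ℕ → Finset V) (r : ℕ) (hr : 1 ≤ r) :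
    (∃ T ⊆ B, ConnSet adj T ∧ T.card ≤ r ∧ ∀ i < t, ∃ x ∈ T, x ∈ A i) ∨
    (∃ Z ⊆ B, r * Z.card ≤ (t - 1) * B.card ∧
      ∀ Q ⊆ B \ Z, ConnSet adj Q → ∃ i < t, ∀ x ∈ Q, x ∉ A i) := by
  rcases Nat.lt_or_ge 1 t with ht2 | ht2
  · set J : Finset (V × ℕ) := B ×ˢ range (t - 1) with hJ
    set R : V × ℕ → V × ℕ → Prop := fun x y =>
      (y.2 = x.2 ∧ adj x.1 y.1) ∨ (y.1 = x.1 ∧ y.2 = x.2 + 1 ∧ x.1 ∈ A (x.2 + 1)) with hR
    set S : Finset (V × ℕ) := (B.filter (fun v => v ∈ A 0)) ×ˢ {0} with hSdef
    set T : Finset (V × ℕ) := (B.filter (fun v => v ∈ A (t - 1))) ×ˢ {t - 2} with hTdef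
    have hS : S ⊆ J := by
      intro x hx
      rw [hSdef, mem_product, mem_filter, mem_singleton] at hx
      rw [hJ, mem_product, mem_range]
      exact ⟨hx.1.1, by omega⟩
    rcases bfs J R S T hS r hr with h | h
    · left
      obtain ⟨b, hbT, hb⟩ := h
      have inv : ∀ j : ℕ, ∀ y ∈ ball J R S j, ∃ F ⊆ B, ConnSet adj F ∧ F.card ≤ j + 1 ∧ y.1 ∈ F ∧
          ∀ i ≤ y.2, ∃ x ∈ F, x ∈ A i := by
        intro j
        induction j with
        | zero =>
          intro y hy
          change y ∈ S at hy
          rw [hSdef, mem_product, mem_filter, mem_singleton] at hy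
          refine ⟨{y.1}, by simpa using hy.1.1, connSet_singleton adj _, by simp, by simp, ?_⟩
          intro i hi
          have : i = 0 := by omega
          subst this
          exact ⟨y.1, by simp, hy.1.2⟩
        | succ j ih =>
          intro y hy
          rcases mem_ball_succ.1 hy with hy | hy
          · obtain ⟨F, h1, h2, h3, h4, h5⟩ := ih y hy
            exact ⟨F, h1, h2, by omega, h4, h5⟩
          · obtain ⟨hyJ, x, hx, hxy⟩ := hy
            obtain ⟨F, h1, h2, h3, h4, h5⟩ := ih x hx
            rcases hxy with ⟨e, hxy⟩ | ⟨e1, e2, e3⟩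
            · refine ⟨insert y.1 F, ?_, h2.add hadj h4 hxy, ?_, mem_insert_self _ _, ?_⟩
              · apply insert_subset _ h1
                exact (mem_product.1 hyJ).1
              · exact (card_insert_le _ _).trans (by omega)
              · intro i hi
                rw [e] at hi
                obtain ⟨z, hz, hz'⟩ := h5 i hi
                exact ⟨z, mem_insert_of_mem hz, hz'⟩
            · refine ⟨F, h1, h2, by omega, by rw [e1]; exact h4, ?_⟩
              intro i hi
              rw [e2] at hi
              rcases Nat.lt_or_ge i (x.2 + 1) with h | h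
              · exact h5 i (by omega)
              · have : i = x.2 + 1 := by omega
                subst this
                exact ⟨x.1, h4, e3⟩
      obtain ⟨F, h1, h2, h3, h4, h5⟩ := inv _ b hb
      refine ⟨F, h1, h2, by omega, ?_⟩
      intro i hi
      rw [hTdef, mem_product, mem_filter, mem_singleton] at hbT
      rcases Nat.lt_or_ge i (t - 1) with h | h
      · exact h5 i (by omega)
      · have : i = t - 1 := by omega
        subst this
        exact ⟨b.1, h4, hbT.1.2⟩
    · right
      obtain ⟨D, hDJ, hDc, hD⟩ := h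
      refine ⟨D.image Prod.fst, ?_, ?_, ?_⟩
      · intro x hx
        obtain ⟨y, hy, rfl⟩ := mem_image.1 hx
        exact (mem_product.1 (hDJ hy)).1
      · have h1 : (D.image Prod.fst).card ≤ D.card := card_image_le
        have h2 : J.card = B.card * (t - 1) := by rw [hJ, card_product, card_range]
        calc r * (D.image Prod.fst).card ≤ r * D.card := Nat.mul_le_mul_left _ h1
          _ ≤ J.card := hDc
          _ = (t - 1) * B.card := by rw [h2, mul_comm]
      · intro Q hQ hQc
        by_contra hcon
        push Not at hcon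
        have hQB : ∀ x ∈ Q, x ∈ B := fun x hx => (mem_sdiff.1 (hQ hx)).1
        have hQD : ∀ x ∈ Q, ∀ i, (x, i) ∉ D := by
          intro x hx i hxD
          exact (mem_sdiff.1 (hQ hx)).2 (mem_image.2 ⟨(x, i), hxD, rfl⟩)
        obtain ⟨a0, ha0Q, ha0⟩ := hcon 0 (by omega)
        have hlift : ∀ i < t - 1, ∀ x ∈ Q, ∀ y, Linked adj Q x y →
            ReflTransGen (fun x y => R x y ∧ y ∈ J \ D) (x, i) (y, i) := by
          intro i hi x hx y hxy
          induction hxy with
          | refl => exact ReflTransGen.refl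
          | tail _ h2 ih =>
            refine ih.tail ⟨Or.inl ⟨rfl, h2.1⟩, ?_⟩
            rw [mem_sdiff]
            exact ⟨mem_product.2 ⟨hQB _ h2.2.2, mem_range.2 hi⟩, hQD _ h2.2.2 _⟩
        have hall : ∀ i < t - 1, ∀ x ∈ Q,
            ReflTransGen (fun x y => R x y ∧ y ∈ J \ D) (a0, 0) (x, i) := by
          intro i
          induction i with
          | zero =>
            intro hi x hx
            exact hlift 0 hi a0 ha0Q x (hQc.2 a0 ha0Q x hx)
          | succ i ih =>
            intro hi x hx
            obtain ⟨a, haQ, ha⟩ := hcon (i + 1) (by omega)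
            have h1 := ih (by omega) a haQ
            have h2 : ReflTransGen (fun x y => R x y ∧ y ∈ J \ D) (a0, 0) (a, i + 1) := by
              refine h1.tail ⟨Or.inr ⟨rfl, rfl, ha⟩, ?_⟩
              rw [mem_sdiff]
              exact ⟨mem_product.2 ⟨hQB _ haQ, mem_range.2 hi⟩, hQD _ haQ _⟩
            exact h2.trans (hlift _ hi a haQ x (hQc.2 a haQ x hx))
        obtain ⟨a, haQ, ha⟩ := hcon (t - 1) (by omega)
        refine hD (a0, 0) ?_ (hQD _ ha0Q _) (a, t - 2) (hall (t - 2) (by omega) a haQ) ?_
        · rw [hSdef]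
          exact mem_product.2 ⟨mem_filter.2 ⟨hQB _ ha0Q, ha0⟩, mem_singleton_self _⟩
        · rw [hTdef]
          exact mem_product.2 ⟨mem_filter.2 ⟨hQB _ haQ, ha⟩, mem_singleton_self _⟩
  · have ht1 : t = 1 := by omega
    subst ht1
    by_cases hA : ∃ a ∈ B, a ∈ A 0
    · obtain ⟨a, haB, haA⟩ := hA
      left
      refine ⟨{a}, by simpa using haB, connSet_singleton adj a, by simpa using hr, ?_⟩
      intro i hi
      have : i = 0 := by omega
      subst this
      exact ⟨a, by simp, haA⟩
    · right
      push Not at hA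
      refine ⟨∅, by simp, by simp, ?_⟩
      intro Q hQ _
      refine ⟨0, by omega, ?_⟩
      intro x hx
      exact hA x (mem_sdiff.1 (hQ hx)).1

end Pool.Agent.Work.MP_09dd0a_co
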