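import Pool.Agent.Work.MP_09dd0a_co.Separator

/-!
# A separator theorem for graphs with no `K_5` minor: the main argument
-/

namespace Pool.Agent.Work.MP_09dd0a_co

open Finset Relation
open scoped Classical

variable {V : Type*}

/-- A state of the Alon-Seymour-Thomas argument: pairwise adjacent disjoint connected sets
`C i, i ∈ I`, small subsets `X i ⊆ C i`, and a heavy connected set `B` whose neighbours outside `B`
lie in the sets `X i`. -/
structure St (adj : V → V → Prop) (w : V → ℝ) (U : Finset V) (r : ℕ) (I : Finset (Fin 5))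
    (C X : Fin 5 → Finset V) (B : Finset V) : Prop where
  CU : ∀ i ∈ I, C i ⊆ U
  Cc : ∀ i ∈ I, ConnSet adj (C i)
  CB : ∀ i ∈ I, Disjoint (C i) B
  XC : ∀ i ∈ I, X i ⊆ C i
  Xr : ∀ i ∈ I, (X i).card ≤ r
  dis : ∀ i ∈ I, ∀ j ∈ I, i ≠ j → Disjoint (C i) (C j)
  adjc : ∀ i ∈ I, ∀ j ∈ I, i ≠ j → ∃ x ∈ C i, ∃ y ∈ C j, adj x y
  BU : B ⊆ U
  Bc : ConnSet adj B
  Bw : ∑ v ∈ U, w v < 2 * ∑ v ∈ B, w v
  nb : ∀ x ∈ B, ∀ y ∈ U, y ∉ B → adj x y → ∃ i ∈ I, y ∈ X i

section

variable {adj : V → V → Prop} {w : V → ℝ} {U : Finset V} {r : ℕ}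

lemma heavy_inter (hw : ∀ v, 0 ≤ w v) {B B' : Finset V} (hB : B ⊆ U) (hB' : B' ⊆ U)
    (h1 : ∑ v ∈ U, w v < 2 * ∑ v ∈ B, w v) (h2 : ∑ v ∈ U, w v < 2 * ∑ v ∈ B', w v) :
    ∃ x ∈ B, x ∈ B' := by
  by_contra hcon
  push Not at hcon
  have hd : Disjoint B B' := disjoint_left.2 hcon
  have h3 : ∑ v ∈ B ∪ B', w v ≤ ∑ v ∈ U, w v :=
    sum_le_sum_of_subset_of_nonneg (union_subset hB hB') (fun v _ _ => hw v)
  rw [sum_union hd] at h3
  linarith

/-- A heavy connected set avoiding all the sets `X i` lies in `B`. -/
lemma St.sub {I : Finset (Fin 5)} {C X : Fin 5 → Finset V} {B : Finset V}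
    (h : St adj w U r I C X B) (hw : ∀ v, 0 ≤ w v) {B' : Finset V} (hB'U : B' ⊆ U)
    (hB'c : ConnSet adj B') (hB'w : ∑ v ∈ U, w v < 2 * ∑ v ∈ B', w v)
    (hav : ∀ i ∈ I, Disjoint B' (X i)) : B' ⊆ B := by
  obtain ⟨x, hxB, hxB'⟩ := heavy_inter hw h.BU hB'U h.Bw hB'w
  refine conn_subset hB'c hxB' hxB ?_
  intro y hy z hz hyz
  by_contra hcon
  obtain ⟨i, hi, hzi⟩ := h.nb y hy z (hB'U hz) hcon hyz
  exact disjoint_left.1 (hav i hi) hz hzi

/-- The dichotomy for a state. -/
lemma St.dich {I : Finset (Fin 5)} {C X : Fin 5 → Finset V} {B : Finset V}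
    (h : St adj w U r I C X B) (hadj : ∀ x y, adj x y → adj y x) (hI : I.card ≤ 4)
    (hr : 1 ≤ r) (hr2 : 3 * U.card ≤ r * r) :
    (∃ T ⊆ B, ConnSet adj T ∧ T.card ≤ r ∧ ∀ i ∈ I, ∃ x ∈ T, ∃ y ∈ C i, adj x y) ∨
    (∃ Z ⊆ B, Z.card ≤ r ∧ ∀ Q ⊆ B \ Z, ConnSet adj Q → ∃ i ∈ I, ∀ x ∈ Q, ∀ y ∈ C i, ¬ adj x y) := by
  rcases I.eq_empty_or_nonempty with hIe | hIne
  · left
    obtain ⟨b, hb⟩ := h.Bc.1
    refine ⟨{b}, by simpa using hb, connSet_singleton adj b, by simpa using hr, ?_⟩
    intro i hi
    rw [hIe] at hi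
    simp at hi
  · have hpos : 0 < I.card := hIne.card_pos
    set e : ℕ → Fin 5 := fun k => if hk : k < I.card then I.orderEmbOfFin rfl ⟨k, hk⟩ else 0 with he
    have he1 : ∀ k < I.card, e k ∈ I := by
      intro k hk
      simp only [he, hk, dif_pos]
      exact orderEmbOfFin_mem _ _ _
    have he2 : ∀ i ∈ I, ∃ k < I.card, e k = i := by
      intro i hi
      have : i ∈ Set.range (I.orderEmbOfFin rfl) := by
        rw [range_orderEmbOfFin]; exact hi
      obtain ⟨k, hk⟩ := this
      refine ⟨k.1, k.2, ?_⟩
      simp only [he, k.2, dif_pos]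
      exact hk
    set A : ℕ → Finset V := fun k => B.filter (fun x => ∃ y ∈ C (e k), adj x y) with hA
    rcases tree_or_cut hadj B I.card hpos A r hr with ⟨T, h1, h2, h3, h4⟩ | ⟨Z, h1, h2, h3⟩
    · left
      refine ⟨T, h1, h2, h3, ?_⟩
      intro i hi
      obtain ⟨k, hk, rfl⟩ := he2 i hi
      obtain ⟨x, hx, hxA⟩ := h4 k hk
      exact ⟨x, hx, (mem_filter.1 hxA).2⟩
    · right
      refine ⟨Z, h1, ?_, ?_⟩
      · have h5 : B.card ≤ U.card := card_le_card h.BU
        have h6 : (I.card - 1) * B.card ≤ 3 * U.card := Nat.mul_le_mul (by omega) h5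
        have h7 : r * Z.card ≤ r * r := by omega
        exact Nat.le_of_mul_le_mul_left h7 (by omega)
      · intro Q hQ hQc
        obtain ⟨k, hk, hk2⟩ := h3 Q hQ hQc
        refine ⟨e k, he1 k hk, ?_⟩
        intro x hx y hy hxy
        refine hk2 x hx (mem_filter.2 ⟨?_, y, hy, hxy⟩)
        exact (mem_sdiff.1 (hQ hx)).1

theorem no_state (hadj : ∀ x y, adj x y → adj y x) (hK : K5Free adj) (hw : ∀ v, 0 ≤ w v)
    (hr : 1 ≤ r) (hr2 : 3 * U.card ≤ r * r)
    (hneg : ∀ Z ⊆ U, Z.card ≤ 5 * r → ∃ a ∈ U \ Z,
      ∑ v ∈ U, w v < 2 * ∑ v ∈ comp adj (U \ Z) a, w v) :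
    ∀ (N : ℕ) (I : Finset (Fin 5)) (C X : Fin 5 → Finset V) (B : Finset V),
      St adj w U r I C X B → 5 * B.card + I.card ≤ N → False := by
  intro N
  induction N with
  | zero =>
    intro I C X B h hN
    have := h.Bc.1.card_pos
    omega
  | succ N ih =>
    intro I C X B h hN
    -- `I` is not everything
    have hIu : I ≠ univ := by
      intro hIu
      subst hIu
      exact hK C (fun i => h.Cc i (mem_univ i)) (fun i j hij => h.dis i (mem_univ i) j (mem_univ j) hij)
        (fun i j hij => h.adjc i (mem_univ i) j (mem_univ j) hij)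
    have hI4 : I.card ≤ 4 := by
      have h1 : I.card < (univ : Finset (Fin 5)).card :=
        card_lt_card (ssubset_univ_iff.2 hIu)
      simp at h1
      omega
    -- every `C i` has a neighbour in `B`
    by_cases hnb : ∃ i ∈ I, ∀ x ∈ B, ∀ y ∈ C i, ¬ adj x y
    · obtain ⟨i, hi, hno⟩ := hnb
      have hsub : ∀ j, j ∈ I.erase i → j ∈ I := fun j hj => mem_of_mem_erase hj
      refine ih (I.erase i) C X B ?_ ?_
      · refine ⟨fun j hj => h.CU j (hsub j hj), fun j hj => h.Cc j (hsub j hj),
          fun j hj => h.CB j (hsub j hj), fun j hj => h.XC j (hsub j hj),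
          fun j hj => h.Xr j (hsub j hj),
          fun j hj k hk hjk => h.dis j (hsub j hj) k (hsub k hk) hjk,
          fun j hj k hk hjk => h.adjc j (hsub j hj) k (hsub k hk) hjk, h.BU, h.Bc, h.Bw, ?_⟩
        intro x hx y hy hyB hxy
        obtain ⟨j, hj, hyj⟩ := h.nb x hx y hy hyB hxy
        refine ⟨j, ?_, hyj⟩
        rw [mem_erase]
        refine ⟨?_, hj⟩
        rintro rfl
        exact hno x hx y (h.XC j hj hyj) hxy
      · have := card_erase_of_mem hi
        have h2 : 0 < I.card := card_pos.2 ⟨i, hi⟩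
        omega
    · push Not at hnb
      rcases h.dich hadj hI4 hr hr2 with ⟨T, hTB, hTc, hTr, hTm⟩ | ⟨Z, hZB, hZr, hZ⟩
      · -- a new set `T`
        obtain ⟨i0, hi0⟩ : ∃ i0, i0 ∉ I := by
          by_contra hcon
          push Not at hcon
          exact hIu (eq_univ_iff_forall.2 hcon)
        set C' := Function.update C i0 T with hC'
        set X' := Function.update X i0 T with hX'
        have hCne : ∀ j, j ∈ I → C' j = C j := by
          intro j hj
          have : j ≠ i0 := by rintro rfl; exact hi0 hj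
          simp [hC', this]
        have hXne : ∀ j, j ∈ I → X' j = X j := by
          intro j hj
          have : j ≠ i0 := by rintro rfl; exact hi0 hj
          simp [hX', this]
        have hC0 : C' i0 = T := by simp [hC']
        have hX0 : X' i0 = T := by simp [hX']
        have hTU : T ⊆ U := hTB.trans h.BU
        have hXU : ∀ j ∈ insert i0 I, X' j ⊆ U := by
          intro j hj
          rcases mem_insert.1 hj with rfl | hj
          · rw [hX0]; exact hTU
          · rw [hXne j hj]; exact (h.XC j hj).trans (h.CU j hj)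
        have hXr' : ∀ j ∈ insert i0 I, (X' j).card ≤ r := by
          intro j hj
          rcases mem_insert.1 hj with rfl | hj
          · rw [hX0]; exact hTr
          · rw [hXne j hj]; exact h.Xr j hj
        set Y := (insert i0 I).biUnion X' with hY
        have hYU : Y ⊆ U := biUnion_subset.2 hXU
        have hYc : Y.card ≤ 5 * r := by
          have h1 : Y.card ≤ (insert i0 I).card * r := card_biUnion_le_card_mul _ _ _ hXr'
          have h2 : (insert i0 I).card ≤ 5 := by
            have := card_le_univ (insert i0 I)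
            simpa using this
          exact h1.trans (Nat.mul_le_mul_right _ h2)
        obtain ⟨a, ha, haw⟩ := hneg Y hYU hYc
        set B' := comp adj (U \ Y) a with hB'
        have hB'Y : B' ⊆ U \ Y := comp_subset _ _ _
        have hB'U : B' ⊆ U := hB'Y.trans sdiff_subset
        have hB'c : ConnSet adj B' := connSet_comp hadj ha
        have hdisX : ∀ j ∈ insert i0 I, Disjoint B' (X' j) := by
          intro j hj
          rw [disjoint_left]
          intro x hx hxj
          exact (mem_sdiff.1 (hB'Y hx)).2 (mem_biUnion.2 ⟨j, hj, hxj⟩)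
        have hB'B : B' ⊆ B := by
          refine h.sub hw hB'U hB'c haw ?_
          intro j hj
          have := hdisX j (mem_insert_of_mem hj)
          rwa [hXne j hj] at this
        have hB'T : Disjoint B' T := by
          have := hdisX i0 (mem_insert_self _ _)
          rwa [hX0] at this
        refine ih (insert i0 I) C' X' B' ?_ ?_
        · refine ⟨?_, ?_, ?_, ?_, hXr', ?_, ?_, hB'U, hB'c, haw, ?_⟩
          · intro j hj
            rcases mem_insert.1 hj with rfl | hj
            · rw [hC0]; exact hTU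
            · rw [hCne j hj]; exact h.CU j hj
          · intro j hj
            rcases mem_insert.1 hj with rfl | hj
            · rw [hC0]; exact hTc
            · rw [hCne j hj]; exact h.Cc j hj
          · intro j hj
            rcases mem_insert.1 hj with rfl | hj
            · rw [hC0]; exact hB'T.symm
            · rw [hCne j hj]; exact (h.CB j hj).mono_right hB'B
          · intro j hj
            rcases mem_insert.1 hj with rfl | hj
            · rw [hC0, hX0]
            · rw [hCne j hj, hXne j hj]; exact h.XC j hj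
          · intro j hj k hk hjk
            rcases mem_insert.1 hj with rfl | hj
            · rcases mem_insert.1 hk with rfl | hk
              · exact absurd rfl hjk
              · rw [hC0, hCne k hk]; exact ((h.CB k hk).mono_right hTB).symm
            · rcases mem_insert.1 hk with hk | hk
              · rw [hk, hC0, hCne j hj]; exact ((h.CB j hj).mono_right hTB)
              · rw [hCne j hj, hCne k hk]; exact h.dis j hj k hk hjk
          · intro j hj k hk hjk
            rcases mem_insert.1 hj with rfl | hj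
            · rcases mem_insert.1 hk with rfl | hk
              · exact absurd rfl hjk
              · rw [hC0, hCne k hk]
                obtain ⟨x, hx, y, hy, hxy⟩ := hTm k hk
                exact ⟨x, hx, y, hy, hxy⟩
            · rcases mem_insert.1 hk with hk | hk
              · rw [hk, hC0, hCne j hj]
                obtain ⟨x, hx, y, hy, hxy⟩ := hTm j hj
                exact ⟨y, hy, x, hx, hadj _ _ hxy⟩
              · rw [hCne j hj, hCne k hk]; exact h.adjc j hj k hk hjk
          · intro x hx y hy hyB hxy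
            by_cases hyY : y ∈ Y
            · obtain ⟨j, hj, hyj⟩ := mem_biUnion.1 hyY
              exact ⟨j, hj, hyj⟩
            · exact absurd (comp_closed hx (mem_sdiff.2 ⟨hy, hyY⟩) hxy) hyB
        · have h1 : B' ⊆ B \ T := by
            intro x hx
            exact mem_sdiff.2 ⟨hB'B hx, disjoint_left.1 hB'T hx⟩
          have h2 : (B \ T).card = B.card - T.card := card_sdiff_of_subset hTB
          have h3 : 0 < T.card := hTc.1.card_pos
          have h4 := card_le_card h1
          have h5 : T.card ≤ B.card := card_le_card hTB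
          have h6 : (insert i0 I).card ≤ I.card + 1 := card_insert_le _ _
          omega
      · -- a cut `Z`
        set Y := I.biUnion X ∪ Z with hY
        have hZU : Z ⊆ U := hZB.trans h.BU
        have hYU : Y ⊆ U := by
          refine union_subset (biUnion_subset.2 ?_) hZU
          intro j hj
          exact (h.XC j hj).trans (h.CU j hj)
        have hYc : Y.card ≤ 5 * r := by
          have h1 : (I.biUnion X).card ≤ I.card * r := card_biUnion_le_card_mul _ _ _ h.Xr
          have h2 : Y.card ≤ (I.biUnion X).card + Z.card := card_union_le _ _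
          have h3 : I.card * r ≤ 4 * r := Nat.mul_le_mul_right _ hI4
          omega
        obtain ⟨a, ha, haw⟩ := hneg Y hYU hYc
        set B' := comp adj (U \ Y) a with hB'
        have hB'Y : B' ⊆ U \ Y := comp_subset _ _ _
        have hB'U : B' ⊆ U := hB'Y.trans sdiff_subset
        have hB'c : ConnSet adj B' := connSet_comp hadj ha
        have hB'B : B' ⊆ B := by
          refine h.sub hw hB'U hB'c haw ?_
          intro j hj
          rw [disjoint_left]
          intro x hx hxj
          exact (mem_sdiff.1 (hB'Y hx)).2 (mem_union_left _ (mem_biUnion.2 ⟨j, hj, hxj⟩))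
        have hB'Z : ∀ x ∈ B', x ∉ Z := by
          intro x hx hxZ
          exact (mem_sdiff.1 (hB'Y hx)).2 (mem_union_right _ hxZ)
        have haB' : a ∈ B' := self_mem_comp adj ha
        obtain ⟨i, hi, hmiss⟩ := hZ B' (fun x hx => mem_sdiff.2 ⟨hB'B hx, hB'Z x hx⟩) hB'c
        set K := (B \ B').filter (fun y => ∃ z ∈ B \ B', (∃ c ∈ C i, adj z c) ∧
          Linked adj (B \ B') z y) with hKdef
        have hKsub : K ⊆ B \ B' := filter_subset _ _
        have hKB : K ⊆ B := hKsub.trans sdiff_subset
        have hKclosed : ∀ x ∈ K, ∀ y ∈ B \ B', adj x y → y ∈ K := by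
          intro x hx y hy hxy
          obtain ⟨hx1, z, hz, hzc, hzx⟩ := mem_filter.1 hx
          exact mem_filter.2 ⟨hy, z, hz, hzc, hzx.tail ⟨hxy, hx1, hy⟩⟩
        have hKA : ∀ x ∈ B, (∃ c ∈ C i, adj x c) → x ∈ K := by
          intro x hx hxc
          have hx' : x ∈ B \ B' := by
            rw [mem_sdiff]
            refine ⟨hx, ?_⟩
            intro hxB'
            obtain ⟨c, hc, hxc⟩ := hxc
            exact hmiss x hxB' c hc hxc
          exact mem_filter.2 ⟨hx', x, hx', hxc, ReflTransGen.refl⟩
        have hKne : K.Nonempty := by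
          obtain ⟨x, hx, y, hy, hxy⟩ := hnb i hi
          exact ⟨x, hKA x hx ⟨y, hy, hxy⟩⟩
        have hB'K : B' ⊆ B \ K := by
          intro x hx
          rw [mem_sdiff]
          refine ⟨hB'B hx, ?_⟩
          intro hxK
          exact (mem_sdiff.1 (hKsub hxK)).2 hx
        set C' := Function.update C i (C i ∪ K) with hC'
        set X' := Function.update X i (Z ∩ K) with hX'
        have hCi : C' i = C i ∪ K := by simp [hC']
        have hXi : X' i = Z ∩ K := by simp [hX']
        have hCj : ∀ j, j ≠ i → C' j = C j := by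
          intro j hj
          simp [hC', hj]
        have hXj : ∀ j, j ≠ i → X' j = X j := by
          intro j hj
          simp [hX', hj]
        have hCsub : ∀ j, C j ⊆ C' j := by
          intro j
          by_cases hj : j = i
          · subst hj; rw [hCi]; exact subset_union_left
          · rw [hCj j hj]
        refine ih I C' X' (B \ K) ?_ ?_
        · refine ⟨?_, ?_, ?_, ?_, ?_, ?_, ?_, sdiff_subset.trans h.BU, ?_, ?_, ?_⟩
          · intro j hj
            by_cases hji : j = i
            · subst hji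
              rw [hCi]
              exact union_subset (h.CU j hj) (hKB.trans h.BU)
            · rw [hCj j hji]; exact h.CU j hj
          · intro j hj
            by_cases hji : j = i
            · subst hji
              rw [hCi]
              obtain ⟨c0, hc0⟩ := (h.Cc j hj).1
              have key : ∀ y ∈ C j ∪ K, Linked adj (C j ∪ K) c0 y := by
                intro y hy
                rcases mem_union.1 hy with hy | hy
                · exact ((h.Cc j hj).2 c0 hc0 y hy).mono subset_union_left
                · obtain ⟨hy1, z, hz, ⟨c, hc, hzc⟩, hzy⟩ := mem_filter.1 hy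
                  have h1 : Linked adj (C j ∪ K) c0 c :=
                    ((h.Cc j hj).2 c0 hc0 c hc).mono subset_union_left
                  have hzK : z ∈ K := mem_filter.2 ⟨hz, z, hz, ⟨c, hc, hzc⟩, ReflTransGen.refl⟩
                  have h2 : Linked adj (C j ∪ K) c z :=
                    ReflTransGen.single ⟨hadj _ _ hzc, mem_union_left _ hc, mem_union_right _ hzK⟩
                  have h3 : Linked adj (C j ∪ K) z y := by
                    have h4 : ConnSet adj (comp adj (B \ B') z) := connSet_comp hadj hz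
                    have h5 := h4.2 z (self_mem_comp adj hz) y (mem_comp.2 ⟨hy1, hzy⟩)
                    refine h5.mono ?_
                    intro u hu
                    refine mem_union_right _ (mem_filter.2 ⟨(mem_comp.1 hu).1, z, hz,
                      ⟨c, hc, hzc⟩, (mem_comp.1 hu).2⟩)
                  exact (h1.trans h2).trans h3
              refine ⟨⟨c0, mem_union_left _ hc0⟩, ?_⟩
              intro x hx y hy
              exact ((key x hx).symm hadj).trans (key y hy)
            · rw [hCj j hji]; exact h.Cc j hj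
          · intro j hj
            by_cases hji : j = i
            · subst hji
              rw [hCi, disjoint_union_left]
              exact ⟨(h.CB j hj).mono_right sdiff_subset, disjoint_sdiff⟩
            · rw [hCj j hji]; exact (h.CB j hj).mono_right sdiff_subset
          · intro j hj
            by_cases hji : j = i
            · subst hji
              rw [hCi, hXi]
              exact inter_subset_right.trans subset_union_right
            · rw [hCj j hji, hXj j hji]; exact h.XC j hj
          · intro j hj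
            by_cases hji : j = i
            · subst hji
              rw [hXi]
              exact (card_le_card inter_subset_left).trans hZr
            · rw [hXj j hji]; exact h.Xr j hj
          · intro j hj k hk hjk
            by_cases hji : j = i
            · subst hji
              have hkj : k ≠ j := fun e => hjk e.symm
              rw [hCi, hCj k hkj, disjoint_union_left]
              exact ⟨h.dis j hj k hk hjk, ((h.CB k hk).mono_right hKB).symm⟩
            · by_cases hki : k = i
              · subst hki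
                rw [hCi, hCj j hji, disjoint_union_right]
                exact ⟨h.dis j hj k hk hjk, (h.CB j hj).mono_right hKB⟩
              · rw [hCj j hji, hCj k hki]; exact h.dis j hj k hk hjk
          · intro j hj k hk hjk
            obtain ⟨x, hx, y, hy, hxy⟩ := h.adjc j hj k hk hjk
            exact ⟨x, hCsub j hx, y, hCsub k hy, hxy⟩
          · -- connectedness of `B \ K`
            have key : ∀ y, Linked adj B a y → y ∉ K → Linked adj (B \ K) a y := by
              intro y hy
              induction hy with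
              | refl => intro _; exact ReflTransGen.refl
              | @tail x y h1 h2 ihy =>
                intro hyK
                have hyB : y ∈ B := h2.2.2
                by_cases hxK : x ∈ K
                · have hyB' : y ∈ B' := by
                    by_contra hcon
                    exact hyK (hKclosed x hxK y (mem_sdiff.2 ⟨hyB, hcon⟩) h2.1)
                  exact (hB'c.2 a haB' y hyB').mono hB'K
                · exact (ihy hxK).tail ⟨h2.1, mem_sdiff.2 ⟨h2.2.1, hxK⟩, mem_sdiff.2 ⟨hyB, hyK⟩⟩
            refine ⟨⟨a, hB'K haB'⟩, ?_⟩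
            intro x hx y hy
            have hx' := key x (h.Bc.2 a (hB'B haB') x (mem_sdiff.1 hx).1) (mem_sdiff.1 hx).2
            have hy' := key y (h.Bc.2 a (hB'B haB') y (mem_sdiff.1 hy).1) (mem_sdiff.1 hy).2
            exact (hx'.symm hadj).trans hy'
          · have h1 : ∑ v ∈ B', w v ≤ ∑ v ∈ B \ K, w v :=
              sum_le_sum_of_subset_of_nonneg hB'K (fun v _ _ => hw v)
            linarith
          · intro x hx y hy hyBK hxy
            obtain ⟨hxB, hxK⟩ := mem_sdiff.1 hx
            by_cases hyB : y ∈ B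
            · have hyK : y ∈ K := by
                by_contra hcon
                exact hyBK (mem_sdiff.2 ⟨hyB, hcon⟩)
              have hyB' : y ∈ B \ B' := hKsub hyK
              have hxB' : x ∈ B' := by
                by_contra hcon
                exact hxK (hKclosed y hyK x (mem_sdiff.2 ⟨hxB, hcon⟩) (hadj _ _ hxy))
              have hyY : y ∈ Y := by
                by_contra hcon
                exact (mem_sdiff.1 hyB').2 (comp_closed hxB' (mem_sdiff.2 ⟨hy, hcon⟩) hxy)
              refine ⟨i, hi, ?_⟩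
              rw [hXi, mem_inter]
              refine ⟨?_, hyK⟩
              rcases mem_union.1 hyY with hyY | hyY
              · exfalso
                obtain ⟨j, hj, hyj⟩ := mem_biUnion.1 hyY
                exact disjoint_left.1 (h.CB j hj) (h.XC j hj hyj) hyB
              · exact hyY
            · obtain ⟨j, hj, hyj⟩ := h.nb x hxB y hy hyB hxy
              by_cases hji : j = i
              · exfalso
                subst hji
                exact hxK (hKA x hxB ⟨y, h.XC j hj hyj, hxy⟩)
              · exact ⟨j, hj, by rw [hXj j hji]; exact hyj⟩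
        · have h2 : (B \ K).card = B.card - K.card := card_sdiff_of_subset hKB
          have h3 : 0 < K.card := hKne.card_pos
          have h5 : K.card ≤ B.card := card_le_card hKB
          omega

/-- **The separator theorem** (Alon-Seymour-Thomas) for graphs with no `K_5` minor. -/
theorem separator (hadj : ∀ x y, adj x y → adj y x) (hK : K5Free adj) (hw : ∀ v, 0 ≤ w v)
    (hr : 1 ≤ r) (hr2 : 3 * U.card ≤ r * r) :
    ∃ Z ⊆ U, Z.card ≤ 5 * r ∧ ∀ a ∈ U \ Z,
      2 * ∑ v ∈ comp adj (U \ Z) a, w v ≤ ∑ v ∈ U, w v := by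
  by_contra hcon
  push Not at hcon
  obtain ⟨a, ha, haw⟩ := hcon ∅ (empty_subset _) (by simp)
  rw [sdiff_empty] at ha haw
  refine no_state hadj hK hw hr hr2 hcon _ ∅ (fun _ => ∅) (fun _ => ∅) (comp adj U a) ?_ le_rfl
  refine ⟨by simp, by simp, by simp, by simp, by simp, by simp, by simp, comp_subset _ _ _,
    connSet_comp hadj ha, haw, ?_⟩
  intro x hx y hy hyB hxy
  exact absurd (comp_closed hx hy hxy) hyB

/-- The separator theorem in two-sided form. -/
theorem two_sided (hadj : ∀ x y, adj x y → adj y x) (hK : K5Free adj) (hw : ∀ v, 0 ≤ w v)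
    (hr : 1 ≤ r) (hr2 : 3 * U.card ≤ r * r) :
    ∃ Z ⊆ U, Z.card ≤ 5 * r ∧ ∃ P ⊆ U \ Z,
      3 * ∑ v ∈ P, w v ≤ 2 * ∑ v ∈ U, w v ∧ 3 * ∑ v ∈ (U \ Z) \ P, w v ≤ 2 * ∑ v ∈ U, w v ∧
      ∀ x ∈ P, ∀ y ∈ (U \ Z) \ P, ¬ adj x y := by
  obtain ⟨Z, hZU, hZr, hZ⟩ := separator hadj hK hw hr hr2
  set W := ∑ v ∈ U, w v with hW
  have hW0 : 0 ≤ W := sum_nonneg (fun v _ => hw v)
  have hWZ : ∑ v ∈ U \ Z, w v ≤ W :=
    sum_le_sum_of_subset_of_nonneg sdiff_subset (fun v _ _ => hw v)
  set F := (U \ Z).powerset.filter (fun P => (∀ x ∈ P, ∀ y ∈ (U \ Z) \ P, ¬ adj x y) ∧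
    3 * ∑ v ∈ P, w v ≤ 2 * W) with hF
  have hFne : F.Nonempty := ⟨∅, by
    rw [hF, mem_filter]
    refine ⟨empty_mem_powerset _, by simp, by simpa using hW0⟩⟩
  obtain ⟨P, hPF, hPmax⟩ := exists_max_image F (fun P => ∑ v ∈ P, w v) hFne
  obtain ⟨hP1, hP2, hP3⟩ := mem_filter.1 hPF
  rw [mem_powerset] at hP1
  by_cases hQ : 3 * ∑ v ∈ (U \ Z) \ P, w v ≤ 2 * W
  · exact ⟨Z, hZU, hZr, P, hP1, hP3, hQ, hP2⟩
  · push Not at hQ
    have hsum : ∑ v ∈ (U \ Z) \ P, w v + ∑ v ∈ P, w v = ∑ v ∈ U \ Z, w v :=
      sum_sdiff hP1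
    -- a component of positive weight outside `P`
    obtain ⟨a, ha, haw⟩ : ∃ a ∈ (U \ Z) \ P, 0 < w a := by
      by_contra hcon
      push Not at hcon
      have : ∑ v ∈ (U \ Z) \ P, w v ≤ 0 := sum_nonpos hcon
      linarith
    obtain ⟨haUZ, haP⟩ := mem_sdiff.1 ha
    set c := comp adj (U \ Z) a with hc
    have hcs : c ⊆ U \ Z := comp_subset _ _ _
    have hcc : ConnSet adj c := connSet_comp hadj haUZ
    have hac : a ∈ c := self_mem_comp adj haUZ
    have hcP : ∀ x ∈ c, x ∉ P := by
      have : c ⊆ (U \ Z) \ P := by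
        refine conn_subset hcc hac ha ?_
        intro x hx y hy hxy
        rw [mem_sdiff]
        refine ⟨hcs hy, ?_⟩
        intro hyP
        exact hP2 y hyP x hx (hadj _ _ hxy)
      intro x hx
      exact (mem_sdiff.1 (this hx)).2
    have hcw : w a ≤ ∑ v ∈ c, w v := single_le_sum (fun v _ => hw v) hac
    have hcw2 : 2 * ∑ v ∈ c, w v ≤ W := hZ a haUZ
    have hdis : Disjoint P c := disjoint_right.2 hcP
    have hnot : P ∪ c ∉ F := by
      intro hmem
      have := hPmax _ hmem
      rw [sum_union hdis] at this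
      linarith
    have hbig : 2 * W < 3 * (∑ v ∈ P, w v + ∑ v ∈ c, w v) := by
      by_contra hcon
      push Not at hcon
      apply hnot
      rw [hF, mem_filter, mem_powerset]
      refine ⟨union_subset hP1 hcs, ?_, by rw [sum_union hdis]; exact hcon⟩
      intro x hx y hy hxy
      rw [mem_sdiff, mem_union, not_or] at hy
      rcases mem_union.1 hx with hx | hx
      · exact hP2 x hx y (mem_sdiff.2 ⟨hy.1, hy.2.1⟩) hxy
      · exact hy.2.2 (comp_closed hx hy.1 hxy)
    have hsum2 : ∑ v ∈ (U \ Z) \ c, w v + ∑ v ∈ c, w v = ∑ v ∈ U \ Z, w v := sum_sdiff hcs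
    refine ⟨Z, hZU, hZr, c, hcs, ?_, ?_, ?_⟩
    · linarith
    · linarith
    · intro x hx y hy hxy
      rw [mem_sdiff] at hy
      exact hy.2 (comp_closed hx hy.1 hxy)

/-- Splitting `U` into two parts such that every edge between them has an end in the small set `Z`,
which itself is light. -/
theorem split (hadj : ∀ x y, adj x y → adj y x) (hK : K5Free adj) (hw : ∀ v, 0 ≤ w v)
    (hr : 1 ≤ r) (hr2 : 3 * U.card ≤ r * r)
    (hlight : ∀ Z ⊆ U, Z.card ≤ 5 * r → 3 * ∑ v ∈ Z, w v ≤ ∑ v ∈ U, w v) :
    ∃ Z ⊆ U, Z.card ≤ 5 * r ∧ ∃ P ⊆ U,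
      3 * ∑ v ∈ P, w v ≤ 2 * ∑ v ∈ U, w v ∧ 3 * ∑ v ∈ U \ P, w v ≤ 2 * ∑ v ∈ U, w v ∧
      ∀ x ∈ P, ∀ y ∈ U \ P, adj x y → x ∈ Z ∨ y ∈ Z := by
  obtain ⟨Z, hZU, hZr, P, hP, h1, h2, h3⟩ := two_sided hadj hK hw hr hr2
  have hZw := hlight Z hZU hZr
  have hs1 : ∑ v ∈ (U \ Z) \ P, w v + ∑ v ∈ P, w v = ∑ v ∈ U \ Z, w v := sum_sdiff hP
  have hs2 : ∑ v ∈ U \ Z, w v + ∑ v ∈ Z, w v = ∑ v ∈ U, w v := sum_sdiff hZU
  have hPU : P ⊆ U := hP.trans sdiff_subset
  have hPZ : Disjoint P Z := by
    rw [disjoint_left]
    intro x hx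
    exact (mem_sdiff.1 (hP hx)).2
  rcases le_total (∑ v ∈ P, w v) (∑ v ∈ (U \ Z) \ P, w v) with hle | hle
  · refine ⟨Z, hZU, hZr, P ∪ Z, union_subset hPU hZU, ?_, ?_, ?_⟩
    · rw [sum_union hPZ]; linarith
    · have : U \ (P ∪ Z) = (U \ Z) \ P := by
        ext x; simp only [mem_sdiff, mem_union]; tauto
      rw [this]; exact h2
    · intro x hx y hy hxy
      rw [mem_sdiff, mem_union, not_or] at hy
      rcases mem_union.1 hx with hx | hx
      · exact absurd hxy (h3 x hx y (mem_sdiff.2 ⟨mem_sdiff.2 ⟨hy.1, hy.2.2⟩, hy.2.1⟩))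
      · exact Or.inl hx
  · refine ⟨Z, hZU, hZr, P, hPU, h1, ?_, ?_⟩
    · have hs3 : ∑ v ∈ U \ P, w v + ∑ v ∈ P, w v = ∑ v ∈ U, w v := sum_sdiff hPU
      linarith
    · intro x hx y hy hxy
      rw [mem_sdiff] at hy
      by_cases hyZ : y ∈ Z
      · exact Or.inr hyZ
      · exact absurd hxy (h3 x hx y (mem_sdiff.2 ⟨mem_sdiff.2 ⟨hy.1, hyZ⟩, hy.2⟩))

end

end Pool.Agent.Work.MP_09dd0a_co
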