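import Mathlib
import Pool.Agent.Work.MP_09dd0a_co.Sep
import Pool.Agent.Work.MP_09dd0a_co.Count
import Pool.Agent.Work.MP_09dd0a_co.Book

/-!
The recursive splitting of a two-page structure.
-/

namespace Pool.Agent.Work.MP_09dd0a_co

open Finset

lemma brk_le_of_chain_aux {α β : Type*} [DecidableEq α] [DecidableEq β] {f : ℝ → α} {g : ℝ → β}
    {Z : Finset ℝ} {L : List ℝ} : ∀ {a : ℝ},
    (a :: L).IsChain (fun u v => g u ≠ g v → f u ≠ f v ∨ u ∈ Z ∨ v ∈ Z) →
    brk ((a :: L).map g) + (if a ∈ Z then 1 else 0) ≤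
      brk ((a :: L).map f) + 2 * ((a :: L).filter (fun u => decide (u ∈ Z))).length := by
  induction L with
  | nil =>
    intro a _
    simp only [List.map_cons, List.map_nil, brk]
    by_cases ha : a ∈ Z <;> simp [ha]
  | cons b L ih =>
    intro a h
    rw [List.isChain_cons_cons] at h
    have ih' := ih h.2
    simp only [List.map_cons, brk] at ih' ⊢
    have h1 := h.1
    have hflt : (List.filter (fun u => decide (u ∈ Z)) (a :: b :: L)).length =
        (if a ∈ Z then 1 else 0) + (List.filter (fun u => decide (u ∈ Z)) (b :: L)).length := by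
      by_cases ha : a ∈ Z
      · rw [List.filter_cons_of_pos (by simpa using ha), List.length_cons, if_pos ha]
        omega
      · rw [List.filter_cons_of_neg (by simpa using ha), if_neg ha]
        omega
    rw [hflt]
    by_cases c1 : g a = g b
    · rw [if_pos c1]
      split_ifs at ih' ⊢ <;> omega
    · rw [if_neg c1]
      rcases h1 c1 with h2 | h2 | h2
      · rw [if_neg h2]
        split_ifs at ih' ⊢ <;> omega
      · simp only [h2, if_true]
        split_ifs at ih' ⊢ <;> omega
      · simp only [h2, if_true] at ih' ⊢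
        split_ifs at ih' ⊢ <;> omega

lemma brk_le_of_chain {α β : Type*} [DecidableEq α] [DecidableEq β] {f : ℝ → α} {g : ℝ → β}
    {Z : Finset ℝ} {L : List ℝ} (hL : L.Nodup)
    (h : L.IsChain (fun u v => g u ≠ g v → f u ≠ f v ∨ u ∈ Z ∨ v ∈ Z)) :
    brk (L.map g) ≤ brk (L.map f) + 2 * Z.card := by
  cases L with
  | nil => simp [brk]
  | cons a L =>
    have h1 := brk_le_of_chain_aux h
    have h2 : ((a :: L).filter (fun u => decide (u ∈ Z))).length ≤ Z.card := by
      rw [← List.toFinset_card_of_nodup (hL.filter _)]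
      apply card_le_card
      intro u hu
      rw [List.mem_toFinset, List.mem_filter] at hu
      simpa using hu.2
    omega

lemma brk_mono {α β : Type*} [DecidableEq α] [DecidableEq β] {f : ℝ → α} {g : ℝ → β}
    (h : ∀ u v, g u ≠ g v → f u ≠ f v) (L : List ℝ) : brk (L.map g) ≤ brk (L.map f) := by
  induction L with
  | nil => simp [brk]
  | cons a L ih =>
    cases L with
    | nil => simp [brk]
    | cons b L =>
      simp only [List.map_cons, brk] at ih ⊢
      have h1 := h a b
      by_cases c1 : g a = g b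
      · rw [if_pos c1]
        split_ifs <;> omega
      · rw [if_neg c1, if_neg (h1 c1)]
        omega

/-- removing entries does not increase the number of breaks -/
lemma brk_sublist {α : Type*} [DecidableEq α] {l l' : List α} (h : l.Sublist l') : brk l ≤ brk l' := by
  have key : ∀ (l' : List α) (a : α) (l : List α), l.Sublist l' →
      brk (a :: l) ≤ brk (a :: l') ∧ brk l ≤ brk l' := by
    intro l'
    induction l' with
    | nil =>
      intro a l h
      rw [List.sublist_nil] at h
      rw [h]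
      exact ⟨le_rfl, le_rfl⟩
    | cons b l' ih =>
      intro a l h
      have hstep : ∀ (c : α) (m : List α), brk m ≤ brk (c :: m) := by
        intro c m
        cases m with
        | nil => simp [brk]
        | cons d m =>
          simp only [brk]
          omega
      cases h with
      | cons _ h1 =>
        have h2 := ih a l h1
        have h3 := ih b l h1
        refine ⟨?_, h3.2.trans (hstep _ _)⟩
        -- `a :: l` against `a :: b :: l'`
        cases l with
        | nil => simp [brk]
        | cons d l =>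
          simp only [brk] at h2 h3 ⊢
          by_cases c1 : a = b
          · subst c1
            omega
          · rw [if_neg c1]
            split_ifs at h2 h3 ⊢ <;> omega
      | cons_cons _ h1 =>
        rename_i l1
        have h2 := ih b l1 h1
        refine ⟨?_, h2.1⟩
        simp only [brk]
        omega
  cases l' with
  | nil =>
    rw [List.sublist_nil] at h
    rw [h]
  | cons a l' => exact (key _ a _ h).2

/-- adjacency in the order given by `key` -/
def Adj' (key : ℝ → ℝ) (E : Finset ℝ) (u v : ℝ) : Prop :=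
  u ∈ E ∧ v ∈ E ∧ key u < key v ∧ ∀ w ∈ E, key w ≤ key u ∨ key v ≤ key w

lemma chain_adj {key : ℝ → ℝ} {E : Finset ℝ} {L : List ℝ} (hL : L.Pairwise (fun s t => key s < key t))
    (hE : ∀ u, u ∈ L ↔ u ∈ E) : L.IsChain (Adj' key E) := by
  rw [List.isChain_iff_getElem]
  intro i hi
  have hlt : ∀ a b (ha : a < L.length) (hb : b < L.length), a < b → key L[a] < key L[b] := by
    intro a b ha hb hab
    exact (List.pairwise_iff_getElem.mp hL) a b ha hb hab
  refine ⟨(hE _).mp (List.getElem_mem _), (hE _).mp (List.getElem_mem _),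
    hlt _ _ _ _ (by omega), ?_⟩
  intro w hw
  rw [← hE, List.mem_iff_getElem] at hw
  obtain ⟨j, hj, rfl⟩ := hw
  rcases Nat.lt_or_ge i j with h | h
  · right
    rcases Nat.lt_or_ge (i + 1) j with h2 | h2
    · exact (hlt _ _ _ _ h2).le
    · have : j = i + 1 := by omega
      subst this
      exact le_rfl
  · left
    rcases Nat.lt_or_ge j i with h2 | h2
    · exact (hlt _ _ _ _ h2).le
    · have : j = i := by omega
      subst this
      exact le_rfl

/-- splitting one part -/
lemma split_part {E : Finset ℝ} {x : ℝ → ℝ} {up low : ℝ → ℝ → Prop} (hB : IsBook E x up low)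
    {w : ℝ → ℝ} {ρ : ℝ} (hρ : 0 < ρ) (hw0 : ∀ v, 0 ≤ w v) (hw1 : ∀ v, 1 / ρ ≤ w v)
    (hw2 : ∀ v, w v ≤ 2) {P : Finset ℝ} (hP : P ⊆ E) {H : ℝ} (hH : ∑ v ∈ P, w v ≤ H)
    (hHρ : 147456 * ρ ≤ H) :
    ∃ Z A B : Finset ℝ, Z ∪ A ∪ B = P ∧ Disjoint A B ∧ Disjoint Z B ∧
      ∑ v ∈ Z ∪ A, w v ≤ 3 / 4 * H ∧ ∑ v ∈ B, w v ≤ 3 / 4 * H ∧
      (∀ u ∈ A, ∀ v ∈ B, ¬ Adj' x E u v ∧ ¬ Adj' x E v u ∧ ¬ Adj' id E u v ∧ ¬ Adj' id E v u) ∧
      (Z.card : ℝ) ≤ 16 * √P.card := by
  classical
  obtain ⟨Z, A, B, h1, h2, h3, h4, h5, h6, h7, h8, h9, h10⟩ := exists_separator P x up low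
    (fun s hs t ht => hB.inj s (hP hs) t (hP ht)) hB.up_symm hB.low_symm
    (fun a ha b hb c hc d hd => hB.up_nc a (hP ha) b (hP hb) c (hP hc) d (hP hd))
    (fun a ha b hb c hc d hd => hB.low_nc a (hP ha) b (hP hb) c (hP hc) d (hP hd)) w hw0
  have hZP : Z ⊆ P := by
    rw [← h1]
    exact fun v hv => mem_union_left _ (mem_union_left _ hv)
  have hAP : A ⊆ P := by
    rw [← h1]
    exact fun v hv => mem_union_left _ (mem_union_right _ hv)
  have hBP : B ⊆ P := by
    rw [← h1]
    exact fun v hv => mem_union_right _ hv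
  have hH0 : 0 ≤ H := le_trans (by positivity) hHρ
  refine ⟨Z, A, B, h1, h4, h3, ?_, by linarith, ?_, h5⟩
  · rw [sum_union h2]
    have e1 : ∑ v ∈ Z, w v ≤ 2 * (Z.card : ℝ) := by
      calc ∑ v ∈ Z, w v ≤ ∑ v ∈ Z, (2 : ℝ) := sum_le_sum fun v _ => hw2 v
        _ = 2 * (Z.card : ℝ) := by rw [sum_const, nsmul_eq_mul, mul_comm]
    have e2 : (P.card : ℝ) ≤ ρ * H := by
      have e3 : (P.card : ℝ) * (1 / ρ) ≤ ∑ v ∈ P, w v := by
        calc (P.card : ℝ) * (1 / ρ) = ∑ v ∈ P, (1 / ρ) := by rw [sum_const, nsmul_eq_mul]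
          _ ≤ _ := sum_le_sum fun v _ => hw1 v
      have e4 : (P.card : ℝ) * (1 / ρ) ≤ H := e3.trans hH
      rw [mul_one_div, div_le_iff₀ hρ] at e4
      linarith
    have e5 : √(P.card : ℝ) ≤ H / 384 := by
      apply Real.sqrt_le_iff.mpr
      refine ⟨by positivity, e2.trans ?_⟩
      have : ρ * H ≤ H / 147456 * H := by
        apply mul_le_mul_of_nonneg_right _ hH0
        linarith
      calc ρ * H ≤ H / 147456 * H := this
        _ = (H / 384) ^ 2 := by ring
    linarith
  · intro u hu v hv
    have hnt : ∀ u ∈ A, ∀ v ∈ B, ¬ Adj' id E u v ∧ ¬ Adj' id E v u := by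
      intro u hu v hv
      have harc := h8 u hu v hv
      constructor
      · rintro ⟨g1, g2, g3, g4⟩
        rcases hB.arc u g1 v g2 g3 g4 with h | h
        · exact harc.1 h
        · exact harc.2 h
      · rintro ⟨g1, g2, g3, g4⟩
        rcases hB.arc v g1 u g2 g3 g4 with h | h
        · exact harc.1 (hB.up_symm _ _ h)
        · exact harc.2 (hB.low_symm _ _ h)
    refine ⟨?_, ?_, (hnt u hu v hv).1, (hnt u hu v hv).2⟩
    · rintro ⟨g1, g2, g3, g4⟩
      obtain ⟨z, hz, hz1, hz2⟩ := h9 u hu v hv g3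
      rcases g4 z (hP (hZP hz)) with h | h <;> linarith
    · rintro ⟨g1, g2, g3, g4⟩
      obtain ⟨z, hz, hz1, hz2⟩ := h10 u hu v hv g3
      rcases g4 z (hP (hZP hz)) with h | h <;> linarith

/-- one stage -/
theorem stage {E : Finset ℝ} {x : ℝ → ℝ} {up low : ℝ → ℝ → Prop} (hB : IsBook E x up low)
    {w : ℝ → ℝ} {ρ μ : ℝ} (hρ : 0 < ρ) (hw0 : ∀ v, 0 ≤ w v) (hw1 : ∀ v, 1 / ρ ≤ w v)
    (hw2 : ∀ v, w v ≤ 2) (htot : ∑ v ∈ E, w v ≤ μ) (c : ℝ → ℕ) {H : ℝ}
    (hH : ∀ α, ∑ v ∈ E.filter (fun v => c v = α), w v ≤ H) (hHρ : 147456 * ρ ≤ H) :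
    ∃ (b : ℝ → Bool) (Z : Finset ℝ), (Z.card : ℝ) ≤ 16 * √(E.card * (μ / (3 / 4 * H))) ∧
      (∀ u v, Adj' x E u v ∨ Adj' id E u v → c u = c v → b u ≠ b v → u ∈ Z ∨ v ∈ Z) ∧
      ∀ α β, ∑ v ∈ E.filter (fun v => c v = α ∧ b v = β), w v ≤ 3 / 4 * H := by
  classical
  have hH0 : 0 < H := lt_of_lt_of_le (by positivity) hHρ
  set P : ℕ → Finset ℝ := fun α => E.filter (fun v => c v = α) with hP
  have hPE : ∀ α, P α ⊆ E := fun α => filter_subset _ _
  have key : ∀ α, ∃ Z A B : Finset ℝ, Z ∪ A ∪ B = P α ∧ Disjoint A B ∧ Disjoint Z B ∧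
      ∑ v ∈ Z ∪ A, w v ≤ 3 / 4 * H ∧ ∑ v ∈ B, w v ≤ 3 / 4 * H ∧
      (∀ u ∈ A, ∀ v ∈ B, ¬ Adj' x E u v ∧ ¬ Adj' x E v u ∧ ¬ Adj' id E u v ∧ ¬ Adj' id E v u) ∧
      (Z.card : ℝ) ≤ 16 * √(P α).card ∧ (Z.Nonempty → 3 / 4 * H < ∑ v ∈ P α, w v) := by
    intro α
    by_cases h : 3 / 4 * H < ∑ v ∈ P α, w v
    · obtain ⟨Z, A, B, h1, h2, h3, h4, h5, h6, h7⟩ :=
        split_part hB hρ hw0 hw1 hw2 (hPE α) (hH α) hHρ
      exact ⟨Z, A, B, h1, h2, h3, h4, h5, h6, h7, fun _ => h⟩
    · push Not at h
      refine ⟨∅, P α, ∅, by simp, by simp, by simp, by simpa using h, ?_, by simp, ?_, by simp⟩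
      · rw [sum_empty]
        positivity
      · simp
  choose Z A B k1 k2 k3 k4 k5 k6 k7 k8 using key
  set b : ℝ → Bool := fun v => decide (v ∈ B (c v)) with hb
  have hmem : ∀ {α v}, v ∈ P α ↔ v ∈ E ∧ c v = α := by
    intro α v
    rw [hP]
    simp only [mem_filter]
  refine ⟨b, (E.image c).biUnion Z, ?_, ?_, ?_⟩
  · -- the number of separator vertices
    set T : Finset ℕ := (E.image c).filter (fun α => 3 / 4 * H < ∑ v ∈ P α, w v) with hT
    have e0 : ∀ (T' : Finset ℕ) (g : ℝ → ℝ), (∀ v, 0 ≤ g v) →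
        ∑ α ∈ T', ∑ v ∈ P α, g v ≤ ∑ v ∈ E, g v := by
      intro T' g hg
      rw [← sum_fiberwise_of_maps_to (s := E) (t := E.image c) (g := c)
        (fun v hv => mem_image_of_mem c hv)]
      have e1 : ∑ α ∈ T', ∑ v ∈ P α, g v = ∑ α ∈ T' ∩ (E.image c), ∑ v ∈ P α, g v := by
        symm
        apply sum_subset inter_subset_left
        intro α h1 h2
        apply sum_eq_zero
        intro v hv
        exfalso
        apply h2
        rw [mem_inter]
        rw [hmem] at hv
        exact ⟨h1, mem_image.mpr ⟨v, hv.1, hv.2⟩⟩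
      rw [e1]
      apply sum_le_sum_of_subset_of_nonneg inter_subset_right
      intro α _ _
      exact sum_nonneg fun v _ => hg v
    have e1 : (((E.image c).biUnion Z).card : ℝ) ≤ ∑ α ∈ T, 16 * √((P α).card : ℝ) := by
      calc (((E.image c).biUnion Z).card : ℝ) ≤ ∑ α ∈ E.image c, ((Z α).card : ℝ) := by
            exact_mod_cast card_biUnion_le
        _ = ∑ α ∈ T, ((Z α).card : ℝ) := by
            symm
            apply sum_subset (filter_subset _ _)
            intro α h1 h2
            have : Z α = ∅ := by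
              by_contra h3
              apply h2
              rw [mem_filter]
              exact ⟨h1, k8 α (nonempty_iff_ne_empty.mpr h3)⟩
            rw [this]
            simp
        _ ≤ _ := sum_le_sum fun α _ => k7 α
    rw [← mul_sum] at e1
    apply e1.trans
    apply mul_le_mul_of_nonneg_left _ (by norm_num)
    apply Real.le_sqrt_of_sq_le
    apply (sq_sum_le_card_mul_sum_sq (s := T) (f := fun α => √((P α).card : ℝ))).trans
    have e2 : ∑ α ∈ T, √((P α).card : ℝ) ^ 2 ≤ E.card := by
      calc ∑ α ∈ T, √((P α).card : ℝ) ^ 2 = ∑ α ∈ T, ∑ v ∈ P α, (1 : ℝ) := by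
            apply sum_congr rfl
            intro α _
            rw [Real.sq_sqrt (by positivity), sum_const, nsmul_eq_mul, mul_one]
        _ ≤ ∑ v ∈ E, (1 : ℝ) := e0 T (fun _ => 1) fun _ => zero_le_one
        _ = E.card := by rw [sum_const, nsmul_eq_mul, mul_one]
    have e3 : (T.card : ℝ) ≤ μ / (3 / 4 * H) := by
      rw [le_div_iff₀ (by positivity)]
      calc (T.card : ℝ) * (3 / 4 * H) = ∑ α ∈ T, (3 / 4 * H) := by rw [sum_const, nsmul_eq_mul]
        _ ≤ ∑ α ∈ T, ∑ v ∈ P α, w v := by
            apply sum_le_sum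
            intro α hα
            exact (mem_filter.mp hα).2.le
        _ ≤ ∑ v ∈ E, w v := e0 T w hw0
        _ ≤ μ := htot
    calc (T.card : ℝ) * ∑ α ∈ T, √((P α).card : ℝ) ^ 2
        ≤ (μ / (3 / 4 * H)) * E.card := mul_le_mul e3 e2 (sum_nonneg fun _ _ => sq_nonneg _)
          (le_trans (by positivity) e3)
      _ = E.card * (μ / (3 / 4 * H)) := mul_comm _ _
  · -- breaks
    intro u v huv hc hbb
    have huE : u ∈ E := by
      rcases huv with h | h
      · exact h.1
      · exact h.1
    have hvE : v ∈ E := by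
      rcases huv with h | h
      · exact h.2.1
      · exact h.2.1
    have hmZ : ∀ s ∈ E, s ∈ Z (c s) → s ∈ (E.image c).biUnion Z := by
      intro s hs h
      rw [mem_biUnion]
      exact ⟨c s, mem_image_of_mem c hs, h⟩
    have hcl : ∀ s ∈ E, b s = false → s ∈ Z (c s) ∨ s ∈ A (c s) := by
      intro s hs h
      have h1 : s ∈ P (c s) := hmem.mpr ⟨hs, rfl⟩
      rw [← k1, mem_union, mem_union] at h1
      rw [hb] at h
      simp only [decide_eq_false_iff_not] at h
      tauto
    have hcl2 : ∀ s, b s = true → s ∈ B (c s) := by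
      intro s h
      rw [hb] at h
      simpa using h
    cases hbu : b u with
    | false =>
      have hbv : b v = true := by
        rw [hbu] at hbb
        cases h : b v with
        | false => exact absurd h.symm hbb
        | true => rfl
      rcases hcl u huE hbu with h | h
      · exact Or.inl (hmZ u huE h)
      · exfalso
        have h2 := hcl2 v hbv
        rw [← hc] at h2
        have h3 := k6 _ u h v h2
        rcases huv with h4 | h4
        · exact h3.1 h4
        · exact h3.2.2.1 h4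
    | true =>
      have hbv : b v = false := by
        rw [hbu] at hbb
        cases h : b v with
        | true => exact absurd h.symm hbb
        | false => rfl
      rcases hcl v hvE hbv with h | h
      · exact Or.inr (hmZ v hvE h)
      · exfalso
        have h2 := hcl2 u hbu
        rw [hc] at h2
        have h3 := k6 _ v h u h2
        rcases huv with h4 | h4
        · exact h3.2.1 h4
        · exact h3.2.2.2 h4
  · intro α β
    cases β with
    | true =>
      refine le_trans (sum_le_sum_of_subset_of_nonneg ?_ fun v _ _ => hw0 v) (k5 α)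
      intro v hv
      rw [mem_filter] at hv
      have := hv.2.2
      rw [hb] at this
      simp only [decide_eq_true_eq] at this
      rw [hv.2.1] at this
      exact this
    | false =>
      refine le_trans (sum_le_sum_of_subset_of_nonneg ?_ fun v _ _ => hw0 v) (k4 α)
      intro v hv
      rw [mem_filter] at hv
      have h1 : v ∈ P α := hmem.mpr ⟨hv.1, hv.2.1⟩
      have := hv.2.2
      rw [hb] at this
      simp only [decide_eq_false_iff_not] at this
      rw [hv.2.1] at this
      rw [← k1, mem_union] at h1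
      exact h1.resolve_right this

lemma colour_congr {τ : Type*} {bit bit' : ℕ → τ → Bool} {J : ℕ} (h : ∀ j < J, bit j = bit' j) :
    colour bit J = colour bit' J := by
  induction J with
  | zero => rfl
  | succ J ih =>
    ext v
    simp only [colour]
    rw [ih fun j hj => h j (by omega), h J (by omega)]

lemma colour_succ_eq {τ : Type*} {bit : ℕ → τ → Bool} {J : ℕ} {u v : τ} :
    colour bit (J + 1) u = colour bit (J + 1) v ↔ colour bit J u = colour bit J v ∧
      bit J u = bit J v := by
  simp only [colour]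
  constructor
  · intro h
    cases h1 : bit J u <;> cases h2 : bit J v <;> rw [h1, h2] at h <;> simp at h ⊢ <;> omega
  · rintro ⟨h1, h2⟩
    rw [h1, h2]

/-- all the stages -/
theorem stages {E : Finset ℝ} {x : ℝ → ℝ} {up low : ℝ → ℝ → Prop} (hB : IsBook E x up low)
    {w : ℝ → ℝ} {ρ μ m : ℝ} (hρ : 0 < ρ) (hw0 : ∀ v, 0 ≤ w v) (hw1 : ∀ v, 1 / ρ ≤ w v)
    (hw2 : ∀ v, w v ≤ 2) (htot : ∑ v ∈ E, w v ≤ μ) (hm : (E.card : ℝ) ≤ m) (hμ : 0 < μ)
    {Lt Lx : List ℝ} (hLt : Lt.Pairwise (· < ·)) (hLx : Lx.Pairwise (fun s t => x s < x t))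
    (hLtE : ∀ u, u ∈ Lt ↔ u ∈ E) (hLxE : ∀ u, u ∈ Lx ↔ u ∈ E) (J : ℕ)
    (hJ : ∀ j < J, 147456 * ρ ≤ (3 / 4) ^ j * μ) :
    ∃ bit : ℕ → ℝ → Bool,
      (∀ j ≤ J, (brk (Lt.map (colour bit j)) : ℝ) ≤ 256 * (√m * √(4 / 3) ^ j) ∧
        (brk (Lx.map (colour bit j)) : ℝ) ≤ 256 * (√m * √(4 / 3) ^ j)) ∧
      ∀ α, ∑ v ∈ E.filter (fun v => colour bit J v = α), w v ≤ (3 / 4) ^ J * μ := by
  classical
  induction J with
  | zero =>
    refine ⟨fun _ _ => false, ?_, ?_⟩
    · intro j hj
      have hj0 : j = 0 := by omega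
      subst hj0
      have h1 : ∀ L : List ℝ, brk (L.map (colour (fun _ _ => false) 0)) = 0 := by
        intro L
        induction L with
        | nil => rfl
        | cons a L ih =>
          cases L with
          | nil => rfl
          | cons b L =>
            simp only [List.map_cons, brk] at ih ⊢
            simp [colour] at ih ⊢
            exact ih
      rw [h1, h1]
      constructor <;> · push_cast; positivity
    · intro α
      rw [pow_zero, one_mul]
      exact le_trans (sum_le_sum_of_subset_of_nonneg (filter_subset _ _) fun v _ _ => hw0 v) htot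
  | succ J ih =>
    obtain ⟨bit, h1, h2⟩ := ih fun j hj => hJ j (by omega)
    have hH0 : 0 < (3 / 4 : ℝ) ^ J * μ := by positivity
    obtain ⟨b, Z, h3, h4, h5⟩ := stage hB hρ hw0 hw1 hw2 htot (colour bit J) h2 (hJ J (by omega))
    set bit' : ℕ → ℝ → Bool := fun j => if j = J then b else bit j with hbit'
    have hb1 : ∀ j < J, bit' j = bit j := by
      intro j hj
      rw [hbit']
      simp only
      rw [if_neg (by omega)]
    have hb2 : bit' J = b := by
      rw [hbit']
      simp
    have hc : ∀ j ≤ J, colour bit' j = colour bit j :=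
      fun j hj => colour_congr fun i hi => hb1 i (by omega)
    have hZ : 2 * (Z.card : ℝ) ≤ 32 * (√m * √(4 / 3) ^ (J + 1)) := by
      have e1 : (E.card : ℝ) * (μ / (3 / 4 * ((3 / 4) ^ J * μ))) ≤ m * (4 / 3) ^ (J + 1) := by
        have e2 : μ / (3 / 4 * ((3 / 4) ^ J * μ)) = (4 / 3 : ℝ) ^ (J + 1) := by
          rw [show (3 / 4 : ℝ) * ((3 / 4) ^ J * μ) = (3 / 4) ^ (J + 1) * μ by ring]
          rw [div_mul_cancel_right₀ hμ.ne', ← inv_pow]
          norm_num
        rw [e2]
        exact mul_le_mul_of_nonneg_right hm (by positivity)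
      have e3 : √((E.card : ℝ) * (μ / (3 / 4 * ((3 / 4) ^ J * μ)))) ≤ √m * √(4 / 3) ^ (J + 1) := by
        apply (Real.sqrt_le_sqrt e1).trans
        have e4 : (√(4 / 3 : ℝ) ^ (J + 1)) ^ 2 = (4 / 3) ^ (J + 1) := by
          rw [← pow_mul, mul_comm, pow_mul, Real.sq_sqrt (by norm_num)]
        rw [Real.sqrt_mul (le_trans (by positivity) hm), ← e4, Real.sqrt_sq (by positivity)]
      linarith
    have hstep : (256 : ℝ) * (√m * √(4 / 3) ^ J) + 32 * (√m * √(4 / 3) ^ (J + 1)) ≤
        256 * (√m * √(4 / 3) ^ (J + 1)) := by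
      have e1 : (8 / 7 : ℝ) ≤ √(4 / 3) := by
        apply Real.le_sqrt_of_sq_le
        norm_num
      have e2 : 0 ≤ √m * √(4 / 3) ^ J := by positivity
      rw [pow_succ]
      nlinarith
    refine ⟨bit', ?_, ?_⟩
    · intro j hj
      rcases Nat.lt_or_ge J j with hjJ | hjJ
      · have hjJ' : j = J + 1 := by omega
        subst hjJ'
        have hgen : ∀ (key : ℝ → ℝ) (L : List ℝ), (key = x ∨ key = id) →
            L.Pairwise (fun s t => key s < key t) → (∀ u, u ∈ L ↔ u ∈ E) →
            (brk (L.map (colour bit J)) : ℝ) ≤ 256 * (√m * √(4 / 3) ^ J) →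
            (brk (L.map (colour bit' (J + 1))) : ℝ) ≤ 256 * (√m * √(4 / 3) ^ (J + 1)) := by
          intro key L hkey hL hLE hbr
          have hch := chain_adj hL hLE
          have hnd : L.Nodup := hL.imp (fun {s t} h => by
            rintro rfl
            exact lt_irrefl _ h)
          have e1 := brk_le_of_chain (f := colour bit J) (g := colour bit' (J + 1)) (Z := Z) hnd
            (hch.imp (fun u v huv => by
              intro hne
              by_contra hno
              push Not at hno
              obtain ⟨g1, g2, g3⟩ := hno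
              have hadj : Adj' x E u v ∨ Adj' id E u v := by
                rcases hkey with rfl | rfl
                · exact Or.inl huv
                · exact Or.inr huv
              have g4 : b u ≠ b v := by
                intro g5
                apply hne
                rw [colour_succ_eq, hc J le_rfl, hb2]
                exact ⟨g1, g5⟩
              rcases h4 u v hadj g1 g4 with g | g
              · exact g2 g
              · exact g3 g))
          have e2 : (brk (L.map (colour bit' (J + 1))) : ℝ) ≤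
              brk (L.map (colour bit J)) + 2 * (Z.card : ℝ) := by exact_mod_cast e1
          linarith
        exact ⟨hgen id Lt (Or.inr rfl) hLt hLtE (h1 J le_rfl).1,
          hgen x Lx (Or.inl rfl) hLx hLxE (h1 J le_rfl).2⟩
      · rw [hc j hjJ]
        exact h1 j hjJ
    · intro α
      have e1 : E.filter (fun v => colour bit' (J + 1) v = α) ⊆
          E.filter (fun v => colour bit J v = α / 2 ∧ b v = decide (α % 2 = 1)) := by
        intro v hv
        rw [mem_filter] at hv ⊢
        refine ⟨hv.1, ?_⟩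
        have h6 := hv.2
        simp only [colour] at h6
        rw [hc J le_rfl, hb2] at h6
        rw [← h6]
        cases b v
        · simp
        · simp
          omega
      have e2 := h5 (α / 2) (decide (α % 2 = 1))
      calc _ ≤ _ := sum_le_sum_of_subset_of_nonneg e1 fun v _ _ => hw0 v
        _ ≤ _ := e2
        _ = (3 / 4) ^ (J + 1) * μ := by ring

lemma exists_sorted (E : Finset ℝ) (x : ℝ → ℝ) (hx : ∀ s ∈ E, ∀ t ∈ E, x s = x t → s = t) :
    ∃ L : List ℝ, L.Pairwise (fun s t => x s < x t) ∧ ∀ u, u ∈ L ↔ u ∈ E := by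
  classical
  have hinj : Set.InjOn x (E : Set ℝ) := fun s hs t ht h => hx s hs t ht h
  -- the sorted list of abscissae, pulled back
  have key : ∀ l : List ℝ, l.Pairwise (· < ·) → (∀ a ∈ l, a ∈ E.image x) →
      ∃ L : List ℝ, L.map x = l ∧ ∀ u ∈ L, u ∈ E := by
    intro l
    induction l with
    | nil =>
      intro _ _
      exact ⟨[], rfl, by simp⟩
    | cons a l ih =>
      intro h1 h2
      obtain ⟨L, hL1, hL2⟩ := ih (List.pairwise_cons.mp h1).2 fun b hb => h2 b (by simp [hb])
      have h3 := h2 a (by simp)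
      rw [mem_image] at h3
      obtain ⟨s, hs, hsa⟩ := h3
      refine ⟨s :: L, by rw [List.map_cons, hsa, hL1], ?_⟩
      intro u hu
      rw [List.mem_cons] at hu
      rcases hu with rfl | hu
      · exact hs
      · exact hL2 u hu
  obtain ⟨L, hL1, hL2⟩ := key ((E.image x).sort (· ≤ ·)) (Finset.sortedLT_sort _).pairwise
    (fun a ha => by rwa [Finset.mem_sort] at ha)
  refine ⟨L, ?_, ?_⟩
  · have h1 : (L.map x).Pairwise (· < ·) := by
      rw [hL1]
      exact (Finset.sortedLT_sort _).pairwise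
    rw [List.pairwise_map] at h1
    exact h1
  · intro u
    refine ⟨hL2 u, fun hu => ?_⟩
    have h2 : x u ∈ L.map x := by
      rw [hL1, Finset.mem_sort]
      exact mem_image_of_mem x hu
    rw [List.mem_map] at h2
    obtain ⟨v, hv, hvu⟩ := h2
    have := hx v (hL2 v hv) u hu hvu
    rwa [← this]

lemma sublist_of_pairwise {key : ℝ → ℝ} : ∀ {L l : List ℝ}, L.Pairwise (fun s t => key s < key t) →
    l.Pairwise (fun s t => key s < key t) → (∀ u ∈ l, u ∈ L) → l.Sublist L := by
  intro L
  induction L with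
  | nil =>
    intro l _ _ h
    cases l with
    | nil => exact List.Sublist.refl _
    | cons a l => exact absurd (h a (by simp)) (by simp)
  | cons b L ih =>
    intro l hL hl h
    cases l with
    | nil => exact List.nil_sublist _
    | cons a l =>
      rw [List.pairwise_cons] at hL hl
      have ha := h a (by simp)
      rw [List.mem_cons] at ha
      rcases ha with rfl | ha
      · apply List.Sublist.cons_cons
        apply ih hL.2 hl.2
        intro u hu
        have := h u (by simp [hu])
        rw [List.mem_cons] at this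
        rcases this with rfl | h3
        · exact absurd (hl.1 u hu) (lt_irrefl _)
        · exact h3
      · apply List.Sublist.cons
        apply ih hL.2 (List.pairwise_cons.mpr hl)
        intro u hu
        have h4 := h u hu
        rw [List.mem_cons] at h4
        rcases h4 with rfl | h4
        · exfalso
          have h5 := hL.1 a ha
          rw [List.mem_cons] at hu
          rcases hu with rfl | hu
          · exact lt_irrefl _ h5
          · exact lt_irrefl _ (h5.trans (hl.1 u hu))
        · exact h4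

theorem count_patterns : ∃ A : ℝ, 0 < A ∧ ∀ (m : ℕ) (lp : List ℝ), lp.Nodup → lp ≠ [] →
    lp.length ≤ m →
    (({lq | Realizable m lp lq} : Set (List ℝ)).ncard : ℝ) ≤ (A * m / lp.length) ^ lp.length := by
  classical
  set θ : ℝ := 1 / √(4 / 3) with hθ
  have ht1 : 1 < √(4 / 3 : ℝ) := by
    rw [Real.lt_sqrt (by norm_num)]
    norm_num
  have ht2 : √(4 / 3 : ℝ) ^ 2 = 4 / 3 := Real.sq_sqrt (by norm_num)
  have hθ0 : 0 < θ := by positivity
  have hθ1 : θ < 1 := by
    rw [hθ, div_lt_one (by positivity)]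
    exact ht1
  obtain ⟨K, hK1, hK⟩ := count_final hθ0 hθ1 (C := 400) (by norm_num)
  refine ⟨256 * K * 147456, by positivity, ?_⟩
  intro m lp hnd hne hlen
  set k := lp.length with hk
  have hk0 : 0 < k := List.length_pos_iff.mpr hne
  have hkR : (0 : ℝ) < k := by exact_mod_cast hk0
  have hkm : (k : ℝ) ≤ m := by exact_mod_cast hlen
  have hmR : (0 : ℝ) < m := by linarith
  set ρ : ℝ := m / k with hρ
  have hρ0 : 0 < ρ := by positivity
  have hρ1 : 1 ≤ ρ := by
    rw [hρ, le_div_iff₀ hkR]
    linarith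
  have hρk : ρ * k = m := by
    rw [hρ]
    field_simp
  set μ : ℝ := 2 * k with hμ
  have hμ0 : 0 < μ := by positivity
  -- the last stage
  have hex : ∃ j : ℕ, (3 / 4 : ℝ) ^ j * μ < 147456 * ρ := by
    obtain ⟨j, hj⟩ := exists_pow_lt_of_lt_one (show (0 : ℝ) < 147456 * ρ / μ by positivity)
      (show (3 / 4 : ℝ) < 1 by norm_num)
    refine ⟨j, ?_⟩
    rwa [lt_div_iff₀ hμ0] at hj
  set J := Nat.find hex with hJ
  have hJ1 : (3 / 4 : ℝ) ^ J * μ < 147456 * ρ := Nat.find_spec hex
  have hJ2 : ∀ j < J, 147456 * ρ ≤ (3 / 4) ^ j * μ := by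
    intro j hj
    have := Nat.find_min hex hj
    push Not at this
    exact this
  -- consequences for `J ≥ 1`
  have hJ3 : 1 ≤ J → (4 / 3 : ℝ) ^ (J - 1) * m ≤ (k : ℝ) ^ 2 := by
    intro h
    have h1 := hJ2 (J - 1) (by omega)
    have h2 : (4 / 3 : ℝ) ^ (J - 1) * (3 / 4) ^ (J - 1) = 1 := by
      rw [← mul_pow]
      norm_num
    have h3 : (4 / 3 : ℝ) ^ (J - 1) * (147456 * ρ) ≤ μ := by
      calc (4 / 3 : ℝ) ^ (J - 1) * (147456 * ρ) ≤ (4 / 3 : ℝ) ^ (J - 1) * ((3 / 4) ^ (J - 1) * μ) :=
            mul_le_mul_of_nonneg_left h1 (by positivity)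
        _ = μ := by rw [← mul_assoc, h2, one_mul]
    have h4 : (4 / 3 : ℝ) ^ (J - 1) * (147456 * ρ) * k ≤ μ * k :=
      mul_le_mul_of_nonneg_right h3 hkR.le
    rw [show (4 / 3 : ℝ) ^ (J - 1) * (147456 * ρ) * k = 147456 * ((4 / 3 : ℝ) ^ (J - 1) * (ρ * k)) by
      ring, hρk, hμ] at h4
    have h5 : 0 ≤ (4 / 3 : ℝ) ^ (J - 1) * m := by positivity
    nlinarith
  have hJ4 : J ≤ 4 * k := by
    rcases Nat.eq_zero_or_pos J with h | h
    · omega
    · have h1 := hJ3 h
      have h2 : (4 / 3 : ℝ) ^ (J - 1) ≤ k := by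
        have h3 : (4 / 3 : ℝ) ^ (J - 1) * k ≤ (k : ℝ) * k := by
          calc (4 / 3 : ℝ) ^ (J - 1) * k ≤ (4 / 3 : ℝ) ^ (J - 1) * m :=
                mul_le_mul_of_nonneg_left hkm (by positivity)
            _ ≤ (k : ℝ) ^ 2 := h1
            _ = (k : ℝ) * k := by ring
        exact le_of_mul_le_mul_right h3 hkR
      have h4 : 1 + ((J - 1 : ℕ) : ℝ) * (1 / 3) ≤ (4 / 3 : ℝ) ^ (J - 1) := by
        have := one_add_mul_le_pow (show (-2 : ℝ) ≤ 1 / 3 by norm_num) (J - 1)
        norm_num at this ⊢
        linarith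
      have h5 : ((J - 1 : ℕ) : ℝ) ≤ 3 * k := by linarith
      have h6 : J - 1 ≤ 3 * k := by exact_mod_cast h5
      omega
  have hbr : ∀ j < J, 256 * (√m * √(4 / 3) ^ (j + 1)) ≤ 400 * k * θ ^ (J - j) := by
    intro j hj
    have h1 := hJ3 (by omega)
    have h2 : √m * √(4 / 3) ^ (J - 1) ≤ k := by
      have : (√m * √(4 / 3) ^ (J - 1)) ^ 2 ≤ (k : ℝ) ^ 2 := by
        rw [mul_pow, Real.sq_sqrt hmR.le, ← pow_mul, mul_comm (J - 1) 2, pow_mul, ht2]
        linarith
      exact le_of_sq_le_sq this hkR.le |> id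
    have h3 : √(4 / 3 : ℝ) ^ (j + 1) = √(4 / 3) ^ (J - 1) * √(4 / 3) ^ 2 * θ ^ (J - j) := by
      rw [hθ, one_div, inv_pow, ← div_eq_mul_inv, eq_div_iff (by positivity), ← pow_add, ← pow_add]
      congr 1
      omega
    rw [h3, ht2]
    have h4 : 0 ≤ θ ^ (J - j) := by positivity
    calc 256 * (√m * (√(4 / 3) ^ (J - 1) * (4 / 3) * θ ^ (J - j)))
        = 256 * (4 / 3) * (√m * √(4 / 3) ^ (J - 1)) * θ ^ (J - j) := by ring
      _ ≤ 400 * k * θ ^ (J - j) := by
          apply mul_le_mul_of_nonneg_right _ h4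
          linarith
  -- the pattern set is contained in the counted set
  obtain ⟨hfin, hcard⟩ := hK J (147456 * ρ) lp (by positivity)
  have hsub : ({lq | Realizable m lp lq} : Set (List ℝ)) ⊆
      {lq : List ℝ | lq.Perm lp ∧ ∃ bit : ℕ → ℝ → Bool,
        (∀ j < J, (brk (lp.map (bit j)) : ℝ) ≤ 400 * lp.length * θ ^ (J - j) ∧
          (brk (lq.map (bit j)) : ℝ) ≤ 400 * lp.length * θ ^ (J - j)) ∧
        ∀ α, ((lp.toFinset.filter (fun v => colour bit J v = α)).card : ℝ) ≤ 147456 * ρ} := by
    rintro lq ⟨E, x, up, low, hB, hEm, hlpE, hlp, hperm, hlq⟩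
    refine ⟨hperm, ?_⟩
    set w : ℝ → ℝ := fun v => 1 / ρ + if v ∈ lp.toFinset then 1 else 0 with hw
    have hw1 : ∀ v, 1 / ρ ≤ w v := by
      intro v
      rw [hw]
      simp only
      split_ifs <;> linarith
    have hw0 : ∀ v, 0 ≤ w v := fun v => le_trans (by positivity) (hw1 v)
    have hw2 : ∀ v, w v ≤ 2 := by
      intro v
      rw [hw]
      simp only
      have : 1 / ρ ≤ 1 := by
        rw [div_le_one hρ0]
        exact hρ1
      split_ifs <;> linarith
    have hEmR : (E.card : ℝ) ≤ m := by exact_mod_cast hEm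
    have htot : ∑ v ∈ E, w v ≤ μ := by
      rw [hw, sum_add_distrib, sum_const, nsmul_eq_mul]
      have h1 : (E.card : ℝ) * (1 / ρ) ≤ k := by
        rw [mul_one_div, div_le_iff₀ hρ0]
        linarith [hρk, mul_comm ρ (k : ℝ)]
      have h2 : ∑ v ∈ E, (if v ∈ lp.toFinset then (1 : ℝ) else 0) ≤ k := by
        rw [← sum_filter, sum_const, nsmul_eq_mul, mul_one]
        have : (E.filter (fun v => v ∈ lp.toFinset)).card ≤ lp.toFinset.card := by
          apply card_le_card
          intro v hv
          exact (mem_filter.mp hv).2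
        have h3 := List.toFinset_card_le lp
        exact_mod_cast this.trans h3
      linarith
    obtain ⟨Lt, hLt1, hLt2⟩ := exists_sorted E id (fun s _ t _ h => h)
    obtain ⟨Lx, hLx1, hLx2⟩ := exists_sorted E x hB.inj
    obtain ⟨bit, h1, h2⟩ := stages hB hρ0 hw0 hw1 hw2 htot hEmR hμ0 hLt1 hLx1 hLt2 hLx2 J hJ2
    refine ⟨bit, ?_, ?_⟩
    · intro j hj
      have h3 := h1 (j + 1) (by omega)
      have h4 := hbr j hj
      have hbc : ∀ L : List ℝ, brk (L.map (bit j)) ≤ brk (L.map (colour bit (j + 1))) := by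
        intro L
        apply brk_mono
        intro u v huv h
        exact huv (colour_succ_eq.mp h).2
      have hs1 : lp.Sublist Lt := sublist_of_pairwise (key := id) hLt1 hlp
        fun u hu => (hLt2 u).mpr (hlpE u hu)
      have hs2 : lq.Sublist Lx := sublist_of_pairwise (key := x) hLx1 hlq
        fun u hu => (hLx2 u).mpr (hlpE u (hperm.mem_iff.mp hu))
      constructor
      · calc (brk (lp.map (bit j)) : ℝ) ≤ brk (lp.map (colour bit (j + 1))) := by
              exact_mod_cast hbc lp
          _ ≤ brk (Lt.map (colour bit (j + 1))) := by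
              exact_mod_cast brk_sublist (hs1.map _)
          _ ≤ _ := h3.1.trans h4
      · calc (brk (lq.map (bit j)) : ℝ) ≤ brk (lq.map (colour bit (j + 1))) := by
              exact_mod_cast hbc lq
          _ ≤ brk (Lx.map (colour bit (j + 1))) := by
              exact_mod_cast brk_sublist (hs2.map _)
          _ ≤ _ := h3.2.trans h4
    · intro α
      have h3 : ((lp.toFinset.filter (fun v => colour bit J v = α)).card : ℝ) ≤
          ∑ v ∈ E.filter (fun v => colour bit J v = α), w v := by
        calc ((lp.toFinset.filter (fun v => colour bit J v = α)).card : ℝ)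
            = ∑ v ∈ lp.toFinset.filter (fun v => colour bit J v = α), (1 : ℝ) := by
              rw [sum_const, nsmul_eq_mul, mul_one]
          _ ≤ ∑ v ∈ lp.toFinset.filter (fun v => colour bit J v = α), w v := by
              apply sum_le_sum
              intro v hv
              rw [hw]
              simp only
              rw [if_pos (mem_filter.mp hv).1]
              have : 0 < 1 / ρ := by positivity
              linarith
          _ ≤ _ := by
              apply sum_le_sum_of_subset_of_nonneg _ fun v _ _ => hw0 v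
              intro v hv
              rw [mem_filter, List.mem_toFinset] at hv
              rw [mem_filter]
              exact ⟨hlpE v hv.1, hv.2⟩
      exact h3.trans ((h2 α).trans hJ1.le)
  have h6 := Set.ncard_le_ncard hsub hfin
  calc (({lq | Realizable m lp lq} : Set (List ℝ)).ncard : ℝ)
      ≤ 4 ^ J * (K * (147456 * ρ)) ^ k := le_trans (by exact_mod_cast h6) hcard
    _ ≤ 4 ^ (4 * k) * (K * (147456 * ρ)) ^ k := by
        apply mul_le_mul_of_nonneg_right _ (by positivity)
        exact pow_le_pow_right₀ (by norm_num) hJ4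
    _ = (256 * K * 147456 * m / k) ^ k := by
        rw [pow_mul, ← mul_pow]
        congr 1
        rw [hρ]
        ring

end Pool.Agent.Work.MP_09dd0a_co
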