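import Mathlib
import Pool.Agent.Work.MP_09dd0a_co.Final
import Pool.Agent.Work.MP_09dd0a_co.Stages
import Pool.Agent.Work.MP_09dd0a_co.Geometry

/-!
The upper bound.
-/

namespace Pool.Agent.Work.MP_09dd0a_co

theorem fixGraph_upper : ∃ C : ℝ, 0 < C ∧ ∀ n : ℕ, 3 ≤ n →
    (fixGraph (SimpleGraph.cycleGraph n) : ℝ) ≤ C * (n : ℝ) ^ ((2 : ℝ) / 3) := by
  obtain ⟨A, hA, hC⟩ := count_patterns
  exact fixGraph_upper_of exists_book hA hC

end Pool.Agent.Work.MP_09dd0a_co
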