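import Mathlib
import Pool.Agent.Work.MP_09dd0a_co.Defs
import Pool.Agent.Work.MP_09dd0a_co.LowAsm
import Pool.Agent.Work.MP_09dd0a_co.LowFinal
import Pool.Agent.Work.MP_09dd0a_co.LowSel
import Pool.Agent.Work.MP_09dd0a_co.Upper

set_option autoImplicit false

/-!
# `f(n) = Θ(n^(2/3))`
-/

namespace Pool.Agent.Work.MP_09dd0a_co

theorem exists_selProp : ∃ c > (0 : ℝ), ∃ n0 : ℕ, ∀ n ≥ n0, SelProp c n := by
  obtain ⟨c, hc, n0, h⟩ := Sel.selection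
  refine ⟨c, hc, n0, fun n hn x hx => ?_⟩
  obtain ⟨B, sg, S, s, h1, h2, h3, h4, h5, h6, h7⟩ := h n hn x hx
  exact ⟨B, sg, S, s, h1, h2, h3, h4, h5, h6, fun i hi => ⟨(h7 i hi).1, by
    have := (h7 i hi).2; omega⟩⟩

/-- The lower bound `f(n) = Ω(n^(2/3))`. -/
theorem fixGraph_lower : ∃ c > (0 : ℝ), ∃ n0 : ℕ, ∀ n ≥ n0,
    c * (n : ℝ) ^ ((2 : ℝ) / 3) ≤ fixGraph (SimpleGraph.cycleGraph n) := by
  obtain ⟨c, hc, n0, h⟩ := exists_selProp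
  refine ⟨c, hc, max n0 1, fun n hn => ?_⟩
  refine fixGraph_lower_of fun p hp => ?_
  exact fix_of_sel hc (by have := le_of_max_le_right hn; omega) (h n (le_of_max_le_left hn)) p hp

/-- `f(n) = Θ(n^(2/3))`. -/
theorem fixGraph_theta : ∃ c > (0 : ℝ), ∃ C > (0 : ℝ), ∃ n0 : ℕ, ∀ n ≥ n0,
    c * (n : ℝ) ^ ((2 : ℝ) / 3) ≤ fixGraph (SimpleGraph.cycleGraph n) ∧
      (fixGraph (SimpleGraph.cycleGraph n) : ℝ) ≤ C * (n : ℝ) ^ ((2 : ℝ) / 3) := by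
  obtain ⟨c, hc, n0, h⟩ := fixGraph_lower
  obtain ⟨C, hC, h'⟩ := fixGraph_upper
  exact ⟨c, hc, C, hC, max n0 3, fun n hn => ⟨h n (le_of_max_le_left hn),
    h' n (le_of_max_le_right hn)⟩⟩

end Pool.Agent.Work.MP_09dd0a_co
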